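import Pool.Agent.Lib.MP_3a3d34_lc.Geo

/-!
The faces of the map.
-/

set_option autoImplicit false

namespace Pool.Agent.Lib.MP_3a3d34_lc

open Set

namespace Par

variable (P : Par)

/-- The vertical lines. -/
noncomputable def xl : ℕ → ℝ
  | 0 => -7
  | 1 => -4
  | 2 => 0
  | 3 => P.S
  | k + 4 => 2 * P.S + 2 + k

/-- The horizontal lines. -/
noncomputable def yl : ℕ → ℝ
  | 0 => -P.T - 1
  | k + 1 => P.Y k

theorem xl_mono : StrictMono P.xl := strictMono_nat_of_lt_succ fun k => by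
  have := P.S_ge
  match k with
  | 0 => simp only [xl]; norm_num
  | 1 => simp only [xl]; norm_num
  | 2 => simp only [xl]; linarith
  | 3 => simp only [xl]; push_cast; linarith
  | k + 4 => simp only [xl]; push_cast; linarith

/-- The open box with column `j` and row `r`. -/
def obox (j r : ℕ) : Set Pt := Ioo (P.xl j) (P.xl (j + 1)) ×ˢ Ioo (P.yl r) (P.yl (r + 1))

/-- The face with column `j` and row `r`. -/
def cell (j r : ℕ) : Set Pt := P.Om ∩ P.obox j r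

/-- `z` lies in the closed box with column `j` and row `r`. -/
structure Bx (j r : ℕ) (z : Pt) : Prop where
  hj : j ≤ 3
  hr : r ≤ 2 * P.n + 1
  x0 : P.xl j ≤ z.1
  x1 : z.1 ≤ P.xl (j + 1)
  y0 : P.yl r ≤ z.2
  y1 : z.2 ≤ P.yl (r + 1)

theorem mem_seg_v {c a b : ℤ} {v : Bool} {p : Pt} :
    p ∈ seg (cr true c a b v) ↔ p.1 = c ∧ (a : ℝ) ≤ p.2 ∧ p.2 ≤ b := by simp [seg, cr]

theorem mem_seg_h {c a b : ℤ} {v : Bool} {p : Pt} :
    p ∈ seg (cr false c a b v) ↔ p.2 = c ∧ (a : ℝ) ≤ p.1 ∧ p.1 ≤ b := by simp [seg, cr, and_comm]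

theorem mem_oseg_v {c a b : ℤ} {v : Bool} {p : Pt} :
    p ∈ oseg (cr true c a b v) ↔ p.1 = c ∧ (a : ℝ) < p.2 ∧ p.2 < b := by simp [oseg, cr]

theorem mem_oseg_h {c a b : ℤ} {v : Bool} {p : Pt} :
    p ∈ oseg (cr false c a b v) ↔ p.2 = c ∧ (a : ℝ) < p.1 ∧ p.1 < b := by
  simp [oseg, cr, and_comm]

theorem forall_creases {Q : Crease → Prop} : (∀ e ∈ P.map.2, Q e) ↔
    Q (cr true (-4) (-(P.T : ℤ) - 1) 0 true) ∧ Q (cr true (-4) 0 1 true) ∧
    Q (cr true 0 (-1) 0 true) ∧ Q (cr true 0 0 1 false) ∧ Q (cr true P.S (-1) 0 true) ∧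
    Q (cr true P.S 0 1 true) ∧ Q (cr false 0 (-5) (-4) false) ∧ Q (cr false 0 (-4) 0 true) ∧
    Q (cr false 0 0 P.S true) ∧ Q (cr false 0 P.S ((P.S + 2 : ℕ) : ℤ) false) ∧
    ∀ k < 2 * P.n, Q (cr false (P.Y (k + 1)) ((P.S + k + 1 : ℕ) : ℤ) ((P.S + k + 2 : ℕ) : ℤ)
      (decide (k % 2 = 1))) := by
  simp only [map, creases, List.cons_append, List.nil_append, List.forall_mem_cons,
    List.forall_mem_map, List.mem_range]

variable {P}

theorem yl_mono (h : P.Pos) : StrictMono P.yl := strictMono_nat_of_lt_succ fun k => by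
  match k with
  | 0 => simp only [yl, Y_zero]; push_cast; linarith [(Nat.cast_nonneg P.T : (0 : ℝ) ≤ _)]
  | k + 1 => exact Y_lt h (by omega)

theorem on_crease (h : P.Pos) {z : Pt} (hz : z ∈ P.Om) : (∃ e ∈ P.map.2, z ∈ seg e) ↔
    (∃ j < 3, z.1 = P.xl (j + 1)) ∨ ∃ r ≤ 2 * P.n, z.2 = P.yl (r + 1) := by
  obtain ⟨x, y⟩ := z
  constructor
  · rintro ⟨e, he, hz⟩
    revert e
    rw [P.forall_creases (Q := fun e => (x, y) ∈ seg e → _)]
    simp only [mem_seg_v, mem_seg_h]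
    refine ⟨fun h => Or.inl ⟨0, by omega, by simp [xl, h.1]⟩,
      fun h => Or.inl ⟨0, by omega, by simp [xl, h.1]⟩,
      fun h => Or.inl ⟨1, by omega, by simp [xl, h.1]⟩,
      fun h => Or.inl ⟨1, by omega, by simp [xl, h.1]⟩,
      fun h => Or.inl ⟨2, by omega, by simp [xl, h.1]⟩,
      fun h => Or.inl ⟨2, by omega, by simp [xl, h.1]⟩,
      fun h => Or.inr ⟨0, by omega, by simp [yl, h.1, Y_zero]⟩,
      fun h => Or.inr ⟨0, by omega, by simp [yl, h.1, Y_zero]⟩,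
      fun h => Or.inr ⟨0, by omega, by simp [yl, h.1, Y_zero]⟩,
      fun h => Or.inr ⟨0, by omega, by simp [yl, h.1, Y_zero]⟩,
      fun k hk h => Or.inr ⟨k + 1, by omega, by simp [yl, h.1]⟩⟩
  · intro hc
    by_contra hn
    push Not at hn
    rw [P.forall_creases (Q := fun e => (x, y) ∉ seg e)] at hn
    simp only [mem_seg_v, mem_seg_h] at hn
    push_cast at hn
    obtain ⟨n1, n2, n3, n4, n5, n6, n7, n8, n9, n10, n11⟩ := hn
    have hS := P.S_ge
    have hb := Om_bd h hz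
    rcases hc with ⟨j, hj, e⟩ | ⟨r, hr, e⟩
    · have hl := fun hx => (Om_left hz hx).1
      have hr := Om_right hz
      rcases le_total y 0 with hy | hy <;> interval_cases j <;> simp only [xl] at e
      · exact n1 ⟨e, hb.2.2.1.le, hy⟩
      · exact n3 ⟨e, (hr e.ge).le, hy⟩
      · exact n5 ⟨e, (hr (by linarith)).le, hy⟩
      · exact n2 ⟨e, hy, (hl (by linarith)).le⟩
      · exact n4 ⟨e, hy, (hl (by linarith)).le⟩
      · exact n6 ⟨e, hy, (hl e.le).le⟩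
    · simp only [yl] at e
      cases r with
      | zero =>
        rw [Y_zero, Nat.cast_zero] at e
        have h2 := Om_hi h hz (k := 0) (e ▸ Nat.cast_nonneg _)
          (by linarith [P.ρ_ge, P.ρ_le])
        rcases le_total x (-4) with h3 | h3
        · exact n7 ⟨e, ((Om_left hz (by linarith)).2 e.ge).le, h3⟩
        rcases le_total x 0 with h4 | h4
        · exact n8 ⟨e, h3, h4⟩
        rcases le_total x P.S with h5 | h5
        · exact n9 ⟨e, h4, h5⟩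
        · exact n10 ⟨e, h5, by push_cast at h2; linarith⟩
      | succ k =>
        exact n11 k hr ⟨e, (Om_lo h hz e.ge).le, (Om_hi h hz e.le (by
          linarith [P.Y_last, Y_le h hr])).le⟩

theorem mem_faces (h : P.Pos) {z : Pt} : z ∈ faces P.map ↔ z ∈ P.Om ∧
    (∀ j < 3, z.1 ≠ P.xl (j + 1)) ∧ ∀ r ≤ 2 * P.n, z.2 ≠ P.yl (r + 1) := by
  simp only [faces, interior_paper, mem_sdiff, mem_iUnion, exists_prop]
  refine and_congr_right fun hz => ?_
  rw [on_crease h hz]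
  simp [not_or]

theorem idx {f : ℕ → ℝ} {x : ℝ} : ∀ N : ℕ, f 0 ≤ x → x ≤ f (N + 1) →
    ∃ j ≤ N, f j ≤ x ∧ x ≤ f (j + 1)
  | 0, h0, h1 => ⟨0, le_rfl, h0, h1⟩
  | N + 1, h0, h1 => by
    rcases le_total x (f (N + 1)) with h | h
    · obtain ⟨j, hj, h⟩ := idx N h0 h
      exact ⟨j, by omega, h⟩
    · exact ⟨N + 1, le_rfl, h, h1⟩

theorem adj {f : ℕ → ℝ} (hf : StrictMono f) {x : ℝ} {j k : ℕ} (h1 : x ≤ f (j + 1))
    (h2 : f k ≤ x) (h : j < k) : k = j + 1 ∧ x = f (j + 1) := by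
  have := hf.le_iff_le.1 (h2.trans h1)
  obtain rfl : k = j + 1 := by omega
  exact ⟨rfl, le_antisymm h1 h2⟩

theorem exists_bx (h : P.Pos) {z : Pt} (hz : z ∈ P.Om) : ∃ j r, P.Bx j r z := by
  obtain ⟨b1, b2, b3, b4⟩ := Om_bd h (x := z.1) (y := z.2) hz
  obtain ⟨j, hj, h1⟩ := idx (f := P.xl) 3 b1.le (by simpa [xl] using b2.le)
  obtain ⟨r, hr, h2⟩ := idx (f := P.yl) (2 * P.n + 1) b3.le b4.le
  exact ⟨j, r, hj, hr, h1.1, h1.2, h2.1, h2.2⟩

theorem bx_of_cell (h : P.Pos) {j r : ℕ} {z : Pt} (hz : z ∈ P.cell j r) : P.Bx j r z := by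
  obtain ⟨b1, b2, b3, b4⟩ := Om_bd h (x := z.1) (y := z.2) hz.1
  obtain ⟨-, ⟨c1, c2⟩, c3, c4⟩ := hz
  have h1 : j < 4 := P.xl_mono.lt_iff_lt.1 (by simpa [xl] using c1.trans b2)
  have h2 : r < 2 * P.n + 2 := (yl_mono h).lt_iff_lt.1 (c3.trans b4)
  exact ⟨by omega, by omega, c1.le, c2.le, c3.le, c4.le⟩

theorem cell_sub (h : P.Pos) {j r : ℕ} : P.cell j r ⊆ faces P.map := by
  rintro z ⟨hz, ⟨c1, c2⟩, c3, c4⟩
  refine (mem_faces h).2 ⟨hz, fun i _ e => ?_, fun i _ e => ?_⟩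
  · rw [e] at c1 c2
    have := P.xl_mono.lt_iff_lt.1 c1
    have := P.xl_mono.lt_iff_lt.1 c2
    omega
  · rw [e] at c3 c4
    have := (yl_mono h).lt_iff_lt.1 c3
    have := (yl_mono h).lt_iff_lt.1 c4
    omega

theorem cell_of_bx (h : P.Pos) {j r : ℕ} {z : Pt} (hz : z ∈ faces P.map) (b : P.Bx j r z) :
    z ∈ P.cell j r := by
  obtain ⟨h0, h1, h2⟩ := (mem_faces h).1 hz
  obtain ⟨b1, b2, b3, b4⟩ := Om_bd h (x := z.1) (y := z.2) h0
  refine ⟨h0, ⟨b.x0.lt_of_ne fun e => ?_, b.x1.lt_of_ne fun e => ?_⟩, b.y0.lt_of_ne fun e => ?_,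
    b.y1.lt_of_ne fun e => ?_⟩
  · cases j with
    | zero => simp only [xl] at e; linarith
    | succ j => exact h1 j (by have := b.hj; omega) e.symm
  · rcases b.hj.lt_or_eq with hj | rfl
    · exact h1 j hj e
    · simp only [xl] at e; push_cast at e; linarith
  · cases r with
    | zero => simp only [yl] at e; linarith
    | succ r => exact h2 r (by have := b.hr; omega) e.symm
  · rcases b.hr.lt_or_eq with hr | rfl
    · exact h2 r (by omega) e
    · exact b4.ne e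

theorem exists_cell (h : P.Pos) {z : Pt} (hz : z ∈ faces P.map) : ∃ j r, z ∈ P.cell j r := by
  obtain ⟨j, r, b⟩ := exists_bx h ((mem_faces h).1 hz).1
  exact ⟨j, r, cell_of_bx h hz b⟩

theorem mem_closure_cell (h : P.Pos) {j r : ℕ} {z : Pt} (hz : z ∈ P.Om) (b : P.Bx j r z) :
    z ∈ closure (P.cell j r) := by
  refine P.isOpen_Om.inter_closure ⟨hz, ?_⟩
  rw [obox, closure_prod_eq, closure_Ioo (P.xl_mono (by omega)).ne,
    closure_Ioo (yl_mono h (by omega)).ne]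
  exact ⟨⟨b.x0, b.x1⟩, b.y0, b.y1⟩

theorem bx_of_closure (h : P.Pos) {W : Set Pt} (hW : W ⊆ faces P.map) {z : Pt}
    (hz : z ∈ closure W) : ∃ j r, P.Bx j r z ∧ ∃ p ∈ W, p ∈ P.cell j r := by
  have e : W = ⋃ i ∈ (Finset.range 4 ×ˢ Finset.range (2 * P.n + 2)), W ∩ P.cell i.1 i.2 := by
    refine Subset.antisymm (fun p hp => ?_) (iUnion₂_subset fun _ _ => inter_subset_left)
    obtain ⟨j, r, hc⟩ := exists_cell h (hW hp)
    have b := bx_of_cell h hc
    have := b.hj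
    have := b.hr
    exact mem_iUnion₂.2 ⟨(j, r), by simp; omega, hp, hc⟩
  rw [e, Finset.closure_biUnion] at hz
  obtain ⟨⟨j, r⟩, -, hz⟩ := mem_iUnion₂.1 hz
  obtain ⟨p, hp⟩ := closure_nonempty_iff.1 ⟨z, hz⟩
  have b := bx_of_cell h hp.2
  have h2 : z ∈ closure (P.obox j r) := closure_mono (fun _ h => h.2.2) hz
  rw [obox, closure_prod_eq, closure_Ioo (P.xl_mono (by omega)).ne,
    closure_Ioo (yl_mono h (by omega)).ne] at h2
  exact ⟨j, r, ⟨b.hj, b.hr, h2.1.1, h2.1.2, h2.2.1, h2.2.2⟩, p, hp.1, hp.2⟩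

theorem closure_iff (h : P.Pos) {W : Set Pt} (hW : W ⊆ faces P.map) {d : ℕ → ℕ → Prop}
    (hd : ∀ j r, ∀ p ∈ P.cell j r, p ∈ W ↔ d j r) {z : Pt} (hz : z ∈ P.Om) :
    z ∈ closure W ↔ ∃ j r, P.Bx j r z ∧ d j r := by
  constructor
  · intro hc
    obtain ⟨j, r, b, p, h1, h2⟩ := bx_of_closure h hW hc
    exact ⟨j, r, b, (hd j r p h2).1 h1⟩
  · rintro ⟨j, r, b, h1⟩
    exact closure_mono (fun p hp => (hd j r p hp).2 h1) (mem_closure_cell h hz b)

theorem hinge_iff (h : P.Pos) {F : Fold} (hW : F.U ⊆ faces P.map) {d : ℕ → ℕ → Prop}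
    (hd : ∀ j r, ∀ p ∈ P.cell j r, p ∈ F.U ↔ d j r) {z : Pt} :
    z ∈ F.hinge P.map ↔ z ∈ P.Om ∧ (∃ j r, P.Bx j r z ∧ d j r) ∧ ∃ j r, P.Bx j r z ∧ ¬ d j r := by
  rw [Fold.hinge, interior_paper, mem_inter_iff, mem_inter_iff, and_assoc]
  refine and_congr_right fun hz => and_congr (closure_iff h hW hd hz)
    (closure_iff h sdiff_subset (fun j r p hp => ?_) hz)
  rw [mem_sdiff, hd j r p hp]
  exact and_iff_right (cell_sub h hp)

theorem rect_conn (a b c d : ℝ) : IsPreconnected (Ioo a b ×ˢ Ioo c d : Set Pt) :=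
  isPreconnected_Ioo.prod isPreconnected_Ioo

theorem cell_conn (h : P.Pos) (j r : ℕ) : IsPreconnected (P.cell j r) := by
  have hS := P.S_ge
  have hρ := P.ρ_ge
  have hρ' := P.ρ_le
  have hB := P.B_ge
  rcases eq_empty_or_nonempty (P.cell j r) with e | ⟨z, hz⟩
  · rw [e]; exact isPreconnected_empty
  have b := bx_of_cell h hz
  have hj := b.hj
  have hr := b.hr
  clear b
  cases r with
  | zero =>
    interval_cases j
    · have e : P.cell 0 0 = Ioo (-7) (-4) ×ˢ Ioo (-(P.T : ℝ) - 1) (-P.ρ) ∪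
          Ioo (-5) (-4) ×ˢ Ioo (-(P.T : ℝ) - 1) 0 := by
        ext ⟨x, y⟩
        simp only [cell, obox, xl, yl, Y_zero, Nat.cast_zero, mem_inter_iff, mem_prod, mem_Ioo,
          mem_union]
        constructor
        · rintro ⟨h1, h2, h3⟩
          rcases ((Om_neg h3.2.le).1 h1).1 with h4 | h4
          · exact Or.inl ⟨h2, h3.1, h4.2⟩
          · exact Or.inr ⟨⟨h4, h2.2⟩, h3⟩
        · rintro (⟨h1, h2⟩ | ⟨h1, h2⟩)
          · exact ⟨(Om_neg (by linarith)).2 ⟨Or.inl ⟨h1.1, h2.2⟩, Or.inl ⟨by linarith, h2.1⟩⟩, h1,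
              h2.1, by linarith⟩
          · exact ⟨(Om_neg h2.2.le).2 ⟨Or.inr h1.1, Or.inl ⟨by linarith, h2.1⟩⟩,
              ⟨by linarith, h1.2⟩, h2⟩
      rw [e]
      exact IsPreconnected.union ((-9 / 2, -P.T - 1 / 2) : Pt)
        ⟨⟨by norm_num, by norm_num⟩, by simp only; linarith, by simp only; linarith⟩
        ⟨⟨by norm_num, by norm_num⟩, by simp only; linarith, by simp only; linarith⟩ (rect_conn _ _ _ _) (rect_conn _ _ _ _)
    · have e : P.cell 1 0 = Ioo (-4) (-3) ×ˢ Ioo (-(P.T : ℝ) - 1) 0 ∪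
          Ioo (-4) 0 ×ˢ Ioo (-P.ρ + 1) 0 := by
        ext ⟨x, y⟩
        simp only [cell, obox, xl, yl, Y_zero, Nat.cast_zero, mem_inter_iff, mem_prod, mem_Ioo,
          mem_union]
        constructor
        · rintro ⟨h1, h2, h3⟩
          rcases ((Om_neg h3.2.le).1 h1).2 with h4 | h4 | h4
          · exact Or.inl ⟨⟨h2.1, h4.1⟩, h3⟩
          · exact Or.inr ⟨h2, h4.2, h3.2⟩
          · exact Or.inr ⟨h2, by linarith, h3.2⟩
        · rintro (⟨h1, h2⟩ | ⟨h1, h2⟩)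
          · exact ⟨(Om_neg h2.2.le).2 ⟨Or.inr (by linarith), Or.inl ⟨h1.2, h2.1⟩⟩,
              ⟨h1.1, by linarith⟩, h2⟩
          · exact ⟨(Om_neg h2.2.le).2 ⟨Or.inr (by linarith), Or.inr (Or.inl ⟨h1.2, h2.1⟩)⟩, h1,
              by linarith, h2.2⟩
      rw [e]
      exact IsPreconnected.union ((-7 / 2, -1 / 2) : Pt)
        ⟨⟨by norm_num, by norm_num⟩, by simp only; linarith, by norm_num⟩
        ⟨⟨by norm_num, by norm_num⟩, by simp only; linarith, by norm_num⟩ (rect_conn _ _ _ _) (rect_conn _ _ _ _)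
    · have e : P.cell 2 0 = Ioo 0 (P.S : ℝ) ×ˢ Ioo (-1) 0 := by
        ext ⟨x, y⟩
        simp only [cell, obox, xl, yl, Y_zero, Nat.cast_zero, mem_inter_iff, mem_prod, mem_Ioo]
        exact ⟨fun ⟨h1, h2, h3⟩ => ⟨h2, Om_right h1 h2.1.le, h3.2⟩, fun ⟨h1, h2⟩ =>
          ⟨mem_mid (by linarith) (by linarith) h2.1 (by linarith), h1, by linarith, h2.2⟩⟩
      rw [e]; exact rect_conn _ _ _ _
    · have e : P.cell 3 0 = Ioo (P.S : ℝ) (P.S + 2) ×ˢ Ioo (-1) 0 := by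
        ext ⟨x, y⟩
        simp only [cell, obox, xl, yl, Y_zero, Nat.cast_zero, mem_inter_iff, mem_prod, mem_Ioo]
        exact ⟨fun ⟨h1, h2, h3⟩ => ⟨⟨h2.1, by
          simpa using Om_hi h h1 (k := 0) (h3.2.le.trans (Nat.cast_nonneg _)) (by linarith)⟩,
          Om_right h1 (by linarith), h3.2⟩, fun ⟨h1, h2⟩ =>
          ⟨mem_mid (by linarith) h1.2 h2.1 (by linarith), ⟨h1.1, by linarith⟩, by linarith, h2.2⟩⟩
      rw [e]; exact rect_conn _ _ _ _
  | succ k =>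
    rcases hj.lt_or_eq with hj | rfl
    · have hx : P.xl (j + 1) ≤ P.S := P.xl_mono.monotone (show j + 1 ≤ 3 from hj)
      obtain rfl : k = 0 := by
        by_contra hk
        obtain ⟨k, rfl⟩ := Nat.exists_eq_succ_of_ne_zero hk
        have := Om_lo h (x := z.1) (y := z.2) hz.1 hz.2.2.1.le
        linarith [hz.2.1.2, (Nat.cast_nonneg k : (0 : ℝ) ≤ _)]
      have e : P.cell j (0 + 1) = Ioo (max (-5) (P.xl j)) (P.xl (j + 1)) ×ˢ Ioo 0 1 := by
        ext ⟨x, y⟩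
        simp only [cell, obox, yl, Y_zero, Nat.cast_zero, mem_inter_iff, mem_prod, mem_Ioo,
          max_lt_iff, Y_one]
        exact ⟨fun ⟨h1, h2, h3⟩ => ⟨⟨⟨(Om_left h1 (by linarith)).2 h3.1.le, h2.1⟩, h2.2⟩, h3.1,
          (Om_left h1 (by linarith)).1⟩, fun ⟨h1, h2⟩ =>
          ⟨mem_mid h1.1.1 (by linarith) (by linarith) h2.2, ⟨h1.1.2, h1.2⟩, h2.1, by linarith⟩⟩
      rw [e]; exact rect_conn _ _ _ _
    · have hk : k ≤ 2 * P.n := by omega
      have hk' : (k : ℝ) ≤ 2 * P.n := by exact_mod_cast hk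
      have eS := P.S_eq
      have hlo : ∀ x y : ℝ, (x, y) ∈ P.Om → P.S < x → P.Y k < y → P.S + k < x := by
        intro x y h1 h2 h3
        cases k with
        | zero => simpa using h2
        | succ k => have := Om_lo h h1 h3.le; push_cast; linarith
      rcases hk.lt_or_eq with hk | rfl
      · have e : P.cell 3 (k + 1) =
            Ioo (P.S + k : ℝ) (P.S + k + 2) ×ˢ Ioo (P.Y k : ℝ) (P.Y (k + 1)) := by
          ext ⟨x, y⟩
          simp only [cell, obox, xl, yl, Nat.cast_zero, mem_inter_iff, mem_prod, mem_Ioo]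
          exact ⟨fun ⟨h1, h2, h3⟩ => ⟨⟨hlo x y h1 h2.1 h3.1, Om_hi h h1 h3.2.le (by
            linarith [P.Y_last, Y_le h (show k + 1 ≤ 2 * P.n from hk)])⟩, h3⟩, fun ⟨h1, h2⟩ =>
            ⟨mem_rod hk.le h1.1 h1.2 h2.1 h2.2, ⟨by linarith [(Nat.cast_nonneg k : (0 : ℝ) ≤ _)],
              by linarith⟩, h2⟩⟩
        rw [e]; exact rect_conn _ _ _ _
      · have hl := P.Y_last
        have e : P.cell 3 (2 * P.n + 1) =
            Ioo (P.S + 2 * P.n : ℝ) (P.S + 2 * P.n + 2) ×ˢ Ioo (P.Y (2 * P.n) : ℝ) P.T ∪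
            Ioo (P.S + 2 * P.n : ℝ) (2 * P.S + 2) ×ˢ Ioo (P.T - 1 : ℝ) P.T := by
          ext ⟨x, y⟩
          simp only [cell, obox, xl, yl, Nat.cast_zero, mem_inter_iff, mem_prod, mem_Ioo, mem_union,
            add_zero]
          push_cast at hlo
          constructor
          · rintro ⟨h1, h2, h3⟩
            rcases le_or_gt y (P.T - 1) with h4 | h4
            · exact Or.inl ⟨⟨hlo x y h1 h2.1 h3.1, by
                simpa using Om_hi h h1 (k := 2 * P.n) h3.2.le h4⟩, h3⟩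
            · exact Or.inr ⟨⟨hlo x y h1 h2.1 h3.1, h2.2⟩, h4, h3.2⟩
          · rintro (⟨h1, h2⟩ | ⟨h1, h2⟩)
            · exact ⟨mem_rod le_rfl (by push_cast; exact h1.1) (by push_cast; exact h1.2) h2.1 h2.2,
                ⟨by linarith, by linarith⟩, h2⟩
            · exact ⟨mem_bar h1.1 h1.2 h2.1 h2.2, ⟨by linarith, h1.2⟩, by linarith, h2.2⟩
        rw [e]
        exact IsPreconnected.union ((P.S + 2 * P.n + 1, P.T - 1 / 2) : Pt)
          ⟨⟨by simp, by simp only; linarith⟩, by simp only; linarith, by simp only; linarith⟩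
          ⟨⟨by simp, by simp only; linarith⟩, by simp only; linarith, by simp only; linarith⟩
          (rect_conn _ _ _ _) (rect_conn _ _ _ _)

end Par

end Pool.Agent.Lib.MP_3a3d34_lc
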