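import Pool.Agent.Lib.MP_3a3d34_lc.No

/-!
If the subset sum instance is solvable, then the map can be folded.
-/

set_option autoImplicit false

namespace Pool.Agent.Lib.MP_3a3d34_lc

open Set

theorem over_iff {F : Fold} {σ : State} {p : Pt} (h : 0 ≤ F.side (σ.pos p)) :
    F.over σ p ↔ F.top := by
  simp [Fold.over, h]

theorem closure_over {F : Fold} {σ : State} (h : ∀ p ∈ F.U, 0 ≤ F.side (σ.pos p)) {z : Pt}
    (hz : z ∈ closure F.U) : z ∈ closure {p ∈ F.U | F.over σ p} ↔ F.top := by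
  refine ⟨fun hc => ?_, fun ht => closure_mono (fun p hp => ?_) hz⟩
  · obtain ⟨p, hp⟩ := closure_nonempty_iff.1 ⟨z, hc⟩
    exact (over_iff (h p hp.1)).1 hp.2
  · exact ⟨hp, (over_iff (h p hp)).2 ht⟩

theorem Foldable.mono {all two : Bool} {M : PMap} (h : Foldable all false M) :
    Foldable all two M := by
  obtain ⟨σ, h1, h2⟩ := h
  refine ⟨σ, Relation.ReflTransGen.mono ?_ _ _ h1, h2⟩
  rintro _ _ ⟨F, hL, rfl⟩
  exact ⟨F, ⟨hL.unit, hL.sub, hL.ne, hL.axis, hL.assign, fun _ => hL.oneSide rfl, hL.free,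
    hL.layers⟩, rfl⟩

namespace Par

variable {P : Par} {σ : State} {α γ β δ : ℕ → ℝ}

theorem step_h (h : P.Pos) (all : Bool) (hI : P.Inv σ α γ β δ) {r : ℕ} (hr : r ≤ 2 * P.n)
    (hβ : β r = β (r + 1)) (top : Prop)
    (hmv : ∀ j ≤ 3, r = 0 ∨ j = 3 → (valH j r ↔ (α j = β r ↔ top)))
    (hside : ∀ k, r ≤ k → k ≤ 2 * P.n → ∀ y : ℝ, P.Y k ≤ y → y ≤ P.Y (k + 1) →
      0 ≤ β (r + 1) * (β (k + 1) * y + δ (k + 1) - (β (r + 1) * P.Y r + δ (r + 1))))
    (hfree : ∀ p ∈ faces P.map, ∀ q ∈ faces P.map, P.Y r < p.2 → q.2 < P.Y r → σ.pos p = σ.pos q →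
      (top → σ.above p q) ∧ (¬ top → σ.above q p))
    (hall : ∀ z ∈ P.Om, ∀ w ∈ P.Om, z.2 = P.Y r → σ.pos w = σ.pos z → w.2 = P.Y r) :
    ∃ F, Legal all false P.map σ F ∧ F.U = {p ∈ faces P.map | P.Y r < p.2} ∧ F.top = top ∧
      ∃ δ', P.Inv (σ.fold P.map F) α γ (fun k => if r < k then -β k else β k) δ' := by
  let F : Fold := ⟨(0, β (r + 1)), β (r + 1) * (β (r + 1) * P.Y r + δ (r + 1)),
    {p ∈ faces P.map | P.Y r < p.2}, top⟩
  have hW : F.U ⊆ faces P.map := fun p hp => hp.1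
  have hd : ∀ j k, ∀ p ∈ P.cell j k, p ∈ F.U ↔ r < k := by
    intro j k p hp
    refine (and_iff_right (cell_sub h hp)).trans ⟨fun h1 => ?_, fun h1 => ?_⟩
    · have := (yl_mono h).lt_iff_lt.1 (show P.yl (r + 1) < _ from h1.trans hp.2.2.2)
      omega
    · exact ((yl_mono h).monotone (show r + 1 ≤ k from h1)).trans_lt hp.2.2.1
  have hh : ∀ z, z ∈ F.hinge P.map ↔ z ∈ P.Om ∧ z.2 = P.Y r := by
    intro z
    rw [hinge_h h hW hd]
    refine and_congr_right fun _ => ⟨?_, fun e => ⟨r, hr, e, by omega⟩⟩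
    rintro ⟨k, -, e, hk⟩
    obtain rfl : k = r := by omega
    exact e
  have h1 : F.n.2 ^ 2 = 1 := by rcases hI.sb (r + 1) with e | e <;> simp [F, e]
  have hax : ∀ z ∈ F.hinge P.map, F.side (σ.pos z) = 0 := by
    intro z hz
    obtain ⟨hz, e⟩ := (hh z).1 hz
    obtain ⟨j, k, b⟩ := exists_bx h hz
    rw [hI.pos z hz j (r + 1) ⟨b.hj, by omega, b.x0, b.x1, e.ge,
      e ▸ (yl_mono h (Nat.lt_succ_self (r + 1))).le⟩]
    simp [F, Fold.side, e]
  have hos : ∀ p ∈ F.U, 0 ≤ F.side (σ.pos p) := fun p hp => by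
    obtain ⟨j, k, hc⟩ := exists_cell h hp.1
    have b := bx_of_cell h hc
    obtain ⟨k, rfl⟩ : ∃ i, k = i + 1 := ⟨k - 1, by have := (hd j k p hc).1 hp; omega⟩
    have := hside k (by have := (hd _ _ p hc).1 hp; omega) (by have := b.hr; omega) p.2 b.y0 b.y1
    rw [hI.pos p hc.1 _ _ b]
    simp only [F, Fold.side]
    linarith
  refine ⟨F, ⟨by simpa [F] using h1, hW, ⟨_, (hh _).2 ⟨(hpt h le_rfl hr (Or.inr rfl) one_half_pos
    one_half_lt_one).1, rfl⟩⟩, fun z hz => ⟨hax z hz, (on_crease h ((hh z).1 hz).1).2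
      (Or.inr ⟨r, hr, ((hh z).1 hz).2⟩)⟩, fun e he z hz => ?_, fun _ => hos,
    fun p hp q hq e => ?_, fun _ z hz w hw e => ?_⟩, rfl, rfl, _,
      inv_h h hI hW hd h1 rfl hax (fun k _ hk => by
        obtain rfl : k = r := by omega
        exact hβ)⟩
  · obtain ⟨hz1, e1⟩ := (hh z).1 hz.1
    rcases oseg_cases e he z hz.2 with ⟨j, -, k, -, -, a1, a2, -⟩ | ⟨j, hj, k, hk, hjk, a1, a2, a3, a4⟩
    · rw [e1] at a1 a2
      have := (yl_mono h).lt_iff_lt.1 (show _ < P.yl (r + 1) from a1)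
      have := (yl_mono h).lt_iff_lt.1 (show P.yl (r + 1) < _ from a2)
      omega
    · obtain rfl : k = r := by
        have := (yl_mono h).injective (show _ = P.yl (r + 1) from a1.symm.trans e1)
        omega
      have a5 := (hI.not_folded_h h hz1 hk a1 a2 a3).2 hβ
      refine ⟨a5, ?_⟩
      rw [a4, hI.up z hz1 a5 j k ⟨hj, by omega, a2.le, a3.le,
        a1 ▸ (yl_mono h (Nat.lt_succ_self k)).le, a1.le⟩, closure_over hos hz.1.1.2]
      exact hmv j hj hjk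
  · rw [over_iff (hos p hp)]
    refine hfree p hp.1 q hq.1 hp.2 (lt_of_le_of_ne (not_lt.1 fun hh => hq.2 ⟨hq.1, hh⟩) ?_) e
    exact ((mem_faces h).1 hq.1).2.2 r hr
  · have hw' : w ∈ P.Om := P.interior_paper ▸ hw.1
    exact (hh w).2 ⟨hw', hall z ((hh z).1 hz.1).1 w hw' ((hh z).1 hz.1).2 e⟩

theorem step_v (h : P.Pos) (all : Bool) (hI : P.Inv σ α γ β δ) {j : ℕ} (hj : j < 3)
    (hα : α j = α (j + 1)) (top : Prop) (hmv : ∀ r ≤ 1, (valV j r ↔ (α j = β r ↔ top)))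
    (hside : ∀ i ≤ j, ∀ x : ℝ, P.xl i ≤ x → x ≤ P.xl (i + 1) →
      0 ≤ -α j * (α i * x + γ i - (α j * P.xl (j + 1) + γ j)))
    (hfree : ∀ p ∈ P.Om, ∀ q ∈ P.Om, p.1 < P.xl (j + 1) → P.xl (j + 1) < q.1 → σ.pos p ≠ σ.pos q)
    (hall : ∀ z ∈ P.Om, ∀ w ∈ P.Om, z.1 = P.xl (j + 1) → σ.pos w = σ.pos z → w.1 = P.xl (j + 1)) :
    ∃ F, Legal all false P.map σ F ∧ F.U = {p ∈ faces P.map | p.1 < P.xl (j + 1)} ∧ F.top = top ∧
      ∃ γ', P.Inv (σ.fold P.map F) (fun i => if i ≤ j then -α i else α i) γ' β δ := by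
  let F : Fold := ⟨(-α j, 0), -α j * (α j * P.xl (j + 1) + γ j),
    {p ∈ faces P.map | p.1 < P.xl (j + 1)}, top⟩
  have hW : F.U ⊆ faces P.map := fun p hp => hp.1
  have hd : ∀ i k, ∀ p ∈ P.cell i k, p ∈ F.U ↔ i ≤ j := by
    intro i k p hp
    refine (and_iff_right (cell_sub h hp)).trans ⟨fun h1 => ?_, fun h1 => ?_⟩
    · have := P.xl_mono.lt_iff_lt.1 (hp.2.1.1.trans h1)
      omega
    · exact hp.2.1.2.trans_le (P.xl_mono.monotone (by omega))
  have hh : ∀ z, z ∈ F.hinge P.map ↔ z ∈ P.Om ∧ z.1 = P.xl (j + 1) := by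
    intro z
    rw [hinge_v h hW hd]
    refine and_congr_right fun _ => ⟨?_, fun e => ⟨j, hj, e, by omega⟩⟩
    rintro ⟨k, -, e, hk⟩
    obtain rfl : k = j := by omega
    exact e
  have h1 : F.n.1 ^ 2 = 1 := by rcases hI.sa j with e | e <;> simp [F, e]
  have hax : ∀ z ∈ F.hinge P.map, F.side (σ.pos z) = 0 := by
    intro z hz
    obtain ⟨hz, e⟩ := (hh z).1 hz
    obtain ⟨i, k, b⟩ := exists_bx h hz
    rw [hI.pos z hz j k ⟨hj.le, b.hr, e ▸ (P.xl_mono (Nat.lt_succ_self j)).le, e.le, b.y0, b.y1⟩]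
    simp [F, Fold.side, e]
  have hos : ∀ p ∈ F.U, 0 ≤ F.side (σ.pos p) := fun p hp => by
    obtain ⟨i, k, hc⟩ := exists_cell h hp.1
    have b := bx_of_cell h hc
    have := hside i ((hd _ _ p hc).1 hp) p.1 b.x0 b.x1
    rw [hI.pos p hc.1 _ _ b]
    simp only [F, Fold.side]
    linarith
  refine ⟨F, ⟨by simpa [F] using h1, hW, ⟨_, (hh _).2 ⟨(vpt hj (Nat.zero_le 1) one_half_pos
    one_half_lt_one).1, rfl⟩⟩, fun z hz => ⟨hax z hz, (on_crease h ((hh z).1 hz).1).2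
      (Or.inl ⟨j, hj, ((hh z).1 hz).2⟩)⟩, fun e he z hz => ?_, fun _ => hos,
    fun p hp q hq e => ?_, fun _ z hz w hw e => ?_⟩, rfl, rfl, _,
      inv_v h hI hW hd h1 rfl hax (fun k _ hk => by
        obtain rfl : k = j := by omega
        exact hα)⟩
  · obtain ⟨hz1, e1⟩ := (hh z).1 hz.1
    rcases oseg_cases e he z hz.2 with ⟨i, hi, k, hk, a1, a2, a3, a4⟩ | ⟨i, -, k, -, -, -, a1, a2, -⟩
    · obtain rfl : i = j := by
        have := P.xl_mono.injective (a1.symm.trans e1)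
        omega
      have a5 := (hI.not_folded_v h hz1 hi a1 a2 a3).2 hα
      refine ⟨a5, ?_⟩
      rw [a4, hI.up z hz1 a5 i k ⟨hi.le, by omega, a1 ▸ (P.xl_mono (Nat.lt_succ_self i)).le, a1.le,
        a2.le, a3.le⟩, closure_over hos hz.1.1.2]
      exact hmv k hk
    · rw [e1] at a1 a2
      have := P.xl_mono.lt_iff_lt.1 a1
      have := P.xl_mono.lt_iff_lt.1 a2
      omega
  · refine absurd e (hfree p ((mem_faces h).1 hp.1).1 q ((mem_faces h).1 hq.1).1 hp.2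
      (lt_of_le_of_ne (not_lt.1 fun hh => hq.2 ⟨hq.1, hh⟩) ?_))
    exact (((mem_faces h).1 hq.1).2.1 j hj).symm
  · have hw' : w ∈ P.Om := P.interior_paper ▸ hw.1
    exact (hh w).2 ⟨hw', hall z ((hh z).1 hz.1).1 w hw' ((hh z).1 hz.1).2 e⟩

theorem Inv.pos_x (h : P.Pos) (hI : P.Inv σ α γ β δ) {z : Pt} (hz : z ∈ P.Om) :
    (-7 ≤ z.1 ∧ z.1 ≤ -4 ∧ (σ.pos z).1 = α 0 * (z.1 + 4) - 4 * α 1 + γ 2) ∨
    (-4 ≤ z.1 ∧ z.1 ≤ 0 ∧ (σ.pos z).1 = α 1 * z.1 + γ 2) ∨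
    (0 ≤ z.1 ∧ z.1 ≤ P.S ∧ (σ.pos z).1 = α 2 * z.1 + γ 2) ∨
    (P.S ≤ z.1 ∧ (σ.pos z).1 = α 3 * (z.1 - P.S) + α 2 * P.S + γ 2) := by
  obtain ⟨j, r, b⟩ := exists_bx h hz
  have c0 := hI.cx (j := 0) (by omega)
  have c1 := hI.cx (j := 1) (by omega)
  have c2 := hI.cx (j := 2) (by omega)
  simp only [xl, Nat.reduceAdd] at c0 c1 c2
  rw [hI.pos z hz j r b]
  have := b.hj
  interval_cases j
  · exact Or.inl ⟨b.x0, b.x1, by simp only; linarith⟩
  · exact Or.inr (Or.inl ⟨b.x0, b.x1, by simp only; linarith⟩)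
  · exact Or.inr (Or.inr (Or.inl ⟨b.x0, b.x1, rfl⟩))
  · exact Or.inr (Or.inr (Or.inr ⟨b.x0, by simp only; linarith⟩))

theorem Inv.pos_y (h : P.Pos) (hI : P.Inv σ α γ β δ) {z : Pt} (hz : z ∈ P.Om) :
    (z.2 ≤ 0 ∧ (σ.pos z).2 = β 0 * z.2 + δ 1) ∨
    (0 ≤ z.2 ∧ min z.2 3 ≤ β 1 * ((σ.pos z).2 - δ 1) ∧ β 1 * ((σ.pos z).2 - δ 1) ≤ z.2) := by
  obtain ⟨j, r, b⟩ := exists_bx h hz
  have c3 := hI.cy h (Nat.zero_le _)
  simp only [Y_zero, Nat.cast_zero, Nat.reduceAdd] at c3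
  rw [hI.pos z hz j r b]
  cases r with
  | zero => exact Or.inl ⟨by simpa [yl, Y_zero] using b.y1, by simp only; linarith⟩
  | succ k =>
    obtain ⟨v1, v2⟩ := hI.val_bd h k (by have := b.hr; omega) z.2 b.y0
    exact Or.inr ⟨le_trans (Nat.cast_nonneg _) b.y0, le_trans (min_le_min le_rfl (by
      linarith [P.T_le, (Om_bd h (x := z.1) (y := z.2) hz).2.2.2])) v2, v1⟩

theorem Inv.far (h : P.Pos) (hI : P.Inv σ α γ β δ) {p q : Pt} (hp : p ∈ P.Om) (hq : q ∈ P.Om)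
    (h1 : 1 ≤ p.2) (h2 : -1 < q.2) (h3 : q.2 < 1) : σ.pos p ≠ σ.pos q := by
  intro e
  rcases hI.pos_y h hp with ⟨a, -⟩ | ⟨-, a, -⟩
  · linarith
  have a' : 1 ≤ β 1 * ((σ.pos p).2 - δ 1) := le_trans (le_min h1 (by norm_num)) a
  rw [e] at a'
  rcases hI.pos_y h hq with ⟨b, c⟩ | ⟨-, -, b⟩
  · rw [c] at a'
    rcases hI.sb 0 with e0 | e0 <;> rcases hI.sb 1 with e1 | e1 <;> rw [e0, e1] at a' <;> linarith
  · linarith

theorem Inv.col_inj (h : P.Pos) (hI : P.Inv σ α γ β δ) {k : ℕ} (hk : k < 2 * P.n)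
    (hβ : β (k + 1) = β (k + 1 + 1)) {p q : Pt} (hp : p ∈ P.Om) (hq : q ∈ P.Om) (hx : q.1 = p.1)
    (h1 : P.Y (k + 1) ≤ p.2) (h2 : q.2 ≤ P.Y (k + 1)) (e : σ.pos p = σ.pos q) : p.2 = q.2 := by
  have hS := P.S_ge
  have hB := P.B_ge
  have hl := P.Y_last
  have y1 := Y_ge h k
  have y2 := Y_le h (show k + 1 ≤ 2 * P.n from hk)
  have k0 : (0 : ℝ) ≤ k := Nat.cast_nonneg k
  have x1 := Om_lo h (x := p.1) (y := p.2) hp h1
  have x2 := Om_hi h (x := q.1) (y := q.2) hq h2 (by linarith)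
  have x3 := (Om_bd h (x := p.1) (y := p.2) hp).2.1
  have p2 : p.2 ≤ P.Y (k + 1 + 1) := by
    by_contra hc
    have := Om_lo h (x := p.1) (y := p.2) hp (not_le.1 hc).le
    push_cast at this
    linarith
  have q2 : P.Y k ≤ q.2 := by
    by_contra hc
    cases k with
    | zero =>
      rw [Y_zero, Nat.cast_zero] at hc
      exact hI.far h hp hq (by linarith) (Om_right (x := q.1) (y := q.2) hq (by linarith))
        (by linarith) e
    | succ k =>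
      have := Om_hi h (x := q.1) (y := q.2) hq (not_le.1 hc).le (by linarith)
      push_cast at x1
      linarith
  have b1 : P.Bx 3 (k + 1 + 1) p := ⟨le_rfl, by omega, by simp only [xl]; linarith,
    by simp only [xl]; push_cast; linarith, h1, p2⟩
  have b2 : P.Bx 3 (k + 1) q := ⟨le_rfl, by omega, by simp only [xl]; linarith,
    by simp only [xl]; push_cast; linarith, q2, h2⟩
  have c := hI.cy h (show k + 1 ≤ 2 * P.n from hk)
  rw [hI.pos p hp _ _ b1, hI.pos q hq _ _ b2, Prod.mk.injEq, ← hβ] at e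
  rw [← hβ] at c
  rcases hI.sb (k + 1) with e' | e' <;> rw [e'] at c e <;> linarith [e.2]

theorem Inv.side_rod (h : P.Pos) (hI : P.Inv σ α γ β δ) {r : ℕ} (h0 : 1 ≤ r)
    (hp : ∀ k, r ≤ k → k % 2 = 0 → β (k + 1) = β (r + 1)) :
    ∀ k, r ≤ k → k ≤ 2 * P.n → ∀ y : ℝ, P.Y k ≤ y → y ≤ P.Y (k + 1) →
      0 ≤ β (r + 1) * (β (k + 1) * y + δ (k + 1) - (β (r + 1) * P.Y r + δ (r + 1))) := by
  have key : ∀ k, r ≤ k → k ≤ 2 * P.n → (if k % 2 = 1 ∧ r < k then (P.L : ℝ) else 0) ≤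
      β (r + 1) * (β (k + 1) * P.Y k + δ (k + 1) - (β (r + 1) * P.Y r + δ (r + 1))) ∧
      ∀ y : ℝ, P.Y k ≤ y → y ≤ P.Y (k + 1) →
      0 ≤ β (r + 1) * (β (k + 1) * y + δ (k + 1) - (β (r + 1) * P.Y r + δ (r + 1))) := by
    intro k hk
    induction k, hk using Nat.le_induction with
    | base =>
      refine fun _ => ⟨by simp, fun y h1 _ => ?_⟩
      rcases hI.sb (r + 1) with e | e <;> rw [e] <;> linarith
    | succ k hk ih =>
      intro hk'
      obtain ⟨i1, i2⟩ := ih (by omega)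
      have c := hI.cy h hk'
      have i3 := i2 _ (Y_le h (by omega)) le_rfl
      rw [c] at i3
      rcases Nat.mod_two_eq_zero_or_one k with hm | hm
      · obtain ⟨i, rfl⟩ : ∃ i, k = 2 * i + 2 := ⟨k / 2 - 1, by omega⟩
        have y1 : (P.Y (2 * i + 2 + 1) : ℝ) = P.Y (2 * i + 2) + P.L := by
          rw [Y_succ, sg_even]; push_cast; rfl
        have y2 : (P.Y (2 * i + 2 + 1 + 1) : ℝ) = P.Y (2 * i + 2 + 1) + P.a (i + 1) := by
          rw [Y_succ, show 2 * i + 2 + 1 = 2 * (i + 1) + 1 from rfl, sg_odd]; push_cast; rfl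
        have y3 : (P.a (i + 1) : ℝ) ≤ P.L := by
          have := P.a_le (show i + 1 < P.n by omega)
          exact_mod_cast (by unfold L; omega : P.a (i + 1) ≤ P.L)
        rw [if_neg (by omega), hp _ hk hm] at i1
        rw [hp _ hk hm] at c
        rw [if_pos (by omega), ← c]
        have i4 : (P.L : ℝ) ≤ β (r + 1) * (β (r + 1) * P.Y (2 * i + 2 + 1) + δ (2 * i + 2 + 1) -
            (β (r + 1) * P.Y r + δ (r + 1))) := by
          rcases hI.sb (r + 1) with e | e <;> rw [e] at i1 ⊢ <;> linarith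
        refine ⟨i4, fun y h1 h2 => ?_⟩
        rw [c] at i4
        rcases hI.sb (r + 1) with e | e <;> rcases hI.sb (2 * i + 2 + 1 + 1) with e' | e' <;>
          rw [e, e'] at i4 ⊢ <;> linarith
      · rw [if_neg (by omega)]
        refine ⟨i3, fun y h1 _ => ?_⟩
        rw [hp (k + 1) (by omega) (by omega)] at i3 ⊢
        rcases hI.sb (r + 1) with e | e <;> rw [e] at i3 ⊢ <;> linarith
  exact fun k h1 h2 => (key k h1 h2).2

/-- The two phases in which the rod is folded. -/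
def Ph (α : ℕ → ℝ) (κ : ℝ) : Prop :=
  α 1 = 1 ∧ α 3 = 1 ∧ ((κ = 1 ∧ α 0 = 1 ∧ α 2 = 1) ∨ (κ = -1 ∧ α 0 = -1 ∧ α 2 = -1))

/-- The rod lies above the frame. -/
def Abv (P : Par) (σ : State) : Prop :=
  ∀ p ∈ faces P.map, ∀ q ∈ faces P.map, q.1 < 0 → 1 < p.2 → σ.above p q

/-- Reachability by simple folds. -/
abbrev Reach (all : Bool) (P : Par) : State → State → Prop :=
  Relation.ReflTransGen (fun σ₁ σ₂ => ∃ F, Legal all false P.map σ₁ F ∧ σ₂ = σ₁.fold P.map F)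

theorem Inv.same_col (h : P.Pos) (hI : P.Inv σ α γ β δ) {κ : ℝ} (hP : Ph α κ) {p q : Pt}
    (hp : p ∈ P.Om) (hq : q ∈ P.Om) (h1 : P.B ≤ p.2) (e : σ.pos q = σ.pos p) :
    q.1 = p.1 ∨ (κ = -1 ∧ q.1 < 0 ∧ 2 * P.S - 4 ≤ p.1) := by
  have hS := P.S_ge
  have hB := P.B_ge
  have x1 := Om_lo h (x := p.1) (y := p.2) (k := 0) hp (by rw [zero_add, Y_one]; exact h1)
  push_cast at x1
  by_cases hq0 : 0 ≤ q.1 ∧ q.1 ≤ P.S
  · exact absurd e.symm (hI.far h hp hq (by linarith) (Om_right (x := q.1) (y := q.2) hq hq0.1)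
      (Om_left (x := q.1) (y := q.2) hq hq0.2).1)
  obtain ⟨a1, a3, ⟨hκ, a0, a2⟩ | ⟨hκ, a0, a2⟩⟩ := hP <;>
    rcases hI.pos_x h hp with b | b | b | b <;> rcases hI.pos_x h hq with c | c | c | c <;>
    rw [e] at c <;> simp only [a0, a1, a2, a3] at b c
  all_goals first
    | linarith [b.2.1]
    | (exfalso; exact hq0 ⟨by linarith [c.1], by linarith [c.2.1]⟩)
    | exact Or.inl (by linarith [b.2, c.2])
    | exact Or.inl (by linarith [b.2, c.2.2])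
    | exact Or.inr ⟨hκ, by linarith [c.2.1], by linarith [b.2, c.2.1, c.2.2]⟩
    | exact Or.inr ⟨hκ, lt_of_le_of_ne c.2.1 fun e0 => hq0 ⟨e0.ge, by linarith⟩,
        by linarith [b.2, c.1, c.2.2]⟩

theorem rod_step (h : P.Pos) (all : Bool) (hI : P.Inv σ α γ β δ) {κ : ℝ} (hP : Ph α κ)
    (hA : κ = -1 → P.Abv σ) {k : ℕ} (hk : k < 2 * P.n) (hβ : β (k + 1) = β (k + 1 + 1))
    (hs : β (k + 1) = if k % 2 = 0 then κ else -κ)
    (hp : ∀ i, k + 1 ≤ i → i % 2 = 0 → β (i + 1) = β (k + 1 + 1)) :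
    ∃ σ' δ', Reach all P σ σ' ∧ P.Inv σ' α γ (fun i => if k + 1 < i then -β i else β i) δ' ∧
      (κ = -1 → P.Abv σ') := by
  have hB := P.B_ge
  have y1 := Y_ge h k
  obtain ⟨F, hL, hU, ht, δ', hI'⟩ := step_h h all hI (r := k + 1) hk hβ (κ = -1)
    (fun j _ hj => by
      obtain rfl : j = 3 := by omega
      rw [hP.2.1, hs]
      simp only [valH, Nat.succ_ne_zero, if_false]
      rcases hP.2.2 with ⟨rfl, -⟩ | ⟨rfl, -⟩ <;> split_ifs <;> norm_num <;> omega)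
    (hI.side_rod h (by omega) hp)
    (fun p hp q hq h1 h2 e => by
      have hp' := ((mem_faces h).1 hp).1
      have hq' := ((mem_faces h).1 hq).1
      rcases hI.same_col h hP hp' hq' (by linarith) e.symm with h3 | ⟨h3, h4, -⟩
      · have := hI.col_inj h hk hβ hp' hq' h3 h1.le h2.le e
        linarith
      · exact ⟨fun _ => hA h3 p hp q hq h4 (by linarith), fun h5 => absurd h3 h5⟩)
    (fun z hz w hw h1 e => by
      rcases hI.same_col h hP hz hw (by linarith) e with h3 | ⟨-, -, h3⟩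
      · rcases le_total w.2 (P.Y (k + 1)) with h4 | h4
        · rw [← hI.col_inj h hk hβ hz hw h3 h1.ge h4 e.symm, h1]
        · rw [hI.col_inj h hk hβ hw hz h3.symm h4 h1.le e, h1]
      · have := Om_hi h (x := z.1) (y := z.2) hz h1.le (by
          linarith [P.Y_last, Y_le h (show k + 1 ≤ 2 * P.n from hk)])
        have hk' : ((k + 1 : ℕ) : ℝ) ≤ (2 * P.n : ℕ) := by exact_mod_cast hk
        push_cast at hk'
        linarith [P.S_eq])
  refine ⟨_, δ', Relation.ReflTransGen.single ⟨F, hL, rfl⟩, hI', fun hκ p hp q hq h1 h2 => ?_⟩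
  have hqU : q ∉ F.U := by
    rw [hU]
    intro hh
    have := (Om_left (x := q.1) (y := q.2) ((mem_faces h).1 hq).1 (by linarith [P.S_ge])).1
    linarith [hh.2]
  simp only [State.fold, if_neg hqU]
  split_ifs with hpU
  · rw [over_iff (hL.oneSide rfl p hpU), ht]; exact hκ
  · exact hA hκ p hp q hq h1 h2

/-- The pleats in `Φ` are folded. -/
def St (P : Par) (σ : State) (α γ : ℕ → ℝ) (κ : ℝ) (Φ : Finset ℕ) : Prop :=
  ∃ β δ, P.Inv σ α γ β δ ∧ β 0 = 1 ∧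
    (∀ k, β (k + 1) = if k % 2 = 1 ∧ k / 2 ∈ Φ then -κ else κ) ∧ (κ = -1 → P.Abv σ)

theorem pleat (h : P.Pos) (all : Bool) {κ : ℝ} (hP : Ph α κ) {Φ : Finset ℕ}
    (hS : P.St σ α γ κ Φ) {i : ℕ} (hi : i < P.n) (hΦ : i ∉ Φ) :
    ∃ σ', Reach all P σ σ' ∧ P.St σ' α γ κ (insert i Φ) := by
  obtain ⟨β, δ, hI, b0, hb, hA⟩ := hS
  have e0 : ∀ k, k % 2 = 0 → β (k + 1) = κ := fun k hk => by rw [hb, if_neg (by omega)]
  have e1 : β (2 * i + 1 + 1) = κ := by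
    rw [hb, if_neg]
    rw [show (2 * i + 1) / 2 = i by omega]
    exact fun hh => hΦ hh.2
  obtain ⟨σ1, δ1, r1, I1, A1⟩ := rod_step h all hI hP hA (k := 2 * i) (by omega)
    (by rw [e0 _ (by omega), e1]) (by rw [e0 _ (by omega), if_pos (by omega)])
    (fun j _ hj => by rw [e0 _ hj, e1])
  obtain ⟨σ2, δ2, r2, I2, A2⟩ := rod_step h all I1 hP A1 (k := 2 * i + 1) (by omega)
    (by rw [if_pos (by omega), if_pos (by omega), e1, e0 _ (by omega)])
    (by rw [if_pos (by omega), if_neg (by omega), e1])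
    (fun j _ hj => by rw [if_pos (by omega), if_pos (by omega), e0 _ hj, e0 _ (by omega)])
  refine ⟨σ2, r1.trans r2, _, δ2, I2, by simpa using b0, fun k => ?_, A2⟩
  rcases lt_trichotomy k (2 * i + 1) with hk | rfl | hk
  · rw [if_neg (by omega), if_neg (by omega), hb]
    exact if_congr (and_congr_right fun _ =>
      (Finset.mem_insert.trans (or_iff_right (by omega))).symm) rfl rfl
  · rw [if_neg (by omega), if_pos (by omega), e1, if_pos ⟨by omega, by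
      rw [show (2 * i + 1) / 2 = i by omega]; exact Finset.mem_insert_self _ _⟩]
  · rw [if_pos (by omega), if_pos (by omega), neg_neg, hb]
    exact if_congr (and_congr_right fun _ =>
      (Finset.mem_insert.trans (or_iff_right (by omega))).symm) rfl rfl

theorem pleats (h : P.Pos) (all : Bool) {κ : ℝ} (hP : Ph α κ) {Φ : Finset ℕ}
    (hS : P.St σ α γ κ Φ) (Ψ : Finset ℕ) (h1 : Ψ ⊆ Finset.range P.n) (h2 : Disjoint Ψ Φ) :
    ∃ σ', Reach all P σ σ' ∧ P.St σ' α γ κ (Ψ ∪ Φ) := by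
  induction Ψ using Finset.induction_on with
  | empty => exact ⟨σ, Relation.ReflTransGen.refl, by simpa using hS⟩
  | insert i Ψ hi ih =>
    rw [Finset.insert_subset_iff] at h1
    rw [Finset.disjoint_insert_left] at h2
    obtain ⟨σ1, r1, S1⟩ := ih h1.2 h2.2
    obtain ⟨σ2, r2, S2⟩ := pleat h all hP S1 (Finset.mem_range.1 h1.1) (by simp [hi, h2.1])
    exact ⟨σ2, r1.trans r2, by rwa [Finset.insert_union]⟩

theorem Inv.pat_form (h : P.Pos) (hI : P.Inv σ α γ β δ) {Φ : Finset ℕ}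
    (hb : ∀ k, β (k + 1) = if k % 2 = 1 ∧ k / 2 ∈ Φ then 1 else -1) : ∀ i ≤ P.n,
    δ (2 * i + 1) = δ 1 + 2 * ∑ j ∈ Finset.range i, if j ∈ Φ then (P.a j : ℝ) else 0 := by
  intro i
  induction i with
  | zero => simp
  | succ i ih =>
    intro hi
    have h1 := ih (by omega)
    have c1 := hI.cy h (show 2 * i + 1 ≤ 2 * P.n by omega)
    have c2 := hI.cy h (show 2 * i + 1 + 1 ≤ 2 * P.n by omega)
    have y1 : (P.Y (2 * i + 1 + 1) : ℝ) = P.Y (2 * i + 1) + P.a i := by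
      rw [Y_succ, sg_odd]; push_cast; rfl
    have e : 2 * i + 1 + 1 + 1 = 2 * (i + 1) + 1 := rfl
    rw [hb (2 * i), if_neg (by omega), hb (2 * i + 1), show (2 * i + 1) / 2 = i by omega] at c1
    rw [hb (2 * i + 1 + 1), if_neg (by omega), hb (2 * i + 1), show (2 * i + 1) / 2 = i by omega,
      y1, e] at c2
    rw [Finset.sum_range_succ]
    by_cases hi : i ∈ Φ
    · rw [if_pos ⟨by omega, hi⟩] at c1 c2
      rw [if_pos hi]
      linarith
    · rw [if_neg fun hh => hi hh.2] at c1 c2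
      rw [if_neg hi]
      linarith

theorem Inv.bar (h : P.Pos) (hI : P.Inv σ α γ β δ) {Φ : Finset ℕ} (hΦ : Φ ⊆ Finset.range P.n)
    (ht : ∑ i ∈ Φ, P.a i = P.t)
    (hb : ∀ k, β (k + 1) = if k % 2 = 1 ∧ k / 2 ∈ Φ then 1 else -1) {q : Pt} (hq : q ∈ P.Om)
    (hx : 2 * P.S ≤ q.1) : -P.ρ < (σ.pos q).2 - δ 1 ∧ (σ.pos q).2 - δ 1 < -P.ρ + 1 := by
  have hS := P.S_ge
  have eS := P.S_eq
  have hl := P.Y_last
  obtain ⟨-, b1, -, b2⟩ := Om_bd h (x := q.1) (y := q.2) hq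
  have b3 : P.T - 1 < q.2 := by
    by_contra hc
    have := Om_hi h (x := q.1) (y := q.2) (k := 2 * P.n) hq b2.le (not_lt.1 hc)
    push_cast at this
    linarith
  have e := hI.pat_form h hb P.n le_rfl
  rw [← Finset.sum_filter, Finset.filter_mem_eq_inter, Finset.inter_eq_right.2 hΦ, ← Nat.cast_sum,
    ht] at e
  rw [hI.pos q hq 3 (2 * P.n + 1) ⟨le_rfl, le_rfl, by simp only [xl]; linarith,
    by simp only [xl]; push_cast; linarith, by simp only [yl]; linarith, b2.le⟩, hb,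
    if_neg (by omega), e]
  unfold ρ
  constructor <;> simp only <;> linarith

theorem middle (h : P.Pos) (all : Bool) {Φ : Finset ℕ} (hΦ : Φ ⊆ Finset.range P.n)
    (ht : ∑ i ∈ Φ, P.a i = P.t) (hS : P.St σ (fun _ => 1) γ 1 Φ) :
    ∃ σ' α' γ', Reach all P σ σ' ∧ Ph α' (-1) ∧ P.St σ' α' γ' (-1) Φ := by
  obtain ⟨β, δ, I0, b0, hb, -⟩ := hS
  have b1 : β 1 = 1 := by rw [hb 0, if_neg (by omega)]
  have hS := P.S_ge
  have hρ := P.ρ_ge
  have br : ∀ r ≤ 1, β r = 1 := fun r hr => by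
    interval_cases r
    exacts [b0, b1]
  obtain ⟨F1, L1, -, -, γ1, I1⟩ := step_v h all I0 (j := 0) (by omega) rfl True
    (fun r hr => by simp [valV, br r hr])
    (fun i hi x _ h2 => by
      obtain rfl : i = 0 := by omega
      linarith)
    (fun p hp q hq h1 h2 e => by
      rcases I0.pos_x h hp with ⟨_, _, a⟩ | ⟨_, _, a⟩ | ⟨_, _, a⟩ | ⟨_, a⟩ <;>
        rcases I0.pos_x h hq with ⟨_, _, c⟩ | ⟨_, _, c⟩ | ⟨_, _, c⟩ | ⟨_, c⟩ <;>
        rw [← e] at c <;> linarith)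
    (fun z hz w hw h1 e => by
      rcases I0.pos_x h hz with ⟨_, _, a⟩ | ⟨_, _, a⟩ | ⟨_, _, a⟩ | ⟨_, a⟩ <;>
        rcases I0.pos_x h hw with ⟨_, _, c⟩ | ⟨_, _, c⟩ | ⟨_, _, c⟩ | ⟨_, c⟩ <;>
        rw [e] at c <;> linarith)
  obtain ⟨α1, I1, a0, a1, a2, a3⟩ : ∃ α, P.Inv (σ.fold P.map F1) α γ1 β δ ∧ α 0 = -1 ∧ α 1 = 1 ∧
    α 2 = 1 ∧ α 3 = 1 := ⟨_, I1, by simp, by simp, by simp, by simp⟩
  obtain ⟨F2, L2, -, -, γ2, I2⟩ := step_v h all I1 (j := 2) (by omega) (a2.trans a3.symm) True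
    (fun r hr => by simp [valV, br r hr, a2])
    (fun i hi x h1 h2 => by
      have c0 := I1.cx (j := 0) (by omega)
      have c1 := I1.cx (j := 1) (by omega)
      interval_cases i <;> simp only [xl, Nat.reduceAdd, a0, a1, a2] at c0 c1 h1 h2 ⊢ <;> linarith)
    (fun p hp q hq h1 h2 e => by
      rcases I1.pos_x h hp with ⟨_, _, a⟩ | ⟨_, _, a⟩ | ⟨_, _, a⟩ | ⟨_, a⟩ <;>
        rcases I1.pos_x h hq with ⟨_, _, c⟩ | ⟨_, _, c⟩ | ⟨_, _, c⟩ | ⟨_, c⟩ <;>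
        rw [← e] at c <;> simp only [xl, a0, a1, a2, a3] at a c h1 h2 <;> linarith)
    (fun z hz w hw h1 e => by
      rcases I1.pos_x h hz with ⟨_, _, a⟩ | ⟨_, _, a⟩ | ⟨_, _, a⟩ | ⟨_, a⟩ <;>
        rcases I1.pos_x h hw with ⟨_, _, c⟩ | ⟨_, _, c⟩ | ⟨_, _, c⟩ | ⟨_, c⟩ <;>
        rw [e] at c <;> simp only [xl, a0, a1, a2, a3] at a c h1 ⊢ <;> linarith)
  obtain ⟨α2, I2, a0, a1, a2, a3⟩ : ∃ α, P.Inv ((σ.fold P.map F1).fold P.map F2) α γ2 β δ ∧
      α 0 = 1 ∧ α 1 = -1 ∧ α 2 = -1 ∧ α 3 = 1 :=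
    ⟨_, I2, by simp [a0], by simp [a1], by simp [a2], by simp [a3]⟩
  have hy : ∀ z ∈ P.Om, ∀ s, s = (((σ.fold P.map F1).fold P.map F2).pos z).2 - δ 1 →
      (z.2 < 0 → s < 0) ∧ (z.2 = 0 → s = 0) ∧ (0 < z.2 → 0 < s) := by
    intro z hz s e
    rcases I2.pos_y h hz with ⟨c1, c2⟩ | ⟨c1, c2, c3⟩
    · rw [b0] at c2
      exact ⟨fun _ => by linarith, fun _ => by linarith, fun _ => by linarith⟩
    · rw [b1] at c2 c3
      refine ⟨fun _ => by linarith, fun e0 => ?_, fun e0 => ?_⟩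
      · rw [e0, min_eq_left (by norm_num)] at c2
        linarith
      · linarith [lt_min e0 (by norm_num : (0 : ℝ) < 3)]
  obtain ⟨F3, L3, -, -, δ3, I3⟩ := step_h h all I2 (r := 0) (by omega) (b0.trans b1.symm) False
    (fun j hj _ => by interval_cases j <;> norm_num [valH, a0, a1, a2, a3, b0])
    (fun k _ hk y h1 h2 => by
      have := (I2.val_bd h k hk y h1).2
      have y0 : (0 : ℝ) ≤ y := le_trans (Nat.cast_nonneg _) h1
      have y1 : (P.Y (k + 1) : ℝ) ≤ P.T := Y_le h (by omega)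
      rw [Y_zero, Nat.cast_zero, mul_zero, zero_add, zero_add]
      have y2 : (0 : ℝ) ≤ 2 * P.B - y := by linarith [P.T_le]
      exact le_trans (le_min y0 y2) this)
    (fun p hp q hq h1 h2 e => by
      rw [Y_zero, Nat.cast_zero] at h1 h2
      have c1 := (hy p ((mem_faces h).1 hp).1 _ rfl).2.2 h1
      have c2 := (hy q ((mem_faces h).1 hq).1 _ rfl).1 h2
      rw [e] at c1
      linarith)
    (fun z hz w hw h1 e => by
      rw [Y_zero, Nat.cast_zero] at h1 ⊢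
      have c1 := (hy z hz _ rfl).2.1 h1
      have c2 := hy w hw _ rfl
      rw [e, c1] at c2
      rcases lt_trichotomy w.2 0 with c | c | c
      · exact absurd (c2.1 c) (lt_irrefl _)
      · exact c
      · exact absurd (c2.2.2 c) (lt_irrefl _))
  obtain ⟨β3, I3, b0, hb⟩ : ∃ β, P.Inv (((σ.fold P.map F1).fold P.map F2).fold P.map F3)
      α2 γ2 β δ3 ∧ β 0 = 1 ∧ ∀ k, β (k + 1) = if k % 2 = 1 ∧ k / 2 ∈ Φ then 1 else -1 :=
    ⟨_, I3, by simp [b0], fun k => by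
      rw [if_pos (by omega), hb]
      split_ifs <;> norm_num⟩
  have b1 : β3 1 = -1 := by rw [hb 0, if_neg (by omega)]
  have key : ∀ p ∈ P.Om, ∀ q ∈ P.Om, p.1 ≤ 0 → 0 < q.1 →
      (((σ.fold P.map F1).fold P.map F2).fold P.map F3).pos p ≠
      (((σ.fold P.map F1).fold P.map F2).fold P.map F3).pos q := by
    intro p hp q hq h1 h2 e
    have c3 := (Om_bd h (x := q.1) (y := q.2) hq).2.1
    have c4 := (Om_bd h (x := p.1) (y := p.2) hp).1
    have c5 : 2 * P.S ≤ q.1 ∧ (p.1 < -6 ∨ -2 < p.1) := by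
      rcases I3.pos_x h hp with ⟨_, _, a⟩ | ⟨_, _, a⟩ | ⟨_, _, a⟩ | ⟨_, a⟩ <;>
        rcases I3.pos_x h hq with ⟨_, _, c⟩ | ⟨_, _, c⟩ | ⟨_, _, c⟩ | ⟨_, c⟩ <;>
        rw [← e] at c <;> simp only [a0, a1, a2, a3] at a c <;>
        first
          | exact ⟨by linarith, Or.inl (by linarith)⟩
          | exact ⟨by linarith, Or.inr (by linarith)⟩
    obtain ⟨c6, c7⟩ := I3.bar h hΦ ht hb hq c5.1
    rw [← e] at c6 c7
    have c8 := Om_left (x := p.1) (y := p.2) hp (by linarith)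
    rcases I3.pos_y h hp with ⟨d1, d2⟩ | ⟨d1, -, d2⟩
    · rw [b0] at d2
      obtain ⟨d3, d4⟩ := (Om_neg d1).1 hp
      rcases c5.2 with c | c
      · rcases d3 with d3 | d3
        · linarith [d3.2]
        · linarith
      · rcases d4 with d4 | d4 | d4 <;> linarith [d4.1, d4.2]
    · rw [b1] at d2
      linarith [c8.1]
  obtain ⟨F4, L4, U4, t4, γ4, I4⟩ := step_v h all I3 (j := 1) (by omega) (a1.trans a2.symm) False
    (fun r hr => by interval_cases r <;> norm_num [valV, a1, b0, b1])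
    (fun i hi x h1 h2 => by
      have c0 := I3.cx (j := 0) (by omega)
      interval_cases i <;> simp only [xl, Nat.reduceAdd, a0, a1] at c0 h1 h2 ⊢ <;> linarith)
    (fun p hp q hq h1 h2 => key p hp q hq h1.le h2)
    (fun z hz w hw h1 e => by
      simp only [xl] at h1 ⊢
      refine le_antisymm (not_lt.1 fun hc => key z hz w hw h1.le hc e.symm) ?_
      rcases I3.pos_x h hz with ⟨_, _, a⟩ | ⟨_, _, a⟩ | ⟨_, _, a⟩ | ⟨_, a⟩ <;>
        rcases I3.pos_x h hw with ⟨_, _, c⟩ | ⟨_, _, c⟩ | ⟨_, _, c⟩ | ⟨_, c⟩ <;>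
        rw [e] at c <;> simp only [a0, a1, a2, a3] at a c <;> linarith)
  refine ⟨_, _, γ4, (((Relation.ReflTransGen.single ⟨F1, L1, rfl⟩).tail ⟨F2, L2, rfl⟩).tail
    ⟨F3, L3, rfl⟩).tail ⟨F4, L4, rfl⟩, ⟨by simp [a1], by simp [a3], Or.inr ⟨rfl, by simp [a0],
      by simp [a2]⟩⟩, β3, δ3, I4, b0, fun k => by rw [hb, neg_neg], fun _ p hp q hq h1 h2 => ?_⟩
  have hq' : q ∈ F4.U := U4 ▸ ⟨hq, h1⟩
  have hp' : p ∉ F4.U := by
    rw [U4]
    intro hh
    have h3 : p.1 < 0 := hh.2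
    linarith [(Om_left (x := p.1) (y := p.2) ((mem_faces h).1 hp).1 (by linarith)).1]
  rw [State.fold]
  simp only [if_neg hp', if_pos hq', over_iff (L4.oneSide rfl q hq'), t4]
  exact id

theorem foldable_of_sol (h : P.Pos) (all : Bool) (hs : P.Sol) : Foldable all false P.map := by
  obtain ⟨s, h1, h2⟩ := hs
  obtain ⟨σ1, r1, S1⟩ := pleats (σ := init) (α := fun _ => 1) (γ := fun _ => 0) (Φ := ∅) h all
    ⟨rfl, rfl, Or.inl ⟨rfl, rfl, rfl⟩⟩
    ⟨_, _, inv_init, rfl, fun k => by simp, fun e => by norm_num at e⟩ s h1 (by simp)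
  rw [Finset.union_empty] at S1
  obtain ⟨σ2, α, γ, r2, hP, S2⟩ := middle h all h1 h2 S1
  obtain ⟨σ3, r3, β, δ, hI, b0, hb, -⟩ := pleats h all hP S2 (Finset.range P.n \ s)
    Finset.sdiff_subset Finset.sdiff_disjoint
  rw [Finset.sdiff_union_of_subset h1] at hb
  obtain ⟨a1, a3, ⟨e, -⟩ | ⟨-, a0, a2⟩⟩ := hP
  · norm_num at e
  refine ⟨σ3, (r1.trans r2).trans r3, fun e he z hz => (hI.fold z
    (P.interior_paper ▸ ((valid h).crease e he).2 hz)).2 ?_⟩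
  rcases oseg_cases e he z hz with ⟨j, hj, -, -, e1, -⟩ | ⟨-, -, r, hr, -, e1, -⟩
  · refine Or.inl ⟨j, hj, e1, ?_⟩
    interval_cases j <;> norm_num [a0, a1, a2, a3]
  · refine Or.inr ⟨r, hr, e1, ?_⟩
    cases r with
    | zero => rw [b0, hb, if_neg (by omega)]; norm_num
    | succ k =>
      rw [hb, hb]
      simp only [Finset.mem_range]
      rcases Nat.mod_two_eq_zero_or_one k with hk | hk
      · rw [if_neg (by omega), if_pos (by omega)]; norm_num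
      · rw [if_pos (by omega), if_neg (by omega)]; norm_num

theorem foldable_iff (h : P.Pos) (all two : Bool) : Foldable all two P.map ↔ P.Sol :=
  ⟨sol_of_foldable h, fun hs => (foldable_of_sol h all hs).mono⟩

end Par

end Pool.Agent.Lib.MP_3a3d34_lc
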