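import Pool.Agent.Lib.MP_3a3d34_lc.ChGeo
import Pool.Agent.Lib.MP_3a3d34_lc.Yes

/-!
Folded states of a chain of rectangles.
-/

set_option autoImplicit false

namespace Pool.Agent.Lib.MP_3a3d34_lc

open Set

theorem side_co (F : Fold) (b : Bool) (z : Pt) :
    F.side z = co b F.n * co b z + co (!b) F.n * co (!b) z - F.c := by
  cases b <;> simp [Fold.side, add_comm]

theorem refl_co {F : Fold} {b : Bool} (h1 : co b F.n ^ 2 = 1) (h0 : co (!b) F.n = 0) (z : Pt)
    (b' : Bool) : co b' (F.refl z) = if b' = b then 2 * F.c * co b F.n - co b' z else co b' z := by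
  cases b <;> cases b' <;> simp only [Bool.not_false, Bool.not_true, co_true, co_false] at h1 h0 <;>
    simp [Fold.refl, Fold.side, h0]
  · linear_combination (-2 * z.2) * h1
  · linear_combination (-2 * z.1) * h1

theorem iff_aux {a b t u n d : Prop} (h : a ↔ (b ↔ (t ↔ (u ↔ n)))) :
    (t ↔ (n ↔ d)) ↔ ((a ↔ b) ↔ (u ↔ d)) := by
  by_cases b <;> by_cases t <;> by_cases u <;> by_cases n <;> simp_all

namespace Ch

open Classical in
/-- The slope of a coordinate on a face when the creases in `S` are folded. -/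
noncomputable def sl (C : Ch) (S : ℕ → Prop) (b : Bool) : ℕ → ℤ
  | 0 => 1
  | k + 1 => if C.v k = b ∧ S k then -sl C S b k else sl C S b k

open Classical in
/-- The offset of a coordinate on a face when the creases in `S` are folded. -/
noncomputable def og (C : Ch) (S : ℕ → Prop) (b : Bool) : ℕ → ℤ
  | 0 => 0
  | k + 1 => if C.v k = b ∧ S k then og C S b k + 2 * sl C S b k * C.c k else og C S b k

/-- The position of a crease when the creases in `S` are folded. -/
noncomputable def ax (C : Ch) (S : ℕ → Prop) (e : ℕ) : ℤ :=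
  C.sl S (C.v e) e * C.c e + C.og S (C.v e) e

/-- The position of a point of a face when the creases in `S` are folded. -/
noncomputable def ph (C : Ch) (S : ℕ → Prop) (k : ℕ) (p : Pt) : Pt :=
  (C.sl S true k * p.1 + C.og S true k, C.sl S false k * p.2 + C.og S false k)

/-- The signed distance from the line of a crease. -/
noncomputable def dd (C : Ch) (S : ℕ → Prop) (e : ℕ) (z : Pt) : ℝ :=
  C.sl S (C.v e) e * (co (C.v e) z - C.ax S e)

/-- Parallel creases are never collinear. -/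
def NonCol (C : Ch) : Prop :=
  ∀ S : ℕ → Prop, ∀ k l, k < l → l < C.m → C.v k = C.v l → C.ax S k ≠ C.ax S l

variable {C : Ch}

theorem co_ph (S : ℕ → Prop) (k : ℕ) (p : Pt) (b : Bool) :
    co b (C.ph S k p) = C.sl S b k * co b p + C.og S b k := by cases b <;> rfl

theorem sl_pm (S : ℕ → Prop) (b : Bool) : ∀ k, C.sl S b k = 1 ∨ C.sl S b k = -1
  | 0 => Or.inl rfl
  | k + 1 => by
    rcases sl_pm S b k with h | h <;> rw [sl, h] <;> split_ifs <;> simp

theorem sl_pm' (S : ℕ → Prop) (b : Bool) (k : ℕ) :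
    (C.sl S b k : ℝ) = 1 ∨ (C.sl S b k : ℝ) = -1 := by exact_mod_cast sl_pm S b k

theorem sl_yes {S : ℕ → Prop} {b : Bool} {k : ℕ} (h : C.v k = b ∧ S k) :
    C.sl S b (k + 1) = -C.sl S b k ∧ C.og S b (k + 1) = C.og S b k + 2 * C.sl S b k * C.c k := by
  rw [sl, og, if_pos h, if_pos h]
  exact ⟨rfl, rfl⟩

theorem sl_no {S : ℕ → Prop} {b : Bool} {k : ℕ} (h : ¬ (C.v k = b ∧ S k)) :
    C.sl S b (k + 1) = C.sl S b k ∧ C.og S b (k + 1) = C.og S b k := by
  rw [sl, og, if_neg h, if_neg h]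
  exact ⟨rfl, rfl⟩

theorem sl_flat {S : ℕ → Prop} {b : Bool} {i k : ℕ} (hik : i ≤ k)
    (h : ∀ e, i ≤ e → e < k → C.v e = b → ¬ S e) :
    C.sl S b k = C.sl S b i ∧ C.og S b k = C.og S b i := by
  induction k, hik using Nat.le_induction with
  | base => exact ⟨rfl, rfl⟩
  | succ k hk ih =>
    have hn : ¬ (C.v k = b ∧ S k) := fun h1 => h k hk (Nat.lt_succ_self k) h1.1 h1.2
    rw [(sl_no hn).1, (sl_no hn).2]
    exact ih fun e h1 h2 => h e h1 (by omega)

theorem sl_comp {S T : ℕ → Prop} (b : Bool) {i k : ℕ} (hik : i ≤ k)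
    (h : ∀ e < k, T e ↔ i ≤ e ∧ S e) :
    C.sl S b k = C.sl S b i * C.sl T b k ∧ C.og S b k = C.sl S b i * C.og T b k + C.og S b i := by
  induction k, hik using Nat.le_induction with
  | base =>
    obtain ⟨h1, h2⟩ := sl_flat (C := C) (S := T) (b := b) (Nat.zero_le i)
      fun e _ he _ hT => by have := ((h e he).1 hT).1; omega
    rw [h1, h2]
    simp [sl, og]
  | succ k hk ih =>
    obtain ⟨h1, h2⟩ := ih fun e he => h e (by omega)
    have h3 : T k ↔ S k := (h k (Nat.lt_succ_self k)).trans (and_iff_right hk)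
    by_cases h4 : C.v k = b ∧ S k
    · have h5 := sl_yes (S := T) ⟨h4.1, h3.2 h4.2⟩
      rw [(sl_yes h4).1, (sl_yes h4).2, h5.1, h5.2, h1, h2]
      constructor <;> ring
    · have h5 := sl_no (S := T) fun h5 => h4 ⟨h5.1, h3.1 h5.2⟩
      rw [(sl_no h4).1, (sl_no h4).2, h5.1, h5.2]
      exact ⟨h1, h2⟩

theorem sl_ins {S T : ℕ → Prop} {l k : ℕ} (hl : ¬ S l) (hk : l < k)
    (h : ∀ e < k, T e ↔ S e ∨ e = l) : C.sl T (C.v l) k = -C.sl S (C.v l) k := by
  induction k, hk using Nat.le_induction with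
  | base =>
    have h1 := (sl_comp (C := C) (S := S) (T := T) (C.v l) (Nat.zero_le l) fun e he => by
      rw [h e (by omega)]; simp [he.ne]).1
    rw [sl, sl, if_pos ⟨rfl, (h l (by omega)).2 (Or.inr rfl)⟩, if_neg fun h2 => hl h2.2, h1]
    simp [sl]
  | succ k hk ih =>
    have h3 : T k ↔ S k := (h k (Nat.lt_succ_self k)).trans (or_iff_left (by omega))
    have h6 := ih fun e he => h e (by omega)
    by_cases h4 : C.v k = C.v l ∧ S k
    · rw [(sl_yes h4).1, (sl_yes (S := T) ⟨h4.1, h3.2 h4.2⟩).1, h6]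
    · rw [(sl_no h4).1, (sl_no (S := T) fun h5 => h4 ⟨h5.1, h3.1 h5.2⟩).1, h6]

open Classical in
/-- The description of a reachable state. -/
structure Geo (C : Ch) (σ : State) (S : ℕ → Prop) (s g : Bool → ℕ → ℝ) : Prop where
  pm : ∀ b k, s b k = 1 ∨ s b k = -1
  slope : ∀ b, ∀ k < C.m, s b (k + 1) = if C.v k = b ∧ S k then -s b k else s b k
  pos : ∀ k ≤ C.m, ∀ z ∈ C.cf k, ∀ b, co b (σ.pos z) = s b k * co b z + g b k
  up : ∀ k ≤ C.m, ∀ z ∈ C.cf k, z ∉ σ.folded → (σ.up z ↔ s true k = s false k)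
  fold : ∀ z ∈ C.Om, z ∈ σ.folded ↔ ∃ e < C.m, S e ∧ co (C.v e) z = C.c e

theorem geo_init : C.Geo init (fun _ => False) (fun _ _ => 1) (fun _ _ => 0) where
  pm _ _ := Or.inl rfl
  slope _ _ _ := by simp
  pos _ _ _ _ _ := by simp [init]
  up _ _ _ _ _ := by simp [init]
  fold _ _ := by simp [init]

variable {σ : State} {S : ℕ → Prop} {s g : Bool → ℕ → ℝ}

theorem Geo.congr (G : C.Geo σ S s g) {T : ℕ → Prop} (h : ∀ e < C.m, T e ↔ S e) :
    C.Geo σ T s g where
  pm := G.pm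
  slope b k hk := by rw [G.slope b k hk, propext (h k hk)]
  pos := G.pos
  up := G.up
  fold z hz := (G.fold z hz).trans (exists_congr fun e => and_congr_right fun he => by rw [h e he])

theorem Good.ex_line (h : C.Good) {e : ℕ} (he : e < C.m) : ∃ y₁ y₂ : ℝ, y₁ < y₂ ∧
    pt (C.v e) (C.c e) y₁ ∈ C.Om ∧ pt (C.v e) (C.c e) y₂ ∈ C.Om := by
  have := h.lt (!C.v e) (h.κ0 e he).2.le
  exact ⟨(2 * C.lo (!C.v e) (C.κ e) + C.hi (!C.v e) (C.κ e)) / 3,
    (C.lo (!C.v e) (C.κ e) + 2 * C.hi (!C.v e) (C.κ e)) / 3, by linarith,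
    h.line_pt he (by linarith) (by linarith), h.line_pt he (by linarith) (by linarith)⟩

open Classical in
theorem Geo.off (h : C.Good) (G : C.Geo σ S s g) (b : Bool) {k : ℕ} (hk : k < C.m) :
    g b (k + 1) = if C.v k = b ∧ S k then g b k + 2 * s b k * C.c k else g b k := by
  obtain ⟨y, -, -, hz, -⟩ := h.ex_line hk
  obtain ⟨a1, a2⟩ := h.cf_line hk hz (co_pt _ _ _)
  have e := (G.pos k hk.le _ a1 b).symm.trans (G.pos (k + 1) hk _ a2 b)
  rw [G.slope b k hk] at e
  split_ifs at e ⊢ with h1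
  · rw [← h1.1, co_pt] at e
    rw [← h1.1]
    linarith
  · linarith

theorem Geo.canon (h : C.Good) (G : C.Geo σ S s g) {T : ℕ → Prop} (b : Bool) {i k : ℕ} (hik : i ≤ k)
    (hk : k ≤ C.m) (hT : ∀ e < k, T e ↔ i ≤ e ∧ S e) :
    s b k = s b i * C.sl T b k ∧ g b k = s b i * C.og T b k + g b i := by
  induction k, hik using Nat.le_induction with
  | base =>
    obtain ⟨h1, h2⟩ := sl_flat (C := C) (S := T) (b := b) (Nat.zero_le i)
      fun e _ he _ h3 => by have := ((hT e he).1 h3).1; omega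
    rw [h1, h2]
    simp [sl, og]
  | succ k hik ih =>
    obtain ⟨h1, h2⟩ := ih (by omega) fun e he => hT e (by omega)
    have h3 : T k ↔ S k := (hT k (Nat.lt_succ_self k)).trans (and_iff_right hik)
    rw [G.slope b k hk, G.off h b hk]
    split_ifs with h4
    · have h5 := sl_yes (S := T) ⟨h4.1, h3.2 h4.2⟩
      rw [h5.1, h5.2, h1, h2]
      push_cast
      constructor <;> ring
    · have h5 := sl_no (S := T) fun h5 => h4 ⟨h5.1, h3.1 h5.2⟩
      rw [h5.1, h5.2]
      exact ⟨h1, h2⟩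

/-- The signed distance from the line of a crease in a state. -/
noncomputable def ad (C : Ch) (s g : Bool → ℕ → ℝ) (e : ℕ) (z : Pt) : ℝ :=
  s (C.v e) e * (co (C.v e) z - (s (C.v e) e * C.c e + g (C.v e) e))

/-- A fold along a single crease. -/
structure Sf (C : Ch) (F : Fold) (l : ℕ) (A : Prop) : Prop where
  sub : F.U ⊆ faces C.map
  mem : ∀ k ≤ C.m, ∀ p ∈ C.face k, p ∈ F.U ↔ (A ↔ k ≤ l)
  n1 : co (C.v l) F.n ^ 2 = 1
  n0 : co (!C.v l) F.n = 0

variable {F : Fold} {l : ℕ} {A : Prop}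

theorem hinge_single (h : C.Good) (hl : l < C.m) (h1 : F.U ⊆ faces C.map)
    (h2 : ∀ k ≤ C.m, ∀ p ∈ C.face k, p ∈ F.U ↔ (A ↔ k ≤ l)) {z : Pt} :
    z ∈ F.hinge C.map ↔ z ∈ C.Om ∧ co (C.v l) z = C.c l := by
  rw [h.hinge_iff h1 h2]
  refine and_congr_right fun _ => ⟨?_, fun e => ⟨l, hl, e, by by_cases A <;> simp [*]⟩⟩
  rintro ⟨e, -, h3, h4⟩
  obtain rfl : e = l := by
    by_contra hc
    exact h4 (by rw [show e ≤ l ↔ e + 1 ≤ l by omega])
  exact h3

open Classical in
theorem Sf.pos (h : C.Good) (f : C.Sf F l A)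
    (hax : ∀ z ∈ F.hinge C.map, F.side (σ.pos z) = 0) {k : ℕ} (hk : k ≤ C.m) {z : Pt}
    (hz : z ∈ C.cf k) :
    (σ.fold C.map F).pos z = if (A ↔ k ≤ l) then F.refl (σ.pos z) else σ.pos z := by
  simp only [State.fold]
  by_cases h1 : A ↔ k ≤ l
  · rw [if_pos h1, if_pos ((h.closure_iff f.sub f.mem hz.1).2 ⟨k, hk, hz, h1⟩)]
  · rw [if_neg h1]
    split_ifs with h2
    · have := hax z ⟨⟨h.interior_paper ▸ hz.1, h2⟩, closure_mono (fun p hp => And.intro
        (h.face_sub hp) fun h3 => h1 ((f.mem k hk p hp).1 h3)) (h.mem_closure_face hk hz)⟩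
      simp [Fold.refl, this]
    · rfl

open Classical in
theorem Geo.step (h : C.Good) (G : C.Geo σ S s g) (hl : l < C.m) (hS : ¬ S l) (f : C.Sf F l A)
    (hax : ∀ z ∈ F.hinge C.map, F.side (σ.pos z) = 0) :
    C.Geo (σ.fold C.map F) (fun e => S e ∨ e = l)
      (fun b k => if (A ↔ k ≤ l) ∧ b = C.v l then -s b k else s b k)
      (fun b k => if (A ↔ k ≤ l) ∧ b = C.v l then 2 * F.c * co (C.v l) F.n - g b k else g b k) where
  pm b k := by
    rcases G.pm b k with e | e <;> split_ifs <;> simp [e]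
  slope b k hk := by
    rw [G.slope b k hk]
    by_cases h1 : k = l
    · subst h1
      by_cases h2 : b = C.v k
      · subst h2
        by_cases A <;> simp [*]
      · simp [h2, Ne.symm h2]
    · simp only [show k + 1 ≤ l ↔ k ≤ l by omega, h1, or_false]
      split_ifs <;> rfl
  pos k hk z hz b := by
    rw [f.pos h hax hk hz]
    by_cases h1 : A ↔ k ≤ l
    · rw [if_pos h1, refl_co f.n1 f.n0, G.pos k hk z hz]
      simp only [h1, true_and]
      split_ifs
      · ring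
      · rfl
    · simp only [h1, if_false, false_and]
      exact G.pos k hk z hz b
  up k hk z hz hn := by
    have a := G.up k hk z hz fun h1 => hn (Or.inl h1)
    simp only [State.fold]
    by_cases h1 : A ↔ k ≤ l
    · rw [if_pos ((h.closure_iff f.sub f.mem hz.1).2 ⟨k, hk, hz, h1⟩), a]
      simp only [h1, true_and]
      rcases G.pm true k with e | e <;> rcases G.pm false k with e' | e' <;>
        cases C.v l <;> simp [e, e'] <;> norm_num
    · rw [if_neg fun h2 => hn (Or.inr ⟨⟨h.interior_paper ▸ hz.1, h2⟩, closure_mono (fun p hp => And.intro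
        (h.face_sub hp) fun h3 => h1 ((f.mem k hk p hp).1 h3)) (h.mem_closure_face hk hz)⟩)]
      simpa only [h1, false_and, if_false] using a
  fold z hz := by
    change z ∈ σ.folded ∨ z ∈ F.hinge C.map ↔ _
    rw [G.fold z hz, hinge_single h hl f.sub f.mem]
    constructor
    · rintro (⟨e, he, h1, h2⟩ | h1)
      · exact ⟨e, he, Or.inl h1, h2⟩
      · exact ⟨l, hl, Or.inr rfl, h1.2⟩
    · rintro ⟨e, he, h1 | rfl, h2⟩
      · exact Or.inl ⟨e, he, h1, h2⟩
      · exact Or.inr ⟨hz, h2⟩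

theorem Geo.not_folded (h : C.Good) (G : C.Geo σ S s g) (hl : l < C.m) {z : Pt} (hz : z ∈ C.Om)
    (e : co (C.v l) z = C.c l) : z ∉ σ.folded ↔ ¬ S l := by
  rw [G.fold z hz]
  refine not_congr ⟨?_, fun h1 => ⟨l, hl, h1, e⟩⟩
  rintro ⟨k, hk, h1, h2⟩
  rcases lt_trichotomy k l with h3 | rfl | h3
  · exact ((h.nest h3 hl hz).elim h2.le.not_gt e.ge.not_gt).elim
  · exact h1
  · exact ((h.nest h3 hk hz).elim e.le.not_gt h2.ge.not_gt).elim

theorem Geo.ad_near (h : C.Good) (G : C.Geo σ S s g) (hl : l < C.m) (hS : ¬ S l) {p : Pt}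
    (hp : p ∈ C.cf l ∨ p ∈ C.cf (l + 1)) : C.ad s g l (σ.pos p) = co (C.v l) p - C.c l := by
  have e : co (C.v l) (σ.pos p) = s (C.v l) l * co (C.v l) p + g (C.v l) l := by
    rcases hp with hp | hp
    · exact G.pos l hl.le p hp _
    · rw [G.pos _ hl p hp, G.slope _ l hl, G.off h _ hl, if_neg fun h1 => hS h1.2,
        if_neg fun h1 => hS h1.2]
  rw [ad, e]
  rcases G.pm (C.v l) l with e | e <;> rw [e] <;> ring

theorem sat (h : C.Good) {all two : Bool} (hL : Legal all two C.map σ F) (k : ℕ) :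
    ∀ p ∈ C.face k, p ∈ F.U ↔ C.face k ⊆ F.U := by
  refine fun p hp => ⟨fun hU q hq => by_contra fun hq' => ?_, fun hU => hU hp⟩
  obtain ⟨z, hz, h1, h2⟩ := isPreconnected_closed_iff.1 (h.face_conn k) (closure F.U)
    (closure (faces C.map \ F.U)) isClosed_closure isClosed_closure (fun w hw => by
      by_cases hw' : w ∈ F.U
      · exact Or.inl (subset_closure hw')
      · exact Or.inr (subset_closure ⟨h.face_sub hw, hw'⟩))
    ⟨p, hp, subset_closure hU⟩ ⟨q, hq, subset_closure ⟨h.face_sub hq, hq'⟩⟩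
  obtain ⟨e, he, h3⟩ := (hL.axis z ⟨⟨(h.face_sub hz).1, h1⟩, h2⟩).2
  exact (h.face_sub hz).2 (mem_iUnion₂.2 ⟨e, he, h3⟩)

theorem Geo.single (h : C.Good) (hN : C.NonCol) (G : C.Geo σ S s g) {all two : Bool}
    (hL : Legal all two C.map σ F) : ∃ l < C.m, ∃ A : Prop, ¬ S l ∧ C.Sf F l A ∧
      ∀ p ∈ F.U, C.ad s g l (σ.pos p) ≠ 0 → (F.over σ p ↔
        ((C.val l = true ↔ s true l = s false l) ↔ (A ↔ C.ad s g l (σ.pos p) < 0))) := by
  obtain ⟨u, hd⟩ : ∃ u : ℕ → Prop, ∀ k ≤ C.m, ∀ p ∈ C.face k, p ∈ F.U ↔ u k :=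
    ⟨_, fun k _ => sat h hL k⟩
  have hu : ∀ b, co b F.n ^ 2 + co (!b) F.n ^ 2 = 1 := fun b => by
    cases b
    · exact (add_comm _ _).trans hL.unit
    · exact hL.unit
  have key : ∀ e < C.m, ¬ (u e ↔ u (e + 1)) → co (!C.v e) F.n = 0 ∧
      co (C.v e) F.n * (s (C.v e) e * C.c e + g (C.v e) e) = F.c := by
    intro e he hn
    obtain ⟨y₁, y₂, hy, z1, z2⟩ := h.ex_line he
    have a1 := (hL.axis _ ((h.hinge_iff hL.sub hd).2 ⟨z1, e, he, co_pt _ _ _, hn⟩)).1
    have a2 := (hL.axis _ ((h.hinge_iff hL.sub hd).2 ⟨z2, e, he, co_pt _ _ _, hn⟩)).1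
    rw [side_co F (C.v e), G.pos e he.le _ (h.cf_line he z1 (co_pt _ _ _)).1,
      G.pos e he.le _ (h.cf_line he z1 (co_pt _ _ _)).1, co_pt, co_pt'] at a1
    rw [side_co F (C.v e), G.pos e he.le _ (h.cf_line he z2 (co_pt _ _ _)).1,
      G.pos e he.le _ (h.cf_line he z2 (co_pt _ _ _)).1, co_pt, co_pt'] at a2
    have a3 : co (!C.v e) F.n * (y₂ - y₁) = 0 := by
      rcases G.pm (!C.v e) e with e' | e' <;> rw [e'] at a1 a2 <;> linarith
    have a4 := (mul_eq_zero.1 a3).resolve_right (sub_pos.2 hy).ne'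
    rw [a4] at a1
    exact ⟨a4, by linarith⟩
  have uniq : ∀ e e', e < e' → e' < C.m → ¬ (u e ↔ u (e + 1)) → (u e' ↔ u (e' + 1)) := by
    intro e e' h1 h2 h3
    by_contra h4
    obtain ⟨a1, a2⟩ := key e (by omega) h3
    obtain ⟨b1, b2⟩ := key e' h2 h4
    have a3 := hu (C.v e)
    rw [a1] at a3
    have a4 : co (C.v e) F.n ≠ 0 := fun h5 => by rw [h5] at a3; norm_num at a3
    have hv : C.v e = C.v e' := by
      by_contra h5
      exact a4 (by rw [← b1]; congr 1; exact Bool.eq_not.2 h5)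
    refine hN S e e' h1 h2 hv ?_
    obtain ⟨c1, c2⟩ := G.canon h (T := S) (C.v e) (Nat.zero_le e) (by omega) (by simp)
    obtain ⟨d1, d2⟩ := G.canon h (T := S) (C.v e) (Nat.zero_le e') h2.le (by simp)
    rw [← hv] at b2
    have a5 := mul_left_cancel₀ a4 (a2.trans b2.symm)
    rw [c1, c2, d1, d2] at a5
    have a6 : (C.ax S e : ℝ) = C.ax S e' := by
      simp only [ax, ← hv]
      push_cast
      rcases G.pm (C.v e) 0 with e0 | e0 <;> rw [e0] at a5 <;> linarith
    exact_mod_cast a6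
  obtain ⟨z, hz⟩ := hL.ne
  obtain ⟨hz0, l, hl, hzl, hul⟩ := (h.hinge_iff hL.sub hd).1 hz
  have hm : ∀ k ≤ C.m, u k ↔ (u 0 ↔ k ≤ l) := by
    intro k
    induction k with
    | zero => simp
    | succ k ih =>
      intro hk
      have := ih (by omega)
      rcases lt_trichotomy k l with h1 | rfl | h1
      · have h2 : u k ↔ u (k + 1) := by_contra fun h2 => hul (uniq k l h1 hl h2)
        rw [← h2, this, show k ≤ l ↔ k + 1 ≤ l by omega]
      · simp only [le_refl, iff_true, Nat.not_succ_le_self, iff_false] at this ⊢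
        rw [← this]
        exact ⟨fun h1 h2 => hul (iff_of_true h2 h1), fun h1 => by_contra fun h2 =>
          hul (iff_of_false h1 h2)⟩
      · rw [← uniq l k h1 hk hul, this, show k ≤ l ↔ k + 1 ≤ l by omega]
  obtain ⟨n0, hc⟩ := key l hl hul
  have n1 : co (C.v l) F.n ^ 2 = 1 := by have := hu (C.v l); rw [n0] at this; linarith
  obtain ⟨h3, h4⟩ := hL.assign _ (C.forall_cr.1 (fun _ h => h) l hl) z
    ⟨hz, (h.oseg_iff hl).2 ⟨hz0, hzl⟩⟩
  have hS := (G.not_folded h hl hz0 hzl).1 h3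
  obtain ⟨z1, z2⟩ := h.cf_line hl hz0 hzl
  rw [G.up l hl.le z z1 h3] at h4
  have hs := Par.pm_mul n1 (G.pm (C.v l) l)
  have hside : ∀ w, F.side w = co (C.v l) F.n * s (C.v l) l * C.ad s g l w := fun w => by
    rw [side_co F (C.v l), n0, ← hc, ad]
    rcases G.pm (C.v l) l with e | e <;> rw [e] <;> ring
  have ov : ∀ p, C.ad s g l (σ.pos p) ≠ 0 → (F.over σ p ↔
      (F.top ↔ (co (C.v l) F.n * s (C.v l) l = -1 ↔ C.ad s g l (σ.pos p) < 0))) := fun p hp => by
    rw [Fold.over, hside]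
    rcases lt_or_gt_of_ne hp with h5 | h5
    · rw [(Par.near_aux hs).1 h5, iff_true_intro h5, iff_true]
    · rw [(Par.near_aux hs).2 h5, iff_false_intro h5.not_gt, iff_false]
  have k0 : ∀ p ∈ C.face l, (F.over σ p ↔ (F.top ↔ co (C.v l) F.n * s (C.v l) l = -1)) :=
    fun p hp => by
    have h5 : C.ad s g l (σ.pos p) < 0 := by
      rw [G.ad_near h hl hS (Or.inl (C.face_cf hp))]
      exact sub_neg.2 ((hp.2 l hl).2 le_rfl)
    rw [ov p h5.ne, iff_true_intro h5, iff_true]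
  have k1 : ∀ p ∈ C.face (l + 1), (F.over σ p ↔ (F.top ↔ ¬ co (C.v l) F.n * s (C.v l) l = -1)) :=
    fun p hp => by
    have h5 : 0 < C.ad s g l (σ.pos p) := by
      rw [G.ad_near h hl hS (Or.inr (C.face_cf hp))]
      exact sub_pos.2 ((hp.2 l hl).1 (Nat.lt_succ_self l))
    rw [ov p h5.ne', iff_false_intro h5.not_gt, iff_false]
  have hl0 : u l ↔ u 0 := by simpa using hm l hl.le
  have hl1 : u (l + 1) ↔ ¬ u 0 := by simpa using hm (l + 1) hl
  have cl : z ∈ closure {p ∈ F.U | F.over σ p} ↔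
      (F.top ↔ (u 0 ↔ co (C.v l) F.n * s (C.v l) l = -1)) := by
    constructor
    · intro h5
      obtain ⟨k, hk, b, p, hp, hp'⟩ := h.cf_of_closure (fun p hp => hL.sub hp.1) hz0 h5
      have hu := (hd k hk p hp').1 hp.1
      have : k = l ∨ k = l + 1 := by
        rcases lt_trichotomy k l with h6 | h6 | h6
        · have := (h.cf_adj (show k < l + 1 by omega) hl b z2).1
          omega
        · exact Or.inl h6
        · exact Or.inr (h.cf_adj h6 hk z1 b).1
      rcases this with rfl | rfl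
      · rw [iff_true_intro (hl0.1 hu), true_iff]
        exact (k0 p hp').1 hp.2
      · rw [iff_false_intro (hl1.1 hu), false_iff]
        exact (k1 p hp').1 hp.2
    · intro h5
      by_cases hu : u 0
      · rw [iff_true_intro hu, true_iff] at h5
        refine closure_mono (fun p hp => ?_) (h.mem_closure_face hl.le z1)
        exact ⟨(hd _ hl.le p hp).2 (hl0.2 hu), (k0 p hp).2 h5⟩
      · rw [iff_false_intro hu, false_iff] at h5
        refine closure_mono (fun p hp => ?_) (h.mem_closure_face hl z2)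
        exact ⟨(hd _ hl p hp).2 (hl1.2 hu), (k1 p hp).2 h5⟩
  refine ⟨l, hl, u 0, hS, ⟨hL.sub, fun k hk p hp => (hd k hk p hp).trans (hm k hk), n1, n0⟩,
    fun p _ hp => ?_⟩
  rw [ov p hp]
  rw [cl] at h4
  exact iff_aux h4

end Ch

end Pool.Agent.Lib.MP_3a3d34_lc
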