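import Pool.Agent.Lib.MP_3a3d34_lc.Defs

/-!
Chains of rectangles going up and to the right, cut by creases that run across one rectangle.
-/

set_option autoImplicit false

namespace Pool.Agent.Lib.MP_3a3d34_lc

open Set

/-- A coordinate of a point. -/
def co (b : Bool) (p : Pt) : ℝ := if b then p.1 else p.2

/-- The point with given coordinates. -/
def pt (b : Bool) (x y : ℝ) : Pt := if b then (x, y) else (y, x)

@[simp] theorem co_true (p : Pt) : co true p = p.1 := rfl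

@[simp] theorem co_false (p : Pt) : co false p = p.2 := rfl

@[simp] theorem co_pt (b : Bool) (x y : ℝ) : co b (pt b x y) = x := by cases b <;> rfl

@[simp] theorem co_pt' (b : Bool) (x y : ℝ) : co (!b) (pt b x y) = y := by cases b <;> rfl

theorem co_ext {p q : Pt} (h : ∀ b, co b p = co b q) : p = q := Prod.ext (h true) (h false)

theorem co_cont (b : Bool) : Continuous (co b) := by
  cases b
  · exact continuous_snd
  · exact continuous_fst

theorem co_comb (b : Bool) (p q : Pt) (x y : ℝ) : co b (x • p + y • q) = x • co b p + y • co b q := by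
  cases b <;> rfl

theorem lt_comb {u a b x y : ℝ} (ha : u < a) (hb : u < b) (hx : 0 ≤ x) (hy : 0 ≤ y)
    (h : x + y = 1) : u < x • a + y • b :=
  convex_Ioi u (mem_Ioi.2 ha) (mem_Ioi.2 hb) hx hy h

theorem comb_lt {u a b x y : ℝ} (ha : a < u) (hb : b < u) (hx : 0 ≤ x) (hy : 0 ≤ y)
    (h : x + y = 1) : x • a + y • b < u :=
  convex_Iio u (mem_Iio.2 ha) (mem_Iio.2 hb) hx hy h

theorem bool_cases (a : Bool) {Q : Bool → Prop} (h1 : Q a) (h2 : Q (!a)) : ∀ b, Q b := by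
  intro b
  cases a <;> cases b <;> assumption

/-- A chain of rectangles with creases. -/
structure Ch where
  /-- index of the last rectangle -/
  N : ℕ
  /-- number of creases -/
  m : ℕ
  /-- lower bounds of the rectangles -/
  lo : Bool → ℕ → ℤ
  /-- upper bounds of the rectangles -/
  hi : Bool → ℕ → ℤ
  /-- the crease is vertical -/
  v : ℕ → Bool
  /-- the crease is a valley -/
  val : ℕ → Bool
  /-- the position of the crease -/
  c : ℕ → ℤ
  /-- the rectangle that the crease cuts -/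
  κ : ℕ → ℕ

namespace Ch

/-- The conditions on a chain. -/
structure Good (C : Ch) : Prop where
  pos : 0 < C.N
  mlo : ∀ b, ∀ i < C.N, C.lo b i ≤ C.lo b (i + 1)
  mhi : ∀ b, ∀ i < C.N, C.hi b i ≤ C.hi b (i + 1)
  ov : ∀ b, ∀ i < C.N, C.lo b (i + 1) < C.hi b i
  κ0 : ∀ e < C.m, 0 < C.κ e ∧ C.κ e < C.N
  κm : ∀ e, e + 1 < C.m → C.κ e < C.κ (e + 1)
  c1 : ∀ e < C.m, C.hi (C.v e) (C.κ e - 1) ≤ C.c e
  c2 : ∀ e < C.m, C.c e ≤ C.lo (C.v e) (C.κ e + 1)

variable (C : Ch)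

/-- A rectangle of the chain. -/
def box (i : ℕ) : Box := (C.lo true i, C.hi true i, C.lo false i, C.hi false i)

/-- A crease of the chain. -/
def crease (e : ℕ) : Crease :=
  (C.v e, C.c e, C.lo (!C.v e) (C.κ e), C.hi (!C.v e) (C.κ e), C.val e)

/-- The map of the chain. -/
def map : PMap := ((List.range (C.N + 1)).map C.box, (List.range C.m).map C.crease)

/-- An open rectangle. -/
def rect (i : ℕ) : Set Pt := {p | ∀ b, (C.lo b i : ℝ) < co b p ∧ co b p < C.hi b i}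

/-- The interior of the paper. -/
def Om : Set Pt := {p | ∃ i ≤ C.N, p ∈ C.rect i}

/-- A face. -/
def face (k : ℕ) : Set Pt :=
  {p | p ∈ C.Om ∧ ∀ e < C.m, (e < k → (C.c e : ℝ) < co (C.v e) p) ∧ (k ≤ e → co (C.v e) p < C.c e)}

/-- A face together with its creases. -/
def cf (k : ℕ) : Set Pt :=
  {p | p ∈ C.Om ∧ ∀ e < C.m, (e < k → (C.c e : ℝ) ≤ co (C.v e) p) ∧ (k ≤ e → co (C.v e) p ≤ C.c e)}

theorem mem_paper {p : Pt} : p ∈ paper C.map ↔
    ∃ i ≤ C.N, ∀ b, (C.lo b i : ℝ) ≤ co b p ∧ co b p ≤ C.hi b i := by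
  simp only [paper, map, List.mem_map, List.mem_range, mem_ofPred_eq, Nat.lt_succ_iff]
  constructor
  · rintro ⟨_, ⟨i, hi, rfl⟩, h1, h2, h3, h4⟩
    refine ⟨i, hi, fun b => ?_⟩
    cases b
    · exact ⟨by simpa [box] using h3, by simpa [box] using h4⟩
    · exact ⟨by simpa [box] using h1, by simpa [box] using h2⟩
  · rintro ⟨i, hi, h⟩
    exact ⟨_, ⟨i, hi, rfl⟩, by simpa [box] using (h true).1, by simpa [box] using (h true).2,
      by simpa [box] using (h false).1, by simpa [box] using (h false).2⟩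

theorem mem_seg {e : ℕ} {p : Pt} : p ∈ seg (C.crease e) ↔ co (C.v e) p = C.c e ∧
    (C.lo (!C.v e) (C.κ e) : ℝ) ≤ co (!C.v e) p ∧ co (!C.v e) p ≤ C.hi (!C.v e) (C.κ e) := by
  cases h : C.v e <;> simp [seg, crease, h, and_comm]

theorem mem_oseg {e : ℕ} {p : Pt} : p ∈ oseg (C.crease e) ↔ co (C.v e) p = C.c e ∧
    (C.lo (!C.v e) (C.κ e) : ℝ) < co (!C.v e) p ∧ co (!C.v e) p < C.hi (!C.v e) (C.κ e) := by
  cases h : C.v e <;> simp [oseg, crease, h, and_comm]

theorem forall_cr {Q : Crease → Prop} : (∀ e ∈ C.map.2, Q e) ↔ ∀ e < C.m, Q (C.crease e) := by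
  simp [map]

theorem exists_cr {Q : Crease → Prop} : (∃ e ∈ C.map.2, Q e) ↔ ∃ e < C.m, Q (C.crease e) := by
  simp [map]

theorem isOpen_rect (i : ℕ) : IsOpen (C.rect i) := by
  have e : C.rect i = ⋂ b, co b ⁻¹' Ioo (C.lo b i : ℝ) (C.hi b i) := by
    ext p; simp [rect]
  rw [e]
  exact isOpen_iInter_of_finite fun b => isOpen_Ioo.preimage (co_cont b)

theorem isOpen_Om : IsOpen C.Om := by
  have e : C.Om = ⋃ i ∈ Iic C.N, C.rect i := by
    ext p; simp [Om]
  rw [e]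
  exact isOpen_biUnion fun i _ => C.isOpen_rect i

theorem face_cf {k : ℕ} : C.face k ⊆ C.cf k := fun _ hp =>
  ⟨hp.1, fun e he => ⟨fun h => ((hp.2 e he).1 h).le, fun h => ((hp.2 e he).2 h).le⟩⟩

variable {C}

theorem Good.lo_mono (h : C.Good) (b : Bool) {i j : ℕ} (hij : i ≤ j) (hj : j ≤ C.N) :
    (C.lo b i : ℝ) ≤ C.lo b j := by
  induction j, hij using Nat.le_induction with
  | base => exact le_rfl
  | succ j _ ih => exact (ih (by omega)).trans (by exact_mod_cast h.mlo b j hj)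

theorem Good.hi_mono (h : C.Good) (b : Bool) {i j : ℕ} (hij : i ≤ j) (hj : j ≤ C.N) :
    (C.hi b i : ℝ) ≤ C.hi b j := by
  induction j, hij using Nat.le_induction with
  | base => exact le_rfl
  | succ j _ ih => exact (ih (by omega)).trans (by exact_mod_cast h.mhi b j hj)

theorem Good.ov' (h : C.Good) (b : Bool) {i : ℕ} (hi : i < C.N) :
    (C.lo b (i + 1) : ℝ) < C.hi b i := by exact_mod_cast h.ov b i hi

theorem Good.lt (h : C.Good) (b : Bool) {i : ℕ} (hi : i ≤ C.N) : (C.lo b i : ℝ) < C.hi b i := by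
  rcases hi.lt_or_eq with h1 | rfl
  · exact (h.lo_mono b (Nat.le_succ i) h1).trans_lt (h.ov' b h1)
  · obtain ⟨j, hj⟩ : ∃ j, C.N = j + 1 := ⟨C.N - 1, by have := h.pos; omega⟩
    have := h.ov' b (show j < C.N by omega)
    rw [← hj] at this
    exact this.trans_le (h.hi_mono b (by omega) le_rfl)

theorem Good.κ_mono (h : C.Good) {e e' : ℕ} (h1 : e < e') (h2 : e' < C.m) : C.κ e < C.κ e' := by
  induction e', h1 using Nat.le_induction with
  | base => exact h.κm e h2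
  | succ j _ ih => exact (ih (by omega)).trans (h.κm j h2)

theorem Good.before (h : C.Good) {e i : ℕ} (he : e < C.m) (hi : i < C.κ e) {p : Pt}
    (hp : p ∈ C.rect i) : co (C.v e) p < C.c e :=
  ((hp _).2.trans_le (h.hi_mono _ (show i ≤ C.κ e - 1 by omega)
    (by have := h.κ0 e he; omega))).trans_le (by exact_mod_cast h.c1 e he)

theorem Good.beyond (h : C.Good) {e i : ℕ} (he : e < C.m) (hi : C.κ e < i) (hN : i ≤ C.N) {p : Pt}
    (hp : p ∈ C.rect i) : (C.c e : ℝ) < co (C.v e) p :=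
  lt_of_le_of_lt ((show (C.c e : ℝ) ≤ _ by exact_mod_cast h.c2 e he).trans (h.lo_mono _ hi hN))
    (hp _).1

theorem Good.c_lt (h : C.Good) {e : ℕ} (he : e < C.m) :
    (C.lo (C.v e) (C.κ e) : ℝ) < C.c e ∧ (C.c e : ℝ) < C.hi (C.v e) (C.κ e) := by
  obtain ⟨h1, h2⟩ := h.κ0 e he
  have a := h.ov' (C.v e) (show C.κ e - 1 < C.N by omega)
  rw [show C.κ e - 1 + 1 = C.κ e by omega] at a
  exact ⟨a.trans_le (by exact_mod_cast h.c1 e he),
    lt_of_le_of_lt (by exact_mod_cast h.c2 e he) (h.ov' _ h2)⟩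

theorem Good.interior_paper (h : C.Good) : interior (paper C.map) = C.Om := by
  classical
  refine Subset.antisymm (fun p hp => ?_) (interior_maximal (fun p ⟨i, hi, hp⟩ =>
    C.mem_paper.2 ⟨i, hi, fun b => ⟨(hp b).1.le, (hp b).2.le⟩⟩) C.isOpen_Om)
  obtain ⟨ε, hε, hb⟩ := Metric.mem_nhds_iff.1 (mem_interior_iff_mem_nhds.1 hp)
  have key : ∀ (b : Bool) (x y : ℝ), |x| < ε → |y| < ε → ∃ i ≤ C.N,
      ((C.lo b i : ℝ) ≤ co b p + x ∧ co b p + x ≤ C.hi b i) ∧
      (C.lo (!b) i : ℝ) ≤ co (!b) p + y ∧ co (!b) p + y ≤ C.hi (!b) i := by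
    intro b x y hx hy
    obtain ⟨i, hi, h1⟩ := C.mem_paper.1 (hb (show pt b (co b p + x) (co (!b) p + y) ∈ _ by
      cases b <;> simp [pt, Prod.dist_eq, hx, hy]))
    exact ⟨i, hi, by simpa using h1 b, by simpa using h1 (!b)⟩
  have a1 : |ε / 2| < ε := by rw [abs_of_pos] <;> linarith
  have a2 : |-(ε / 2)| < ε := by rwa [abs_neg]
  have ex : ∃ k, k ≤ C.N ∧ ∀ b, co b p < C.hi b k := by
    obtain ⟨i, hi, h1, h2⟩ := key true _ _ a1 a1
    exact ⟨i, hi, bool_cases true (by linarith [h1.2]) (by linarith [h2.2])⟩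
  obtain ⟨hk, hk'⟩ := Nat.find_spec ex
  refine ⟨_, hk, fun b => ⟨?_, hk' b⟩⟩
  have hmin := fun j => Nat.find_min ex (m := j)
  generalize Nat.find ex = k at hk hk' hmin
  cases k with
  | zero =>
    obtain ⟨i, hi, h1, -⟩ := key b _ _ a2 a2
    linarith [h.lo_mono b (Nat.zero_le i) hi, h1.1]
  | succ k =>
    have := hmin k (Nat.lt_succ_self k)
    push Not at this
    obtain ⟨b0, hb0⟩ := this (by omega)
    refine bool_cases (Q := fun b => (C.lo b (k + 1) : ℝ) < co b p) b0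
      ((h.ov' b0 hk).trans_le hb0) ?_ b
    obtain ⟨i, hi, h1, h2⟩ := key b0 _ _ a1 a2
    have : k + 1 ≤ i := by
      by_contra hc
      linarith [h.hi_mono b0 (show i ≤ k by omega) (by omega), h1.2]
    linarith [h.lo_mono (!b0) this hi, h2.1]

theorem Good.line_rect (h : C.Good) {e : ℕ} (he : e < C.m) {p : Pt} (hp : p ∈ C.Om)
    (hc : co (C.v e) p = C.c e) : p ∈ C.rect (C.κ e) := by
  obtain ⟨i, hi, hp⟩ := hp
  rcases lt_trichotomy i (C.κ e) with h1 | rfl | h1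
  · exact absurd hc (h.before he h1 hp).ne
  · exact hp
  · exact absurd hc (h.beyond he h1 hi hp).ne'

theorem Good.oseg_iff (h : C.Good) {e : ℕ} (he : e < C.m) {p : Pt} :
    p ∈ oseg (C.crease e) ↔ p ∈ C.Om ∧ co (C.v e) p = C.c e := by
  rw [mem_oseg]
  exact ⟨fun h1 => ⟨⟨C.κ e, (h.κ0 e he).2.le, bool_cases (C.v e) (h1.1 ▸ h.c_lt he) h1.2⟩, h1.1⟩,
    fun h1 => ⟨h1.2, h.line_rect he h1.1 h1.2 _⟩⟩

theorem Good.seg_iff (h : C.Good) {e : ℕ} (he : e < C.m) {p : Pt} (hp : p ∈ C.Om) :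
    p ∈ seg (C.crease e) ↔ co (C.v e) p = C.c e := by
  rw [mem_seg]
  exact ⟨fun h1 => h1.1, fun h1 =>
    ⟨h1, (h.line_rect he hp h1 _).1.le, (h.line_rect he hp h1 _).2.le⟩⟩

theorem Good.nest (h : C.Good) {e e' : ℕ} (h1 : e < e') (h2 : e' < C.m) {p : Pt} (hp : p ∈ C.Om) :
    (C.c e : ℝ) < co (C.v e) p ∨ co (C.v e') p < C.c e' := by
  obtain ⟨i, hi, hp⟩ := hp
  have := h.κ_mono h1 h2
  rcases lt_or_ge i (C.κ e') with h3 | h3
  · exact Or.inr (h.before h2 h3 hp)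
  · exact Or.inl (h.beyond (by omega) (by omega) hi hp)

theorem Good.mem_faces (h : C.Good) {z : Pt} :
    z ∈ faces C.map ↔ z ∈ C.Om ∧ ∀ e < C.m, co (C.v e) z ≠ C.c e := by
  simp only [faces, h.interior_paper, mem_sdiff, mem_iUnion, exists_prop]
  refine and_congr_right fun hz => ?_
  rw [exists_cr]
  push Not
  exact forall₂_congr fun e he => not_congr (h.seg_iff he hz)

theorem Good.face_sub (h : C.Good) {k : ℕ} : C.face k ⊆ faces C.map := fun _ hp =>
  h.mem_faces.2 ⟨hp.1, fun e he => (lt_or_ge e k).elim (fun h1 => ((hp.2 e he).1 h1).ne')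
    fun h1 => ((hp.2 e he).2 h1).ne⟩

theorem Good.face_of_cf (h : C.Good) {k : ℕ} {z : Pt} (hz : z ∈ faces C.map) (hk : z ∈ C.cf k) :
    z ∈ C.face k :=
  ⟨hk.1, fun e he => ⟨fun h1 => ((hk.2 e he).1 h1).lt_of_ne ((h.mem_faces.1 hz).2 e he).symm,
    fun h1 => ((hk.2 e he).2 h1).lt_of_ne ((h.mem_faces.1 hz).2 e he)⟩⟩

theorem Good.cf_intro (h : C.Good) {k : ℕ} (hk : k ≤ C.m) {p : Pt} (hp : p ∈ C.Om)
    (h1 : ∀ e, k = e + 1 → (C.c e : ℝ) ≤ co (C.v e) p) (h2 : k < C.m → co (C.v k) p ≤ C.c k) :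
    p ∈ C.cf k := by
  refine ⟨hp, fun e he => ⟨fun h3 => ?_, fun h3 => ?_⟩⟩
  · obtain ⟨j, rfl⟩ : ∃ j, k = j + 1 := ⟨k - 1, by omega⟩
    rcases (Nat.le_of_lt_succ h3).lt_or_eq with h4 | rfl
    · exact ((h.nest h4 hk hp).resolve_right (h1 j rfl).not_gt).le
    · exact h1 e rfl
  · rcases h3.lt_or_eq with h4 | rfl
    · exact ((h.nest h4 he hp).resolve_left (h2 (by omega)).not_gt).le
    · exact h2 he

theorem Good.face_intro (h : C.Good) {k : ℕ} (hk : k ≤ C.m) {p : Pt} (hp : p ∈ C.Om)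
    (h1 : ∀ e, k = e + 1 → (C.c e : ℝ) < co (C.v e) p) (h2 : k < C.m → co (C.v k) p < C.c k) :
    p ∈ C.face k := by
  refine ⟨hp, fun e he => ⟨fun h3 => ?_, fun h3 => ?_⟩⟩
  · obtain ⟨j, rfl⟩ : ∃ j, k = j + 1 := ⟨k - 1, by omega⟩
    rcases (Nat.le_of_lt_succ h3).lt_or_eq with h4 | rfl
    · exact (h.nest h4 hk hp).resolve_right (h1 j rfl).le.not_gt
    · exact h1 e rfl
  · rcases h3.lt_or_eq with h4 | rfl
    · exact (h.nest h4 he hp).resolve_left (h2 (by omega)).le.not_gt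
    · exact h2 he

theorem Good.cf_line (h : C.Good) {e : ℕ} (he : e < C.m) {p : Pt} (hp : p ∈ C.Om)
    (hc : co (C.v e) p = C.c e) : p ∈ C.cf e ∧ p ∈ C.cf (e + 1) := by
  refine ⟨h.cf_intro he.le hp (fun j hj => ?_) fun _ => hc.le,
    h.cf_intro he hp (fun j hj => ?_) fun h1 => ?_⟩
  · exact ((h.nest (by omega) he hp).resolve_right hc.ge.not_gt).le
  · obtain rfl : e = j := by omega
    exact hc.ge
  · exact ((h.nest (Nat.lt_succ_self e) h1 hp).resolve_left hc.le.not_gt).le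

theorem Good.cf_adj (h : C.Good) {k k' : ℕ} (h1 : k < k') (h2 : k' ≤ C.m) {p : Pt}
    (hp : p ∈ C.cf k) (hp' : p ∈ C.cf k') : k' = k + 1 ∧ co (C.v k) p = C.c k := by
  have a := (hp.2 k (by omega)).2 le_rfl
  refine ⟨?_, le_antisymm a ((hp'.2 k (by omega)).1 h1)⟩
  by_contra hc
  rcases h.nest (Nat.lt_succ_self k) (show k + 1 < C.m by omega) hp.1 with h3 | h3
  · exact a.not_gt h3
  · exact ((hp'.2 (k + 1) (by omega)).1 (by omega)).not_gt h3

theorem Good.exists_cf (h : C.Good) {p : Pt} (hp : p ∈ C.Om) : ∃ k ≤ C.m, p ∈ C.cf k := by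
  classical
  have ex : ∃ k, k = C.m ∨ co (C.v k) p ≤ C.c k := ⟨C.m, Or.inl rfl⟩
  have hk : Nat.find ex ≤ C.m := Nat.find_min' ex (Or.inl rfl)
  refine ⟨_, hk, h.cf_intro hk hp (fun e he => ?_) fun h1 => (Nat.find_spec ex).resolve_left h1.ne⟩
  exact (not_le.1 fun h1 => Nat.find_min ex (show e < _ by omega) (Or.inr h1)).le

theorem Good.exists_face (h : C.Good) {p : Pt} (hp : p ∈ faces C.map) : ∃ k ≤ C.m, p ∈ C.face k := by
  obtain ⟨k, hk, h1⟩ := h.exists_cf (h.mem_faces.1 hp).1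
  exact ⟨k, hk, h.face_of_cf hp h1⟩

theorem closure_lt (b : Bool) {p : Pt} {c : ℝ} (h : co b p = c) :
    p ∈ closure {q | co b q < c} ∧ p ∈ closure {q | c < co b q} := by
  have key : ∀ s : ℝ, Filter.Tendsto (fun t : ℝ => pt b (co b p + s * t) (co (!b) p))
      (nhdsWithin 0 (Ioi 0)) (nhds p) := by
    intro s
    have c1 : Continuous fun t : ℝ => pt b (co b p + s * t) (co (!b) p) := by
      cases b
      · change Continuous fun t : ℝ => (p.1, p.2 + s * t)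
        fun_prop
      · change Continuous fun t : ℝ => (p.1 + s * t, p.2)
        fun_prop
    exact (c1.tendsto' 0 p (by cases b <;> simp [pt])).mono_left nhdsWithin_le_nhds
  refine ⟨mem_closure_of_tendsto (key (-1)) ?_, mem_closure_of_tendsto (key 1) ?_⟩ <;>
    filter_upwards [self_mem_nhdsWithin] with t ht <;> simp only [co_pt] <;>
    linarith [mem_Ioi.1 ht]

theorem Good.mem_closure_face (h : C.Good) {k : ℕ} (hk : k ≤ C.m) {p : Pt} (hp : p ∈ C.cf k) :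
    p ∈ closure (C.face k) := by
  by_cases h1 : k < C.m ∧ co (C.v k) p = C.c k
  · have o : IsOpen (C.Om ∩ {q | ∀ e, k = e + 1 → (C.c e : ℝ) < co (C.v e) q}) := by
      refine C.isOpen_Om.inter ?_
      cases k with
      | zero => simp
      | succ k => simpa using isOpen_lt continuous_const (co_cont (C.v k))
    refine closure_mono (fun q hq => h.face_intro hk hq.1.1 hq.1.2 fun _ => hq.2)
      (o.inter_closure ⟨⟨hp.1, fun e he => ?_⟩, (closure_lt _ h1.2).1⟩)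
    exact (h.nest (by omega) h1.1 hp.1).resolve_right h1.2.ge.not_gt
  have h2 : k < C.m → co (C.v k) p < C.c k := fun h2 =>
    ((hp.2 k h2).2 le_rfl).lt_of_ne fun h3 => h1 ⟨h2, h3⟩
  cases k with
  | zero => exact subset_closure (h.face_intro hk hp.1 (fun e he => by omega) h2)
  | succ k =>
    rcases ((hp.2 k hk).1 (Nat.lt_succ_self k)).lt_or_eq with h3 | h3
    · exact subset_closure (h.face_intro hk hp.1 (fun e he => by
        obtain rfl : k = e := by omega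
        exact h3) h2)
    · have o : IsOpen (C.Om ∩ {q | k + 1 < C.m → co (C.v (k + 1)) q < C.c (k + 1)}) := by
        refine C.isOpen_Om.inter ?_
        by_cases h4 : k + 1 < C.m
        · simpa [h4] using isOpen_lt (co_cont (C.v (k + 1))) continuous_const
        · simp [h4]
      exact closure_mono (fun q hq => h.face_intro hk hq.1.1 (fun e he => by
        obtain rfl : k = e := by omega
        exact hq.2) hq.1.2) (o.inter_closure ⟨⟨hp.1, h2⟩, (closure_lt _ h3.symm).2⟩)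

theorem Good.cf_of_closure (h : C.Good) {W : Set Pt} (hW : W ⊆ faces C.map) {z : Pt}
    (hz0 : z ∈ C.Om) (hz : z ∈ closure W) : ∃ k ≤ C.m, z ∈ C.cf k ∧ ∃ p ∈ W, p ∈ C.face k := by
  have e : W = ⋃ k ∈ Finset.range (C.m + 1), W ∩ C.face k := by
    refine Subset.antisymm (fun p hp => ?_) (iUnion₂_subset fun _ _ => inter_subset_left)
    obtain ⟨k, hk, hc⟩ := h.exists_face (hW hp)
    exact mem_iUnion₂.2 ⟨k, by simp; omega, hp, hc⟩
  rw [e, Finset.closure_biUnion] at hz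
  obtain ⟨k, hk, hz⟩ := mem_iUnion₂.1 hz
  obtain ⟨p, hp⟩ := closure_nonempty_iff.1 ⟨z, hz⟩
  refine ⟨k, by simpa [Nat.lt_succ_iff] using hk, ⟨hz0, fun e he => ⟨fun h1 => ?_, fun h1 => ?_⟩⟩,
    p, hp.1, hp.2⟩
  · exact closure_minimal (fun q hq => ((hq.2.2 e he).1 h1).le)
      (isClosed_le continuous_const (co_cont _)) hz
  · exact closure_minimal (fun q hq => ((hq.2.2 e he).2 h1).le)
      (isClosed_le (co_cont _) continuous_const) hz

theorem Good.closure_iff (h : C.Good) {W : Set Pt} (hW : W ⊆ faces C.map) {u : ℕ → Prop}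
    (hd : ∀ k ≤ C.m, ∀ p ∈ C.face k, p ∈ W ↔ u k) {z : Pt} (hz : z ∈ C.Om) :
    z ∈ closure W ↔ ∃ k ≤ C.m, z ∈ C.cf k ∧ u k := by
  constructor
  · intro hc
    obtain ⟨k, hk, b, p, h1, h2⟩ := h.cf_of_closure hW hz hc
    exact ⟨k, hk, b, (hd k hk p h2).1 h1⟩
  · rintro ⟨k, hk, b, h1⟩
    exact closure_mono (fun p hp => (hd k hk p hp).2 h1) (h.mem_closure_face hk b)

theorem Good.hinge_iff (h : C.Good) {F : Fold} (hW : F.U ⊆ faces C.map) {u : ℕ → Prop}
    (hd : ∀ k ≤ C.m, ∀ p ∈ C.face k, p ∈ F.U ↔ u k) {z : Pt} :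
    z ∈ F.hinge C.map ↔ z ∈ C.Om ∧ ∃ e < C.m, co (C.v e) z = C.c e ∧ ¬ (u e ↔ u (e + 1)) := by
  rw [Fold.hinge, h.interior_paper, mem_inter_iff, mem_inter_iff, and_assoc]
  refine and_congr_right fun hz => ?_
  rw [h.closure_iff hW hd hz, h.closure_iff (u := fun k => ¬ u k) sdiff_subset (fun k hk p hp => by
    rw [mem_sdiff, hd k hk p hp]; exact and_iff_right (h.face_sub hp)) hz]
  constructor
  · rintro ⟨⟨k, hk, a, h1⟩, k', hk', a', h2⟩
    rcases lt_trichotomy k k' with hj | rfl | hj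
    · obtain ⟨rfl, e⟩ := h.cf_adj hj hk' a a'
      exact ⟨k, hk', e, fun h => h2 (h.1 h1)⟩
    · exact absurd h1 h2
    · obtain ⟨rfl, e⟩ := h.cf_adj hj hk a' a
      exact ⟨k', hk, e, fun h => h2 (h.2 h1)⟩
  · rintro ⟨e, he, h1, hu⟩
    obtain ⟨b1, b2⟩ := h.cf_line he hz h1
    by_cases h2 : u e
    · exact ⟨⟨e, he.le, b1, h2⟩, e + 1, he, b2, fun h3 => hu (iff_of_true h2 h3)⟩
    · exact ⟨⟨e + 1, he, b2, by_contra fun h3 => hu (iff_of_false h2 h3)⟩, e, he.le, b1, h2⟩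

theorem Good.mid (h : C.Good) {i : ℕ} (hi : i < C.N) : ∃ p, p ∈ C.rect i ∧ p ∈ C.rect (i + 1) := by
  refine ⟨((C.lo true (i + 1) + C.hi true i) / 2, (C.lo false (i + 1) + C.hi false i) / 2),
    fun b => ?_, fun b => ?_⟩ <;>
  · have a1 := h.ov' b hi
    have a2 := h.lo_mono b (Nat.le_succ i) hi
    have a3 := h.hi_mono b (Nat.le_succ i) hi
    cases b <;> simp only [co_true, co_false] <;> constructor <;> linarith

theorem convex_rect (i : ℕ) : Convex ℝ (C.rect i) := fun p hp q hq x y hx hy hxy b => by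
  rw [co_comb]
  exact ⟨lt_comb (hp b).1 (hq b).1 hx hy hxy, comb_lt (hp b).2 (hq b).2 hx hy hxy⟩

theorem Good.face_conn (h : C.Good) (k : ℕ) : IsPreconnected (C.face k) := by
  let t : Set ℕ := {i | i ≤ C.N ∧ ∀ e < C.m, (e < k → C.κ e ≤ i) ∧ (k ≤ e → i ≤ C.κ e)}
  have e : C.face k = ⋃ i ∈ t, C.rect i ∩ C.face k := by
    refine Subset.antisymm (fun p hp => ?_) (iUnion₂_subset fun _ _ => inter_subset_right)
    obtain ⟨i, hi, h1⟩ := hp.1
    refine mem_iUnion₂.2 ⟨i, ⟨hi, fun e he => ⟨fun h2 => not_lt.1 fun h3 => ?_,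
      fun h2 => not_lt.1 fun h3 => ?_⟩⟩, h1, hp⟩
    · exact (h.before he h3 h1).not_gt ((hp.2 e he).1 h2)
    · exact (h.beyond he h3 hi h1).not_gt ((hp.2 e he).2 h2)
  rw [e]
  refine IsPreconnected.biUnion_of_chain ⟨fun i hi j hj x hx => ⟨hx.2.trans hj.1, fun e he =>
    ⟨fun h1 => ((hi.2 e he).1 h1).trans hx.1, fun h1 => hx.2.trans ((hj.2 e he).2 h1)⟩⟩⟩
    (fun i hi => Convex.isPreconnected fun p hp q hq x y hx hy hxy => ?_) fun i hi hi' => ?_
  · have a := convex_rect i hp.1 hq.1 hx hy hxy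
    refine ⟨a, ⟨i, hi.1, a⟩, fun e he => ⟨fun h1 => ?_, fun h1 => ?_⟩⟩ <;> rw [co_comb]
    · exact lt_comb ((hp.2.2 e he).1 h1) ((hq.2.2 e he).1 h1) hx hy hxy
    · exact comb_lt ((hp.2.2 e he).2 h1) ((hq.2.2 e he).2 h1) hx hy hxy
  · rw [Order.succ_eq_add_one] at hi' ⊢
    obtain ⟨p, h1, h2⟩ := h.mid (show i < C.N from hi'.1)
    have a : p ∈ C.face k := ⟨⟨i, hi.1, h1⟩, fun e he =>
      ⟨fun h3 => h.beyond he (Nat.lt_succ_of_le ((hi.2 e he).1 h3)) hi'.1 h2,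
        fun h3 => h.before he ((hi'.2 e he).2 h3) h1⟩⟩
    exact ⟨p, ⟨h1, a⟩, h2, a⟩

theorem Good.Om_conn (h : C.Good) : IsConnected C.Om := by
  have e : C.Om = ⋃ i ∈ Iic C.N, C.rect i := by
    ext p; simp [Om]
  obtain ⟨p, hp, -⟩ := h.mid h.pos
  refine ⟨⟨p, 0, Nat.zero_le _, hp⟩, ?_⟩
  rw [e]
  exact IsPreconnected.biUnion_of_chain ordConnected_Iic
    (fun i _ => (convex_rect i).isPreconnected) fun i _ hi' => h.mid hi'

theorem Good.line_conn (h : C.Good) (b : Bool) {p q z : Pt} (hp : p ∈ paper C.map)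
    (hq : q ∈ paper C.map) (h1 : co (!b) p = co (!b) z) (h2 : co (!b) q = co (!b) z)
    (h3 : co b p ≤ co b z) (h4 : co b z ≤ co b q) : z ∈ paper C.map := by
  obtain ⟨i, hi, hp⟩ := C.mem_paper.1 hp
  obtain ⟨j, hj, hq⟩ := C.mem_paper.1 hq
  rw [mem_paper]
  have a1 := (hp b).1.trans h3
  have a2 := h1 ▸ hp (!b)
  have a3 := h4.trans (hq b).2
  have a4 := h2 ▸ hq (!b)
  rcases le_total j i with hij | hij
  · exact ⟨i, hi, bool_cases b ⟨a1, a3.trans (h.hi_mono b hij hi)⟩ a2⟩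
  replace a2 := a2.2
  clear hp hq hi
  induction hd : j - i generalizing i with
  | zero =>
    obtain rfl : i = j := by omega
    exact ⟨i, hj, bool_cases b ⟨a1, a3⟩ a4⟩
  | succ d ih =>
    rcases le_total (co b z) (C.hi b i) with h5 | h5
    · exact ⟨i, by omega, bool_cases b ⟨a1, h5⟩ ⟨(h.lo_mono _ hij hj).trans a4.1, a2⟩⟩
    · exact ih (i + 1) ((h.ov' b (by omega)).le.trans h5) (by omega)
        (a2.trans (h.hi_mono _ (Nat.le_succ i) (by omega))) (by omega)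

theorem Good.valid (h : C.Good) : Valid C.map where
  box R hR := by
    simp only [map, List.mem_map, List.mem_range, Nat.lt_succ_iff] at hR
    obtain ⟨i, hi, rfl⟩ := hR
    exact ⟨by simpa [box] using h.lt true hi, by simpa [box] using h.lt false hi⟩
  conn := by rw [h.interior_paper]; exact h.Om_conn
  horiz y := ⟨fun _ h1 _ h2 x hx => h.line_conn true (z := (x, y)) h1 h2 rfl rfl hx.1 hx.2⟩
  vert x := ⟨fun _ h1 _ h2 y hy => h.line_conn false (z := (x, y)) h1 h2 rfl rfl hy.1 hy.2⟩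
  crease := by
    rw [h.interior_paper, forall_cr]
    exact fun e he => ⟨by simpa [crease] using h.lt (!C.v e) (h.κ0 e he).2.le,
      fun p hp => ((h.oseg_iff he).1 hp).1⟩
  disj := by
    simp only [map]
    rw [List.pairwise_map]
    refine List.Pairwise.imp_of_mem (fun {e e'} _ he' hlt => ?_) List.pairwise_lt_range
    replace he' := List.mem_range.1 he'
    have key : ∀ p ∈ C.Om, co (C.v e) p = C.c e → co (C.v e') p = C.c e' → False :=
      fun p hp h1 h2 => (h.nest hlt he' hp).elim h1.le.not_gt h2.ge.not_gt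
    refine ⟨disjoint_left.2 fun p h1 h2 => ?_, disjoint_left.2 fun p h1 h2 => ?_⟩
    · obtain ⟨a, b⟩ := (h.oseg_iff (hlt.trans he')).1 h1
      exact key p a b (C.mem_seg.1 h2).1
    · obtain ⟨a, b⟩ := (h.oseg_iff he').1 h2
      exact key p a (C.mem_seg.1 h1).1 b

theorem Good.split (h : C.Good) {i : ℕ} (hi : i < C.N) {p : Pt} (hp : p ∈ C.Om) :
    (∀ b, co b p < C.hi b i) ∨ ∀ b, (C.lo b (i + 1) : ℝ) < co b p := by
  obtain ⟨j, hj, hp⟩ := hp
  rcases le_or_gt j i with h1 | h1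
  · exact Or.inl fun b => (hp b).2.trans_le (h.hi_mono b h1 hi.le)
  · exact Or.inr fun b => (h.lo_mono b h1 hj).trans_lt (hp b).1

theorem Good.lt_hi (h : C.Good) {e : ℕ} (he : e < C.m) {p : Pt} (hp : p ∈ C.Om)
    (h1 : co (C.v e) p < C.c e) (b : Bool) : co b p < C.hi b (C.κ e) := by
  refine ((h.split (h.κ0 e he).2 hp).resolve_right fun h2 => ?_) b
  exact (lt_of_le_of_lt (by exact_mod_cast h.c2 e he) (h2 (C.v e))).not_gt h1

theorem Good.lo_lt (h : C.Good) {e : ℕ} (he : e < C.m) {p : Pt} (hp : p ∈ C.Om)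
    (h1 : (C.c e : ℝ) < co (C.v e) p) (b : Bool) : (C.lo b (C.κ e) : ℝ) < co b p := by
  obtain ⟨a1, a2⟩ := h.κ0 e he
  have := ((h.split (show C.κ e - 1 < C.N by omega) hp).resolve_left fun h2 =>
    ((h2 (C.v e)).trans_le (by exact_mod_cast h.c1 e he)).not_gt h1) b
  rwa [show C.κ e - 1 + 1 = C.κ e by omega] at this

theorem Good.lt_top (h : C.Good) {p : Pt} (hp : p ∈ C.Om) (b : Bool) : co b p < C.hi b C.N := by
  obtain ⟨j, hj, hp⟩ := hp
  exact (hp b).2.trans_le (h.hi_mono b hj le_rfl)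

theorem Good.line_pt (h : C.Good) {e : ℕ} (he : e < C.m) {y : ℝ}
    (h1 : (C.lo (!C.v e) (C.κ e) : ℝ) < y) (h2 : y < C.hi (!C.v e) (C.κ e)) :
    pt (C.v e) (C.c e) y ∈ C.Om :=
  ((h.oseg_iff he).1 (C.mem_oseg.2 ⟨co_pt _ _ _, by rwa [co_pt'], by rwa [co_pt']⟩)).1

end Ch

end Pool.Agent.Lib.MP_3a3d34_lc
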