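import Pool.Agent.Lib.MP_3a3d34_lc.ChFold
import Pool.Agent.Lib.MP_3a3d34_lc.OneDefs

/-!
The order in which the creases of a chain are folded.
-/

set_option autoImplicit false

namespace Pool.Agent.Lib.MP_3a3d34_lc

open Set

theorem tt1 {x a c : Prop} : (¬ ((x ↔ a) ↔ c) ↔ ((x ↔ ¬ a) ↔ c)) ∧
    (((x ↔ a) ↔ c) ↔ ¬ ((x ↔ ¬ a) ↔ c)) := by
  by_cases x <;> by_cases a <;> by_cases c <;> simp [*]

theorem tt2 {X m d : Prop} (h1 : (m ↔ d) → ¬ X) (h2 : ¬ (m ↔ d) → X) : X ↔ (m ↔ ¬ d) := by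
  by_cases X <;> by_cases m <;> by_cases d <;> simp_all

theorem tt3 {x a : Prop} : x ↔ (a ↔ (x ↔ a)) := by
  by_cases x <;> by_cases a <;> simp [*]

theorem tt4 {x a : Prop} : (¬ (x ↔ a) ↔ (x ↔ ¬ a)) ∧ ((x ↔ a) ↔ ¬ (x ↔ ¬ a)) := by
  by_cases x <;> by_cases a <;> simp [*]

theorem con_aux {x y u a b c d X : Prop} (h : X ↔ ((x ↔ (u ↔ a)) ↔ c))
    (h' : X ↔ ((y ↔ (u ↔ b)) ↔ d)) : ((x ↔ a) ↔ c) ↔ ((y ↔ b) ↔ d) := by
  rw [h] at h'
  revert h'
  by_cases u <;> by_cases x <;> by_cases y <;> by_cases a <;> by_cases b <;> by_cases c <;>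
    simp [*]

namespace Ch

variable {C : Ch} {σ : State} {S : ℕ → Prop} {s g : Bool → ℕ → ℝ} {F : Fold} {l : ℕ} {A : Prop}

/-- The layer order is determined by the crease folded last. -/
def Ord (C : Ch) (σ : State) (S : ℕ → Prop) (τ : ℕ → ℕ) (s g : Bool → ℕ → ℝ) : Prop :=
  ∀ i j k, i ≤ k → k < j → j ≤ C.m → S k → (∀ e, i ≤ e → e < j → S e → τ e ≤ τ k) →
    ∀ p ∈ C.face i, ∀ q ∈ C.face j, σ.pos p = σ.pos q → C.ad s g k (σ.pos p) ≠ 0 →
      (σ.above q p ↔ ((C.val k = true ↔ s true k = s false k) ↔ C.ad s g k (σ.pos p) < 0)) ∧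
      (σ.above p q ↔ ¬ ((C.val k = true ↔ s true k = s false k) ↔ C.ad s g k (σ.pos p) < 0))

/-- The constraints on the times at which the creases are folded. -/
def Con (C : Ch) (S : ℕ → Prop) (τ : ℕ → ℕ) : Prop :=
  ∀ i j k l, k < j → i ≤ l → l < j → j ≤ C.m → S l → ∀ T : ℕ → Prop,
    (∀ e < j, T e ↔ i ≤ e ∧ S e ∧ τ e < τ l) → T k → (∀ e < j, T e → τ e ≤ τ k) →
    ∀ q ∈ C.face j, C.ph T j q ∈ C.face i → C.dd T k (C.ph T j q) ≠ 0 →
      C.dd T l (C.ph T j q) ≠ 0 →
      (((C.val k = true ↔ C.sl T true k = C.sl T false k) ↔ C.dd T k (C.ph T j q) < 0) ↔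
        ((C.val l = true ↔ C.sl T true l = C.sl T false l) ↔ 0 < C.dd T l (C.ph T j q)))

theorem ad_refl (f : C.Sf F l A) {s' g' : Bool → ℕ → ℝ} {k : ℕ}
    (hs : ∀ b, s' b k = if b = C.v l then -s b k else s b k)
    (hg : ∀ b, g' b k = if b = C.v l then 2 * F.c * co (C.v l) F.n - g b k else g b k) (z : Pt) :
    C.ad s' g' k (F.refl z) = C.ad s g k z := by
  rw [ad, ad, hs, hg, refl_co f.n1 f.n0]
  split_ifs
  · ring
  · rfl

theorem up_flip (G : C.Geo σ S s g) {s' : Bool → ℕ → ℝ} {k : ℕ} {a : Bool}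
    (hs : ∀ b, s' b k = if b = a then -s b k else s b k) :
    s' true k = s' false k ↔ ¬ s true k = s false k := by
  rw [hs, hs]
  rcases G.pm true k with e | e <;> rcases G.pm false k with e' | e' <;>
    cases a <;> simp [e, e'] <;> norm_num

theorem Geo.axis (h : C.Good) (G : C.Geo σ S s g) (hl : l < C.m) (f : C.Sf F l A)
    (hax : ∀ z ∈ F.hinge C.map, F.side (σ.pos z) = 0) (z : Pt) :
    C.ad s g l (F.refl z) = -C.ad s g l z := by
  obtain ⟨y, -, -, hz, -⟩ := h.ex_line hl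
  have a := hax _ ((hinge_single h hl f.sub f.mem).2 ⟨hz, co_pt _ _ _⟩)
  rw [side_co F (C.v l), f.n0, G.pos l hl.le _ (h.cf_line hl hz (co_pt _ _ _)).1, co_pt] at a
  rw [ad, ad, refl_co f.n1 f.n0, if_pos rfl]
  linear_combination (-2 * s (C.v l) l * co (C.v l) F.n) * a +
    (2 * s (C.v l) l * (s (C.v l) l * C.c l + g (C.v l) l)) * f.n1

theorem Geo.pos_eq (h : C.Good) (G : C.Geo σ S s g) {T : ℕ → Prop} {i j : ℕ} (hij : i ≤ j)
    (hj : j ≤ C.m) (hT : ∀ e < j, T e ↔ i ≤ e ∧ S e) {q : Pt} (hq : q ∈ C.cf j) (b : Bool) :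
    co b (σ.pos q) = s b i * co b (C.ph T j q) + g b i := by
  obtain ⟨a1, a2⟩ := G.canon h b hij hj hT
  rw [G.pos j hj q hq, co_ph, a1, a2]
  ring

theorem Geo.ad_eq (h : C.Good) (G : C.Geo σ S s g) {T : ℕ → Prop} {i k : ℕ} (hik : i ≤ k)
    (hk : k ≤ C.m) (hT : ∀ e < k, T e ↔ i ≤ e ∧ S e) {z w : Pt}
    (e : ∀ b, co b z = s b i * co b w + g b i) : C.ad s g k z = C.dd T k w := by
  obtain ⟨a1, a2⟩ := G.canon h (C.v k) hik hk hT
  rw [ad, dd, ax, e, a1, a2]
  push_cast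
  rcases G.pm (C.v k) i with e | e <;> rw [e] <;> ring

theorem Geo.up_eq (h : C.Good) (G : C.Geo σ S s g) {T : ℕ → Prop} {i k : ℕ} (hik : i ≤ k)
    (hk : k ≤ C.m) (hT : ∀ e < k, T e ↔ i ≤ e ∧ S e) :
    s true k = s false k ↔ (s true i = s false i ↔ C.sl T true k = C.sl T false k) := by
  rw [(G.canon h true hik hk hT).1, (G.canon h false hik hk hT).1]
  rcases G.pm true i with e | e <;> rcases G.pm false i with e' | e' <;>
    rcases sl_pm (C := C) T true k with a | a <;> rcases sl_pm (C := C) T false k with a' | a' <;>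
    rw [e, e', a, a'] <;> norm_num

theorem ord_step (h : C.Good) (G : C.Geo σ S s g) (hl : l < C.m) (hS : ¬ S l) (f : C.Sf F l A)
    (hax : ∀ z ∈ F.hinge C.map, F.side (σ.pos z) = 0)
    (ho : ∀ p ∈ F.U, C.ad s g l (σ.pos p) ≠ 0 → (F.over σ p ↔
      ((C.val l = true ↔ s true l = s false l) ↔ (A ↔ C.ad s g l (σ.pos p) < 0))))
    {τ : ℕ → ℕ} {t : ℕ} (ht : ∀ e, S e → τ e < t) (O : C.Ord σ S τ s g) {s' g' : Bool → ℕ → ℝ}
    [∀ k, Decidable (A ↔ k ≤ l)]
    (hs : ∀ b k, s' b k = if (A ↔ k ≤ l) ∧ b = C.v l then -s b k else s b k)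
    (hg : ∀ b k, g' b k =
      if (A ↔ k ≤ l) ∧ b = C.v l then 2 * F.c * co (C.v l) F.n - g b k else g b k) :
    C.Ord (σ.fold C.map F) (fun e => S e ∨ e = l) (Function.update τ l t) s' g' := by
  intro i j k h1 h2 h3 hk hmax p hp q hq e hd
  have ep := f.pos h hax (show i ≤ C.m by omega) (C.face_cf hp)
  have eq := f.pos h hax h3 (C.face_cf hq)
  have mp := f.mem i (by omega) p hp
  have mq := f.mem j h3 q hq
  have mov : ∀ k, (A ↔ k ≤ l) → (∀ z, C.ad s' g' k (F.refl z) = C.ad s g k z) ∧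
      (s' true k = s' false k ↔ ¬ s true k = s false k) := fun k hk =>
    ⟨ad_refl f (fun b => by simp [hs, hk]) fun b => by simp [hg, hk],
      up_flip G (a := C.v l) fun b => by simp [hs, hk]⟩
  have fix : ∀ k, ¬ (A ↔ k ≤ l) → (∀ z, C.ad s' g' k z = C.ad s g k z) ∧
      (s' true k = s' false k ↔ s true k = s false k) := fun k hk =>
    ⟨fun z => by simp [ad, hs, hg, hk], by simp [hs, hk]⟩
  rw [ep, eq] at e
  rw [ep] at hd ⊢
  simp only [State.fold]
  by_cases hc : i ≤ l ∧ l < j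
  · obtain rfl : k = l := by
      by_contra hn
      have a1 := hmax l hc.1 hc.2 (Or.inr rfl)
      rw [Function.update_self, Function.update_of_ne hn] at a1
      exact (ht k (hk.resolve_right hn)).not_ge a1
    by_cases hA : A
    · have a1 : A ↔ i ≤ k := iff_of_true hA h1
      have a2 : ¬ (A ↔ j ≤ k) := fun a => (a.1 hA).not_gt h2
      obtain ⟨b1, b2⟩ := mov k (iff_of_true hA le_rfl)
      rw [if_pos a1, b1] at hd ⊢
      simp only [mt mq.1 a2, mp.2 a1, if_true, if_false]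
      rw [ho p (mp.2 a1) hd, b2, iff_true_intro hA, true_iff]
      exact tt1
    · have a1 : ¬ (A ↔ i ≤ k) := fun a => hA (a.2 h1)
      have a2 : A ↔ j ≤ k := iff_of_false hA h2.not_ge
      obtain ⟨b1, b2⟩ := fix k fun a => hA (a.2 le_rfl)
      rw [if_neg a1, b1] at hd ⊢
      rw [if_neg a1, if_pos a2] at e
      rw [e, G.axis h hl f hax] at hd ⊢
      simp only [mt mp.1 a1, mq.2 a2, if_true, if_false]
      rw [ho q (mq.2 a2) (neg_ne_zero.1 hd), b2, iff_false_intro hA, false_iff, neg_lt_zero,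
        show ¬ C.ad s g k (σ.pos q) < 0 ↔ 0 < C.ad s g k (σ.pos q) from
          ⟨fun a => (not_lt.1 a).lt_of_ne (neg_ne_zero.1 hd).symm, fun a => a.le.not_gt⟩]
      exact ⟨Iff.rfl, Iff.rfl⟩
  · have hn : ∀ e, i ≤ e → e < j → e ≠ l := fun e a b c => hc (c ▸ ⟨a, b⟩)
    have O' := O i j k h1 h2 h3 (hk.resolve_right (hn k h1 h2)) (fun e a b c => by
      have := hmax e a b (Or.inl c)
      rwa [Function.update_of_ne (hn e a b), Function.update_of_ne (hn k h1 h2)] at this) p hp q hq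
    have jl : (A ↔ j ≤ l) ↔ (A ↔ i ≤ l) := by rw [show j ≤ l ↔ i ≤ l by omega]
    rw [jl] at mq
    have mov' := mov k
    have fix' := fix k
    rw [show k ≤ l ↔ i ≤ l by omega] at mov' fix'
    by_cases a1 : A ↔ i ≤ l
    · obtain ⟨b1, b2⟩ := mov' a1
      rw [if_pos a1, b1] at hd ⊢
      rw [if_pos a1, if_pos (jl.2 a1)] at e
      have e' : σ.pos p = σ.pos q := co_ext fun b => by
        have := congrArg (co b) e
        rw [refl_co f.n1 f.n0, refl_co f.n1 f.n0] at this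
        split_ifs at this
        · linarith
        · exact this
      obtain ⟨c1, c2⟩ := O' e' hd
      simp only [mp.2 a1, mq.2 a1, if_true]
      rw [c1, c2, b2]
      exact tt1
    · obtain ⟨b1, b2⟩ := fix' a1
      rw [if_neg a1, b1] at hd ⊢
      rw [if_neg a1, if_neg (mt jl.1 a1)] at e
      simp only [mt mp.1 a1, mt mq.1 a1, if_false]
      rw [b2]
      exact O' e hd

theorem con_step (h : C.Good) (G : C.Geo σ S s g) (hS : ¬ S l) (f : C.Sf F l A)
    {all two : Bool} (hL : Legal all two C.map σ F)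
    (ho : ∀ p ∈ F.U, C.ad s g l (σ.pos p) ≠ 0 → (F.over σ p ↔
      ((C.val l = true ↔ s true l = s false l) ↔ (A ↔ C.ad s g l (σ.pos p) < 0))))
    {τ : ℕ → ℕ} {t : ℕ} (ht : ∀ e, S e → τ e < t) (O : C.Ord σ S τ s g) (K : C.Con S τ) :
    C.Con (fun e => S e ∨ e = l) (Function.update τ l t) := by
  intro i j k l' h1 h2 h3 h4 hl' T hT hk hmax q hq hp d1 d2
  have ne : ∀ e, S e → e ≠ l := fun e a b => hS (b ▸ a)
  have bd : Function.update τ l t l' ≤ t := by
    rcases hl' with a | rfl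
    · rw [Function.update_of_ne (ne _ a)]; exact (ht _ a).le
    · rw [Function.update_self]
  have hT1 : ∀ e < j, T e → S e := fun e he a => ((hT e he).1 a).2.1.resolve_right fun b => by
    have := ((hT e he).1 a).2.2
    rw [b, Function.update_self] at this
    omega
  have hmax' : ∀ e < j, T e → τ e ≤ τ k := fun e he a => by
    have := hmax e he a
    rwa [Function.update_of_ne (ne _ (hT1 e he a)), Function.update_of_ne (ne _ (hT1 k h1 hk))]
      at this
  rcases hl' with hl' | rfl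
  · refine K i j k l' h1 h2 h3 h4 hl' T (fun e he => ⟨fun a => ?_, fun a => (hT e he).2 ?_⟩) hk hmax'
      q hq hp d1 d2
    · have := (hT e he).1 a
      rw [Function.update_of_ne (ne _ (hT1 e he a)), Function.update_of_ne (ne _ hl')] at this
      exact ⟨this.1, hT1 e he a, this.2.2⟩
    · rw [Function.update_of_ne (ne _ a.2.1), Function.update_of_ne (ne _ hl')]
      exact ⟨a.1, Or.inl a.2.1, a.2.2⟩
  have hT2 : ∀ e < j, T e ↔ i ≤ e ∧ S e := fun e he =>
    ⟨fun a => ⟨((hT e he).1 a).1, hT1 e he a⟩, fun a => (hT e he).2 ⟨a.1, Or.inl a.2, by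
      rw [Function.update_of_ne (ne _ a.2), Function.update_self]; exact ht _ a.2⟩⟩
  have hik := ((hT2 k h1).1 hk).1
  have e1 := G.pos i (by omega) _ (C.face_cf hp)
  have e : σ.pos (C.ph T j q) = σ.pos q := co_ext fun b =>
    (e1 b).trans (G.pos_eq h (by omega) h4 hT2 (C.face_cf hq) b).symm
  have a1 := G.ad_eq h hik (by omega) (fun e he => hT2 e (by omega)) e1
  have a2 := G.ad_eq h h2 (by omega) (fun e he => hT2 e (by omega)) e1
  obtain ⟨c1, c2⟩ := O i j k hik h1 h4 (hT1 k h1 hk)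
    (fun e a b c => hmax' e b ((hT2 e b).2 ⟨a, c⟩)) _ hp q hq e (a1 ▸ d1)
  have mp := f.mem i (by omega) _ hp
  have mq := f.mem j h4 q hq
  have nl : ¬ C.dd T l' (C.ph T j q) < 0 ↔ 0 < C.dd T l' (C.ph T j q) :=
    ⟨fun a => (not_lt.1 a).lt_of_ne d2.symm, fun a => a.le.not_gt⟩
  have c3 : σ.above q (C.ph T j q) ↔
      ((C.val l' = true ↔ s true l' = s false l') ↔ 0 < C.dd T l' (C.ph T j q)) := by
    rw [← c1] at c2
    by_cases hA : A
    · have m1 := mp.2 (iff_of_true hA h2)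
      obtain ⟨b1, b2⟩ := hL.free _ m1 q ⟨h.face_sub hq, fun a => ((mq.1 a).1 hA).not_gt h3⟩ e
      rw [ho _ m1 (a2 ▸ d2), a2, iff_true_intro hA, true_iff] at b1 b2
      rw [c2] at b1
      rw [← nl]
      exact tt2 b1 b2
    · have m1 := mq.2 (iff_of_false hA h3.not_ge)
      obtain ⟨b1, b2⟩ := hL.free _ m1 _ ⟨h.face_sub hp, fun a => hA ((mp.1 a).2 h2)⟩ e.symm
      rw [ho _ m1 (e ▸ a2 ▸ d2), ← e, a2, iff_false_intro hA, false_iff, nl] at b1 b2
      rw [c2] at b2
      exact ⟨fun a => by_contra fun b => b2 b a, b1⟩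
  rw [a1, G.up_eq h hik (by omega) fun e he => hT2 e (by omega)] at c1
  rw [G.up_eq h h2 (by omega) fun e he => hT2 e (by omega)] at c3
  exact con_aux c1 c3

theorem con_of_foldable (h : C.Good) (hN : C.NonCol) {all two : Bool}
    (H : Foldable all two C.map) : ∃ τ : ℕ → ℕ, (∀ k < C.m, ∀ l < C.m, τ k = τ l → k = l) ∧
      C.Con (fun e => e < C.m) τ := by
  obtain ⟨σ, h1, h2⟩ := H
  have J : ∃ S τ t s g, C.Geo σ S s g ∧ (∀ e, S e → τ e < t) ∧ (∀ k l, S k → S l → τ k = τ l → k = l) ∧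
      C.Ord σ S τ s g ∧ C.Con S τ := by
    clear h2
    induction h1 with
    | refl => exact ⟨_, id, 0, _, _, geo_init, fun _ a => a.elim, fun _ _ a => a.elim,
        fun _ _ _ _ _ _ a => a.elim, fun _ _ _ _ _ _ _ _ a => a.elim⟩
    | tail _ hs ih =>
      obtain ⟨F, hL, rfl⟩ := hs
      obtain ⟨S, τ, t, s, g, G, ht, hi, O, K⟩ := ih
      obtain ⟨l, hl, A, hS, f, ho⟩ := G.single h hN hL
      have hax := fun z hz => (hL.axis z hz).1
      have ne : ∀ e, S e → e ≠ l := fun e a b => hS (b ▸ a)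
      classical
      refine ⟨_, Function.update τ l t, t + 1, _, _, G.step h hl hS f hax, ?_, ?_,
        ord_step h G hl hS f hax ho ht O (fun _ _ => rfl) (fun _ _ => rfl),
        con_step h G hS f hL ho ht O K⟩
      · rintro e (a | rfl)
        · rw [Function.update_of_ne (ne _ a)]; exact (ht _ a).trans (Nat.lt_succ_self t)
        · rw [Function.update_self]; exact Nat.lt_succ_self t
      · rintro a b (ha | rfl) (hb | rfl) e
        · rw [Function.update_of_ne (ne _ ha), Function.update_of_ne (ne _ hb)] at e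
          exact hi a b ha hb e
        · rw [Function.update_of_ne (ne _ ha), Function.update_self] at e
          exact absurd e (ht _ ha).ne
        · rw [Function.update_of_ne (ne _ hb), Function.update_self] at e
          exact absurd e (ht _ hb).ne'
        · rfl
  obtain ⟨S, τ, -, s, g, G, -, hi, -, K⟩ := J
  have hS : ∀ e < C.m, S e := fun e he => by
    obtain ⟨y, -, -, hz, -⟩ := h.ex_line he
    exact by_contra fun hn => (G.not_folded h he hz (co_pt _ _ _)).2 hn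
      (C.forall_cr.1 h2 e he ((h.oseg_iff he).2 ⟨hz, co_pt _ _ _⟩))
  refine ⟨τ, fun k hk l hl => hi k l (hS k hk) (hS l hl),
    fun i j k l h1 h2 h3 h4 h5 T hT => K i j k l h1 h2 h3 h4 (hS l h5) T fun e he => ?_⟩
  exact (hT e he).trans (and_congr_right fun _ => and_congr_left fun _ =>
    iff_of_true (show e < C.m by omega) (hS e (by omega)))

theorem dd_near (hS : ¬ S l) (p : Pt) : C.dd S l (C.ph S l p) = co (C.v l) p - C.c l ∧
    C.dd S l (C.ph S (l + 1) p) = co (C.v l) p - C.c l := by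
  obtain ⟨a1, a2⟩ := sl_no (C := C) (b := C.v l) fun h => hS h.2
  simp only [dd, ax, co_ph, a1, a2]
  push_cast
  rcases sl_pm' (C := C) S (C.v l) l with e | e <;> rw [e] <;> constructor <;> ring

theorem step (h : C.Good) (G : C.Geo σ S s g) (hl : l < C.m) (hS : ¬ S l) (A : Prop)
    (hside : ∀ k ≤ C.m, (A ↔ k ≤ l) → ∀ p ∈ C.face k,
      (A → C.dd S l (C.ph S k p) ≤ 0) ∧ (¬ A → 0 ≤ C.dd S l (C.ph S k p)))
    (hfree : ∀ i ≤ l, ∀ j ≤ C.m, l < j → (A → l + 1 < j) → (¬ A → i < l) →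
      ∀ p ∈ C.face i, ∀ q ∈ C.face j, C.ph S i p = C.ph S j q →
        ((A ↔ (C.val l = true ↔ s true l = s false l)) → σ.above p q) ∧
        (¬ (A ↔ (C.val l = true ↔ s true l = s false l)) → σ.above q p)) :
    ∃ σ' s' g', Step .one false C.map σ σ' ∧ C.Geo σ' (fun e => S e ∨ e = l) s' g' ∧
      ∀ i ≤ l, ∀ j ≤ C.m, l < j → ∀ p ∈ C.face i, ∀ q ∈ C.face j,
        (σ'.above q p ↔ (C.val l = true ↔ s' true l = s' false l)) ∧
        (σ'.above p q ↔ ¬ (C.val l = true ↔ s' true l = s' false l)) := by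
  classical
  let η : ℝ := if A then -1 else 1
  let F : Fold := ⟨pt (C.v l) (η * s (C.v l) l) 0,
    η * s (C.v l) l * (s (C.v l) l * C.c l + g (C.v l) l),
    {p ∈ faces C.map | A ↔ co (C.v l) p < C.c l}, C.val l = true ↔ s true l = s false l⟩
  have f : C.Sf F l A := ⟨fun p hp => hp.1, fun k hk p hp => by
    refine (and_iff_right (h.face_sub hp)).trans (iff_congr Iff.rfl ⟨fun a => not_lt.1 fun b => ?_,
      (hp.2 l hl).2⟩)
    exact a.not_gt ((hp.2 l hl).1 b), by
      simp only [F, co_pt, η]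
      rcases G.pm (C.v l) l with e | e <;> split_ifs <;> simp [e], co_pt' _ _ _⟩
  have sd : ∀ w, F.side w = η * C.ad s g l w := fun w => by
    rw [side_co F (C.v l), f.n0, ad]
    simp only [F, co_pt]
    ring
  have hT : ∀ k, ∀ e < k, S e ↔ 0 ≤ e ∧ S e := by simp
  have da : ∀ k ≤ C.m, ∀ p ∈ C.cf k, C.ad s g l (σ.pos p) = C.dd S l (C.ph S k p) :=
    fun k hk p hp => G.ad_eq h (Nat.zero_le l) hl.le (hT l) (G.pos_eq h (Nat.zero_le k) hk (hT k) hp)
  have hh := fun z => hinge_single (z := z) h hl f.sub f.mem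
  have hax : ∀ z ∈ F.hinge C.map, F.side (σ.pos z) = 0 := fun z hz => by
    obtain ⟨a, b⟩ := (hh z).1 hz
    rw [sd, G.ad_near h hl hS (Or.inl (h.cf_line hl a b).1), b, sub_self, mul_zero]
  have hos : ∀ p ∈ F.U, 0 ≤ F.side (σ.pos p) := fun p hp => by
    obtain ⟨k, hk, a⟩ := h.exists_face hp.1
    obtain ⟨b1, b2⟩ := hside k hk ((f.mem k hk p a).1 hp) p a
    rw [sd, da k hk p (C.face_cf a)]
    simp only [η]
    split_ifs with hA
    · linarith [b1 hA]
    · linarith [b2 hA]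
  have fr : ∀ i ≤ l, ∀ j ≤ C.m, l < j → ∀ p ∈ C.face i, ∀ q ∈ C.face j, σ.pos p = σ.pos q →
      ((A ↔ F.top) → σ.above p q) ∧ (¬ (A ↔ F.top) → σ.above q p) := by
    intro i hi j hj hlj p hp q hq e
    have e' : C.ph S i p = C.ph S j q := co_ext fun b => by
      have a1 := G.pos_eq h (Nat.zero_le i) (by omega) (hT i) (C.face_cf hp) b
      have a2 := G.pos_eq h (Nat.zero_le j) hj (hT j) (C.face_cf hq) b
      rw [e, a2] at a1
      rcases G.pm b 0 with e0 | e0 <;> rw [e0] at a1 <;> linarith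
    refine hfree i hi j hj hlj (fun hA => lt_of_le_of_ne hlj ?_) (fun hA => lt_of_le_of_ne hi ?_)
      p hp q hq e'
    · rintro rfl
      have := (hside i (by omega) (iff_of_true hA hi) p hp).1 hA
      rw [e', (dd_near hS q).2] at this
      linarith [(hq.2 l hl).1 hlj]
    · rintro rfl
      have := (hside j hj (iff_of_false hA hlj.not_ge) q hq).2 hA
      rw [← e', (dd_near hS p).1] at this
      linarith [(hp.2 i hl).2 le_rfl]
  refine ⟨_, _, _, ⟨F, ⟨?_, f.sub, ?_, fun z hz => ⟨hax z hz, C.exists_cr.2 ⟨l, hl,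
    (h.seg_iff hl ((hh z).1 hz).1).2 ((hh z).1 hz).2⟩⟩, ?_, fun _ => hos, fun p hp q hq e => ?_,
    fun a => by cases a⟩, fun _ z hz w hw e => ?_, rfl⟩, G.step h hl hS f hax,
    fun i hi j hj hlj p hp q hq => ?_⟩
  · have a1 := f.n1
    have a2 := f.n0
    cases hv : C.v l <;> rw [hv] at a1 a2 <;>
      simp only [Bool.not_false, Bool.not_true, co_true, co_false] at a1 a2 <;> rw [a1, a2] <;>
      norm_num
  · obtain ⟨y, -, -, hz, -⟩ := h.ex_line hl
    exact ⟨_, (hh _).2 ⟨hz, co_pt _ _ _⟩⟩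
  · rw [forall_cr]
    intro e he z hz
    obtain ⟨a1, a2⟩ := (hh z).1 hz.1
    have a3 := ((h.oseg_iff he).1 hz.2).2
    obtain rfl : e = l := by
      rcases lt_trichotomy e l with h3 | h3 | h3
      · exact ((h.nest h3 hl a1).elim a3.le.not_gt a2.ge.not_gt).elim
      · exact h3
      · exact ((h.nest h3 he a1).elim a2.le.not_gt a3.ge.not_gt).elim
    have a4 := (G.not_folded h hl a1 a2).2 hS
    refine ⟨a4, ?_⟩
    rw [closure_over hos hz.1.1.2, G.up e hl.le z (h.cf_line hl a1 a2).1 a4]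
    exact tt3
  · rw [over_iff (hos p hp)]
    obtain ⟨i, hi, a⟩ := h.exists_face hp.1
    obtain ⟨j, hj, b⟩ := h.exists_face hq.1
    have a1 := (f.mem i hi p a).1 hp
    have b1 := mt (f.mem j hj q b).2 hq.2
    by_cases hA : A
    · simpa only [iff_true_intro hA, true_iff] using
        fr i (a1.1 hA) j hj (not_le.1 fun c => b1 (iff_of_true hA c)) p a q b e
    · have := fr j (by_contra fun c => b1 (iff_of_false hA c)) i hi (not_le.1 (mt a1.2 hA)) q b p a
        e.symm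
      simp only [iff_false_intro hA, false_iff, not_not] at this
      exact this.symm
  · obtain ⟨a1, a2⟩ := (hh z).1 hz.1
    obtain ⟨b1, b2⟩ := (hh w).1 hw.1
    refine co_ext fun b => ?_
    have c1 := G.pos l hl.le z (h.cf_line hl a1 a2).1 b
    have c2 := G.pos l hl.le w (h.cf_line hl b1 b2).1 b
    rw [e, c2] at c1
    rcases G.pm b l with e0 | e0 <;> rw [e0] at c1 <;> linarith
  · have mp := f.mem i (by omega) p hp
    have mq := f.mem j hj q hq
    simp only [State.fold]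
    by_cases hA : A
    · have a1 := mp.2 (iff_of_true hA hi)
      have a2 := mt mq.1 fun a => (a.1 hA).not_gt hlj
      simp only [a1, a2, if_true, if_false]
      rw [over_iff (hos p a1), up_flip (s' := fun b k => if (A ↔ k ≤ l) ∧ b = C.v l then -s b k else s b k) G
          (a := C.v l) fun b => by simp [hA]]
      exact tt4
    · have a1 := mt mp.1 fun a => hA (a.2 hi)
      have a2 := mq.2 (iff_of_false hA hlj.not_ge)
      simp only [a1, a2, if_true, if_false]
      rw [over_iff (hos q a2)]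
      simp [F, hA]

theorem phase (h : C.Good) (G : C.Geo σ S s g) (T : ℕ → Prop)
    (H : ∀ l < C.m, T l → ¬ S l ∧ ∀ R : ℕ → Prop, (∀ e, R e ↔ S e ∨ (T e ∧ l < e)) →
      (∀ k ≤ l, ∀ p ∈ C.face k, C.dd R l (C.ph R k p) ≤ 0) ∧
      ∀ i ≤ l, ∀ j ≤ C.m, l + 1 < j → ∀ p ∈ C.face i, ∀ q ∈ C.face j, C.ph R i p ≠ C.ph R j q) :
    ∃ σ' s' g', Relation.ReflTransGen (Step .one false C.map) σ σ' ∧
      C.Geo σ' (fun e => S e ∨ T e) s' g' := by
  have key : ∀ d ≤ C.m, ∃ σ' s' g', Relation.ReflTransGen (Step .one false C.map) σ σ' ∧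
      C.Geo σ' (fun e => S e ∨ (T e ∧ C.m - d ≤ e)) s' g' := by
    intro d
    induction d with
    | zero => exact fun _ => ⟨σ, s, g, .refl, G.congr fun e he =>
        or_iff_left fun a => by have := a.2; omega⟩
    | succ d ih =>
      intro hd
      obtain ⟨σ', s', g', r, G'⟩ := ih (by omega)
      obtain ⟨l, hl⟩ : ∃ l, C.m - d = l + 1 := ⟨C.m - (d + 1), by omega⟩
      rw [show C.m - (d + 1) = l by omega]
      rw [hl] at G'
      by_cases hT : T l
      · obtain ⟨a1, a2⟩ := H l (by omega) hT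
        obtain ⟨a3, a4⟩ := a2 (fun e => S e ∨ (T e ∧ l + 1 ≤ e)) fun _ => Iff.rfl
        obtain ⟨σ2, s2, g2, b1, b2, -⟩ := step h G' (show l < C.m by omega)
          (fun a => a.elim a1 fun a => by have := a.2; omega) True
          (fun k _ hk p hp => ⟨fun _ => a3 k (hk.1 trivial) p hp, fun a => (a trivial).elim⟩)
          fun i hi j hj _ c _ p hp q hq e => (a4 i hi j hj (c trivial) p hp q hq e).elim
        refine ⟨σ2, s2, g2, r.tail b1, b2.congr fun e _ => ?_⟩
        constructor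
        · rintro (a | ⟨a, b⟩)
          · exact Or.inl (Or.inl a)
          · exact b.lt_or_eq.elim (fun b => Or.inl (Or.inr ⟨a, b⟩)) fun b => Or.inr b.symm
        · rintro ((a | ⟨a, b⟩) | rfl)
          · exact Or.inl a
          · exact Or.inr ⟨a, by omega⟩
          · exact Or.inr ⟨hT, le_rfl⟩
      · refine ⟨σ', s', g', r, G'.congr fun e _ => or_congr_right (and_congr_right fun a => ?_)⟩
        have : e ≠ l := fun b => hT (b ▸ a)
        omega
  obtain ⟨σ', s', g', r, G'⟩ := key C.m le_rfl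
  exact ⟨σ', s', g', r, G'.congr fun e _ => by simp⟩

theorem Geo.done (h : C.Good) (G : C.Geo σ S s g) (hS : ∀ e < C.m, S e) :
    ∀ e ∈ C.map.2, oseg e ⊆ σ.folded :=
  C.forall_cr.2 fun e he z hz => (G.fold z ((h.oseg_iff he).1 hz).1).2
    ⟨e, he, hS e he, ((h.oseg_iff he).1 hz).2⟩

end Ch

end Pool.Agent.Lib.MP_3a3d34_lc
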