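import Mathlib
import Pool.Prelude.Def_F_458e953d

/-!
Orthogonally convex polygon maps and simple folds (finite some-layers and all-layers models; the
moving part is either required to lie on one side of the axis or not).
-/

set_option autoImplicit false

namespace Pool.Agent.Lib.MP_3a3d34_lc

open Set

/-- Points of the plane. -/
abbrev Pt := ℝ × ℝ

/-- `(l, r, b, t)` stands for the rectangle `[l, r] × [b, t]`. -/
abbrev Box := ℚ × ℚ × ℚ × ℚ

/-- `(v, c, a, b, val)` stands for the segment `{c} × [a, b]` if `v` and `[a, b] × {c}` otherwise;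
it is a valley crease if `val` and a mountain crease otherwise. -/
abbrev Crease := Bool × ℚ × ℚ × ℚ × Bool

/-- A map: the paper, given as a finite union of rectangles, and the creases. -/
abbrev PMap := List Box × List Crease

/-- The sheet of paper. -/
def paper (M : PMap) : Set Pt :=
  {p | ∃ R ∈ M.1, (R.1 : ℝ) ≤ p.1 ∧ p.1 ≤ R.2.1 ∧ (R.2.2.1 : ℝ) ≤ p.2 ∧ p.2 ≤ R.2.2.2}

/-- The closed segment of a crease. -/
def seg (e : Crease) : Set Pt :=
  if e.1 then {(e.2.1 : ℝ)} ×ˢ Icc (e.2.2.1 : ℝ) e.2.2.2.1
  else Icc (e.2.2.1 : ℝ) e.2.2.2.1 ×ˢ {(e.2.1 : ℝ)}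

/-- The segment of a crease without its end points. -/
def oseg (e : Crease) : Set Pt :=
  if e.1 then {(e.2.1 : ℝ)} ×ˢ Ioo (e.2.2.1 : ℝ) e.2.2.2.1
  else Ioo (e.2.2.1 : ℝ) e.2.2.2.1 ×ˢ {(e.2.1 : ℝ)}

/-- The paper is an orthogonally convex orthogonal polygon, the creases run through its interior
and two creases share at most end points. -/
structure Valid (M : PMap) : Prop where
  box : ∀ R ∈ M.1, R.1 < R.2.1 ∧ R.2.2.1 < R.2.2.2
  conn : IsConnected (interior (paper M))
  horiz : ∀ y : ℝ, OrdConnected {x : ℝ | (x, y) ∈ paper M}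
  vert : ∀ x : ℝ, OrdConnected {y : ℝ | (x, y) ∈ paper M}
  crease : ∀ e ∈ M.2, e.2.2.1 < e.2.2.2.1 ∧ oseg e ⊆ interior (paper M)
  disj : M.2.Pairwise fun e e' => Disjoint (oseg e) (seg e') ∧ Disjoint (seg e) (oseg e')

/-- The points inside the faces of the crease pattern. -/
def faces (M : PMap) : Set Pt := interior (paper M) \ ⋃ e ∈ M.2, seg e

/-- A flat folded state. -/
structure State where
  /-- the current position of each point of the paper -/
  pos : Pt → Pt
  /-- the front side of the paper at this point faces upwards -/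
  up : Pt → Prop
  /-- the layer order (used only for points of faces with the same position) -/
  above : Pt → Pt → Prop
  /-- the points along which the paper has been folded -/
  folded : Set Pt

/-- The unfolded paper. -/
def init : State := ⟨id, fun _ => True, fun _ _ => False, ∅⟩

/-- The data of a simple fold: the axis `⟨n, p⟩ = c`, the part `U` of the faces that is turned
about it, and the sense of the rotation. -/
structure Fold where
  /-- normal vector of the axis -/
  n : Pt
  /-- offset of the axis -/
  c : ℝ
  /-- the moving part -/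
  U : Set Pt
  /-- what moves on the side `⟨n, p⟩ ≥ c` passes over the top (and what moves on the other side
  passes underneath); otherwise the other way round -/
  top : Prop

/-- Signed distance from the axis. -/
def Fold.side (F : Fold) (p : Pt) : ℝ := F.n.1 * p.1 + F.n.2 * p.2 - F.c

/-- Reflection in the axis. -/
def Fold.refl (F : Fold) (p : Pt) : Pt :=
  (p.1 - 2 * F.side p * F.n.1, p.2 - 2 * F.side p * F.n.2)

/-- The points of the interior of the paper at which the moving part meets the resting part. -/
def Fold.hinge (F : Fold) (M : PMap) : Set Pt :=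
  interior (paper M) ∩ closure F.U ∩ closure (faces M \ F.U)

/-- The moving point `p` passes over the top (and not underneath). -/
def Fold.over (F : Fold) (σ : State) (p : Pt) : Prop := F.top ↔ 0 ≤ F.side (σ.pos p)

/-- `F` is a simple fold of the state `σ` in the some-layers model (`all = false`) or in the
all-layers model (`all = true`); the moving part lies on one side of the axis (`two = false`) or
is allowed to lie on both sides (`two = true`). -/
structure Legal (all two : Bool) (M : PMap) (σ : State) (F : Fold) : Prop where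
  unit : F.n.1 ^ 2 + F.n.2 ^ 2 = 1
  sub : F.U ⊆ faces M
  ne : (F.hinge M).Nonempty
  axis : ∀ z ∈ F.hinge M, F.side (σ.pos z) = 0 ∧ ∃ e ∈ M.2, z ∈ seg e
  assign : ∀ e ∈ M.2, ∀ z ∈ F.hinge M ∩ oseg e,
    z ∉ σ.folded ∧ (e.2.2.2.2 = true ↔ (σ.up z ↔ z ∈ closure {p ∈ F.U | F.over σ p}))
  oneSide : two = false → ∀ p ∈ F.U, 0 ≤ F.side (σ.pos p)
  free : ∀ p ∈ F.U, ∀ q ∈ faces M \ F.U, σ.pos p = σ.pos q →
    (F.over σ p → σ.above p q) ∧ (¬ F.over σ p → σ.above q p)
  layers : all = true → ∀ z ∈ F.hinge M \ σ.folded, ∀ w ∈ interior (paper M) \ σ.folded,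
    σ.pos w = σ.pos z → w ∈ F.hinge M

open Classical in
/-- The state after the fold. -/
noncomputable def State.fold (σ : State) (M : PMap) (F : Fold) : State where
  pos p := if p ∈ closure F.U then F.refl (σ.pos p) else σ.pos p
  up p := if p ∈ closure F.U then ¬ σ.up p else σ.up p
  above p q := if p ∈ F.U then (if q ∈ F.U then σ.above q p else F.over σ p)
    else (if q ∈ F.U then ¬ F.over σ q else σ.above p q)
  folded := σ.folded ∪ F.hinge M

/-- Some sequence of simple folds folds all the creases. -/
def Foldable (all two : Bool) (M : PMap) : Prop :=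
  ∃ σ, Relation.ReflTransGen (fun σ₁ σ₂ => ∃ F, Legal all two M σ₁ F ∧ σ₂ = σ₁.fold M F)
    init σ ∧
    ∀ e ∈ M.2, oseg e ⊆ σ.folded

open Classical in
/-- The decision problem: codes of simply foldable orthogonally convex maps. -/
noncomputable def Lang (all two : Bool) : N68a2faeb.DecisionProblem := fun s =>
  decide (∃ M : PMap, s = N487b59b3.bitEncode M ∧ Valid M ∧ Foldable all two M)

end Pool.Agent.Lib.MP_3a3d34_lc
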