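import Pool.Agent.Lib.MP_3a3d34_lc.Defs

/-!
The map attached to an instance of the subset sum problem: coordinates, paper and creases.
-/

set_option autoImplicit false

namespace Pool.Agent.Lib.MP_3a3d34_lc

open Set

/-- An instance of the subset sum problem. -/
structure Par where
  /-- number of items -/
  n : ℕ
  /-- items -/
  a : ℕ → ℕ
  /-- target -/
  t : ℕ

namespace Par

variable (P : Par)

/-- The sum of the items. -/
def A : ℕ := ((List.range P.n).map P.a).sum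

/-- The length of the long segments of the rod. -/
def L : ℕ := P.A + P.t + 2

/-- The length of the first segment of the rod. -/
def B : ℕ := P.A + P.n * P.L + 2 * P.t + 3

/-- The segments of the rod. -/
def sg (k : ℕ) : ℕ := if k = 0 then P.B else if k % 2 = 1 then P.a (k / 2) else P.L

/-- The heights of the creases of the rod. -/
def Y (k : ℕ) : ℕ := ((List.range k).map P.sg).sum

/-- The top of the paper. -/
def T : ℕ := P.Y (2 * P.n + 1)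

/-- The position of the third vertical crease. -/
def S : ℕ := 2 * P.n + 6

/-- The upper left corners. -/
def UL : List (ℤ × ℤ) :=
  (-7, 2 * (P.t : ℤ) - P.T) :: (-5, 1) ::
    (List.range (2 * P.n + 1)).map fun k => (((P.S + k : ℕ) : ℤ), ((P.Y (k + 1) : ℕ) : ℤ))

/-- The lower right corners. -/
def DR : List (ℤ × ℤ) :=
  (-3, -(P.T : ℤ) - 1) :: (0, 2 * (P.t : ℤ) - P.T + 1) :: (((P.S + 2 : ℕ) : ℤ), -1) ::
    (((2 * P.S + 2 : ℕ) : ℤ), (P.T : ℤ) - 1) ::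
    (List.range (2 * P.n)).map fun k => (((P.S + k + 3 : ℕ) : ℤ), ((P.Y (k + 1) : ℕ) : ℤ))

/-- The rectangles. -/
def boxes : List Box :=
  P.UL.flatMap fun u => (P.DR.filter fun d => decide (u.1 < d.1) && decide (d.2 < u.2)).map
    fun d => ((u.1 : ℚ), (d.1 : ℚ), (d.2 : ℚ), (u.2 : ℚ))

/-- A crease with integer coordinates. -/
def cr (v : Bool) (c a b : ℤ) (val : Bool) : Crease := (v, (c : ℚ), (a : ℚ), (b : ℚ), val)

/-- The creases. -/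
def creases : List Crease :=
  [cr true (-4) (-(P.T : ℤ) - 1) 0 true, cr true (-4) 0 1 true, cr true 0 (-1) 0 true,
    cr true 0 0 1 false, cr true P.S (-1) 0 true, cr true P.S 0 1 true,
    cr false 0 (-5) (-4) false, cr false 0 (-4) 0 true, cr false 0 0 P.S true,
    cr false 0 P.S ((P.S + 2 : ℕ) : ℤ) false] ++
  (List.range (2 * P.n)).map fun k => cr false (P.Y (k + 1)) ((P.S + k + 1 : ℕ) : ℤ)
    ((P.S + k + 2 : ℕ) : ℤ) (decide (k % 2 = 1))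

/-- The map. -/
def map : PMap := (P.boxes, P.creases)

/-- The depth of the slot. -/
noncomputable def ρ : ℝ := P.T - 2 * P.t

theorem Y_zero : P.Y 0 = 0 := rfl

theorem Y_succ (k : ℕ) : P.Y (k + 1) = P.Y k + P.sg k := by
  simp [Y, List.range_succ]

theorem sg_zero : P.sg 0 = P.B := rfl

theorem sg_odd (i : ℕ) : P.sg (2 * i + 1) = P.a i := by
  have h : (2 * i + 1) / 2 = i := by omega
  have h' : (2 * i + 1) % 2 = 1 := by omega
  simp [sg, h, h']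

theorem sg_even (i : ℕ) : P.sg (2 * i + 2) = P.L := by
  have h' : ¬ (2 * i + 2) % 2 = 1 := by omega
  simp only [sg, if_neg h']
  simp

theorem Y_one : P.Y 1 = P.B := by simp [Y_succ, Y_zero, sg_zero]

theorem A_eq : P.A = ∑ i ∈ Finset.range P.n, P.a i := rfl

theorem Y_odd (i : ℕ) : P.Y (2 * i + 1) = P.B + ∑ j ∈ Finset.range i, P.a j + i * P.L := by
  induction i with
  | zero => simp [Y_one]
  | succ i ih =>
    rw [show 2 * (i + 1) + 1 = 2 * i + 2 + 1 by ring, Y_succ, Y_succ, ih, sg_odd, sg_even,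
      Finset.sum_range_succ]
    ring

theorem T_eq : P.T = P.B + P.A + P.n * P.L := by rw [T, Y_odd, A_eq]

theorem a_le {i : ℕ} (h : i < P.n) : P.a i ≤ P.A := by
  rw [A_eq]
  exact Finset.single_le_sum (f := P.a) (fun _ _ => Nat.zero_le _) (Finset.mem_range.2 h)

/-- All items are positive. -/
def Pos : Prop := ∀ i, 0 < P.a i

variable {P}

theorem sg_pos (h : P.Pos) (k : ℕ) : 0 < P.sg k := by
  unfold sg
  split_ifs
  · unfold B; omega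
  · exact h _
  · unfold L; omega

theorem Y_mono (h : P.Pos) : StrictMono P.Y :=
  strictMono_nat_of_lt_succ fun k => by have := sg_pos h k; rw [Y_succ]; omega

variable (P)

theorem mem_paper {p : Pt} : p ∈ paper P.map ↔ ∃ u ∈ P.UL, ∃ d ∈ P.DR, u.1 < d.1 ∧ d.2 < u.2 ∧
    (u.1 : ℝ) ≤ p.1 ∧ p.1 ≤ d.1 ∧ (d.2 : ℝ) ≤ p.2 ∧ p.2 ≤ u.2 := by
  simp only [paper, map, boxes, List.mem_flatMap, List.mem_map, List.mem_filter, mem_ofPred_eq,
    Bool.and_eq_true, decide_eq_true_eq]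
  constructor
  · rintro ⟨R, ⟨u, hu, d, ⟨hd, h1, h2⟩, rfl⟩, h⟩
    exact ⟨u, hu, d, hd, h1, h2, by simpa using h⟩
  · rintro ⟨u, hu, d, hd, h1, h2, h⟩
    exact ⟨_, ⟨u, hu, d, ⟨hd, h1, h2⟩, rfl⟩, by simpa using h⟩

/-- The interior of the paper. -/
def Om : Set Pt :=
  {p | (∃ u ∈ P.UL, (u.1 : ℝ) < p.1 ∧ p.2 < u.2) ∧ ∃ d ∈ P.DR, p.1 < d.1 ∧ (d.2 : ℝ) < p.2}

theorem isOpen_Om : IsOpen P.Om := by
  have e : P.Om = (⋃ u ∈ P.UL, Ioi (u.1 : ℝ) ×ˢ Iio (u.2 : ℝ)) ∩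
      ⋃ d ∈ P.DR, Iio (d.1 : ℝ) ×ˢ Ioi (d.2 : ℝ) := by
    ext p
    simp only [Om, mem_ofPred_eq, mem_inter_iff, mem_iUnion, mem_prod, mem_Ioi, mem_Iio, exists_prop]
  rw [e]
  exact (isOpen_biUnion fun _ _ => isOpen_Ioi.prod isOpen_Iio).inter
    (isOpen_biUnion fun _ _ => isOpen_Iio.prod isOpen_Ioi)

theorem interior_paper : interior (paper P.map) = P.Om := by
  refine Subset.antisymm (fun p hp => ?_) (interior_maximal ?_ P.isOpen_Om)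
  · obtain ⟨ε, hε, h⟩ := Metric.mem_nhds_iff.1 (mem_interior_iff_mem_nhds.1 hp)
    have h1 : (p.1 - ε / 2, p.2 + ε / 2) ∈ paper P.map := h (by
      simp [Prod.dist_eq, abs_of_pos hε]; linarith)
    have h2 : (p.1 + ε / 2, p.2 - ε / 2) ∈ paper P.map := h (by
      simp [Prod.dist_eq, abs_of_pos hε]; linarith)
    obtain ⟨u, hu, -, -, -, -, a1, -, -, a2⟩ := P.mem_paper.1 h1
    obtain ⟨-, -, d, hd, -, -, -, b1, b2, -⟩ := P.mem_paper.1 h2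
    simp only at a1 a2 b1 b2
    exact ⟨⟨u, hu, by linarith, by linarith⟩, d, hd, by linarith, by linarith⟩
  · rintro p ⟨⟨u, hu, a1, a2⟩, d, hd, b1, b2⟩
    exact P.mem_paper.2 ⟨u, hu, d, hd, by exact_mod_cast a1.trans b1, by exact_mod_cast b2.trans a2,
      a1.le, b1.le, b2.le, a2.le⟩

theorem forall_UL {Q : ℝ → ℝ → Prop} : (∃ u ∈ P.UL, Q u.1 u.2) ↔
    Q (-7) (-P.ρ) ∨ Q (-5) 1 ∨ ∃ k ≤ 2 * P.n, Q (P.S + k) (P.Y (k + 1)) := by
  simp only [UL, List.mem_cons, List.mem_map, List.mem_range, exists_eq_or_imp, ρ,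
    Nat.lt_succ_iff]
  refine or_congr (by simp) (or_congr (by simp) ?_)
  constructor
  · rintro ⟨u, ⟨k, hk, rfl⟩, h⟩
    exact ⟨k, hk, by simpa using h⟩
  · rintro ⟨k, hk, h⟩
    exact ⟨_, ⟨k, hk, rfl⟩, by simpa using h⟩

theorem forall_DR {Q : ℝ → ℝ → Prop} : (∃ d ∈ P.DR, Q d.1 d.2) ↔
    Q (-3) (-P.T - 1) ∨ Q 0 (-P.ρ + 1) ∨ Q (P.S + 2) (-1) ∨ Q (2 * P.S + 2) (P.T - 1) ∨
      ∃ k < 2 * P.n, Q (P.S + k + 3) (P.Y (k + 1)) := by
  simp only [DR, List.mem_cons, List.mem_map, List.mem_range, exists_eq_or_imp, ρ]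
  refine or_congr (by simp) (or_congr (by simp) (or_congr (by simp) (or_congr (by simp) ?_)))
  constructor
  · rintro ⟨u, ⟨k, hk, rfl⟩, h⟩
    exact ⟨k, hk, by simpa using h⟩
  · rintro ⟨k, hk, h⟩
    exact ⟨_, ⟨k, hk, rfl⟩, by simpa using h⟩

theorem mem_Om {x y : ℝ} : (x, y) ∈ P.Om ↔
    ((-7 < x ∧ y < -P.ρ) ∨ (-5 < x ∧ y < 1) ∨ ∃ k ≤ 2 * P.n, P.S + k < x ∧ y < P.Y (k + 1)) ∧
    ((x < -3 ∧ -P.T - 1 < y) ∨ (x < 0 ∧ -P.ρ + 1 < y) ∨ (x < P.S + 2 ∧ -1 < y) ∨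
      (x < 2 * P.S + 2 ∧ P.T - 1 < y) ∨ ∃ k < 2 * P.n, x < P.S + k + 3 ∧ P.Y (k + 1) < y) :=
  and_congr (P.forall_UL (Q := fun a b => a < x ∧ y < b))
    (P.forall_DR (Q := fun a b => x < a ∧ b < y))

theorem S_eq : (P.S : ℝ) = 2 * P.n + 6 := by simp [S]

theorem S_ge : (6 : ℝ) ≤ P.S := by rw [S_eq]; linarith [(Nat.cast_nonneg P.n : (0 : ℝ) ≤ _)]

theorem B_ge : (3 : ℝ) ≤ P.B := by exact_mod_cast (by unfold B; omega : 3 ≤ P.B)

theorem ρ_ge : 3 ≤ P.ρ := by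
  have : 2 * P.t + 3 ≤ P.T := by rw [T_eq]; unfold B; omega
  have h : ((2 * P.t + 3 : ℕ) : ℝ) ≤ P.T := by exact_mod_cast this
  unfold ρ; push_cast at h; linarith

theorem ρ_le : P.ρ ≤ P.T := by unfold ρ; linarith [(Nat.cast_nonneg P.t : (0 : ℝ) ≤ _)]

theorem T_le : (P.T : ℝ) + 3 ≤ 2 * P.B := by
  have : P.T + 3 ≤ 2 * P.B := by rw [T_eq]; unfold B; omega
  exact_mod_cast this

theorem Y_last : (P.Y (2 * P.n) : ℝ) + 2 ≤ P.T := by
  have : P.Y (2 * P.n) + 2 ≤ P.T := by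
    rw [T, Y_succ]
    have : 2 ≤ P.sg (2 * P.n) := by
      unfold sg
      split_ifs
      · unfold B; omega
      · omega
      · unfold L; omega
    omega
  exact_mod_cast this

variable {P}

theorem Y_le (h : P.Pos) {i j : ℕ} (hij : i ≤ j) : (P.Y i : ℝ) ≤ P.Y j := by
  exact_mod_cast (Y_mono h).monotone hij

theorem Y_lt (h : P.Pos) {i j : ℕ} (hij : i < j) : (P.Y i : ℝ) < P.Y j := by
  exact_mod_cast Y_mono h hij

theorem lt_of_Y (h : P.Pos) {i j : ℕ} (hij : (P.Y i : ℝ) < P.Y j) : i < j :=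
  (Y_mono h).lt_iff_lt.1 (by exact_mod_cast hij)

theorem Y_ge (h : P.Pos) (k : ℕ) : (P.B : ℝ) ≤ P.Y (k + 1) := by
  rw [← Y_one]; exact Y_le h (by omega)

theorem Om_lo (h : P.Pos) {x y : ℝ} (hp : (x, y) ∈ P.Om) {k : ℕ} (hy : P.Y (k + 1) ≤ y) :
    P.S + k + 1 < x := by
  have := Y_ge h k
  have := P.B_ge
  have := P.ρ_ge
  rcases (P.mem_Om.1 hp).1 with h1 | h1 | ⟨i, -, h1, h2⟩
  · linarith [h1.2]
  · linarith [h1.2]
  · have : ((k + 1 : ℕ) : ℝ) ≤ i := by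
      exact_mod_cast Nat.lt_succ_iff.1 (lt_of_Y h (hy.trans_lt h2))
    push_cast at this
    linarith

theorem Om_hi (h : P.Pos) {x y : ℝ} (hp : (x, y) ∈ P.Om) {k : ℕ} (hy : y ≤ P.Y (k + 1))
    (hT : y ≤ P.T - 1) : x < P.S + k + 2 := by
  have := P.S_ge
  have : (0 : ℝ) ≤ k := Nat.cast_nonneg k
  rcases (P.mem_Om.1 hp).2 with h1 | h1 | h1 | h1 | ⟨i, -, h1, h2⟩
  · linarith [h1.1]
  · linarith [h1.1]
  · linarith [h1.1]
  · linarith [h1.2]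
  · have : ((i + 1 : ℕ) : ℝ) ≤ k := by
      exact_mod_cast Nat.lt_succ_iff.1 (lt_of_Y h (h2.trans_le hy))
    push_cast at this
    linarith

theorem Om_bd (h : P.Pos) {x y : ℝ} (hp : (x, y) ∈ P.Om) :
    -7 < x ∧ x < 2 * P.S + 2 ∧ -P.T - 1 < y ∧ y < P.T := by
  have := P.S_ge
  have := P.ρ_ge
  have := P.ρ_le
  have e := P.S_eq
  obtain ⟨a, b⟩ := P.mem_Om.1 hp
  refine ⟨?_, ?_, ?_, ?_⟩
  · rcases a with h1 | h1 | ⟨i, -, h1, -⟩
    · exact h1.1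
    · linarith [h1.1]
    · linarith [(Nat.cast_nonneg i : (0 : ℝ) ≤ _)]
  · rcases b with h1 | h1 | h1 | h1 | ⟨i, hi, h1, -⟩
    · linarith [h1.1]
    · linarith [h1.1]
    · linarith [h1.1]
    · exact h1.1
    · have : (i : ℝ) < (2 * P.n : ℕ) := by exact_mod_cast hi
      push_cast at this
      linarith
  · rcases b with h1 | h1 | h1 | h1 | ⟨i, -, -, h1⟩
    · exact h1.2
    · linarith [h1.2]
    · linarith [h1.2]
    · linarith [h1.2]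
    · linarith [(Nat.cast_nonneg (P.Y (i + 1)) : (0 : ℝ) ≤ _)]
  · rcases a with h1 | h1 | ⟨i, hi, -, h1⟩
    · linarith [h1.2]
    · linarith [h1.2]
    · exact h1.trans_le (Y_le h (by omega))

/-- Points of the paper below the long horizontal crease. -/
theorem Om_neg {x y : ℝ} (hy : y ≤ 0) : (x, y) ∈ P.Om ↔
    ((-7 < x ∧ y < -P.ρ) ∨ -5 < x) ∧
    ((x < -3 ∧ -P.T - 1 < y) ∨ (x < 0 ∧ -P.ρ + 1 < y) ∨ (x < P.S + 2 ∧ -1 < y)) := by
  have := P.S_ge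
  have := P.ρ_ge
  have := P.ρ_le
  rw [mem_Om]
  refine and_congr ⟨?_, ?_⟩ ⟨?_, ?_⟩
  · rintro (h1 | h1 | ⟨i, -, h1, -⟩)
    · exact Or.inl h1
    · exact Or.inr h1.1
    · exact Or.inr (by linarith [(Nat.cast_nonneg i : (0 : ℝ) ≤ _)])
  · rintro (h1 | h1)
    · exact Or.inl h1
    · exact Or.inr (Or.inl ⟨h1, by linarith⟩)
  · rintro (h1 | h1 | h1 | h1 | ⟨i, -, -, h1⟩)
    · exact Or.inl h1
    · exact Or.inr (Or.inl h1)
    · exact Or.inr (Or.inr h1)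
    · linarith [h1.2]
    · linarith [(Nat.cast_nonneg (P.Y (i + 1)) : (0 : ℝ) ≤ _)]
  · rintro (h1 | h1 | h1)
    · exact Or.inl h1
    · exact Or.inr (Or.inl h1)
    · exact Or.inr (Or.inr (Or.inl h1))

theorem Om_left {x y : ℝ} (hp : (x, y) ∈ P.Om) (hx : x ≤ P.S) : y < 1 ∧ (0 ≤ y → -5 < x) := by
  have := P.ρ_ge
  rcases (P.mem_Om.1 hp).1 with h1 | h1 | ⟨i, -, h1, -⟩
  · exact ⟨by linarith [h1.2], fun h => by linarith [h1.2]⟩
  · exact ⟨h1.2, fun _ => h1.1⟩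
  · linarith [(Nat.cast_nonneg i : (0 : ℝ) ≤ _)]

theorem Om_right {x y : ℝ} (hp : (x, y) ∈ P.Om) (hx : 0 ≤ x) : -1 < y := by
  by_contra hy
  rcases ((Om_neg (by linarith)).1 hp).2 with h1 | h1 | h1
  · linarith [h1.1]
  · linarith [h1.1]
  · exact hy h1.2

theorem mem_mid {x y : ℝ} (h1 : -5 < x) (h2 : x < P.S + 2) (h3 : -1 < y) (h4 : y < 1) :
    (x, y) ∈ P.Om :=
  P.mem_Om.2 ⟨Or.inr (Or.inl ⟨h1, h4⟩), Or.inr (Or.inr (Or.inl ⟨h2, h3⟩))⟩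

theorem mem_rod {x y : ℝ} {k : ℕ} (hk : k ≤ 2 * P.n) (h1 : P.S + k < x) (h2 : x < P.S + k + 2)
    (h3 : P.Y k < y) (h4 : y < P.Y (k + 1)) : (x, y) ∈ P.Om := by
  refine P.mem_Om.2 ⟨Or.inr (Or.inr ⟨k, hk, h1, h4⟩), Or.inr (Or.inr ?_)⟩
  cases k with
  | zero => exact Or.inl ⟨by simpa using h2, by rw [Y_zero] at h3; push_cast at h3; linarith⟩
  | succ k => exact Or.inr (Or.inr ⟨k, by omega, by push_cast at h2; linarith, h3⟩)

theorem mem_joint (h : P.Pos) {x : ℝ} {k : ℕ} (hk : k < 2 * P.n) (h1 : P.S + k + 1 < x)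
    (h2 : x < P.S + k + 2) : (x, (P.Y (k + 1) : ℝ)) ∈ P.Om := by
  refine P.mem_Om.2 ⟨Or.inr (Or.inr ⟨k + 1, hk, by push_cast; linarith, Y_lt h (by omega)⟩),
    Or.inr (Or.inr ?_)⟩
  cases k with
  | zero => exact Or.inl ⟨by simpa using h2, by
      linarith [(Nat.cast_nonneg (P.Y (0 + 1)) : (0 : ℝ) ≤ _)]⟩
  | succ k => exact Or.inr (Or.inr ⟨k, by omega, by push_cast at h2; linarith, Y_lt h (by omega)⟩)

theorem mem_bar {x y : ℝ} (h1 : P.S + 2 * P.n < x) (h2 : x < 2 * P.S + 2)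
    (h3 : P.T - 1 < y) (h4 : y < P.T) : (x, y) ∈ P.Om :=
  P.mem_Om.2 ⟨Or.inr (Or.inr ⟨2 * P.n, le_rfl, by push_cast; exact h1, h4⟩),
    Or.inr (Or.inr (Or.inr (Or.inl ⟨h2, h3⟩)))⟩

end Par

end Pool.Agent.Lib.MP_3a3d34_lc
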