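import Pool.Agent.Lib.MP_3a3d34_lc.Yes
import Pool.Agent.Lib.Common.CookLevin.Count
import Pool.Agent.Lib.MP_73cdf8_lc.Sim

/-!
Every problem in NP reduces to the subset sum problem and hence to simple foldability.
-/

set_option autoImplicit false

namespace Pool.Agent.Lib.MP_3a3d34_lc

open Pool.Agent.Lib.MP_acf5a6_lc Pool.Agent.Lib.Common.CookLevin N487b59b3

theorem uzip_cons {γ : Type} (x : γ) (l : List γ) :
    uzip (x :: l) = (x, ⟨0⟩) :: (uzip l).map (fun y => (y.1, ⟨y.2.n + 1⟩)) := by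
  simp [uzip, List.zipIdx_succ]

/-- The sum of `g` over all ways of choosing one entry of each pair. -/
def Cho : List (ℕ × ℕ) → (ℕ → ℤ) → ℤ
  | [], g => g 0
  | p :: ps, g => Cho ps (fun s => g (s + p.1)) + Cho ps (fun s => g (s + p.2))

theorem Cho_zero : ∀ ps : List (ℕ × ℕ), Cho ps (fun _ => 0) = 0
  | [] => rfl
  | _ :: ps => by simp [Cho, Cho_zero ps]

theorem Cho_append : ∀ (ps qs : List (ℕ × ℕ)) (g : ℕ → ℤ),
    Cho (ps ++ qs) g = Cho ps (fun s => Cho qs (fun s' => g (s + s')))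
  | [], _, _ => by simp [Cho]
  | _ :: ps, qs, g => by simp [Cho, Cho_append ps, add_right_comm]

theorem Cho_scale (B : ℕ) : ∀ (ps : List (ℕ × ℕ)) (g : ℕ → ℤ),
    Cho (ps.map (fun p => (B * p.1, B * p.2))) g = Cho ps (fun s => g (B * s))
  | [], _ => by simp [Cho]
  | _ :: ps, g => by simp [Cho, Cho_scale B ps, mul_add]

theorem Cho_bits {γ : Type} : ∀ (l : List γ) (g : ℕ → ℤ),
    Cho ((uzip l).map (fun y => (pow2 y.2, 0))) g = ∑ s ∈ Finset.range (2 ^ l.length), g s
  | [], _ => by simp [Cho, uzip]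
  | x :: l, g => by
    have e : (uzip (x :: l)).map (fun y => (pow2 y.2, 0)) = (1, 0) ::
        ((uzip l).map (fun y => (pow2 y.2, 0))).map (fun p => (2 * p.1, 2 * p.2)) := by
      simp [uzip_cons, pow2, pow_succ, mul_comm]
    have h : ∀ m, ∑ s ∈ Finset.range (m * 2), g s =
        ∑ s ∈ Finset.range m, g (2 * s + 1) + ∑ s ∈ Finset.range m, g (2 * s + 0) := by
      intro m
      induction m with
      | zero => simp
      | succ m ih =>
        rw [add_mul, one_mul, Finset.sum_range_succ, Finset.sum_range_succ, ih,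
          Finset.sum_range_succ, Finset.sum_range_succ, mul_comm m 2]
        simp only [add_zero]
        ring
    rw [e, Cho, Cho_scale, Cho_scale, Cho_bits l, Cho_bits l, List.length_cons, pow_succ, h]

theorem Cho_vars {γ : Type} [DecidableEq γ] (f : γ → Bool → ℕ) : ∀ (V : List γ), V.Nodup →
    ∀ g : ℕ → ℤ, Cho (V.map (fun v => (f v true, f v false))) g =
      ∑ U ∈ V.toFinset.powerset, g (∑ v ∈ V.toFinset, f v (decide (v ∈ U)))
  | [], _, _ => by simp [Cho]
  | v :: V, h, g => by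
    have hv : v ∉ V.toFinset := by simpa using (List.nodup_cons.1 h).1
    rw [List.map_cons, Cho, Cho_vars f V h.of_cons, Cho_vars f V h.of_cons, List.toFinset_cons,
      Finset.sum_powerset_insert hv, add_comm]
    congr 1
    · refine Finset.sum_congr rfl fun U hU => ?_
      rw [Finset.sum_insert hv, add_comm, decide_eq_false
        (fun h' => hv (Finset.mem_powerset.1 hU h'))]
    · refine Finset.sum_congr rfl fun U _ => ?_
      rw [Finset.sum_insert hv, add_comm, decide_eq_true (Finset.mem_insert_self v U)]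
      congr 2
      refine Finset.sum_congr rfl fun u hu => ?_
      simp [show u ≠ v from fun e => hv (e ▸ hu)]

theorem digit_eq {B x y x' y' : ℕ} (hx : x < B) (hx' : x' < B) :
    x + B * y = x' + B * y' ↔ x = x' ∧ y = y' := by
  refine ⟨fun h => ?_, fun h => by rw [h.1, h.2]⟩
  have h1 : x = x' := by
    have := congrArg (· % B) h
    simpa [Nat.mod_eq_of_lt hx, Nat.mod_eq_of_lt hx'] using this
  exact ⟨h1, Nat.eq_of_mul_eq_mul_left (by omega : 0 < B) (by omega)⟩

/-- The weight of a literal. -/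
def wt (K : Un) (φ : List Clause) (l : Lit) : ℕ :=
  ((uzip φ).map (fun x => pow2 (K.mul x.2) * (x.1.filter (fun y => decide (y = l))).length)).sum

/-- The slack items. -/
def slk (K : Un) (φ : List Clause) : List (ℕ × ℕ) :=
  (uzip φ).flatMap (fun x => (uzip x.1).map (fun y => (pow2 (K.mul x.2) * pow2 y.2, 0)))

/-- The target digits. -/
def tgt (K : Un) (φ : List Clause) : ℕ :=
  ((uzip φ).map (fun x => pow2 (K.mul x.2) * pow2 (ulen x.1))).sum

theorem sum_count {V : Finset Var} (ρ : Var → Bool) : ∀ C : Clause, (∀ l ∈ C, l.1 ∈ V) →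
    ∑ v ∈ V, (C.filter (fun y => decide (y = (v, ρ v)))).length = C.countP (ev ρ)
  | [], _ => by simp
  | l :: C, h => by
    have ih := sum_count ρ C (fun l hl => h l (List.mem_cons_of_mem _ hl))
    simp only [← List.countP_eq_length_filter, List.countP_cons, Finset.sum_add_distrib] at ih ⊢
    rw [ih, Finset.sum_eq_single l.1 (fun v _ hv => if_neg (by
      simp only [decide_eq_true_eq]; rintro rfl; exact hv rfl))
      (fun h' => absurd (h l List.mem_cons_self) h')]
    simp [ev, Prod.ext_iff, eq_comm]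

open Classical in
theorem Cho_slk {K : Un} {V : Finset Var} (ρ : Var → Bool) : ∀ φ : List Clause,
    (∀ C ∈ φ, C.length < K.n ∧ ∀ l ∈ C, l.1 ∈ V) →
    Cho (slk K φ) (fun s => if ∑ v ∈ V, wt K φ (v, ρ v) + s = tgt K φ then 1 else 0) =
      if ∀ C ∈ φ, Sat ρ C then 1 else 0
  | [], _ => by simp [slk, wt, tgt, uzip, Cho]
  | C :: φ, h => by
    obtain ⟨hC, hC'⟩ := h C List.mem_cons_self
    have ih := Cho_slk ρ φ (fun C hC => h C (List.mem_cons_of_mem _ hC))
    have e0 : ∀ n : ℕ, 2 ^ (K.n * (n + 1)) = 2 ^ K.n * 2 ^ (K.n * n) := fun n => by ring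
    have e1 : slk K (C :: φ) = (uzip C).map (fun y => (pow2 y.2, 0)) ++
        (slk K φ).map (fun p => (2 ^ K.n * p.1, 2 ^ K.n * p.2)) := by
      simp [slk, uzip_cons, pow2, Un.mul, List.flatMap_map, List.map_flatMap, e0,
        Function.comp_def, mul_assoc]
    have e2 : tgt K (C :: φ) = 2 ^ C.length + 2 ^ K.n * tgt K φ := by
      simp [tgt, uzip_cons, pow2, Un.mul, ulen, e0, Function.comp_def, mul_assoc,
        List.sum_map_mul_left]
    have e3 : ∑ v ∈ V, wt K (C :: φ) (v, ρ v) =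
        C.countP (ev ρ) + 2 ^ K.n * ∑ v ∈ V, wt K φ (v, ρ v) := by
      rw [← sum_count ρ C hC', Finset.mul_sum, ← Finset.sum_add_distrib]
      refine Finset.sum_congr rfl fun v _ => ?_
      simp [wt, uzip_cons, pow2, Un.mul, e0, Function.comp_def, mul_assoc, List.sum_map_mul_left]
    have b1 : C.countP (ev ρ) ≤ C.length := List.countP_le_length
    have b2 : C.length < 2 ^ C.length := Nat.lt_two_pow_self
    have b3 : 2 * 2 ^ C.length ≤ 2 ^ K.n := by
      rw [← pow_succ']
      exact Nat.pow_le_pow_right (by norm_num) hC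
    have b4 : Sat ρ C ↔ 0 < C.countP (ev ρ) := by simp [Sat, ev]
    rw [e1, e2, e3, Cho_append, Cho_bits, Finset.sum_congr rfl
      (g := fun s => if s = 2 ^ C.length - C.countP (ev ρ) then
        (if ∀ C ∈ φ, Sat ρ C then 1 else 0) else 0) (fun s hs => ?_)]
    · simp only [Finset.sum_ite_eq', Finset.mem_range, List.forall_mem_cons, b4]
      by_cases h0 : 0 < C.countP (ev ρ)
      · rw [if_pos (by omega)]; simp [h0]
      · rw [if_neg (by omega), if_neg (fun h => h0 h.1)]
    · have hs' := Finset.mem_range.1 hs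
      have e4 : ∀ s' : ℕ, (C.countP (ev ρ) + 2 ^ K.n * ∑ v ∈ V, wt K φ (v, ρ v) + (s + 2 ^ K.n * s') =
          2 ^ C.length + 2 ^ K.n * tgt K φ) ↔ (C.countP (ev ρ) + s = 2 ^ C.length ∧
            ∑ v ∈ V, wt K φ (v, ρ v) + s' = tgt K φ) := fun s' => by
        rw [← digit_eq (B := 2 ^ K.n) (by omega) (by omega)]
        constructor <;> intro h <;> linarith
      simp only [Cho_scale, e4]
      by_cases h1 : s = 2 ^ C.length - C.countP (ev ρ)
      · rw [if_pos h1, ← ih]
        simp only [show C.countP (ev ρ) + s = 2 ^ C.length by omega, true_and]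
      · rw [if_neg h1]
        simp only [show ¬ C.countP (ev ρ) + s = 2 ^ C.length by omega, false_and, if_false,
          Cho_zero]

/-- The width of a digit. -/
def uK (φ : List Clause) : Un := (ulen (φ.flatMap (fun C => C))).add ⟨1⟩

/-- The pairs attached to a formula. -/
def pairs (V : List Var) (φ : List Clause) : List (ℕ × ℕ) :=
  V.map (fun v => (wt (uK φ) φ (v, true), wt (uK φ) φ (v, false))) ++ slk (uK φ) φ

open Classical in
theorem Cho_count {V : List Var} (hV : V.Nodup) {φ : List Clause}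
    (h : ∀ C ∈ φ, ∀ l ∈ C, l.1 ∈ V) :
    Cho (pairs V φ) (fun s => if s = tgt (uK φ) φ then 1 else 0) =
      (V.toFinset.powerset.filter (fun U => ∀ C ∈ φ, Sat (fun v => decide (v ∈ U)) C)).card := by
  rw [pairs, Cho_append, Cho_vars (fun v b => wt (uK φ) φ (v, b)) V hV,
    Finset.sum_congr rfl (fun U _ => Cho_slk (K := uK φ) (fun v => decide (v ∈ U)) φ (fun C hC =>
      ⟨Nat.lt_succ_of_le (List.Sublist.length_le (List.sublist_flatten_of_mem
        (List.mem_map.2 ⟨C, hC, rfl⟩))), fun l hl => List.mem_toFinset.2 (h C hC l hl)⟩)),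
    Finset.sum_boole]

/-- The parameters attached to a list of items and a target. -/
def par (x : List ℕ × ℕ) : Par := ⟨x.1.length, fun i => x.1.getD i 1, x.2⟩

theorem par_pos {x : List ℕ × ℕ} (h : ∀ a ∈ x.1, 0 < a) : (par x).Pos := fun i => by
  change 0 < x.1.getD i 1
  rw [List.getD_eq_getElem?_getD]
  cases e : x.1[i]? with
  | none => simp
  | some a => exact h a (List.mem_of_getElem? e)

theorem sol_iff (P : Par) : P.Sol ↔
    ∃ c : ℕ → Bool, ∑ i ∈ Finset.range P.n, (if c i then P.a i else 0) = P.t := by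
  constructor
  · rintro ⟨s, h1, h2⟩
    refine ⟨fun i => decide (i ∈ s), ?_⟩
    simp only [decide_eq_true_eq]
    rw [← Finset.sum_filter, Finset.filter_mem_eq_inter, Finset.inter_eq_right.2 h1, h2]
  · rintro ⟨c, h⟩
    exact ⟨_, Finset.filter_subset (fun i => c i = true) _, by rw [← h, Finset.sum_filter]⟩

theorem sol_nil (s : ℕ) : (par ([], s)).Sol ↔ s = 0 := by
  rw [sol_iff]
  exact ⟨fun ⟨_, h⟩ => h.symm, fun h => ⟨fun _ => true, h.symm⟩⟩

theorem sol_cons (a : ℕ) (l : List ℕ) (s : ℕ) :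
    (par (a :: l, s)).Sol ↔ ∃ s', (par (l, s')).Sol ∧ (s = s' ∨ s = s' + a) := by
  simp only [sol_iff, par, List.length_cons, Finset.sum_range_succ', List.getD_cons_succ,
    List.getD_cons_zero]
  constructor
  · rintro ⟨c, h⟩
    refine ⟨_, ⟨fun i => c (i + 1), rfl⟩, ?_⟩
    split_ifs at h
    · exact Or.inr h.symm
    · exact Or.inl h.symm
  · rintro ⟨_, ⟨c, rfl⟩, rfl | rfl⟩
    · exact ⟨fun i => Nat.casesOn i false c, by simp⟩
    · exact ⟨fun i => Nat.casesOn i true c, by simp⟩

/-- The positive differences of the pairs. -/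
def its (ps : List (ℕ × ℕ)) : List ℕ :=
  (ps.map fun p => p.1 - p.2 + (p.2 - p.1)).filter fun a => decide (0 < a)

/-- The sum of the minima of the pairs. -/
def mn (ps : List (ℕ × ℕ)) : ℕ := (ps.map fun p => p.1 - (p.1 - p.2)).sum

theorem Cho_pos : ∀ (ps : List (ℕ × ℕ)) (g : ℕ → ℤ), (∀ s, 0 ≤ g s) → 0 ≤ Cho ps g ∧
    (0 < Cho ps g ↔ ∃ s, (par (its ps, s)).Sol ∧ 0 < g (s + mn ps))
  | [], g, h => ⟨h 0, by simp [Cho, its, mn, sol_nil]⟩
  | p :: ps, g, h => by
    obtain ⟨a1, a2⟩ := Cho_pos ps (fun s => g (s + p.1)) fun _ => h _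
    obtain ⟨b1, b2⟩ := Cho_pos ps (fun s => g (s + p.2)) fun _ => h _
    have e1 : mn (p :: ps) = mn ps + (p.1 - (p.1 - p.2)) := by simp [mn, add_comm]
    rw [Cho]
    refine ⟨add_nonneg a1 b1, ?_⟩
    rw [show 0 < Cho ps (fun s => g (s + p.1)) + Cho ps (fun s => g (s + p.2)) ↔
      0 < Cho ps (fun s => g (s + p.1)) ∨ 0 < Cho ps (fun s => g (s + p.2)) by omega, a2, b2, e1]
    by_cases hp : p.1 = p.2
    · have e2 : its (p :: ps) = its ps := by simp [its, hp]
      simp [e2, hp, add_assoc]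
    · have e2 : its (p :: ps) = (p.1 - p.2 + (p.2 - p.1)) :: its ps := by
        rw [its, List.map_cons, List.filter_cons_of_pos (by simp; omega), its]
      simp only [e2, sol_cons]
      constructor
      · rintro (⟨s, h1, h2⟩ | ⟨s, h1, h2⟩)
        · exact ⟨s + (p.1 - p.2), ⟨s, h1, by omega⟩, by
            rwa [show s + (p.1 - p.2) + (mn ps + (p.1 - (p.1 - p.2))) = s + mn ps + p.1 by omega]⟩
        · exact ⟨s + (p.2 - p.1), ⟨s, h1, by omega⟩, by
            rwa [show s + (p.2 - p.1) + (mn ps + (p.1 - (p.1 - p.2))) = s + mn ps + p.2 by omega]⟩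
      · rintro ⟨s, ⟨s', h1, h2⟩, h3⟩
        have h4 : s + (mn ps + (p.1 - (p.1 - p.2))) = s' + mn ps + p.1 ∨
          s + (mn ps + (p.1 - (p.1 - p.2))) = s' + mn ps + p.2 := by omega
        rcases h4 with h4 | h4 <;> rw [h4] at h3
        exacts [Or.inl ⟨s', h1, h3⟩, Or.inr ⟨s', h1, h3⟩]

/-- The subset sum instance attached to a list of pairs and a target. -/
def inst (ps : List (ℕ × ℕ)) (t : ℕ) : List ℕ × ℕ :=
  if mn ps ≤ t then (its ps, t - mn ps) else ([], 1)

theorem inst_pos (ps : List (ℕ × ℕ)) (t : ℕ) : (par (inst ps t)).Pos := by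
  refine par_pos fun a ha => ?_
  unfold inst at ha
  split_ifs at ha
  · simpa using (List.mem_filter.1 ha).2
  · simp at ha

theorem inst_sol (ps : List (ℕ × ℕ)) (t : ℕ) :
    (par (inst ps t)).Sol ↔ 0 < Cho ps (fun s => if s = t then 1 else 0) := by
  rw [(Cho_pos ps _ fun s => by split_ifs <;> norm_num).2, inst]
  split_ifs with h
  · refine ⟨fun h1 => ⟨_, h1, by rw [if_pos (by omega)]; norm_num⟩, ?_⟩
    rintro ⟨s, h1, h2⟩
    obtain rfl : s = t - mn ps := by
      by_contra hc
      rw [if_neg (by omega)] at h2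
      exact lt_irrefl _ h2
    exact h1
  · rw [sol_nil]
    refine iff_of_false one_ne_zero ?_
    rintro ⟨s, -, h2⟩
    rw [if_neg (by omega)] at h2
    exact lt_irrefl _ h2

section pt

variable {α : Type} [N487b59b3 α]

@[fun_prop] theorem uK_PT {φ : α → List Clause} (h : PT φ) : PT (fun x => uK (φ x)) := by
  unfold uK; fun_prop

@[fun_prop] theorem tgt_PT {K : α → Un} {φ : α → List Clause} (hK : PT K) (h : PT φ) :
    PT (fun x => tgt (K x) (φ x)) := by
  unfold tgt; fun_prop

@[fun_prop] theorem wt_PT {K : α → Un} {φ : α → List Clause} {l : α → Lit} (hK : PT K)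
    (h : PT φ) (hl : PT l) : PT (fun x => wt (K x) (φ x) (l x)) := by
  unfold wt; fun_prop

@[fun_prop] theorem pairs_PT {V : α → List Var} {φ : α → List Clause} (hV : PT V) (h : PT φ) :
    PT (fun x => pairs (V x) (φ x)) := by
  unfold pairs slk; fun_prop

@[fun_prop] theorem inst_PT {a : α → List (ℕ × ℕ)} {t : α → ℕ} (ha : PT a) (ht : PT t) :
    PT (fun x => inst (a x) (t x)) := by
  unfold inst its mn; fun_prop

@[fun_prop] theorem intLt_PT {f g : α → ℤ} (hf : PT f) (hg : PT g) :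
    PT (fun x => decide (f x < g x)) :=
  PT.of_eq (f := fun x => decide (0 < (g x - f x).toNat)) (by fun_prop) fun x => by
    simp

@[fun_prop] theorem cr_PT {v w : α → Bool} {c a b : α → ℤ} (hv : PT v) (hc : PT c) (ha : PT a)
    (hb : PT b) (hw : PT w) : PT (fun x => Par.cr (v x) (c x) (a x) (b x) (w x)) := by
  unfold Par.cr; fun_prop

/-- The number of segments of the rod. -/
def uN (x : List ℕ × ℕ) : Un := ((ulen x.1).add (ulen x.1)).add ⟨1⟩

/-- The segments of the rod. -/
def pS (x : List ℕ × ℕ) (k : ℕ) : ℕ := (par x).sg k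

/-- The heights of the creases of the rod. -/
def pY (x : List ℕ × ℕ) (k : ℕ) : ℕ := ((rng (uN x) k).map (pS x)).sum

theorem uN_n (x : List ℕ × ℕ) : (uN x).n = 2 * (par x).n + 1 := by
  simp [uN, Un.add, ulen, par, two_mul]

theorem pY_eq (x : List ℕ × ℕ) {k : ℕ} (h : k ≤ 2 * (par x).n + 1) : pY x k = (par x).Y k := by
  rw [pY, rng_eq (by rw [uN_n]; exact h)]
  rfl

@[fun_prop] theorem uN_PT {f : α → List ℕ × ℕ} (hf : PT f) : PT (fun x => uN (f x)) := by
  unfold uN; fun_prop

@[fun_prop] theorem pS_PT {f : α → List ℕ × ℕ} {k : α → ℕ} (hf : PT f) (hk : PT k) :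
    PT (fun x => pS (f x) (k x)) := by
  have hA : PT (fun x => (par (f x)).A) :=
    PT.of_eq (f := fun x => ((urange (ulen (f x).1)).map fun i => (f x).1.getD i 1).sum)
      (by fun_prop) fun _ => rfl
  have hL : PT (fun x => (par (f x)).L) :=
    PT.of_eq (f := fun x => (par (f x)).A + (f x).2 + 2) (by fun_prop) fun _ => rfl
  have hB : PT (fun x => (par (f x)).B) :=
    PT.of_eq (f := fun x => (par (f x)).A + (f x).1.length * (par (f x)).L + 2 * (f x).2 + 3)
      (by fun_prop) fun _ => rfl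
  exact PT.of_eq (f := fun x => if k x = 0 then (par (f x)).B else if k x % 2 = 1 then
    (f x).1.getD (k x / 2) 1 else (par (f x)).L) (by fun_prop) fun _ => rfl

@[fun_prop] theorem pY_PT {f : α → List ℕ × ℕ} {k : α → ℕ} (hf : PT f) (hk : PT k) :
    PT (fun x => pY (f x) (k x)) := by
  unfold pY rng; fun_prop

/-- The top of the paper. -/
def pT (x : List ℕ × ℕ) : ℕ := (par x).T

/-- The third vertical crease. -/
def pV (x : List ℕ × ℕ) : ℕ := (par x).S

/-- The upper left corners. -/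
def pU (x : List ℕ × ℕ) : List (ℤ × ℤ) := (par x).UL

/-- The lower right corners. -/
def pD (x : List ℕ × ℕ) : List (ℤ × ℤ) := (par x).DR

@[fun_prop] theorem pT_PT {f : α → List ℕ × ℕ} (hf : PT f) : PT (fun x => pT (f x)) :=
  PT.of_eq (f := fun x => pY (f x) (2 * (f x).1.length + 1)) (by fun_prop) fun _ => pY_eq _ le_rfl

@[fun_prop] theorem pV_PT {f : α → List ℕ × ℕ} (hf : PT f) : PT (fun x => pV (f x)) :=
  PT.of_eq (f := fun x => 2 * (f x).1.length + 6) (by fun_prop) fun _ => rfl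

theorem rng_uN (x : List ℕ × ℕ) : rng (uN x) (2 * x.1.length) = List.range (2 * (par x).n) :=
  rng_eq (by rw [uN_n]; exact Nat.le_succ _)

@[fun_prop] theorem pU_PT {f : α → List ℕ × ℕ} (hf : PT f) : PT (fun x => pU (f x)) :=
  PT.comp (PT.of_eq (f := fun x : List ℕ × ℕ => ((-7 : ℤ), 2 * (x.2 : ℤ) - pT x) :: (-5, 1) ::
    (urange (uN x)).map fun k => (((pV x + k : ℕ) : ℤ), ((pY x (k + 1) : ℕ) : ℤ)))
    (by fun_prop) fun x => by
      rw [urange, uN_n, List.map_congr_left fun k hk => by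
        rw [pY_eq x (List.mem_range.1 hk)]]
      rfl) hf

@[fun_prop] theorem pD_PT {f : α → List ℕ × ℕ} (hf : PT f) : PT (fun x => pD (f x)) :=
  PT.comp (PT.of_eq (f := fun x : List ℕ × ℕ => ((-3 : ℤ), -(pT x : ℤ) - 1) ::
    (0, 2 * (x.2 : ℤ) - pT x + 1) :: (((pV x + 2 : ℕ) : ℤ), -1) ::
    (((2 * pV x + 2 : ℕ) : ℤ), (pT x : ℤ) - 1) :: (rng (uN x) (2 * x.1.length)).map
      fun k => (((pV x + k + 3 : ℕ) : ℤ), ((pY x (k + 1) : ℕ) : ℤ)))
    (by unfold rng; fun_prop) fun x => by
      rw [rng_uN, List.map_congr_left fun k hk => by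
        rw [pY_eq x (by have := List.mem_range.1 hk; omega)]]
      rfl) hf

theorem map_PT : PT (fun x : List ℕ × ℕ => (par x).map) := by
  have hB : PT (fun x : List ℕ × ℕ => (par x).boxes) :=
    PT.of_eq (f := fun x => (pU x).flatMap fun u =>
      ((pD x).filter fun d => decide (u.1 < d.1) && decide (d.2 < u.2)).map
        fun d => ((u.1 : ℚ), (d.1 : ℚ), (d.2 : ℚ), (u.2 : ℚ))) (by fun_prop) fun _ => rfl
  have hC : PT (fun x : List ℕ × ℕ => (par x).creases) :=
    PT.of_eq (f := fun x => [Par.cr true (-4) (-(pT x : ℤ) - 1) 0 true,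
      Par.cr true (-4) 0 1 true, Par.cr true 0 (-1) 0 true, Par.cr true 0 0 1 false,
      Par.cr true (pV x) (-1) 0 true, Par.cr true (pV x) 0 1 true,
      Par.cr false 0 (-5) (-4) false, Par.cr false 0 (-4) 0 true, Par.cr false 0 0 (pV x) true,
      Par.cr false 0 (pV x) ((pV x + 2 : ℕ) : ℤ) false] ++
      (rng (uN x) (2 * x.1.length)).map fun k => Par.cr false (pY x (k + 1))
        ((pV x + k + 1 : ℕ) : ℤ) ((pV x + k + 2 : ℕ) : ℤ) (decide (k % 2 = 1)))
      (by unfold rng; fun_prop) fun x => by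
        rw [rng_uN, List.map_congr_left fun k hk => by
          rw [pY_eq x (by have := List.mem_range.1 hk; omega)]]
        rfl
  exact PT.prodMk hB hC

end pt

theorem np_hard (all two : Bool) {L : N68a2faeb.DecisionProblem} (hL : L ∈ N68a2faeb.NP) :
    N793a5b8e.ManyOneReducible L (Lang all two) := by
  obtain ⟨p, R, hR, H⟩ := hL
  have hR' : PT (fun z : List Bool × List Bool => R (z.1, (Raw.mk (sfst z.2)).s)) :=
    PT.comp (MP_73cdf8_lc.PT_of_isPolyTime hR)
      (PT.prodMk (PT.fst PT.id') (PT.rawBits (PT.rawFst (PT.rawMk (PT.snd PT.id')))))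
  obtain ⟨V, φ, hV, hφ, hc⟩ := count_hard hR'.isPolyTime (2 * p + 1)
  let I : List Bool → List ℕ × ℕ := fun x => inst (pairs (V x) (φ x)) (tgt (uK (φ x)) (φ x))
  have hI : PT I := by fun_prop
  refine ⟨fun x => (toRaw (par (I x)).map).s,
    (PT.rawBits (PT.toRaw' (PT.comp map_PT hI))).isPolyTime, fun x => ?_⟩
  obtain ⟨c1, c2, c3⟩ := hc x
  have hp := inst_pos (pairs (V x) (φ x)) (tgt (uK (φ x)) (φ x))
  rw [Bool.eq_iff_iff, H]
  simp only [Lang, decide_eq_true_eq]
  trans (par (I x)).Sol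
  · rw [inst_sol, Cho_count c1 c2, c3, Nat.cast_pos, Finset.card_pos]
    have e : (2 * p + 1).eval x.length = 2 * p.eval x.length + 1 := by simp
    constructor
    · rintro ⟨w, h1, h2⟩
      let w' := delimit w ++ List.replicate (2 * (p.eval x.length - w.length)) false
      have h3 : w'.length = (2 * p + 1).eval x.length := by
        simp only [w', List.length_append, length_delimit, List.length_replicate, e]
        omega
      refine ⟨fun i => w'[i], Finset.mem_filter.2 ⟨Finset.mem_univ _, ?_⟩⟩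
      have h4 : (List.ofFn fun i : Fin ((2 * p + 1).eval x.length) => w'[i]) = w' :=
        List.ext_getElem (by simp [h3]) fun i _ _ => List.getElem_ofFn _
      simp only [h4, w', sfst_delimit]
      exact h2
    · rintro ⟨w, hw⟩
      refine ⟨_, ?_, (Finset.mem_filter.1 hw).2⟩
      have := length_sfst_ssnd (List.ofFn w)
      simp only [List.length_ofFn] at this ⊢
      omega
  · refine ⟨fun h => ⟨_, rfl, Par.valid hp, (Par.foldable_of_sol hp all h).mono⟩, ?_⟩
    rintro ⟨M, h1, -, h2⟩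
    rw [← bitEncode_injective (a₁ := (par (I x)).map) h1] at h2
    exact Par.sol_of_foldable hp h2

end Pool.Agent.Lib.MP_3a3d34_lc
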