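import Pool.Agent.Lib.MP_3a3d34_lc.Defs

/-!
Simple foldability in the three layer models, with both readings of the all-layers model.
-/

set_option autoImplicit false

namespace Pool.Agent.Lib.MP_3a3d34_lc

open Set

/-- The models of simple folds. -/
inductive Model
  /-- one-layer folds -/
  | one
  /-- some-layers folds -/
  | some
  /-- all-layers folds along a segment -/
  | all
  /-- all-layers folds along a whole line -/
  | line

/-- The model is the all-layers model with folds along a segment. -/
def Model.isAll : Model → Bool
  | .all => true
  | _ => false

/-- `σ₂` arises from `σ₁` by a simple fold of the model `mo`. In the one-layer model at most one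
layer is creased at each point of the axis; in the model `line` everything on one side of the
axis is turned over. -/
def MStep (mo : Model) (two : Bool) (M : PMap) (σ₁ σ₂ : State) : Prop :=
  ∃ F, Legal mo.isAll two M σ₁ F ∧ (mo = .one → InjOn σ₁.pos (F.hinge M \ σ₁.folded)) ∧
    (mo = .line → ∀ p ∈ faces M, p ∈ F.U ↔ 0 < F.side (σ₁.pos p)) ∧ σ₂ = σ₁.fold M F

/-- Some sequence of simple folds of the model `mo` folds all the creases. -/
def MFold (mo : Model) (two : Bool) (M : PMap) : Prop :=
  ∃ σ, Relation.ReflTransGen (MStep mo two M) init σ ∧ ∀ e ∈ M.2, oseg e ⊆ σ.folded

open Classical in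
/-- The decision problem: codes of orthogonally convex maps that are simply foldable in the model
`mo`. -/
noncomputable def MLang (mo : Model) (two : Bool) : N68a2faeb.DecisionProblem := fun s =>
  decide (∃ M : PMap, s = N487b59b3.bitEncode M ∧ Valid M ∧ MFold mo two M)

end Pool.Agent.Lib.MP_3a3d34_lc
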