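import Pool.Agent.Lib.MP_3a3d34_lc.InfRib

/-!
The ribbon attached to a formula in conjunctive normal form.
-/

set_option autoImplicit false

namespace Pool.Agent.Lib.MP_3a3d34_lc

open Ln Finset

/-- The label of a point of a zigzag word. -/
def lab (K y : ℕ) : ℕ := if y / K % 2 = 1 then y % K else K - y % K

theorem lab_eq {K ρ s : ℕ} (h : s < K) : lab K (ρ * K + s) = if ρ % 2 = 1 then s else K - s := by
  rw [lab, (dm h).1, (dm h).2]

theorem mul_cases {a b J r r' : ℕ} (h : a * J + r = b * J + r') (h1 : r ≤ J) (h2 : r' ≤ J)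
    (hJ : 0 < J) :
    (a = b ∧ r = r') ∨ (a = b + 1 ∧ r = 0 ∧ r' = J) ∨ (b = a + 1 ∧ r = J ∧ r' = 0) := by
  have key : ∀ a b r r' : ℕ, a * J + r = b * J + r' → r ≤ J → a < b → b = a + 1 ∧ r = J ∧ r' = 0 := by
    intro a b r r' h h1 c
    have e := add_one_mul a J
    rcases (show a + 1 ≤ b from c).lt_or_eq with c' | rfl
    · have := Nat.mul_le_mul_right J (show a + 1 + 1 ≤ b from c')
      rw [add_one_mul] at this
      omega
    · omega
  rcases lt_trichotomy a b with c | rfl | c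
  · exact Or.inr (Or.inr (key a b r r' h h1 c))
  · exact Or.inl ⟨rfl, by omega⟩
  · obtain ⟨a1, a2, a3⟩ := key b a r' r h.symm h2 c
    exact Or.inr (Or.inl ⟨a1, a3, a2⟩)

/-- A formula with `T` variables and `N` clauses. -/
structure Cn where
  /-- number of variables -/
  T : ℕ
  /-- number of clauses -/
  N : ℕ
  /-- the positive literals -/
  pos : ℕ → ℕ → Bool
  /-- the negative literals -/
  neg : ℕ → ℕ → Bool

namespace Cn

variable (P : Cn)

/-- The formula is satisfiable. -/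
def Sol : Prop := ∃ x : ℕ → Bool, ∀ c < P.N, ∃ u < P.T,
  (P.pos c u = true ∧ x u = true) ∨ (P.neg c u = true ∧ x u = false)

/-- The number of blocks per clause. -/
def J : ℕ := 2 * P.T + 1

/-- The budget of a clause. -/
def bud (c : ℕ) : ℕ := ∑ u ∈ range P.T, ((P.pos c u).toNat + (P.neg c u).toNat) + P.T - 2

/-- The forced values. -/
def M (c : ℕ) : ℕ := ∑ i ∈ range (min c P.N), P.bud i

/-- The size of a block. -/
def L : ℕ := P.M P.N + P.T

/-- The period of the vertical creases. -/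
def K : ℕ := P.L + 3

/-- The number of vertical mirror creases. -/
def Rm : ℕ := (2 * P.N + 1) * P.J + 1

/-- The number of vertical creases. -/
def nv : ℕ := P.Rm * P.K + P.L

/-- The period of the horizontal creases. -/
def H : ℕ := P.J + 2

/-- The index of the last horizontal crease. -/
def nh : ℕ := (2 * P.N + 1) * P.H + (P.J + 1)

/-- The inner gaps between vertical creases. -/
def GV (s : ℕ) : ℕ := P.Rm + 2 + if s = 1 then 1 else P.K - s

/-- The gaps next to horizontal mirror creases. -/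
def EH (ρ : ℕ) : ℕ := if ρ % 2 = 1 then ρ + 1 else 2 * P.N + 3 + P.H + ρ

/-- The inner gaps between horizontal creases. -/
def GH (s : ℕ) : ℕ := 2 * P.N + 3 + s

/-- The place of a horizontal crease within its region. -/
def off (ρ s : ℕ) : ℕ :=
  if ρ % 2 = 1 then (if s ≤ 1 then 1 else if s = P.J + 1 then P.J else 2 * (s / 2))
  else (if s ≤ 1 then 0 else 2 * (s / 2) - 1)

/-- The vertical mirror crease that a horizontal crease follows. -/
def mir (y : ℕ) : ℕ := P.Rm + P.J - (y / P.H * P.J + P.off (y / P.H) (y % P.H))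

/-- The constant attached to a horizontal crease. -/
def cH (ρ s : ℕ) : ℕ :=
  if ρ = 0 then 1 else if ρ % 2 = 1 then
    (if 2 ≤ s ∧ s ≤ P.J then P.M (ρ / 2) + ∑ u ∈ range (s / 2), (!P.neg (ρ / 2) u).toNat else 0)
  else (if 2 ≤ s then P.M (ρ / 2) + ∑ u ∈ range ((P.H - s) / 2), (P.pos (ρ / 2 - 1) u).toNat else 0)

/-- The horizontal crease `i` is meant to be folded before the vertical creases with label `s`. -/
def pre (s i : ℕ) : Bool :=
  if s = 1 then decide (i % P.H = 0)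
  else !(decide (i % P.H = P.J + 1) && decide (i / P.H % 2 = 0) && decide (P.K - s ≤ P.M (i / P.H / 2)))

/-- The ribbon. -/
def rb : Rb where
  nv := P.nv
  oh := P.J
  nh := P.nh
  g b := if b then zg P.nv P.K (fun ρ => ρ + 1) P.GV else zg P.nh P.H P.EH P.GH
  col y := P.mir y * P.K
  val b y := if b then decide ((y / P.K + ((Ioc P.J P.nh).filter fun i =>
      P.mir i * P.K < y ∧ P.pre (lab P.K y) i = true).card) % 2 = 0)
    else decide ((y / P.H + P.cH (y / P.H) (y % P.H)) % 2 = 0)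

/-- The number of horizontal creases with a property at a mirror crease. -/
def NN (R : ℕ) (Q : ℕ → Prop) [DecidablePred Q] : ℕ :=
  ((Ioc P.J P.nh).filter fun i => P.mir i = R ∧ Q i).card

theorem M_succ {c : ℕ} (h : c < P.N) : P.M (c + 1) = P.M c + P.bud c := by
  rw [M, M, min_eq_left h, min_eq_left h.le, sum_range_succ]

theorem M_le (c : ℕ) : P.M c ≤ P.M P.N :=
  sum_le_sum_of_subset (range_subset_range.2 (by omega))

theorem J_eq : P.J = 2 * P.T + 1 := rfl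

theorem H_eq : P.H = P.J + 2 := rfl

theorem K_eq : P.K = P.L + 3 := rfl

theorem Rm_eq : P.Rm = (2 * P.N + 1) * P.J + 1 := rfl

theorem off_spec (ρ : ℕ) {s : ℕ} (h : s < P.H) :
    (ρ % 2 = 1 ∧ s ≤ 1 ∧ P.off ρ s = 1) ∨ (ρ % 2 = 1 ∧ s = P.J + 1 ∧ P.off ρ s = P.J) ∨
    (ρ % 2 = 1 ∧ 2 ≤ s ∧ s ≤ P.J ∧ P.off ρ s = 2 * (s / 2)) ∨ (ρ % 2 = 0 ∧ s ≤ 1 ∧ P.off ρ s = 0) ∨
    (ρ % 2 = 0 ∧ 2 ≤ s ∧ P.off ρ s + 1 = 2 * (s / 2)) := by
  have := P.H_eq
  unfold off
  split_ifs <;> omega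

theorem off_le {ρ s : ℕ} (h : s < P.H) : P.off ρ s ≤ P.J := by
  have := P.off_spec ρ h
  have := P.H_eq
  have := P.J_eq
  omega

theorem line_iff {ρ s : ℕ} (h : s < P.H) : ρ * P.H + s ∈ Ioc P.J P.nh ↔
    ρ ≤ 2 * P.N + 1 ∧ (ρ = 0 → s = P.J + 1) := by
  rw [mem_Ioc, nh]
  have e : P.H = P.J + 2 := rfl
  constructor
  · rintro ⟨a, b⟩
    refine ⟨not_lt.1 fun c => ?_, fun c => by subst c; omega⟩
    have := Nat.mul_le_mul_right P.H (show 2 * P.N + 1 + 1 ≤ ρ from c)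
    rw [add_one_mul] at this
    omega
  · rintro ⟨a, b⟩
    have := Nat.mul_le_mul_right P.H a
    refine ⟨?_, by omega⟩
    cases ρ with
    | zero => have := b rfl; omega
    | succ ρ => rw [add_one_mul]; omega

theorem mir_eq {ρ s : ℕ} (h : s < P.H) (h1 : ρ ≤ 2 * P.N + 1) :
    P.mir (ρ * P.H + s) + (ρ * P.J + P.off ρ s) = P.Rm + P.J := by
  have a := P.off_le (ρ := ρ) h
  have b := Nat.mul_le_mul_right P.J h1
  have c := P.Rm_eq
  rw [mir, (dm h).1, (dm h).2]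
  omega

theorem ex_line {i : ℕ} (hi : i ∈ Ioc P.J P.nh) : ∃ ρ s, s < P.H ∧ i = ρ * P.H + s ∧
    ρ ≤ 2 * P.N + 1 ∧ (ρ = 0 → s = P.J + 1) ∧
    P.mir i + (ρ * P.J + P.off ρ s) = P.Rm + P.J := by
  obtain ⟨ρ, s, hs, rfl⟩ := ex_dm (show 0 < P.H from Nat.succ_pos _) i
  obtain ⟨a, b⟩ := (P.line_iff hs).1 hi
  exact ⟨ρ, s, hs, rfl, a, b, P.mir_eq hs a⟩

theorem mul_J (ρ : ℕ) : ρ * P.J % 2 = ρ % 2 := by
  rw [J, mul_add, mul_one, mul_left_comm]; omega

theorem ok : P.rb.Ok where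
  pos b y := by
    cases b
    · exact zg_pos (fun ρ => by unfold EH; split_ifs <;> omega) (fun s => by unfold GH; omega) y
    · exact zg_pos (fun _ => Nat.succ_pos _) (fun s => by unfold GV; omega) y
  lt := by change P.J < P.nh; unfold nh; omega
  anti i h1 h2 := by
    refine Nat.mul_le_mul_right _ ?_
    change P.J < i at h1
    change i < P.nh at h2
    obtain ⟨ρ, s, hs, rfl, a1, -, a2⟩ := P.ex_line (mem_Ioc.2 ⟨h1, h2.le⟩)
    rcases (show s + 1 ≤ P.H from hs).lt_or_eq with c | c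
    · have := P.mir_eq c a1
      have := P.off_spec ρ hs
      have := P.off_spec ρ c
      have := P.J_eq
      rw [add_assoc]
      omega
    · have e : ρ * P.H + s + 1 = (ρ + 1) * P.H + 0 := by rw [add_one_mul]; omega
      have a3 := ((P.line_iff (ρ := ρ + 1) (Nat.succ_pos _)).1 (mem_Ioc.2 ⟨by omega, by omega⟩)).1
      have := P.mir_eq (Nat.succ_pos _) a3
      have := P.off_le (ρ := ρ) hs
      rw [e, add_one_mul ρ P.J] at *
      omega
  le := by
    change P.mir (P.J + 1) * P.K ≤ P.nv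
    have a := P.mir_eq (ρ := 0) (s := P.J + 1) (Nat.lt_succ_self _) (Nat.zero_le _)
    have b : P.mir (P.J + 1) = P.Rm := by
      have := P.off_spec 0 (s := P.J + 1) (Nat.lt_succ_self _)
      have := P.J_eq
      rw [zero_mul, zero_add, zero_mul] at a
      omega
    rw [b]; exact Nat.le_add_right _ _
  long b := by cases b <;> exact zg_long

theorem cnt_pair {ρ s : ℕ} (h0 : 0 < s) (hs : s < P.K) (Q : ℕ → Prop) [DecidablePred Q] :
    ((Ioc P.J P.nh).filter fun i => P.mir i * P.K < (ρ + 1) * P.K + (P.K - s) ∧ Q i).card =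
      ((Ioc P.J P.nh).filter fun i => P.mir i * P.K < ρ * P.K + s ∧ Q i).card + P.NN (ρ + 1) Q := by
  have key : ∀ r a s, 0 < s → s < P.K → (r * P.K < a * P.K + s ↔ r ≤ a) := fun r a s h0 hs => by
    refine ⟨fun h => not_lt.1 fun c => ?_, fun h => ?_⟩
    · have := Nat.mul_le_mul_right P.K (show a + 1 ≤ r from c)
      rw [add_one_mul] at this
      omega
    · have := Nat.mul_le_mul_right P.K h
      omega
  rw [NN, ← card_union_of_disjoint (disjoint_filter.2 fun i _ a b => by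
    have := (key _ _ _ h0 hs).1 a.1
    omega), ← filter_or]
  refine congrArg _ (filter_congr fun i _ => ?_)
  rw [key _ _ _ h0 hs, key _ _ _ (by omega) (by omega), ← or_and_right]
  exact and_congr_left fun _ => by omega

theorem alV_pair {τ : Bool → ℕ → ℕ} {ρ s : ℕ} (h0 : 0 < s) (hs : s < P.K)
    (e : τ true (ρ * P.K + s) = τ true ((ρ + 1) * P.K + (P.K - s))) :
    ¬ (P.rb.al τ true (ρ * P.K + s) ↔ P.rb.al τ true ((ρ + 1) * P.K + (P.K - s))) ↔
      P.NN (ρ + 1) (fun i => τ false i < τ true (ρ * P.K + s)) % 2 =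
        P.NN (ρ + 1) (fun i => P.pre (lab P.K (ρ * P.K + s)) i = true) % 2 := by
  have l : lab P.K ((ρ + 1) * P.K + (P.K - s)) = lab P.K (ρ * P.K + s) := by
    rw [lab_eq hs, lab_eq (by omega)]
    split_ifs <;> omega
  have a : ∀ y, P.rb.al τ true y ↔ ((y / P.K + ((Ioc P.J P.nh).filter fun i =>
      P.mir i * P.K < y ∧ P.pre (lab P.K y) i = true).card) % 2 = 0 ↔ ((Ioc P.J P.nh).filter
      fun i => P.mir i * P.K < y ∧ τ false i < τ true y).card % 2 = 0) := fun y =>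
    iff_congr decide_eq_true_iff Nat.even_iff
  rw [a, a, ← e, l, P.cnt_pair h0 hs, P.cnt_pair h0 hs, (dm hs).1,
    (dm (show P.K - s < P.K by omega)).1]
  omega

theorem alH_iff {τ : Bool → ℕ → ℕ} {ρ s : ℕ} (hs : s < P.H) : P.rb.al τ false (ρ * P.H + s) ↔
    (ρ + P.cH ρ s + Rb.Phi (τ true) (P.mir (ρ * P.H + s) * P.K) (τ false (ρ * P.H + s))) % 2 = 0 := by
  simp only [Rb.al, rb, Bool.false_eq_true, if_false, decide_eq_true_eq, Nat.even_iff]
  rw [(dm hs).1, (dm hs).2]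
  omega

/-- The number of folded creases of a block. -/
def mu (τ : ℕ → ℕ) (t ρ : ℕ) : ℕ := ∑ i ∈ range P.L, if τ (ρ * P.K + (i + 1)) < t then 1 else 0

theorem phi_succ (τ : ℕ → ℕ) (t ρ : ℕ) : Rb.Phi τ ((ρ + 1) * P.K) t = Rb.Phi τ (ρ * P.K) t +
    ∑ s ∈ range P.K, if τ (ρ * P.K + (s + 1)) < t then 1 else 0 := by
  have e : ∀ c, Rb.Phi τ c t = ∑ y ∈ range c, if τ (y + 1) < t then 1 else 0 := fun c => by
    induction c with
    | zero => rfl
    | succ c ih =>
      rw [sum_range_succ, ← ih, Rb.Phi, Rb.Phi, ← insert_Ioc_right_eq_Ioc_add_one (Nat.zero_le c),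
        filter_insert]
      split_ifs
      · exact card_insert_of_notMem (by simp)
      · rfl
  rw [e, e, add_one_mul, sum_range_add]
  rfl

theorem phi_par {τ : ℕ → ℕ} {t : ℕ} (h1 : ∀ ρ, 0 < ρ → ρ < P.Rm → τ (ρ * P.K) < t)
    (h2 : ¬ τ (P.Rm * P.K) < t)
    (h3 : ∀ ρ, ρ < P.Rm → ρ % 2 = 1 → τ (ρ * P.K + 1) < t ∧ ¬ τ (ρ * P.K + 2) < t)
    (h4 : ∀ ρ, ρ < P.Rm → ρ % 2 = 0 → τ (ρ * P.K + (P.L + 2)) < t ∧ ¬ τ (ρ * P.K + (P.L + 1)) < t)
    (h5 : ∀ ρ, ρ < P.Rm → ρ % 2 = 1 → ∀ i < P.L,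
      (τ (ρ * P.K + (P.L + 2 - i)) < t ↔ τ ((ρ + 1) * P.K + (i + 1)) < t))
    {R : ℕ} (h0 : 0 < R) (hR : R ≤ P.Rm) : Rb.Phi τ (R * P.K) t % 2 =
      (P.mu τ t 0 + (if R % 2 = 0 then P.mu τ t R else 0) + if R = P.Rm then 1 else 0) % 2 := by
  have hm : P.Rm % 2 = 0 := by have := P.mul_J (2 * P.N + 1); unfold Rm; omega
  have ev : ∀ ρ, ρ < P.Rm → ρ % 2 = 0 →
      Rb.Phi τ ((ρ + 1) * P.K) t = Rb.Phi τ (ρ * P.K) t + P.mu τ t ρ + 2 := fun ρ a b => by
    have c : τ (ρ * P.K + (P.L + 2 + 1)) < t := by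
      have := h1 (ρ + 1) (by omega) (by omega)
      rwa [add_one_mul] at this
    rw [phi_succ, show range P.K = range (P.L + 1 + 1 + 1) from rfl, sum_range_succ, sum_range_succ,
      sum_range_succ, if_neg (h4 ρ a b).2, if_pos (h4 ρ a b).1, if_pos c, mu]
    omega
  have od : ∀ ρ, ρ < P.Rm → ρ % 2 = 1 → Rb.Phi τ ((ρ + 1) * P.K) t =
      Rb.Phi τ (ρ * P.K) t + P.mu τ t (ρ + 1) + 1 + if ρ + 1 = P.Rm then 0 else 1 := fun ρ a b => by
    rw [phi_succ, show range P.K = range (P.L + 1 + 1 + 1) from rfl, sum_range_succ, sum_range_succ',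
      sum_range_succ', if_neg (h3 ρ a b).2, if_pos (h3 ρ a b).1, ← sum_range_reflect, mu,
      sum_congr rfl fun i hi => by
        have := mem_range.1 hi
        rw [show P.L - 1 - i + 1 + 1 + 1 = P.L + 2 - i by omega, if_congr (h5 ρ a b i this) rfl rfl],
      show ρ * P.K + (P.L + 1 + 1 + 1) = (ρ + 1) * P.K from (add_one_mul _ _).symm]
    by_cases c : ρ + 1 = P.Rm
    · rw [if_pos c, if_neg (c ▸ h2)]; omega
    · rw [if_neg c, if_pos (h1 _ (by omega) (by omega))]; omega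
  induction R, h0 using Nat.le_induction with
  | base =>
    rw [show Nat.succ 0 = 0 + 1 from rfl, ev 0 hR rfl, if_neg (by omega), if_neg (by omega), zero_mul]
    change (0 + _ + 2) % 2 = _
    omega
  | succ R h0 ih =>
    have := ih (by omega)
    rcases Nat.mod_two_eq_zero_or_one R with c | c
    · rw [ev R hR c]
      split_ifs at * <;> omega
    · rw [od R hR c]
      split_ifs at * <;> omega

theorem fib_forced {c i : ℕ} (hc : c ≤ P.N) (hi : i ∈ Ioc P.J P.nh) :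
    P.mir i + 2 * c * P.J = P.Rm ↔ i = 2 * c * P.H + (P.J + 1) := by
  have e2 := P.J_eq
  have e3 := P.H_eq
  constructor
  · intro h
    obtain ⟨ρ, s, hs, rfl, -, -, a⟩ := P.ex_line hi
    have := mul_cases (a := ρ) (b := 2 * c) (r' := P.J) (by omega)
      (P.off_le (ρ := ρ) hs) le_rfl (by omega)
    have := P.off_spec ρ hs
    obtain ⟨rfl, rfl⟩ : ρ = 2 * c ∧ s = P.J + 1 := by omega
    rfl
  · rintro rfl
    have := P.mir_eq (ρ := 2 * c) (s := P.J + 1) (Nat.lt_succ_self _) (by omega)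
    have := P.off_spec (2 * c) (s := P.J + 1) (Nat.lt_succ_self _)
    omega

theorem fib_one (hT : 2 ≤ P.T) {i : ℕ} (hi : i ∈ Ioc P.J P.nh) : P.mir i = 1 ↔ i = P.nh := by
  have e1 := P.Rm_eq
  have e2 := P.J_eq
  constructor
  · intro h
    obtain ⟨ρ, s, hs, rfl, b, -, a⟩ := P.ex_line hi
    have := mul_cases (a := ρ) (b := 2 * P.N + 1) (r' := P.J) (by omega)
      (P.off_le (ρ := ρ) hs) le_rfl (by omega)
    have := P.off_spec ρ hs
    obtain ⟨rfl, rfl⟩ : ρ = 2 * P.N + 1 ∧ s = P.J + 1 := by omega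
    rfl
  · rintro rfl
    have := P.mir_eq (ρ := 2 * P.N + 1) (s := P.J + 1) (Nat.lt_succ_self _) le_rfl
    have := P.off_spec (2 * P.N + 1) (s := P.J + 1) (Nat.lt_succ_self _)
    unfold nh
    omega

theorem fib_J (hT : 2 ≤ P.T) {i : ℕ} (hi : i ∈ Ioc P.J P.nh) :
    P.mir i = P.J ↔ i = (2 * P.N + 1) * P.H ∨ i = (2 * P.N + 1) * P.H + 1 := by
  have e1 := P.Rm_eq
  have e2 := P.J_eq
  have e3 := P.H_eq
  constructor
  · intro h
    obtain ⟨ρ, s, hs, rfl, b, -, a⟩ := P.ex_line hi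
    have := mul_cases (a := ρ) (b := 2 * P.N + 1) (r' := 1) (by omega)
      (P.off_le (ρ := ρ) hs) (by omega) (by omega)
    have := P.off_spec ρ hs
    obtain ⟨rfl, b⟩ : ρ = 2 * P.N + 1 ∧ s ≤ 1 := by omega
    omega
  · have a0 := P.mir_eq (ρ := 2 * P.N + 1) (s := 0) (Nat.succ_pos _) le_rfl
    have a1 := P.mir_eq (ρ := 2 * P.N + 1) (s := 1) (by omega) le_rfl
    have := P.off_spec (2 * P.N + 1) (s := 0) (by omega)
    have := P.off_spec (2 * P.N + 1) (s := 1) (by omega)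
    rw [add_zero] at a0
    rintro (rfl | rfl) <;> omega

theorem NN_single {R y : ℕ} (hy : y ∈ Ioc P.J P.nh) (Q : ℕ → Prop) [DecidablePred Q]
    (h : ∀ i ∈ Ioc P.J P.nh, P.mir i = R ∧ Q i → i = y) (h' : P.mir y = R) :
    P.NN R Q = if Q y then 1 else 0 := by
  unfold NN
  split_ifs with c
  · exact card_eq_one.2 ⟨y, eq_singleton_iff_unique_mem.2 ⟨mem_filter.2 ⟨hy, h', c⟩,
      fun i hi => h i (mem_filter.1 hi).1 (mem_filter.1 hi).2⟩⟩
  · exact card_eq_zero.2 (filter_eq_empty_iff.2 fun i hi a => c (h i hi a ▸ a.2))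

end Cn

end Pool.Agent.Lib.MP_3a3d34_lc
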