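import Mathlib

/-!
Folding a segment by all-layers folds, always keeping the long end fixed.
-/

set_option autoImplicit false

namespace Pool.Agent.Lib.MP_3a3d34_lc.Ln

/-- The point `l` is folded before all later points. -/
def Own (n : ℕ) (τ : ℕ → ℕ) (l : ℕ) : Prop := ∀ y, l < y → y ≤ n → τ l < τ y

/-- The points between `a` and `l` have mirror images in `l` that are folded at the same time in
the opposite sense. -/
def Sym (o n : ℕ) (q : ℕ → ℤ) (τ : ℕ → ℕ) (α : ℕ → Prop) (a l : ℕ) : Prop :=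
  ∀ i, o < i → i ≤ n → q a < q i → q i < 2 * q l - q a →
    ∃ j, o < j ∧ j ≤ n ∧ q i + q j = 2 * q l ∧ τ j = τ i ∧ (i ≠ l → ¬ (α i ↔ α j))

/-- The times and senses come from a folding. -/
def W (o n : ℕ) (q : ℕ → ℤ) (τ : ℕ → ℕ) (α : ℕ → Prop) : Prop :=
  ∀ x, o < x → x ≤ n → ∃ a l, o ≤ a ∧ a < x ∧ x ≤ l ∧ l ≤ n ∧ Own n τ l ∧ (a = o ∨ Own n τ a) ∧
    Sym o n q τ α a l

/-- A state of the segment. -/
structure D where
  /-- the left end of the folded segment -/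
  a : ℕ
  /-- the position of each point -/
  h : ℝ → ℝ
  /-- the folded points -/
  S : ℕ → Prop
  /-- the orientation at an unfolded point -/
  sg : ℕ → Prop

/-- The initial state. -/
noncomputable def D.init (o : ℕ) (q : ℕ → ℤ) : D :=
  ⟨o, fun x => q o + |x - q o|, fun _ => False, fun _ => True⟩

/-- The state after a fold. -/
noncomputable def D.fold (d : D) (q : ℕ → ℤ) (l : ℕ) : D :=
  ⟨l, fun x => q l + |d.h x - q l|, fun i => d.S i ∨ d.h (q i) = q l,
    fun i => d.sg i ↔ ¬ d.h (q i) < q l⟩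

/-- The basic properties of a state. -/
structure Base (o n : ℕ) (q : ℕ → ℤ) (d : D) : Prop where
  ge : o ≤ d.a
  le : d.a ≤ n
  win : ∀ x : ℝ, q d.a ≤ x → d.h x = x
  low : ∀ x, (q d.a : ℝ) ≤ d.h x
  lip : ∀ x : ℝ, x ≤ q d.a → d.h x ≤ 2 * q d.a - x
  unf : ∀ i, d.a < i → ¬ d.S i ∧ d.sg i

variable {o n : ℕ} {q : ℕ → ℤ} {d : D} {l t : ℕ} {τ τ' : ℕ → ℕ} {α α' : ℕ → Prop}

theorem cast_lt (hq : StrictMono q) {i j : ℕ} : (q i : ℝ) < q j ↔ i < j := by
  rw [Int.cast_lt, hq.lt_iff_lt]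

theorem cast_le (hq : StrictMono q) {i j : ℕ} : (q i : ℝ) ≤ q j ↔ i ≤ j := by
  rw [Int.cast_le, hq.le_iff_le]

theorem cast_inj (hq : StrictMono q) {i j : ℕ} : (q i : ℝ) = q j ↔ i = j := by
  rw [Int.cast_inj, hq.injective.eq_iff]

theorem base_init (h : o ≤ n) : Base o n q (D.init o q) where
  ge := le_rfl
  le := h
  win x hx := by
    change q o + |x - q o| = x
    change (q o : ℝ) ≤ x at hx
    rw [abs_of_nonneg (sub_nonneg.2 hx)]; ring
  low x := le_add_of_nonneg_right (abs_nonneg _)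
  lip x hx := by
    change q o + |x - q o| ≤ 2 * q o - x
    change x ≤ q o at hx
    rw [abs_of_nonpos (sub_nonpos.2 hx)]; linarith
  unf _ _ := ⟨id, trivial⟩

theorem Base.self (hq : StrictMono q) (B : Base o n q d) {i : ℕ} (hi : d.a ≤ i) : d.h (q i) = q i :=
  B.win _ ((cast_le hq).2 hi)

theorem Base.fold (hq : StrictMono q) (B : Base o n q d) (h1 : d.a < l) (h2 : l ≤ n) :
    Base o n q (d.fold q l) where
  ge := B.ge.trans h1.le
  le := h2
  win x hx := by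
    change q l + |d.h x - q l| = x
    change (q l : ℝ) ≤ x at hx
    rw [B.win x (((cast_lt hq).2 h1).le.trans hx), abs_of_nonneg (sub_nonneg.2 hx)]; ring
  low x := le_add_of_nonneg_right (abs_nonneg _)
  lip x hx := by
    change q l + |d.h x - q l| ≤ 2 * q l - x
    change x ≤ q l at hx
    have a1 := (cast_lt hq).2 h1
    have a2 := B.low x
    rcases le_total x (q d.a) with h3 | h3
    · have := B.lip x h3
      rcases abs_cases (d.h x - q l) with e | e <;> linarith [e.1]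
    · rw [B.win x h3, abs_of_nonpos (sub_nonpos.2 hx)]; linarith
  unf i hi := by
    change l < i at hi
    have a1 := (cast_lt hq).2 hi
    obtain ⟨a2, a3⟩ := B.unf i (h1.trans hi)
    have e := B.self hq (h1.trans hi).le
    refine ⟨fun a => a.elim a2 fun a => a1.ne' (e ▸ a), iff_of_true a3 ?_⟩
    rw [e]; exact a1.le.not_gt

/-- The point `l` is folded, and before all later points. -/
def OwnS (n : ℕ) (S : ℕ → Prop) (τ : ℕ → ℕ) (l : ℕ) : Prop :=
  S l ∧ ∀ y, l < y → y ≤ n → S y → τ l < τ y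

/-- What is known about the past. -/
structure Hist (o n : ℕ) (q : ℕ → ℤ) (d : D) (τ : ℕ → ℕ) (α : ℕ → Prop) (t : ℕ) : Prop where
  lt : ∀ i, d.S i → τ i < t
  cur : d.a = o ∨ OwnS n d.S τ d.a
  past : ∀ x, o < x → x ≤ d.a → ∃ a l, o ≤ a ∧ a < x ∧ x ≤ l ∧ l ≤ n ∧ OwnS n d.S τ l ∧
    (a = o ∨ OwnS n d.S τ a) ∧
    (∀ y : ℝ, q a ≤ y → y ≤ 2 * q l - q a → d.h y = d.h (2 * q l - y)) ∧
    (∀ i, o < i → i ≤ n → q a < q i → q i < 2 * q l - q a → d.S i → ∃ j, o < j ∧ j ≤ n ∧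
      q i + q j = 2 * q l ∧ d.S j ∧ τ j = τ i ∧ (i ≠ l → ¬ (α i ↔ α j))) ∧
    ∀ i j, q a < q i → q i < 2 * q l - q a → q i + q j = 2 * q l → ¬ d.S i → ¬ d.S j →
      ¬ (d.sg i ↔ d.sg j)

theorem hist_init : Hist o n q (D.init o q) τ α t :=
  ⟨fun _ a => a.elim, Or.inl rfl, fun _ a b => absurd b (not_le.2 a)⟩

theorem Hist.mono (H : Hist o n q d τ α t) : Hist o n q d τ α (t + 1) :=
  ⟨fun i a => (H.lt i a).trans (Nat.lt_succ_self t), H.cur, H.past⟩

theorem Hist.fold (hq : StrictMono q) (hl : 2 * q n - q o < q (n + 1)) (B : Base o n q d)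
    (H : Hist o n q d τ α t) (h1 : d.a < l) (h2 : l ≤ n)
    (e1 : ∀ i, d.S i → τ' i = τ i ∧ (α' i ↔ α i)) (e2 : ∀ i, ¬ d.S i → τ' i = t)
    (c1 : ∀ x : ℝ, q o < x → x < q (n + 1) → d.h x = q l → ∃ i, o < i ∧ i ≤ n ∧ x = q i)
    (c2 : ∀ i j, o < i → i ≤ n → o < j → j ≤ n → ¬ d.S i → ¬ d.S j → d.h (q i) = q l →
      d.h (q j) = q l → ((α' i ↔ d.sg i) ↔ (α' j ↔ d.sg j))) :
    Hist o n q (d.fold q l) τ' α' (t + 1) := by
  have own : ∀ k, OwnS n d.S τ k → OwnS n (d.fold q l).S τ' k := fun k ⟨a1, a2⟩ =>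
    ⟨Or.inl a1, fun y b1 b2 _ => by
      rw [(e1 k a1).1]
      by_cases hy : d.S y
      · rw [(e1 y hy).1]; exact a2 y b1 b2 hy
      · rw [e2 y hy]; exact H.lt k a1⟩
  have B' := B.fold hq h1 h2
  have new : OwnS n (d.fold q l).S τ' l :=
    ⟨Or.inr (B.self hq h1.le), fun y b1 _ b3 => absurd b3 (B'.unf y b1).1⟩
  refine ⟨fun i _ => ?_, Or.inr new, fun x x0 hx => ?_⟩
  · by_cases hi : d.S i
    · rw [(e1 i hi).1]; exact (H.lt i hi).trans (Nat.lt_succ_self t)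
    · rw [e2 i hi]; exact Nat.lt_succ_self t
  rcases le_or_gt x d.a with h3 | h3
  · obtain ⟨a, k, p0, p1, p2, p3, p4, p5, p6, p7, p8⟩ := H.past x x0 h3
    refine ⟨a, k, p0, p1, p2, p3, own k p4, p5.imp_right (own a), fun y b1 b2 => ?_,
      fun i i0 hi b1 b2 hS => ?_, fun i j b1 b2 b3 b4 b5 => ?_⟩
    · change q l + |d.h y - q l| = q l + |d.h (2 * q k - y) - q l|
      rw [p6 y b1 b2]
    · by_cases hi' : d.S i
      · obtain ⟨j, r1, r2, r3, r4, r5, r6⟩ := p7 i i0 hi b1 b2 hi'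
        refine ⟨j, r1, r2, r3, Or.inl r4, by rw [(e1 j r4).1, (e1 i hi').1, r5], ?_⟩
        rwa [(e1 j r4).2, (e1 i hi').2]
      have r0 : d.h (q i) = q l := hS.resolve_left hi'
      have b1' : (q a : ℝ) < q i := by exact_mod_cast b1
      have b2' : (q i : ℝ) < 2 * q k - q a := by exact_mod_cast b2
      have r1 := (p6 _ b1'.le b2'.le).symm.trans r0
      have r2 : (q o : ℝ) ≤ q a := (cast_le hq).2 p0
      have r3 : (q k : ℝ) ≤ q n := (cast_le hq).2 p3
      have r4 : 2 * (q n : ℝ) - q o < q (n + 1) := by exact_mod_cast hl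
      obtain ⟨j, j0, hj, ej⟩ := c1 _ (by linarith) (by linarith) r1
      have ej' : q i + q j = 2 * q k := by
        have : (q i : ℝ) + q j = 2 * q k := by linarith
        exact_mod_cast this
      have hj' : ¬ d.S j := fun a => by
        obtain ⟨i', -, -, s1, s2, -⟩ := p7 j j0 hj (by omega) (by omega) a
        exact hi' (hq.injective (show q i' = q i by omega) ▸ s2)
      rw [ej] at r1
      refine ⟨j, j0, hj, ej', Or.inr r1, by rw [e2 i hi', e2 j hj'], fun _ a => ?_⟩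
      have s1 := c2 i j i0 hi j0 hj hi' hj' r0 r1
      have s2 := p8 i j b1 b2 ej' hi' hj'
      tauto
    · have s1 := p8 i j b1 b2 b3 (fun a => b4 (Or.inl a)) fun a => b5 (Or.inl a)
      have s2 : d.h (q i) = d.h (q j) := by
        rw [p6 _ (by exact_mod_cast b1.le) (by exact_mod_cast b2.le)]
        congr 1
        have : (q i : ℝ) + q j = 2 * q k := by exact_mod_cast b3
        linarith
      change ¬ ((d.sg i ↔ ¬ d.h (q i) < q l) ↔ (d.sg j ↔ ¬ d.h (q j) < q l))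
      rw [s2]
      tauto
  · have a1 := (cast_lt hq).2 h1
    refine ⟨d.a, l, B.ge, h3, hx, h2, new, H.cur.imp_right (own _), fun y b1 b2 => ?_,
      fun i i0 hi b1 b2 hS => ?_, fun i j b1 b2 b3 b4 b5 => ?_⟩
    · change q l + |d.h y - q l| = q l + |d.h (2 * q l - y) - q l|
      rw [B.win y b1, B.win _ (by linarith), ← abs_neg]
      congr 2; ring
    · have s1 := hq.lt_iff_lt.1 b1
      obtain rfl : i = l :=
        (cast_inj hq).1 ((B.self hq s1.le).symm.trans (hS.resolve_left (B.unf i s1).1))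
      exact ⟨i, i0, hi, by ring, hS, rfl, fun a => absurd rfl a⟩
    · have s1 := hq.lt_iff_lt.1 b1
      have s2 := hq.lt_iff_lt.1 (show q d.a < q j by omega)
      have s3 : q i ≠ q l := fun a => b4 (Or.inr (by rw [B.self hq s1.le, a]))
      change ¬ ((d.sg i ↔ ¬ d.h (q i) < q l) ↔ (d.sg j ↔ ¬ d.h (q j) < q l))
      rw [B.self hq s1.le, B.self hq s2.le, iff_true_intro (B.unf i s1).2,
        iff_true_intro (B.unf j s2).2, Int.cast_lt, Int.cast_lt, true_iff, true_iff]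
      omega

theorem Hist.done (B : Base o n q d) (H : Hist o n q d τ α t) (h : ∀ i, o < i → i ≤ n → d.S i) :
    W o n q τ α := by
  intro x x0 hx
  have own : ∀ k, o ≤ k → OwnS n d.S τ k → Own n τ k := fun k _ a y b1 b2 =>
    a.2 y b1 b2 (h y (by omega) b2)
  obtain ⟨a, k, p0, p1, p2, p3, p4, p5, -, p7, -⟩ := H.past x x0
    (not_lt.1 fun a => (B.unf x a).1 (h x x0 hx))
  refine ⟨a, k, p0, p1, p2, p3, own k (by omega) p4, p5.imp_right (own a p0),
    fun i i0 hi b1 b2 => ?_⟩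
  obtain ⟨j, r1, r2, r3, -, r5, r6⟩ := p7 i i0 hi b1 b2 (h i i0 hi)
  exact ⟨j, r1, r2, r3, r5, r6⟩

/-- The state agrees with the schedule. -/
structure Img (o n : ℕ) (q : ℕ → ℤ) (d : D) (τ : ℕ → ℕ) (α : ℕ → Prop) (t : ℕ) : Prop where
  iff : ∀ i, o < i → i ≤ n → (d.S i ↔ τ i < t)
  cur : d.a = o ∨ Own n τ d.a
  pre : ∀ x : ℝ, q o < x → ∀ j, d.a ≤ j → j ≤ n → d.h x = q j → ∃ i, o < i ∧ i ≤ n ∧ x = q i
  img : ∀ i, o < i → i ≤ n → t ≤ τ i → ∃ j, d.a < j ∧ j ≤ n ∧ d.h (q i) = q j ∧ τ j = τ i ∧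
    ((α i ↔ d.sg i) ↔ α j)

theorem img_init (hq : StrictMono q) : Img o n q (D.init o q) τ α 0 where
  iff _ _ _ := iff_of_false id (Nat.not_lt_zero _)
  cur := Or.inl rfl
  pre x hx j _ hj e := by
    rw [(base_init (n := o) le_rfl).win x hx.le] at e
    exact ⟨j, (cast_lt hq).1 (e ▸ hx), hj, e⟩
  img i i0 hi _ := ⟨i, i0, hi, (base_init (n := o) le_rfl).self hq i0.le, rfl, iff_true _ ▸ Iff.rfl⟩

theorem Img.idle (I : Img o n q d τ α t) (h : ∀ i, o < i → i ≤ n → τ i ≠ t) :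
    Img o n q d τ α (t + 1) where
  iff i i0 hi := by
    have := h i i0 hi
    rw [I.iff i i0 hi]; omega
  cur := I.cur
  pre := I.pre
  img i i0 hi ht := I.img i i0 hi (by omega)

theorem Img.event (hq : StrictMono q) (hW : W o n q τ α) (B : Base o n q d) (I : Img o n q d τ α t)
    {i : ℕ} (i0 : o < i) (hi : i ≤ n) (ht : τ i = t) : ∃ l, d.a < l ∧ l ≤ n ∧
      (∀ i, o < i → i ≤ n → ¬ d.S i → d.h (q i) = q l → τ i = t ∧ ((α i ↔ d.sg i) ↔ α l)) ∧
      Img o n q (d.fold q l) τ α (t + 1) := by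
  have ge := B.ge
  have win : ∀ j, d.a < j → j ≤ n → t ≤ τ j := fun j a b =>
    not_lt.1 fun c => (B.unf j a).1 ((I.iff j (by omega) b).2 c)
  have mir : ∀ a k j, Sym o n q τ α a k → o ≤ a → a < j → j < k → k ≤ n → ∃ j', k < j' ∧ j' ≤ n ∧
      q j + q j' = 2 * q k ∧ τ j' = τ j ∧ ¬ (α j ↔ α j') := fun a k j hs a0 a1 a2 a3 => by
    have b1 := hq a1
    have b2 := hq a2
    obtain ⟨j', -, r2, r3, r4, r5⟩ := hs j (by omega) (by omega) b1 (by omega)
    exact ⟨j', hq.lt_iff_lt.1 (by omega), r2, r3, r4, r5 a2.ne⟩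
  have key : ∀ j, d.a < j → j ≤ n → τ j = t → Own n τ j ∧ Sym o n q τ α d.a j := fun j a1 a2 a3 => by
    obtain ⟨a, k, p0, p1, p2, p3, p4, p5, p6⟩ := hW j (by omega) a2
    obtain rfl : j = k := by
      by_contra hn
      obtain ⟨j', r1, r2, -, r4, -⟩ := mir a k j p6 p0 p1 (by omega) p3
      have := p4 j' r1 r2
      have := win k (by omega) p3
      omega
    obtain rfl : a = d.a := by
      rcases lt_trichotomy a d.a with h1 | h1 | h1
      · obtain ⟨j', r1, r2, -, r4, -⟩ := mir a j d.a p6 p0 h1 a1 a2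
        have := I.cur.resolve_left (by omega) j' (by omega) r2
        omega
      · exact h1
      · have := p5.resolve_left (by omega) j p1 a2
        have := win a h1 (by omega)
        omega
    exact ⟨p4, p6⟩
  obtain ⟨l, l1, l2, -, l4, -⟩ := I.img i i0 hi ht.ge
  rw [ht] at l4
  obtain ⟨ow, sy⟩ := key l l1 l2 l4
  have uq : ∀ j, d.a < j → j ≤ n → τ j = t → j = l := fun j a1 a2 a3 => by
    rcases lt_trichotomy j l with h1 | h1 | h1
    · have := (key j a1 a2 a3).1 l h1 l2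
      omega
    · exact h1
    · have := ow j h1 a2
      omega
  have new : ∀ i, o < i → i ≤ n → ¬ d.S i → d.h (q i) = q l → τ i = t ∧ ((α i ↔ d.sg i) ↔ α l) :=
    fun i i0 hi a e => by
    obtain ⟨j, -, -, r3, r4, r5⟩ := I.img i i0 hi (not_lt.1 fun c => a ((I.iff i i0 hi).2 c))
    obtain rfl : j = l := (cast_inj hq).1 (r3.symm.trans e)
    exact ⟨r4.symm.trans l4, r5⟩
  refine ⟨l, l1, l2, new, fun i i0 hi => ⟨fun a => ?_, fun a => ?_⟩, Or.inr ow,
    fun x hx j a1 a2 e => ?_, fun i i0 hi a => ?_⟩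
  · by_cases hS : d.S i
    · exact ((I.iff i i0 hi).1 hS).trans (Nat.lt_succ_self t)
    · exact (new i i0 hi hS (a.resolve_left hS)).1 ▸ Nat.lt_succ_self _
  · rcases lt_or_ge (τ i) t with h1 | h1
    · exact Or.inl ((I.iff i i0 hi).2 h1)
    · obtain ⟨j, r1, r2, r3, r4, -⟩ := I.img i i0 hi h1
      exact Or.inr (uq j r1 r2 (by omega) ▸ r3)
  · change l ≤ j at a1
    change q l + |d.h x - q l| = q j at e
    rcases abs_cases (d.h x - q l) with e' | e'
    · exact I.pre x hx j (by omega) a2 (by linarith [e'.1])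
    rcases (B.low x).eq_or_lt with h1 | h1
    · exact I.pre x hx d.a le_rfl B.le h1.symm
    have b1 : (q j : ℝ) < 2 * q l - q d.a := by linarith [e'.1]
    obtain ⟨j', -, r2, r3, -⟩ := sy j (by omega) a2 (hq (by omega)) (by exact_mod_cast b1)
    have r4 : (q j : ℝ) + q j' = 2 * q l := by exact_mod_cast r3
    exact I.pre x hx j' ((cast_le hq).1 (by linarith)) r2 (by linarith [e'.1])
  · obtain ⟨j, r1, r2, r3, r4, r5⟩ := I.img i i0 hi (by omega)
    change ∃ j, l < j ∧ j ≤ n ∧ q l + |d.h (q i) - q l| = q j ∧ τ j = τ i ∧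
      ((α i ↔ (d.sg i ↔ ¬ d.h (q i) < q l)) ↔ α j)
    rw [r3]
    rcases lt_trichotomy j l with h1 | rfl | h1
    · obtain ⟨j', s1, s2, s3, s4, s5⟩ := mir d.a l j sy ge r1 h1 l2
      have b1 := (cast_lt hq).2 h1
      have s6 : (q j : ℝ) + q j' = 2 * q l := by exact_mod_cast s3
      refine ⟨j', s1, s2, by rw [abs_of_neg (sub_neg.2 b1)]; linarith, s4.trans r4, ?_⟩
      tauto
    · omega
    · have b1 := (cast_lt hq).2 h1
      refine ⟨j, h1, r2, by rw [abs_of_pos (sub_pos.2 b1)]; ring, r4, ?_⟩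
      have := b1.le.not_gt
      tauto

end Pool.Agent.Lib.MP_3a3d34_lc.Ln
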