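import Pool.Agent.Lib.MP_3a3d34_lc.ChMain
import Pool.Agent.Lib.MP_3a3d34_lc.InfDefs
import Pool.Agent.Lib.MP_3a3d34_lc.InfLine

/-!
All-layers folds along whole lines of a chain of rectangles.
-/

set_option autoImplicit false

namespace Pool.Agent.Lib.MP_3a3d34_lc

open Set Ln

/-- The orientation of the coordinate axes. -/
def ori (b : Bool) : ℝ := if b then 1 else -1

theorem ori_pm (b : Bool) : ori b = 1 ∨ ori b = -1 := by cases b <;> simp [ori]

namespace Ch

variable {C : Ch} {σ : State} {S : ℕ → Prop} {s g : Bool → ℕ → ℝ} {F : Fold}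

theorem isOpen_face (k : ℕ) : IsOpen (C.face k) := by
  have e : C.face k = C.Om ∩ ⋂ e ∈ Iio C.m, ({p | e < k → (C.c e : ℝ) < co (C.v e) p} ∩
      {p | k ≤ e → co (C.v e) p < C.c e}) := by
    ext p; simp [face]
  rw [e]
  refine C.isOpen_Om.inter ((finite_Iio _).isOpen_biInter fun e _ => IsOpen.inter ?_ ?_)
  · by_cases h : e < k
    · simpa [h] using isOpen_lt continuous_const (co_cont (C.v e))
    · simp [h]
  · by_cases h : k ≤ e
    · simpa [h] using isOpen_lt (co_cont (C.v e)) continuous_const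
    · simp [h]

theorem Good.face_ne (h : C.Good) {e : ℕ} (he : e < C.m) :
    (C.face e).Nonempty ∧ (C.face (e + 1)).Nonempty := by
  obtain ⟨y, -, -, hz, -⟩ := h.ex_line he
  obtain ⟨a, b⟩ := h.cf_line he hz (co_pt _ _ _)
  exact ⟨closure_nonempty_iff.1 ⟨_, h.mem_closure_face he.le a⟩,
    closure_nonempty_iff.1 ⟨_, h.mem_closure_face he b⟩⟩

theorem sl_congr {T : ℕ → Prop} (b : Bool) {k : ℕ} (h : ∀ e < k, T e ↔ S e) :
    C.sl T b k = C.sl S b k := by
  rw [(sl_comp (C := C) (S := S) (T := T) b (Nat.zero_le k) fun e he => by simp [h e he]).1]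
  simp [sl]

open Classical in
theorem Geo.mstep (h : C.Good) (G : C.Geo σ S s g) {u : ℕ → Prop} {a : Bool}
    (sub : F.U ⊆ faces C.map) (hd : ∀ k ≤ C.m, ∀ p ∈ C.face k, p ∈ F.U ↔ u k)
    (n1 : co a F.n ^ 2 = 1) (n0 : co (!a) F.n = 0)
    (hv : ∀ e < C.m, ¬ (u e ↔ u (e + 1)) → C.v e = a ∧ ¬ S e)
    (hax : ∀ z ∈ F.hinge C.map, F.side (σ.pos z) = 0) :
    (∀ k ≤ C.m, ∀ z ∈ C.cf k,
      (σ.fold C.map F).pos z = if u k then F.refl (σ.pos z) else σ.pos z) ∧
    C.Geo (σ.fold C.map F) (fun e => S e ∨ ¬ (u e ↔ u (e + 1)))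
      (fun b k => if u k ∧ b = a then -s b k else s b k)
      (fun b k => if u k ∧ b = a then 2 * F.c * co a F.n - g b k else g b k) := by
  have hin : ∀ k ≤ C.m, ∀ z ∈ C.cf k, ¬ u k → z ∈ closure F.U → z ∈ F.hinge C.map :=
    fun k hk z hz h1 h2 => ⟨⟨h.interior_paper ▸ hz.1, h2⟩, closure_mono (fun p hp => And.intro
      (h.face_sub hp) fun h3 => h1 ((hd k hk p hp).1 h3)) (h.mem_closure_face hk hz)⟩
  have hp : ∀ k ≤ C.m, ∀ z ∈ C.cf k,
      (σ.fold C.map F).pos z = if u k then F.refl (σ.pos z) else σ.pos z := by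
    intro k hk z hz
    simp only [State.fold]
    by_cases h1 : u k
    · rw [if_pos h1, if_pos ((h.closure_iff sub hd hz.1).2 ⟨k, hk, hz, h1⟩)]
    · rw [if_neg h1]
      split_ifs with h2
      · simp [Fold.refl, hax z (hin k hk z hz h1 h2)]
      · rfl
  refine ⟨hp, fun b k => ?_, fun b k hk => ?_, fun k hk z hz b => ?_, fun k hk z hz hn => ?_,
    fun z hz => ?_⟩
  · rcases G.pm b k with e | e <;> split_ifs <;> simp [e]
  · rw [G.slope b k hk]
    by_cases h1 : u k ↔ u (k + 1)
    · simp only [← h1, not_true, or_false]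
      split_ifs <;> rfl
    · obtain ⟨h2, h3⟩ := hv k hk h1
      rw [h2]
      by_cases h4 : b = a
      · subst h4
        by_cases u k <;> by_cases u (k + 1) <;> simp_all
      · simp [h4, Ne.symm h4]
  · rw [hp k hk z hz]
    by_cases h1 : u k
    · rw [if_pos h1, refl_co n1 n0, G.pos k hk z hz]
      simp only [h1, true_and]
      split_ifs
      · ring
      · rfl
    · simp only [h1, if_false, false_and]
      exact G.pos k hk z hz b
  · have e0 := G.up k hk z hz fun h1 => hn (Or.inl h1)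
    simp only [State.fold]
    by_cases h1 : u k
    · rw [if_pos ((h.closure_iff sub hd hz.1).2 ⟨k, hk, hz, h1⟩), e0]
      simp only [h1, true_and]
      rcases G.pm true k with e | e <;> rcases G.pm false k with e' | e' <;>
        cases a <;> simp [e, e'] <;> norm_num
    · rw [if_neg fun h2 => hn (Or.inr (hin k hk z hz h1 h2))]
      simpa only [h1, false_and, if_false] using e0
  · change z ∈ σ.folded ∨ z ∈ F.hinge C.map ↔ _
    rw [G.fold z hz, h.hinge_iff sub hd]
    constructor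
    · rintro (⟨e, he, h1, h2⟩ | ⟨-, e, he, h1, h2⟩)
      · exact ⟨e, he, Or.inl h1, h2⟩
      · exact ⟨e, he, Or.inr h2, h1⟩
    · rintro ⟨e, he, h1 | h1, h2⟩
      · exact Or.inl ⟨e, he, h1, h2⟩
      · exact Or.inr ⟨hz, e, he, h2, h1⟩

/-- The creases of each direction, seen on a segment. -/
structure Lin (C : Ch) (o n : Bool → ℕ) (q : Bool → ℕ → ℤ) (ix : ℕ → ℕ) : Prop where
  le : ∀ b, o b ≤ n b
  mono : ∀ b, StrictMono (q b)
  long : ∀ b, 2 * q b (n b) - q b (o b) < q b (n b + 1)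
  cr : ∀ e < C.m, o (C.v e) < ix e ∧ ix e ≤ n (C.v e) ∧ ori (C.v e) * C.c e = q (C.v e) (ix e)
  surj : ∀ b i, o b < i → i ≤ n b → ∃ e < C.m, C.v e = b ∧ ix e = i
  ran : ∀ b (x : ℝ), q b (o b) < x → x < q b (n b + 1) → ∃ z ∈ C.Om, ori b * co b z = x ∧
    ∀ e < C.m, C.v e ≠ b → co (C.v e) z ≠ C.c e
  bd : ∀ b, ∀ z ∈ C.Om, (q b (o b) : ℝ) < ori b * co b z

/-- A state reached by all-layers folds along whole lines. -/
structure St (C : Ch) (o n : Bool → ℕ) (q : Bool → ℕ → ℤ) (ix : ℕ → ℕ) (σ : State) (d : Bool → D)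
    (s g : Bool → ℕ → ℝ) (ε δ : Bool → ℝ) : Prop where
  geo : C.Geo σ (fun e => (d (C.v e)).S (ix e)) s g
  eps : ∀ b, ε b = 1 ∨ ε b = -1
  pos : ∀ b, ∀ z ∈ C.Om, ε b * co b (σ.pos z) + δ b = (d b).h (ori b * co b z)
  sg : ∀ e < C.m, ¬ (d (C.v e)).S (ix e) →
    ((d (C.v e)).sg (ix e) ↔ ε (C.v e) * s (C.v e) e = ori (C.v e))
  base : ∀ b, Base (o b) (n b) (q b) (d b)

variable {o n : Bool → ℕ} {q : Bool → ℕ → ℤ} {ix : ℕ → ℕ} {d : Bool → D} {ε δ : Bool → ℝ}

theorem st_init (L : C.Lin o n q ix) : C.St o n q ix init (fun b => D.init (o b) (q b)) (fun _ _ => 1)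
    (fun _ _ => 0) ori (fun _ => 0) where
  geo := geo_init
  eps := ori_pm
  pos b z hz := by
    rw [add_zero]
    exact ((base_init (n := o b) le_rfl).win _ (L.bd b z hz).le).symm
  sg _ _ _ := iff_of_true trivial (mul_one _)
  base b := base_init (L.le b)

/-- A fold of everything on one side of a line. -/
structure Lf (C : Ch) (σ : State) (ε δ : Bool → ℝ) (F : Fold) (b : Bool) (p lam : ℝ) : Prop where
  pm : lam = 1 ∨ lam = -1
  n1 : co b F.n = lam * ε b
  n0 : co (!b) F.n = 0
  c : F.c = lam * (p - δ b)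
  sub : F.U ⊆ faces C.map
  mem : ∀ z ∈ faces C.map, z ∈ F.U ↔ 0 < F.side (σ.pos z)
  ne : ∀ z ∈ faces C.map, F.side (σ.pos z) ≠ 0

variable {b : Bool} {p lam : ℝ}

theorem Lf.side (T : C.St o n q ix σ d s g ε δ) (f : C.Lf σ ε δ F b p lam) {z : Pt} (hz : z ∈ C.Om) :
    F.side (σ.pos z) = lam * ((d b).h (ori b * co b z) - p) := by
  rw [side_co F b, f.n1, f.n0, f.c, ← T.pos b z hz]; ring

theorem Lf.sq (T : C.St o n q ix σ d s g ε δ) (f : C.Lf σ ε δ F b p lam) : co b F.n ^ 2 = 1 := by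
  rw [f.n1]
  rcases f.pm with e | e <;> rcases T.eps b with e' | e' <;> rw [e, e'] <;> norm_num

theorem Lf.core (h : C.Good) (L : C.Lin o n q ix) (T : C.St o n q ix σ d s g ε δ)
    (f : C.Lf σ ε δ F b p lam) : ∃ u : ℕ → Prop, (∀ k ≤ C.m, ∀ z ∈ C.face k, z ∈ F.U ↔ u k) ∧
      (∀ k ≤ C.m, ∀ z ∈ C.cf k, (u k → 0 ≤ F.side (σ.pos z)) ∧ (¬ u k → F.side (σ.pos z) ≤ 0)) ∧
      ∀ e < C.m, ¬ (u e ↔ u (e + 1)) ↔
        C.v e = b ∧ ¬ (d (C.v e)).S (ix e) ∧ (d b).h (q b (ix e)) = p := by
  have G := T.geo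
  have aff : ∀ k ≤ C.m, ∀ z ∈ C.cf k,
      F.side (σ.pos z) = co b F.n * (s b k * co b z + g b k) - F.c := fun k hk z hz => by
    rw [side_co F b, f.n0, G.pos k hk z hz]; ring
  have ct : ∀ k, Continuous fun z => co b F.n * (s b k * co b z + g b k) - F.c := fun k => by
    have := co_cont b
    fun_prop
  have hd : ∀ k ≤ C.m, ∀ z ∈ C.face k, z ∈ F.U ↔ C.face k ⊆ F.U := fun k hk z hz => by
    refine ⟨fun hU w hw => by_contra fun hw' => ?_, fun hU => hU hz⟩
    rw [f.mem _ (h.face_sub hz), aff k hk z (C.face_cf hz)] at hU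
    rw [f.mem _ (h.face_sub hw), aff k hk w (C.face_cf hw)] at hw'
    obtain ⟨y, hy, e⟩ := (h.face_conn k).intermediate_value hw hz (ct k).continuousOn
      ⟨not_lt.1 hw', hU.le⟩
    exact f.ne y (h.face_sub hy) ((aff k hk y (C.face_cf hy)).trans e)
  have hc : ∀ k ≤ C.m, ∀ z ∈ C.cf k, (C.face k ⊆ F.U → 0 ≤ F.side (σ.pos z)) ∧
      (¬ C.face k ⊆ F.U → F.side (σ.pos z) ≤ 0) := fun k hk z hz => by
    rw [aff k hk z hz]
    refine ⟨fun a => closure_minimal (fun w hw => ?_) (isClosed_le continuous_const (ct k))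
      (h.mem_closure_face hk hz), fun a => closure_minimal (fun w hw => ?_)
        (isClosed_le (ct k) continuous_const) (h.mem_closure_face hk hz)⟩
    · exact ((f.mem w (h.face_sub hw)).1 (a hw)).le.trans_eq (aff k hk w (C.face_cf hw))
    · exact (aff k hk w (C.face_cf hw)).symm.trans_le (not_lt.1 (mt (f.mem w (h.face_sub hw)).2
        (mt (hd k hk w hw).1 a)))
  refine ⟨fun k => C.face k ⊆ F.U, hd, hc, fun e he => ?_⟩
  beta_reduce
  have zero : ∀ z ∈ C.Om, co (C.v e) z = C.c e →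
      ¬ (C.face e ⊆ F.U ↔ C.face (e + 1) ⊆ F.U) → F.side (σ.pos z) = 0 := fun z hz a hn => by
    obtain ⟨a1, a2⟩ := h.cf_line he hz a
    by_cases hu : C.face e ⊆ F.U
    · exact le_antisymm ((hc _ he z a2).2 fun b => hn (iff_of_true hu b)) ((hc _ he.le z a1).1 hu)
    · exact le_antisymm ((hc _ he.le z a1).2 hu)
        ((hc _ he z a2).1 (by_contra fun b => hn (iff_of_false hu b)))
  obtain ⟨y₁, y₂, hy, z1, z2⟩ := h.ex_line he
  have sq := f.sq T
  by_cases hv : C.v e = b
  · subst hv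
    have e0 : F.side (σ.pos (pt (C.v e) (C.c e) y₁)) = 0 ↔ (d (C.v e)).h (q (C.v e) (ix e)) = p := by
      rw [f.side T z1, co_pt, (L.cr e he).2.2]
      rcases f.pm with e' | e' <;> rw [e'] <;> constructor <;> intro a <;> linarith
    rw [← e0, eq_self_iff_true, true_and]
    by_cases h0 : F.side (σ.pos (pt (C.v e) (C.c e) y₁)) = 0
    · obtain ⟨⟨w, hw⟩, w', hw'⟩ := h.face_ne he
      have b1 := (hw.2 e he).2 le_rfl
      have b2 := (hw'.2 e he).1 (Nat.lt_succ_self e)
      rw [← hd e he.le w hw, ← hd _ he w' hw', f.mem _ (h.face_sub hw), f.mem _ (h.face_sub hw'),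
        aff e he.le w (C.face_cf hw), aff _ he w' (C.face_cf hw'), G.slope _ e he, G.off h _ he,
        iff_true_intro h0, and_true]
      rw [aff e he.le _ (h.cf_line he z1 (co_pt _ _ _)).1, co_pt] at h0
      by_cases hS : (d (C.v e)).S (ix e)
      · rw [if_pos ⟨rfl, hS⟩, if_pos ⟨rfl, hS⟩, iff_true_intro hS, not_true, iff_false, not_not]
        rcases sq_eq_one_iff.1 sq with a | a <;> rcases G.pm (C.v e) e with a' | a' <;>
          rw [a, a'] at h0 ⊢ <;>
          first
          | exact iff_of_true (by linarith) (by linarith)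
          | exact iff_of_false (by linarith) (by linarith)
      · rw [if_neg fun a => hS a.2, if_neg fun a => hS a.2, iff_true_intro hS, iff_true]
        rcases sq_eq_one_iff.1 sq with a | a <;> rcases G.pm (C.v e) e with a' | a' <;>
          rw [a, a'] at h0 ⊢ <;>
          first
          | exact fun a => absurd (a.1 (by linarith)) (by linarith)
          | exact fun a => absurd (a.2 (by linarith)) (by linarith)
    · exact iff_of_false (fun a => h0 (zero _ z1 (co_pt _ _ _) a)) fun a => h0 a.2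
  · refine iff_of_false (fun a => ?_) fun a => hv a.1
    have a1 := zero _ z1 (co_pt _ _ _) a
    have a2 := zero _ z2 (co_pt _ _ _) a
    obtain rfl : b = !C.v e := Bool.eq_not.2 (Ne.symm hv)
    rw [aff e he.le _ (h.cf_line he z1 (co_pt _ _ _)).1, co_pt'] at a1
    rw [aff e he.le _ (h.cf_line he z2 (co_pt _ _ _)).1, co_pt'] at a2
    rcases sq_eq_one_iff.1 sq with a | a <;> rcases G.pm (!C.v e) e with a' | a' <;>
      rw [a, a'] at a1 a2 <;> linarith

theorem Lf.next (h : C.Good) (L : C.Lin o n q ix) (T : C.St o n q ix σ d s g ε δ) {l : ℕ}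
    (f : C.Lf σ ε δ F b (q b l) lam) (h1 : (d b).a < l) (h2 : l ≤ n b) :
    (∀ z, z ∈ F.hinge C.map ↔ z ∈ C.Om ∧ ∃ e < C.m, co (C.v e) z = C.c e ∧
      C.v e = b ∧ ¬ (d (C.v e)).S (ix e) ∧ (d b).h (q b (ix e)) = q b l) ∧
    (∀ z ∈ F.hinge C.map, F.side (σ.pos z) = 0) ∧
    ∃ s' g' ε' δ', C.St o n q ix (σ.fold C.map F) (Function.update d b ((d b).fold (q b) l))
      s' g' ε' δ' := by
  classical
  obtain ⟨u, hd, hc, hu⟩ := f.core h L T
  have hh : ∀ z, z ∈ F.hinge C.map ↔ z ∈ C.Om ∧ ∃ e < C.m, co (C.v e) z = C.c e ∧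
      C.v e = b ∧ ¬ (d (C.v e)).S (ix e) ∧ (d b).h (q b (ix e)) = q b l := fun z => by
    rw [h.hinge_iff f.sub hd]
    exact and_congr_right fun _ => exists_congr fun e => and_congr_right fun he => by rw [hu e he]
  have hax : ∀ z ∈ F.hinge C.map, F.side (σ.pos z) = 0 := fun z hz => by
    obtain ⟨a, e, he, a1, rfl, -, a2⟩ := (hh z).1 hz
    rw [f.side T a, a1, (L.cr e he).2.2, a2, sub_self, mul_zero]
  obtain ⟨hp, G'⟩ := T.geo.mstep h f.sub hd (f.sq T) f.n0
    (fun e he a => ⟨((hu e he).1 a).1, ((hu e he).1 a).2.1⟩) hax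
  refine ⟨hh, hax, _, _, Function.update ε b (-lam * ε b),
    Function.update δ b (q b l + lam * (q b l - δ b)), G'.congr fun e he => ?_, fun b' => ?_,
    fun b' z hz => ?_, fun e he => ?_, fun b' => ?_⟩
  · rw [hu e he]
    by_cases hv : C.v e = b
    · subst hv
      rw [Function.update_self]
      change _ ∨ _ ↔ _
      tauto
    · rw [Function.update_of_ne hv]
      tauto
  · by_cases hv : b' = b
    · subst hv
      rw [Function.update_self]
      rcases f.pm with e | e <;> rcases T.eps b' with e' | e' <;> rw [e, e'] <;> norm_num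
    · rw [Function.update_of_ne hv]; exact T.eps b'
  · obtain ⟨k, hk, hz'⟩ := h.exists_cf hz
    have a1 := T.pos b' z hz
    rw [hp k hk z hz']
    by_cases hv : b' = b
    · subst hv
      simp only [Function.update_self]
      change _ = q b' l + |(d b').h (ori b' * co b' z) - q b' l|
      obtain ⟨a2, a3⟩ := hc k hk z hz'
      rw [f.side T hz] at a2 a3
      split_ifs with hk'
      · replace a2 := a2 hk'
        rw [refl_co (f.sq T) f.n0, if_pos rfl, f.c, f.n1]
        rcases f.pm with e | e <;> rcases T.eps b' with e' | e' <;> rw [e] at a2 ⊢ <;>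
          rw [e'] at a1 ⊢ <;> rcases abs_cases ((d b').h (ori b' * co b' z) - q b' l) with c | c <;>
          linarith [c.1, c.2]
      · replace a3 := a3 hk'
        rcases f.pm with e | e <;> rcases T.eps b' with e' | e' <;> rw [e] at a3 ⊢ <;>
          rw [e'] at a1 ⊢ <;> rcases abs_cases ((d b').h (ori b' * co b' z) - q b' l) with c | c <;>
          linarith [c.1, c.2]
    · simp only [Function.update_of_ne hv]
      split_ifs
      · rwa [refl_co (f.sq T) f.n0, if_neg hv]
      · exact a1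
  · by_cases hv : C.v e = b
    · subst hv
      simp only [Function.update_self, and_true]
      intro hn
      obtain ⟨a1, a2⟩ := not_or.1 hn
      change (_ ↔ ¬ (d (C.v e)).h (q (C.v e) (ix e)) < q (C.v e) l) ↔ _
      rw [T.sg e he a1]
      obtain ⟨y, -, -, hz, -⟩ := h.ex_line he
      obtain ⟨a3, a4⟩ := hc e he.le _ (h.cf_line he hz (co_pt _ _ _)).1
      rw [f.side T hz, co_pt, (L.cr e he).2.2] at a3 a4
      rcases lt_or_gt_of_ne a2 with c | c
      · rw [iff_true_intro c, not_true, iff_false]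
        split_ifs with hk'
        · replace a3 := a3 hk'
          rcases f.pm with e | e <;> rw [e] at a3 ⊢
          · linarith
          rcases T.eps (C.v _) with e1 | e1 <;> rcases T.geo.pm (C.v _) _ with e2 | e2 <;>
            rcases ori_pm (C.v _) with e3 | e3 <;> rw [e1, e2, e3] <;> norm_num
        · replace a4 := a4 hk'
          rcases f.pm with e | e <;> rw [e] at a4 ⊢
          swap
          · linarith
          rcases T.eps (C.v _) with e1 | e1 <;> rcases T.geo.pm (C.v _) _ with e2 | e2 <;>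
            rcases ori_pm (C.v _) with e3 | e3 <;> rw [e1, e2, e3] <;> norm_num
      · rw [iff_false_intro c.le.not_gt, not_false_iff, iff_true]
        split_ifs with hk'
        · replace a3 := a3 hk'
          rcases f.pm with e | e <;> rw [e] at a3 ⊢
          · simp
          · linarith
        · replace a4 := a4 hk'
          rcases f.pm with e | e <;> rw [e] at a4 ⊢
          · linarith
          · simp
    · simp only [Function.update_of_ne hv, hv, and_false, if_false]
      exact T.sg e he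
  · by_cases hv : b' = b
    · subst hv
      rw [Function.update_self]
      exact (T.base b').fold (L.mono b') h1 h2
    · rw [Function.update_of_ne hv]; exact T.base b'

end Ch

end Pool.Agent.Lib.MP_3a3d34_lc
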