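import Pool.Agent.Lib.MP_3a3d34_lc.OneYes
import Pool.Agent.Lib.MP_3a3d34_lc.Hard

/-!
Every problem in NP reduces to simple foldability in each of the three models.
-/

set_option autoImplicit false

namespace Pool.Agent.Lib.MP_3a3d34_lc

open Pool.Agent.Lib.MP_acf5a6_lc Pool.Agent.Lib.Common.CookLevin N487b59b3

section pt

variable {α : Type} [N487b59b3 α]

/-- The unit of the spacers. -/
def qC (x : List ℕ × ℕ) : ℕ := (par x).oC

/-- The bound for the pleated part. -/
def qP (x : List ℕ × ℕ) : ℕ := (par x).oP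

/-- The height of the corridor. -/
def qY (x : List ℕ × ℕ) : ℤ := (par x).oY

/-- The width of the corridor. -/
def qW (x : List ℕ × ℕ) : ℤ := (par x).oW

/-- The levels of the rod. -/
def qL (x : List ℕ × ℕ) (j : ℕ) : ℤ := (par x).lev j

/-- A side of a rectangle. -/
def qB (x : List ℕ × ℕ) (up b : Bool) (i : ℕ) : ℤ :=
  if up then (par x).ch.hi b i else (par x).ch.lo b i

/-- The position of a crease. -/
def qK (x : List ℕ × ℕ) (e : ℕ) : ℤ := (par x).oc e

/-- A table of linear functions. -/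
def tb (t : List (ℤ × ℤ)) (w : ℤ) (i : ℕ) (d : ℤ) : ℤ :=
  if i < t.length then (t.getD i (0, 0)).1 * w + (t.getD i (0, 0)).2 else d

@[fun_prop] theorem tb_PT (t : List (ℤ × ℤ)) {w d : α → ℤ} {i : α → ℕ} (hw : PT w) (hi : PT i)
    (hd : PT d) : PT (fun x => tb t (w x) (i x) (d x)) := by
  unfold tb; fun_prop

@[fun_prop] theorem qC_PT {f : α → List ℕ × ℕ} (hf : PT f) : PT (fun x => qC (f x)) :=
  PT.of_eq (f := fun x => 3 * ((urange (ulen (f x).1)).map fun i => (f x).1.getD i 1).sum +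
    (f x).2 + 4) (by fun_prop) fun _ => rfl

@[fun_prop] theorem qP_PT {f : α → List ℕ × ℕ} (hf : PT f) : PT (fun x => qP (f x)) :=
  PT.of_eq (f := fun x => pow2 (ulen (f x).1) * qC (f x)) (by fun_prop) fun _ => rfl

@[fun_prop] theorem qY_PT {f : α → List ℕ × ℕ} (hf : PT f) : PT (fun x => qY (f x)) :=
  PT.of_eq (f := fun x => (80 : ℤ) * (qP (f x) : ℤ)) (by fun_prop) fun _ => rfl

@[fun_prop] theorem qW_PT {f : α → List ℕ × ℕ} (hf : PT f) : PT (fun x => qW (f x)) :=
  PT.of_eq (f := fun x => (2 : ℤ) * ((f x).1.length : ℤ) + 42) (by fun_prop) fun _ => rfl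

@[fun_prop] theorem qL_PT {f : α → List ℕ × ℕ} {k : α → ℕ} (hf : PT f) (hk : PT k) :
    PT (fun x => qL (f x) (k x)) :=
  PT.of_eq (f := fun x => if k x = 0 then 3 * qY (f x) + 46 else if k x ≤ 2 * (f x).1.length then
      3 * qY (f x) + 54 + 16 * ((qP (f x) : ℤ) - (qC (f x) : ℤ) +
        ((pow2 (ulen (rng (ulen (f x).1) ((k x - 1) / 2))) * qC (f x) : ℕ) : ℤ) +
        if k x % 2 = 0 then (((f x).1.getD ((k x - 1) / 2) 1 : ℕ) : ℤ) else 0)
    else 4 * qY (f x) + 22 + 32 * ((f x).2 : ℤ) +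
      ((k x - (2 * (f x).1.length + 1) : ℕ) : ℤ) * (qY (f x) - 32))
    (by unfold rng; fun_prop) fun x => by
      unfold qL Par.lev
      by_cases h1 : k x = 0
      · rw [if_pos h1, if_pos h1]; rfl
      rw [if_neg h1, if_neg h1]
      by_cases h2 : k x ≤ 2 * (f x).1.length
      · rw [if_pos h2, if_pos (show k x ≤ 2 * (par (f x)).n from h2),
          rng_eq (p := ulen (f x).1) (show (k x - 1) / 2 ≤ (f x).1.length by omega), pow2, ulen,
          List.length_range]
        rfl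
      · rw [if_neg h2, if_neg (show ¬ k x ≤ 2 * (par (f x)).n from h2)]
        rfl

theorem ol_PT : PT (fun z : (List ℕ × ℕ) × ℕ => (par z.1).ol z.2) :=
  PT.of_eq (f := fun z => tb [(-1, -4), (0, -4), (0, -4), (1, -4), (1, -4), (1, 2), (1, 2), (1, 4),
    (1, 4), (2, -12), (2, -12), (2, -8), (2, 6)] (qW z.1) z.2
    (2 * qW z.1 + 17 + (((z.2 - 13 + 1) / 2 : ℕ) : ℤ))) (by fun_prop) fun ⟨x, i⟩ => by
    rcases lt_or_ge i 13 with h | h
    · interval_cases i <;> simp [tb, qW, Par.ol, sub_eq_add_neg]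
    · obtain ⟨i, rfl⟩ := Nat.exists_eq_add_of_le' h
      simp [tb, qW, Par.ol]

theorem or_PT : PT (fun z : (List ℕ × ℕ) × ℕ => (par z.1).or z.2) :=
  PT.of_eq (f := fun z => tb [(0, -2), (0, -2), (1, -2), (1, -2), (1, 4), (1, 4), (1, 6), (1, 6),
    (2, -10), (2, -10), (2, -2), (2, 18), (2, 18)] (qW z.1) z.2
    (2 * qW z.1 + 19 + (((z.2 - 13) / 2 : ℕ) : ℤ))) (by fun_prop) fun ⟨x, i⟩ => by
    rcases lt_or_ge i 13 with h | h
    · interval_cases i <;> simp [tb, qW, Par.or, sub_eq_add_neg]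
    · obtain ⟨i, rfl⟩ := Nat.exists_eq_add_of_le' h
      simp [tb, qW, Par.or]

theorem ob_PT : PT (fun z : (List ℕ × ℕ) × ℕ => (par z.1).ob z.2) :=
  PT.of_eq (f := fun z => tb [(0, -10), (0, -10), (1, 9), (1, 9), (2, 20), (2, 20), (2, 24), (2, 24),
    (3, 36), (3, 36), (3, 40), (3, 40), (3, 40)] (qY z.1) z.2 (qL z.1 ((z.2 - 13) / 2)))
    (by fun_prop) fun ⟨x, i⟩ => by
    rcases lt_or_ge i 13 with h | h
    · interval_cases i <;> simp [tb, qY, Par.ob]
    · obtain ⟨i, rfl⟩ := Nat.exists_eq_add_of_le' h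
      simp [tb, qL, Par.ob]

theorem ot_PT : PT (fun z : (List ℕ × ℕ) × ℕ => (par z.1).ot z.2) :=
  PT.of_eq (f := fun z => tb [(0, 0), (1, 11), (1, 11), (2, 22), (2, 22), (2, 26), (2, 26), (3, 38),
    (3, 38), (3, 42), (3, 42), (3, 42), (3, 67)] (qY z.1) z.2 (qL z.1 ((z.2 - 13 + 3) / 2)))
    (by fun_prop) fun ⟨x, i⟩ => by
    rcases lt_or_ge i 13 with h | h
    · interval_cases i <;> simp [tb, qY, Par.ot]
    · obtain ⟨i, rfl⟩ := Nat.exists_eq_add_of_le' h
      simp [tb, qL, Par.ot]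

@[fun_prop] theorem qB_PT (up : Bool) {f : α → List ℕ × ℕ} {b : α → Bool} {k : α → ℕ} (hf : PT f)
    (hb : PT b) (hk : PT k) : PT (fun x => qB (f x) up (b x) (k x)) := by
  cases up
  · exact PT.of_eq (PT.cond' hb (PT.comp ol_PT (PT.prodMk hf hk)) (PT.comp ob_PT (PT.prodMk hf hk)))
      fun x => by cases b x <;> rfl
  · exact PT.of_eq (PT.cond' hb (PT.comp or_PT (PT.prodMk hf hk)) (PT.comp ot_PT (PT.prodMk hf hk)))
      fun x => by cases b x <;> rfl

@[fun_prop] theorem ov_PT {k : α → ℕ} (hk : PT k) : PT (fun x => Par.ov (k x)) :=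
  PT.of_eq (f := fun x => [false, true, true, false, false, true, true].getD (k x) false)
    (by fun_prop) fun x => by
    generalize k x = i
    rcases lt_or_ge i 7 with h | h
    · interval_cases i <;> rfl
    · obtain ⟨i, rfl⟩ := Nat.exists_eq_add_of_le' h
      rfl

@[fun_prop] theorem ok_PT {k : α → ℕ} (hk : PT k) : PT (fun x => Par.ok (k x)) :=
  PT.of_eq (f := fun x => [1, 2, 4, 5, 7, 10, 11, 12].getD (k x) (2 * (k x - 8) + 1 + 13))
    (by fun_prop) fun x => by
    generalize k x = i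
    rcases lt_or_ge i 8 with h | h
    · interval_cases i <;> rfl
    · obtain ⟨i, rfl⟩ := Nat.exists_eq_add_of_le' h
      simp [Par.ok]

@[fun_prop] theorem qK_PT {f : α → List ℕ × ℕ} {k : α → ℕ} (hf : PT f) (hk : PT k) :
    PT (fun x => qK (f x) (k x)) :=
  PT.of_eq (f := fun x => tb [(1, 9), (0, 0), (1, 0), (2, 24), (3, 34), (2, -8), (2, -2)]
    (if Par.ov (k x) then qW (f x) else qY (f x)) (k x) (qL (f x) (k x - 7))) (by fun_prop) fun x => by
    generalize k x = i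
    rcases lt_or_ge i 7 with h | h
    · interval_cases i <;> simp [tb, qK, qW, qY, Par.oc, Par.ov, sub_eq_add_neg]
    · obtain ⟨i, rfl⟩ := Nat.exists_eq_add_of_le' h
      simp [tb, qK, qL, Par.oc]

theorem ch_PT : PT (fun x : List ℕ × ℕ => (par x).ch.map) :=
  PT.of_eq (f := fun x => ((urange (((uN x).add (uN x)).add ⟨14⟩)).map fun i =>
      ((qB x false true i : ℚ), (qB x true true i : ℚ), (qB x false false i : ℚ),
        (qB x true false i : ℚ)),
    (urange ((uN x).add ⟨8⟩)).map fun e => (Par.ov e, (qK x e : ℚ),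
      (qB x false (!Par.ov e) (Par.ok e) : ℚ), (qB x true (!Par.ov e) (Par.ok e) : ℚ), Par.ov e)))
    (by fun_prop) fun x => by
    simp only [urange, Un.add, uN_n]
    rw [show 2 * (par x).n + 1 + (2 * (par x).n + 1) + 14 = (par x).ch.N + 1 by
      rw [Par.ch_N]; ring]
    rfl

end pt

theorem hard_of_map {f : List ℕ × ℕ → PMap} (hf : PT f) {Q : PMap → Prop}
    (hQ : ∀ x, (par x).Pos → Valid (f x) ∧ (Q (f x) ↔ (par x).Sol)) {D : N68a2faeb.DecisionProblem}
    (hD : ∀ s, D s = true ↔ ∃ M : PMap, s = bitEncode M ∧ Valid M ∧ Q M)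
    {L : N68a2faeb.DecisionProblem} (hL : L ∈ N68a2faeb.NP) : N793a5b8e.ManyOneReducible L D := by
  obtain ⟨p, R, hR, H⟩ := hL
  have hR' : PT (fun z : List Bool × List Bool => R (z.1, (Raw.mk (sfst z.2)).s)) :=
    PT.comp (MP_73cdf8_lc.PT_of_isPolyTime hR)
      (PT.prodMk (PT.fst PT.id') (PT.rawBits (PT.rawFst (PT.rawMk (PT.snd PT.id')))))
  obtain ⟨V, φ, hV, hφ, hc⟩ := count_hard hR'.isPolyTime (2 * p + 1)
  let I : List Bool → List ℕ × ℕ := fun x => inst (pairs (V x) (φ x)) (tgt (uK (φ x)) (φ x))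
  have hI : PT I := by fun_prop
  refine ⟨fun x => (toRaw (f (I x))).s,
    (PT.rawBits (PT.toRaw' (PT.comp hf hI))).isPolyTime, fun x => ?_⟩
  obtain ⟨c1, c2, c3⟩ := hc x
  obtain ⟨q1, q2⟩ := hQ (I x) (inst_pos _ _)
  rw [Bool.eq_iff_iff, H, hD]
  trans (par (I x)).Sol
  · rw [inst_sol, Cho_count c1 c2, c3, Nat.cast_pos, Finset.card_pos]
    have e : (2 * p + 1).eval x.length = 2 * p.eval x.length + 1 := by simp
    constructor
    · rintro ⟨w, h1, h2⟩
      let w' := delimit w ++ List.replicate (2 * (p.eval x.length - w.length)) false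
      have h3 : w'.length = (2 * p + 1).eval x.length := by
        simp only [w', List.length_append, length_delimit, List.length_replicate, e]
        omega
      refine ⟨fun i => w'[i], Finset.mem_filter.2 ⟨Finset.mem_univ _, ?_⟩⟩
      have h4 : (List.ofFn fun i : Fin ((2 * p + 1).eval x.length) => w'[i]) = w' :=
        List.ext_getElem (by simp [h3]) fun i _ _ => List.getElem_ofFn _
      simp only [h4, w', sfst_delimit]
      exact h2
    · rintro ⟨w, hw⟩
      refine ⟨_, ?_, (Finset.mem_filter.1 hw).2⟩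
      have := length_sfst_ssnd (List.ofFn w)
      simp only [List.length_ofFn] at this ⊢
      omega
  · refine ⟨fun h => ⟨_, rfl, q1, q2.2 h⟩, ?_⟩
    rintro ⟨M, h1, -, h2⟩
    rw [← bitEncode_injective (a₁ := f (I x)) h1] at h2
    exact q2.1 h2

theorem FoldableIn.foldable {mo : Layers} {two : Bool} {M : PMap} (h : FoldableIn mo two M) :
    Foldable mo.isAll two M := by
  obtain ⟨σ, h1, h2⟩ := h
  exact ⟨σ, Relation.ReflTransGen.mono (fun _ _ ⟨F, a, _, b⟩ => ⟨F, a, b⟩) _ _ h1, h2⟩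

theorem Foldable.foldableIn {mo : Layers} (hm : mo ≠ .one) {two : Bool} {M : PMap}
    (h : Foldable mo.isAll two M) : FoldableIn mo two M := by
  obtain ⟨σ, h1, h2⟩ := h
  exact ⟨σ, Relation.ReflTransGen.mono (fun _ _ ⟨F, a, b⟩ => ⟨F, a, fun c => absurd c hm, b⟩) _ _ h1,
    h2⟩

theorem FoldableIn.mono {mo : Layers} {two : Bool} {M : PMap} (h : FoldableIn mo false M) :
    FoldableIn mo two M := by
  obtain ⟨σ, h1, h2⟩ := h
  refine ⟨σ, Relation.ReflTransGen.mono ?_ _ _ h1, h2⟩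
  rintro _ _ ⟨F, hL, a, rfl⟩
  exact ⟨F, ⟨hL.unit, hL.sub, hL.ne, hL.axis, hL.assign, fun _ => hL.oneSide rfl, hL.free,
    hL.layers⟩, a, rfl⟩

theorem np_hard_in (mo : Layers) (two : Bool) {L : N68a2faeb.DecisionProblem}
    (hL : L ∈ N68a2faeb.NP) : N793a5b8e.ManyOneReducible L (LangIn mo two) := by
  have hD : ∀ s, LangIn mo two s = true ↔
      ∃ M : PMap, s = bitEncode M ∧ Valid M ∧ FoldableIn mo two M := fun s => by
    simp only [LangIn, decide_eq_true_eq]
  by_cases hm : mo = .one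
  · subst hm
    exact hard_of_map ch_PT (fun x hx => ⟨(Par.good hx).valid,
      fun h => Par.sol_of_fold hx h.foldable, fun h => (Par.fold_of_sol hx h).mono⟩) hD hL
  · exact hard_of_map map_PT (fun x hx => ⟨Par.valid hx, fun h => Par.sol_of_foldable hx h.foldable,
      fun h => (Par.foldable_of_sol hx _ h).mono.foldableIn hm⟩) hD hL

end Pool.Agent.Lib.MP_3a3d34_lc
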