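import Pool.Agent.Lib.MP_3a3d34_lc.InfYes
import Pool.Agent.Lib.MP_3a3d34_lc.OneHard

/-!
Every problem in NP reduces to simple foldability in each of the four models.
-/

set_option autoImplicit false

namespace Pool.Agent.Lib.MP_3a3d34_lc

open Pool.Agent.Lib.MP_acf5a6_lc Pool.Agent.Lib.Common.CookLevin N487b59b3 Ln Finset

section pt

variable {α : Type} [N487b59b3 α]

theorem sum_PT {U : α → Un} {k : α → ℕ} {f : α → ℕ → ℕ} (hU : PT U) (hk : PT k)
    (hf : PT fun z : α × ℕ => f z.1 z.2) (h : ∀ x, k x ≤ (U x).n) :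
    PT fun x => ∑ i ∈ range (k x), f x i :=
  PT.of_eq (f := fun x => ((rng (U x) (k x)).map (f x)).sum) (by unfold rng; fun_prop) fun x => by
    rw [rng_eq (h x)]; rfl

@[fun_prop] theorem min_PT {f g : α → ℕ} (hf : PT f) (hg : PT g) : PT fun x => min (f x) (g x) :=
  PT.of_eq (f := fun x => f x - (f x - g x)) (by fun_prop) fun x => by omega

@[fun_prop] theorem boolNat_PT {f : α → Bool} (hf : PT f) : PT fun x => (f x).toNat :=
  PT.of_eq (f := fun x => if f x then 1 else 0) (by fun_prop) fun x => by cases f x <;> rfl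

theorem rb_PT {U : α → Un} {nv oh nh : α → ℕ} {g : α → Bool → ℕ → ℕ} {col : α → ℕ → ℕ}
    {val : α → Bool → ℕ → Bool} (hU : PT U) (h1 : PT nv) (h2 : PT oh) (h3 : PT nh)
    (h4 : PT fun z : α × Bool × ℕ => g z.1 z.2.1 z.2.2) (h5 : PT fun z : α × ℕ => col z.1 z.2)
    (h6 : PT fun z : α × Bool × ℕ => val z.1 z.2.1 z.2.2)
    (hb : ∀ x, 2 * (nv x + nh x + 1) ≤ (U x).n) :
    PT fun x => (Rb.mk (nv x) (oh x) (nh x) (g x) (col x) (val x)).ch.map := by
  let R : α → Rb := fun x => Rb.mk (nv x) (oh x) (nh x) (g x) (col x) (val x)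
  obtain ⟨v, hv, ev⟩ : ∃ v : α → ℕ → Bool, PT (fun z : α × ℕ => v z.1 z.2) ∧
      ∀ x e, (R x).v e = v x e :=
    ⟨fun x e => (rng (U x) (nh x - oh x)).all fun j => !decide (j + col x (nh x - j) = e),
      by unfold rng; fun_prop, fun x e => by
        beta_reduce; rw [rng_eq (by have := hb x; omega)]; rfl⟩
  obtain ⟨c, hc, ec⟩ : ∃ c : α → Bool → ℕ → ℕ, PT (fun z : α × Bool × ℕ => c z.1 z.2.1 z.2.2) ∧
      ∀ x b k, k ≤ (U x).n → (R x).cnt b k = c x b k :=
    ⟨fun x b k => ∑ e ∈ range (min k (U x).n), if v x e = b then 1 else 0,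
      sum_PT (U := fun z => U z.1) (by fun_prop) (by fun_prop) (by fun_prop)
        fun _ => min_le_right _ _, fun x b k h => by simp only [Rb.cnt, ev, min_eq_left h]⟩
  obtain ⟨s, hs, es⟩ : ∃ s : α → Bool → ℕ → ℕ, PT (fun z : α × Bool × ℕ => s z.1 z.2.1 z.2.2) ∧
      ∀ x b k, k ≤ (U x).n → ps (g x b) k = s x b k :=
    ⟨fun x b k => ∑ e ∈ range (min k (U x).n), g x b e,
      sum_PT (U := fun z => U z.1) (by fun_prop) (by fun_prop) (by fun_prop)
        fun _ => min_le_right _ _, fun x b k h => by simp only [ps, min_eq_left h]⟩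
  obtain ⟨p, hp, ep⟩ : ∃ p : α → Bool → ℕ → ℕ → ℤ,
      PT (fun z : α × Bool × ℕ × ℕ => p z.1 z.2.1 z.2.2.1 z.2.2.2) ∧
      ∀ x b k d, k + d ≤ (U x).n → (R x).p b ((R x).cnt b k + d) = p x b k d :=
    ⟨fun x b k d => if b then (s x true (c x b k + d) : ℤ)
      else -(s x false (nh x + 1 - (c x b k + d)) : ℤ), by fun_prop, fun x b k d h => by
      have a : (R x).cnt b k ≤ k := (sum_le_card_nsmul _ _ 1 fun i _ => by
        split_ifs <;> omega).trans (by simp)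
      have := hb x
      beta_reduce
      rw [← ec _ _ _ (by omega), ← es _ _ _ (by omega), ← es _ _ _ (by omega)]
      rfl⟩
  refine PT.of_eq (f := fun x => ((rng (U x) (2 * (nv x + (nh x - oh x)) + 1)).map fun i =>
      ((p x true (i / 2) 0 : ℚ), (p x true ((i + 1) / 2) 1 : ℚ), (p x false (i / 2) 0 : ℚ),
        (p x false ((i + 1) / 2) 1 : ℚ)),
    (rng (U x) (nv x + (nh x - oh x))).map fun e => (v x e, (p x (v x e) e 1 : ℚ),
      (p x (!v x e) ((2 * e + 1) / 2) 0 : ℚ), (p x (!v x e) ((2 * e + 1 + 1) / 2) 1 : ℚ),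
      val x (v x e) (if v x e then c x true e + 1 else nh x - c x false e))))
    (by unfold rng; fun_prop) fun x => ?_
  have := hb x
  rw [rng_eq (by omega), rng_eq (by omega)]
  refine Prod.ext (List.map_congr_left fun i hi => ?_) (List.map_congr_left fun i hi => ?_)
  · have := List.mem_range.1 hi
    rw [← ep _ _ _ _ (by omega), ← ep _ _ _ _ (by omega), ← ep _ _ _ _ (by omega),
      ← ep _ _ _ _ (by omega)]
    rfl
  · have := List.mem_range.1 hi
    rw [← ep _ _ _ _ (by omega), ← ep _ _ _ _ (by omega), ← ep _ _ _ _ (by omega),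
      ← ec _ _ _ (by omega), ← ec _ _ _ (by omega), ← ev]
    rfl

theorem zg_PT {U : α → Un} {n K : α → ℕ} {E G : α → ℕ → ℕ} (hU : PT U) (h1 : PT n) (h2 : PT K)
    (h3 : PT fun z : α × ℕ => E z.1 z.2) (h4 : PT fun z : α × ℕ => G z.1 z.2)
    (hb : ∀ x, n x + 1 ≤ (U x).n) : PT fun z : α × ℕ => zg (n z.1) (K z.1) (E z.1) (G z.1) z.2 := by
  obtain ⟨f, hf, ef⟩ : ∃ f : α → ℕ → ℕ, PT (fun z : α × ℕ => f z.1 z.2) ∧
      ∀ x, zg0 (K x) (E x) (G x) = f x :=
    ⟨fun x => zg0 (K x) (E x) (G x), by unfold zg0; fun_prop, fun _ => rfl⟩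
  have := sum_PT hU (by fun_prop) hf hb
  simp only [zg, ef]
  generalize hS : (fun x => ∑ i ∈ range (n x + 1), f x i) = S at this
  exact PT.of_eq (f := fun z : α × ℕ => if z.2 = n z.1 then S z.1 + 1 else f z.1 z.2) (by fun_prop)
    fun z => by rw [← hS]

theorem Cn.L_le (P : Cn) : P.L ≤ P.N * (3 * P.T) + P.T := by
  refine Nat.add_le_add_right ((sum_le_card_nsmul _ _ (3 * P.T) fun c _ => ?_).trans (by simp)) _
  have := sum_le_card_nsmul (range P.T) (fun u => (P.pos c u).toNat + (P.neg c u).toNat) 2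
    fun u _ => Nat.add_le_add (Bool.toNat_le _) (Bool.toNat_le _)
  rw [card_range, smul_eq_mul] at this
  unfold Cn.bud
  omega

theorem cn_PT {T N : α → Un} {pos neg : α → ℕ → ℕ → Bool} (hT : PT T) (hN : PT N)
    (hp : PT fun z : α × ℕ × ℕ => pos z.1 z.2.1 z.2.2)
    (hn : PT fun z : α × ℕ × ℕ => neg z.1 z.2.1 z.2.2) :
    PT fun x => (Cn.mk (T x).n (N x).n (pos x) (neg x)).rb.ch.map := by
  let P : α → Cn := fun x => Cn.mk (T x).n (N x).n (pos x) (neg x)
  obtain ⟨B, hB, eB⟩ : ∃ f : α → ℕ → ℕ, PT (fun z : α × ℕ => f z.1 z.2) ∧ ∀ x, (P x).bud = f x :=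
    ⟨fun x => (P x).bud, PT.natSub (PT.natAdd (sum_PT (U := fun z : α × ℕ => T z.1)
      (f := fun z u => (pos z.1 z.2 u).toNat + (neg z.1 z.2 u).toNat) (by fun_prop) (by fun_prop)
      (by fun_prop) fun _ => le_rfl) (g := fun z => (T z.1).n) (by fun_prop)) (PT.const 2),
      fun _ => rfl⟩
  obtain ⟨M, hM, eM⟩ : ∃ f : α → ℕ → ℕ, PT (fun z : α × ℕ => f z.1 z.2) ∧ ∀ x, (P x).M = f x :=
    ⟨fun x c => ∑ i ∈ range (min c (N x).n), B x i, sum_PT (U := fun z => N z.1) (by fun_prop)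
      (by fun_prop) (by fun_prop) fun _ => min_le_right _ _, fun x => by simp only [← eB]; rfl⟩
  obtain ⟨J, hJ, eJ⟩ : ∃ f : α → ℕ, PT f ∧ ∀ x, (P x).J = f x :=
    ⟨fun x => 2 * (T x).n + 1, by fun_prop, fun _ => rfl⟩
  obtain ⟨H, hH, eH⟩ : ∃ f : α → ℕ, PT f ∧ ∀ x, (P x).H = f x :=
    ⟨fun x => 2 * (T x).n + 1 + 2, by fun_prop, fun _ => rfl⟩
  obtain ⟨L, hL, eL⟩ : ∃ f : α → ℕ, PT f ∧ ∀ x, (P x).L = f x :=
    ⟨fun x => M x (N x).n + (T x).n, by fun_prop, fun x => by simp only [← eM]; rfl⟩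
  obtain ⟨K, hK, eK⟩ : ∃ f : α → ℕ, PT f ∧ ∀ x, (P x).K = f x :=
    ⟨fun x => L x + 3, by fun_prop, fun x => by simp only [← eL]; rfl⟩
  obtain ⟨Rm, hR, eR⟩ : ∃ f : α → ℕ, PT f ∧ ∀ x, (P x).Rm = f x :=
    ⟨fun x => (2 * (N x).n + 1) * J x + 1, by fun_prop, fun x => by simp only [← eJ]; rfl⟩
  obtain ⟨nv, hv, ev⟩ : ∃ f : α → ℕ, PT f ∧ ∀ x, (P x).nv = f x :=
    ⟨fun x => Rm x * K x + L x, by fun_prop, fun x => by simp only [← eR, ← eK, ← eL]; rfl⟩
  obtain ⟨nh, hh, eh⟩ : ∃ f : α → ℕ, PT f ∧ ∀ x, (P x).nh = f x :=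
    ⟨fun x => (2 * (N x).n + 1) * H x + (J x + 1), by fun_prop, fun x => by simp only [← eH, ← eJ]; rfl⟩
  obtain ⟨U, hU, eU⟩ : ∃ U : α → Un, PT U ∧ ∀ x, 2 * (nv x + nh x + 1) ≤ (U x).n := by
    let a : α → Un := fun x => ((N x).add (N x)).add ⟨1⟩
    let b : α → Un := fun x => ((T x).add (T x)).add ⟨3⟩
    let l : α → Un := fun x => (((N x).mul (Un.mul ⟨3⟩ (T x))).add (T x)).add ⟨3⟩
    refine ⟨fun x => Un.mul ⟨2⟩ ((((((a x).mul (b x)).mul (l x)).add (l x)).add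
      ((a x).mul (b x))).add (b x)), by fun_prop, fun x => ?_⟩
    have e1 : (P x).K ≤ (l x).n := Nat.add_le_add_right (P x).L_le 3
    have e2 : (P x).H = (b x).n := by simp only [Cn.H, Cn.J, b, P, Un.add]; omega
    have e3 : 2 * (P x).N + 1 = (a x).n := by simp only [a, P, Un.add]; omega
    have e4 : (P x).Rm ≤ (a x).n * (b x).n := by
      rw [← e2, ← e3, Cn.H_eq, mul_add, Cn.Rm_eq]; omega
    have e5 := Nat.mul_le_mul e4 e1
    have := (P x).K_eq
    have := (P x).H_eq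
    rw [← ev, ← eh, Cn.nv, Cn.nh, e3, e2]
    simp only [Un.mul, Un.add]
    omega
  obtain ⟨mir, hm, em⟩ : ∃ f : α → ℕ → ℕ, PT (fun z : α × ℕ => f z.1 z.2) ∧ ∀ x, (P x).mir = f x :=
    ⟨fun x => (P x).mir, by simp only [Cn.mir, Cn.off, eR, eJ, eH]; fun_prop, fun _ => rfl⟩
  obtain ⟨pre, hq, eq⟩ : ∃ f : α → ℕ → ℕ → Bool, PT (fun z : α × ℕ × ℕ => f z.1 z.2.1 z.2.2) ∧
      ∀ x, (P x).pre = f x :=
    ⟨fun x => (P x).pre, by simp only [Cn.pre, eK, eJ, eH, eM]; fun_prop, fun _ => rfl⟩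
  obtain ⟨s1, k1, e1⟩ : ∃ f : α → ℕ → ℕ → ℕ, PT (fun z : α × ℕ × ℕ => f z.1 z.2.1 z.2.2) ∧
      ∀ x c t, t ≤ (T x).n + 1 → ∑ u ∈ range t, (!neg x c u).toNat = f x c t :=
    ⟨fun x c t => ∑ u ∈ range (min t ((T x).n + 1)), (!neg x c u).toNat,
      sum_PT (U := fun z => (T z.1).add ⟨1⟩) (by fun_prop) (by fun_prop) (by fun_prop)
        fun _ => min_le_right _ _, fun x c t h => by simp only [min_eq_left h]⟩
  obtain ⟨s2, k2, e2⟩ : ∃ f : α → ℕ → ℕ → ℕ, PT (fun z : α × ℕ × ℕ => f z.1 z.2.1 z.2.2) ∧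
      ∀ x c t, t ≤ (T x).n + 1 → ∑ u ∈ range t, (pos x c u).toNat = f x c t :=
    ⟨fun x c t => ∑ u ∈ range (min t ((T x).n + 1)), (pos x c u).toNat,
      sum_PT (U := fun z => (T z.1).add ⟨1⟩) (by fun_prop) (by fun_prop) (by fun_prop)
        fun _ => min_le_right _ _, fun x c t h => by simp only [min_eq_left h]⟩
  obtain ⟨cH, hc, ec⟩ : ∃ f : α → ℕ → ℕ → ℕ, PT (fun z : α × ℕ × ℕ => f z.1 z.2.1 z.2.2) ∧
      ∀ x ρ s, (P x).cH ρ s = f x ρ s :=
    ⟨fun x ρ s => if ρ = 0 then 1 else if ρ % 2 = 1 then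
      (if 2 ≤ s then if s ≤ J x then M x (ρ / 2) + s1 x (ρ / 2) (s / 2) else 0 else 0)
      else (if 2 ≤ s then M x (ρ / 2) + s2 x (ρ / 2 - 1) ((H x - s) / 2) else 0), by fun_prop,
      fun x ρ s => by
      have a1 : (P x).J = 2 * (T x).n + 1 := rfl
      have a2 := (P x).H_eq
      beta_reduce
      rw [← e2 _ _ _ (by rw [← eH]; omega), ← eM, ← eJ, ← eH, Cn.cH]
      by_cases c : s ≤ (P x).J
      · rw [← e1 _ _ _ (by omega)]
        simp only [c, and_true, if_true]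
        rfl
      · simp only [c, and_false, if_false, ite_self]
        rfl⟩
  obtain ⟨cV, hd, ed⟩ : ∃ f : α → ℕ → ℕ, PT (fun z : α × ℕ => f z.1 z.2) ∧
      ∀ x y, ((Ioc (P x).J (P x).nh).filter fun i =>
        (P x).mir i * (P x).K < y ∧ (P x).pre (lab (P x).K y) i = true).card = f x y :=
    ⟨fun x y => ∑ i ∈ range (nh x + 1), if J x < i then if mir x i * K x < y then
      (pre x (lab (K x) y) i).toNat else 0 else 0, sum_PT (U := fun z => U z.1) (by fun_prop)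
      (by fun_prop) (by unfold lab; fun_prop) fun z => by have := eU z.1; omega, fun x y => by
      rw [eJ, eh, em, eK, eq, card_filter, show Ioc (J x) (nh x) = (range (nh x + 1)).filter
        fun i => J x < i by ext; simp only [mem_Ioc, mem_filter, mem_range]; omega, sum_filter]
      refine sum_congr rfl fun i _ => ?_
      cases pre x (lab (K x) y) i <;> simp⟩
  have g1 := zg_PT (E := fun _ ρ => ρ + 1) (G := fun x => (P x).GV) hU hv hK (by fun_prop)
    (by simp only [Cn.GV, eR, eK]; fun_prop) fun x => by have := eU x; omega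
  have g2 := zg_PT (E := fun x => (P x).EH) (G := fun x => (P x).GH) hU hh hH
    (by simp only [Cn.EH, eH, P]; fun_prop) (by simp only [Cn.GH, P]; fun_prop)
    fun x => by have := eU x; omega
  refine (rb_PT (g := fun x => (P x).rb.g) (col := fun x y => mir x y * K x)
    (val := fun x b y => if b then decide ((y / K x + cV x y) % 2 = 0)
      else decide ((y / H x + cH x (y / H x) (y % H x)) % 2 = 0)) hU hv hJ hh ?_ (by fun_prop)
    (by fun_prop) eU).of_eq fun x => ?_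
  · refine (PT.cond' (c := fun z : α × Bool × ℕ => z.2.1) (by fun_prop)
      (PT.comp g1 (g := fun z => (z.1, z.2.2)) (by fun_prop))
      (PT.comp g2 (g := fun z => (z.1, z.2.2)) (by fun_prop))).of_eq fun ⟨x, b, y⟩ => ?_
    rw [← ev, ← eh, ← eK, ← eH]
    cases b <;> rfl
  · simp only [← ev, ← eh, ← eJ, ← em, ← ec, ← ed, ← eK, ← eH]
    rfl

end pt

/-- A literal occurs in a clause. -/
def occ (V : List Var) (φ : List Clause) (b : Bool) (c u : ℕ) : Bool :=
  decide (u < V.length) && memb (φ.getD c []) (V.getD u (0, []), b)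

theorem occ_sol {V : List Var} (hV : V.Nodup) {φ : List Clause} (h : ∀ C ∈ φ, ∀ l ∈ C, l.1 ∈ V) :
    (Cn.mk (V.length + 2) φ.length (occ V φ true) (occ V φ false)).Sol ↔
      ∃ U ∈ V.toFinset.powerset, ∀ C ∈ φ, Sat (fun v => decide (v ∈ U)) C := by
  have e : ∀ b c u, (hc : c < φ.length) → (occ V φ b c u = true ↔
      ∃ hu : u < V.length, (V[u], b) ∈ φ[c]) := fun b c u hc => by
    rw [occ, Bool.and_eq_true, decide_eq_true_iff, memb_iff, List.getD_eq_getElem _ _ hc]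
    exact ⟨fun ⟨a, b⟩ => ⟨a, by rwa [List.getD_eq_getElem _ _ a] at b⟩,
      fun ⟨a, b⟩ => ⟨a, by rwa [List.getD_eq_getElem _ _ a]⟩⟩
  constructor
  · rintro ⟨x, hx⟩
    refine ⟨V.toFinset.filter fun v => x (V.idxOf v) = true, mem_powerset.2 (filter_subset _ _),
      fun C hC => ?_⟩
    obtain ⟨c, hc, rfl⟩ := List.getElem_of_mem hC
    obtain ⟨u, -, ⟨a, b⟩ | ⟨a, b⟩⟩ := hx c hc <;> obtain ⟨hu, a⟩ := (e _ _ _ hc).1 a <;>
      exact ⟨_, a, by simp [hV.idxOf_getElem, b]⟩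
  · rintro ⟨U, -, hU⟩
    refine ⟨fun u => decide (V.getD u (0, []) ∈ U), fun c hc => ?_⟩
    obtain ⟨⟨v, b⟩, a1, a2⟩ := hU _ (List.getElem_mem hc)
    obtain ⟨u, hu, rfl⟩ := List.getElem_of_mem (h _ (List.getElem_mem hc) _ a1)
    refine ⟨u, Nat.lt_add_right 2 hu, ?_⟩
    simp only [List.getD_eq_getElem _ _ hu]
    cases b
    · exact Or.inr ⟨(e _ _ _ hc).2 ⟨hu, a1⟩, a2⟩
    · exact Or.inl ⟨(e _ _ _ hc).2 ⟨hu, a1⟩, a2⟩

open Classical in
theorem np_hard_line (two : Bool) {L : N68a2faeb.DecisionProblem} (hL : L ∈ N68a2faeb.NP) :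
    N793a5b8e.ManyOneReducible L (MLang .line two) := by
  obtain ⟨p, R, hR, H⟩ := hL
  have hR' : PT (fun z : List Bool × List Bool => R (z.1, (Raw.mk (sfst z.2)).s)) :=
    PT.comp (MP_73cdf8_lc.PT_of_isPolyTime hR)
      (PT.prodMk (PT.fst PT.id') (PT.rawBits (PT.rawFst (PT.rawMk (PT.snd PT.id')))))
  obtain ⟨V, φ, hV, hφ, hc⟩ := count_hard hR'.isPolyTime (2 * p + 1)
  let P : List Bool → Cn := fun x =>
    Cn.mk ((V x).length + 2) (φ x).length (occ (V x) (φ x) true) (occ (V x) (φ x) false)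
  have hP : PT fun x => (P x).rb.ch.map := cn_PT (T := fun x => (ulen (V x)).add ⟨2⟩)
    (N := fun x => ulen (φ x)) (by fun_prop) (by fun_prop) (by unfold occ; fun_prop)
    (by unfold occ; fun_prop)
  refine ⟨fun x => (toRaw (P x).rb.ch.map).s, (PT.rawBits (PT.toRaw' hP)).isPolyTime, fun x => ?_⟩
  obtain ⟨c1, c2, c3⟩ := hc x
  have hT : 2 ≤ (P x).T := Nat.le_add_left _ _
  rw [Bool.eq_iff_iff, H]
  simp only [MLang, decide_eq_true_eq]
  trans (P x).Sol
  · rw [occ_sol c1 c2, ← filter_nonempty_iff, ← card_pos, c3, card_pos]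
    have e : (2 * p + 1).eval x.length = 2 * p.eval x.length + 1 := by simp
    constructor
    · rintro ⟨w, h1, h2⟩
      let w' := delimit w ++ List.replicate (2 * (p.eval x.length - w.length)) false
      have h3 : w'.length = (2 * p + 1).eval x.length := by
        simp only [w', List.length_append, length_delimit, List.length_replicate, e]
        omega
      refine ⟨fun i => w'[i], Finset.mem_filter.2 ⟨Finset.mem_univ _, ?_⟩⟩
      have h4 : (List.ofFn fun i : Fin ((2 * p + 1).eval x.length) => w'[i]) = w' :=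
        List.ext_getElem (by simp [h3]) fun i _ _ => List.getElem_ofFn _
      simp only [h4, w', sfst_delimit]
      exact h2
    · rintro ⟨w, hw⟩
      refine ⟨_, ?_, (Finset.mem_filter.1 hw).2⟩
      have := length_sfst_ssnd (List.ofFn w)
      simp only [List.length_ofFn] at this ⊢
      omega
  · refine ⟨fun h => ⟨_, rfl, (P x).ok.good.valid, Cn.fold_of_sol hT two h⟩, ?_⟩
    rintro ⟨M, h1, -, h2⟩
    rw [← bitEncode_injective (a₁ := (P x).rb.ch.map) h1] at h2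
    exact Cn.sol_of_fold hT h2

theorem mlang_eq {mo : Model} {mo' : Layers} (h1 : mo.isAll = mo'.isAll) (h2 : mo = .one ↔ mo' = .one)
    (h3 : mo ≠ .line) (two : Bool) : MLang mo two = LangIn mo' two := by
  have e : ∀ M, MStep mo two M = Step mo' two M := fun M => by
    funext σ₁ σ₂
    simp only [MStep, Step, h1, h2, h3, false_imp_iff, true_and]
  have e' : MFold mo two = FoldableIn mo' two := by
    funext M
    rw [MFold, FoldableIn, e]
  funext s
  rw [MLang, LangIn, e']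

theorem np_hard_model (mo : Model) (two : Bool) {L : N68a2faeb.DecisionProblem}
    (hL : L ∈ N68a2faeb.NP) : N793a5b8e.ManyOneReducible L (MLang mo two) := by
  cases mo
  · rw [mlang_eq (mo' := .one) rfl (by simp) (by simp)]; exact np_hard_in _ _ hL
  · rw [mlang_eq (mo' := .some) rfl (by simp) (by simp)]; exact np_hard_in _ _ hL
  · rw [mlang_eq (mo' := .all) rfl (by simp) (by simp)]; exact np_hard_in _ _ hL
  · exact np_hard_line two hL

end Pool.Agent.Lib.MP_3a3d34_lc
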