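import Pool.Agent.Lib.MP_3a3d34_lc.InfGeo

/-!
Foldability of a chain by all-layers folds along whole lines in terms of schedules.
-/

set_option autoImplicit false

namespace Pool.Agent.Lib.MP_3a3d34_lc

open Set Ln

theorem tt5 {v a x y c K : Prop} (h1 : a ↔ (v ↔ x)) (h2 : (a ↔ y) ↔ c) :
    v ↔ (((y ↔ x) ↔ K) ↔ (c ↔ K)) := by
  rw [← h2, h1]
  by_cases v <;> by_cases x <;> by_cases y <;> by_cases K <;> simp [*]

theorem tt6 {x y c K : Prop} : (((((y ↔ x) ↔ K) ↔ c) ↔ x) ↔ y) ↔ (c ↔ K) := by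
  by_cases c <;> by_cases x <;> by_cases y <;> by_cases K <;> simp [*]

namespace Ch

variable {C : Ch} {σ : State} {s g : Bool → ℕ → ℝ} {F : Fold} {o n : Bool → ℕ} {q : Bool → ℕ → ℤ}
  {ix : ℕ → ℕ} {d : Bool → D} {ε δ : Bool → ℝ}

theorem Lin.inj (h : C.Good) (L : C.Lin o n q ix) {e e' : ℕ} (he : e < C.m) (he' : e' < C.m)
    (h1 : C.v e = C.v e') (h2 : ix e = ix e') : e = e' := by
  have a1 := (L.cr e he).2.2
  have a2 := (L.cr e' he').2.2
  rw [← h1, ← h2, ← a1] at a2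
  have a3 : (C.c e' : ℝ) = C.c e := by
    rcases ori_pm (C.v e) with a | a <;> rw [a] at a2 <;> linarith
  obtain ⟨y, -, -, hz, -⟩ := h.ex_line he
  rcases lt_trichotomy e e' with c | c | c
  · rcases h.nest c he' hz with a | a
    · simp at a
    · rw [← h1, a3] at a; simp at a
  · exact c
  · rcases h.nest c he hz with a | a
    · rw [← h1, a3] at a; simp at a
    · simp at a

theorem St.up (h : C.Good) (T : C.St o n q ix σ d s g ε δ) {e : ℕ} (he : e < C.m)
    (hS : ¬ (d (C.v e)).S (ix e)) {z : Pt} (hz : z ∈ C.Om) (hc : co (C.v e) z = C.c e) :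
    z ∉ σ.folded ∧ (σ.up z ↔ (((d (C.v e)).sg (ix e) ↔
      C.sl (fun e => (d (C.v e)).S (ix e)) (!C.v e) e = 1) ↔
        ε (C.v e) * ori (C.v e) = s (!C.v e) 0)) := by
  have a := (T.geo.not_folded h he hz hc).2 hS
  refine ⟨a, ?_⟩
  have b1 := (T.geo.canon h (T := fun e => (d (C.v e)).S (ix e)) (!C.v e) (Nat.zero_le e) he.le
    (by simp)).1
  have b2 : s true e = s false e ↔ s (C.v e) e = s (!C.v e) e := by
    cases C.v e <;> simp [eq_comm]
  rw [T.geo.up e he.le z (h.cf_line he hz hc).1 a, T.sg e he hS, b2, b1]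
  rcases T.eps (C.v e) with e1 | e1 <;> rcases T.geo.pm (C.v e) e with e2 | e2 <;>
    rcases ori_pm (C.v e) with e3 | e3 <;> rcases T.geo.pm (!C.v e) 0 with e4 | e4 <;>
    rcases sl_pm (C := C) (fun e => (d (C.v e)).S (ix e)) (!C.v e) e with e5 | e5 <;>
    rw [e1, e2, e3, e4, e5] <;> norm_num

theorem St.event (h : C.Good) (L : C.Lin o n q ix) (T : C.St o n q ix σ d s g ε δ) {two : Bool}
    (hL : Legal false two C.map σ F) (hU : ∀ p ∈ faces C.map, p ∈ F.U ↔ 0 < F.side (σ.pos p)) :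
    ∃ b l lam, (d b).a < l ∧ l ≤ n b ∧ C.Lf σ ε δ F b (q b l) lam ∧
      ∀ x : ℝ, q b (o b) < x → x < q b (n b + 1) → (d b).h x = q b l →
        ∃ i, o b < i ∧ i ≤ n b ∧ x = q b i := by
  have G := T.geo
  obtain ⟨u, hd⟩ : ∃ u : ℕ → Prop, ∀ k ≤ C.m, ∀ p ∈ C.face k, p ∈ F.U ↔ u k :=
    ⟨_, fun k _ => sat h hL k⟩
  obtain ⟨z, hz⟩ := hL.ne
  obtain ⟨-, e, he, -, hn⟩ := (h.hinge_iff hL.sub hd).1 hz
  obtain ⟨y₁, y₂, hy, z1, z2⟩ := h.ex_line he
  have a0 := (hL.axis _ ((h.hinge_iff hL.sub hd).2 ⟨z1, e, he, co_pt _ _ _, hn⟩)).1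
  have a1 := a0
  have a2 := (hL.axis _ ((h.hinge_iff hL.sub hd).2 ⟨z2, e, he, co_pt _ _ _, hn⟩)).1
  rw [side_co F (C.v e), G.pos e he.le _ (h.cf_line he z1 (co_pt _ _ _)).1,
    G.pos e he.le _ (h.cf_line he z1 (co_pt _ _ _)).1, co_pt, co_pt'] at a1
  rw [side_co F (C.v e), G.pos e he.le _ (h.cf_line he z2 (co_pt _ _ _)).1,
    G.pos e he.le _ (h.cf_line he z2 (co_pt _ _ _)).1, co_pt, co_pt'] at a2
  have a3 : co (!C.v e) F.n * (y₂ - y₁) = 0 := by
    rcases G.pm (!C.v e) e with e' | e' <;> rw [e'] at a1 a2 <;> linarith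
  have n0 := (mul_eq_zero.1 a3).resolve_right (sub_pos.2 hy).ne'
  have n1 : co (C.v e) F.n ^ 2 = 1 := by
    have := hL.unit
    cases hv : C.v e <;> rw [hv] at n0 <;>
      simp only [Bool.not_false, Bool.not_true, co_true, co_false] at n0 ⊢ <;> rw [n0] at this <;>
      linarith
  have ne : ∀ z ∈ faces C.map, F.side (σ.pos z) ≠ 0 := fun z hz h0 => by
    obtain ⟨k, hk, hz'⟩ := h.exists_face hz
    have b1 : ∀ w ∈ C.face k, F.side (σ.pos w) ≤ 0 := fun w hw => not_lt.1 fun c =>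
      ((hU z hz).1 ((hd k hk z hz').2 ((hd k hk w hw).1 ((hU w (h.face_sub hw)).2 c)))).ne' h0
    obtain ⟨w, hw, c1⟩ := closure_nonempty_iff.1
      ⟨z, (isOpen_face k).inter_closure ⟨hz', (closure_lt (C.v e) rfl).1⟩⟩
    obtain ⟨w', hw', c2⟩ := closure_nonempty_iff.1
      ⟨z, (isOpen_face k).inter_closure ⟨hz', (closure_lt (C.v e) rfl).2⟩⟩
    have b2 := b1 w hw
    have b3 := b1 w' hw'
    rw [side_co F (C.v e), n0, G.pos k hk _ (C.face_cf (by assumption))] at h0 b2 b3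
    change co _ w < _ at c1
    change _ < co _ w' at c2
    rcases sq_eq_one_iff.1 n1 with a | a <;> rcases G.pm (C.v e) k with a' | a' <;>
      rw [a, a'] at h0 b2 b3 <;> linarith
  have f : C.Lf σ ε δ F (C.v e) ((d (C.v e)).h (q (C.v e) (ix e))) (co (C.v e) F.n * ε (C.v e)) := by
    refine ⟨Par.pm_mul n1 (T.eps _), ?_, n0, ?_, hL.sub, hU, ne⟩
    · rcases T.eps (C.v e) with a | a <;> rw [a] <;> ring
    · have := T.pos (C.v e) _ z1
      rw [co_pt, (L.cr e he).2.2] at this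
      rw [side_co F (C.v e), n0] at a0
      rw [← this]
      rcases T.eps (C.v e) with a | a <;> rw [a] <;> linarith
  have B := T.base (C.v e)
  generalize hp : (d (C.v e)).h (q (C.v e) (ix e)) = p at f
  have c1 : ∀ x : ℝ, q (C.v e) (o (C.v e)) < x → x < q (C.v e) (n (C.v e) + 1) → (d (C.v e)).h x = p →
      ∃ i, o (C.v e) < i ∧ i ≤ n (C.v e) ∧ x = q (C.v e) i := fun x b1 b2 b3 => by
    obtain ⟨z, hz, rfl, hz'⟩ := L.ran _ x b1 b2
    have b4 : z ∉ faces C.map := fun a => ne z a (by rw [f.side T hz, b3, sub_self, mul_zero])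
    rw [h.mem_faces] at b4
    push Not at b4
    obtain ⟨k, hk, b5⟩ := b4 hz
    have b6 : C.v k = C.v e := by_contra fun a => hz' k hk a b5
    obtain ⟨r1, r2, r3⟩ := L.cr k hk
    rw [← b6, b5]
    exact ⟨ix k, r1, r2, r3⟩
  have p1 : (q (C.v e) (d (C.v e)).a : ℝ) < p := by
    have key : ∀ i ≤ C.m, ∀ j ≤ C.m, (C.face i).Nonempty → (C.face j).Nonempty → u i → ¬ u j →
        (q (C.v e) (d (C.v e)).a : ℝ) < p := fun i hi j hj ⟨w, hw⟩ ⟨w', hw'⟩ b1 b2 => by
      have b3 := (hU w (h.face_sub hw)).1 ((hd i hi w hw).2 b1)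
      have b4 := (not_lt.1 (mt (hU w' (h.face_sub hw')).2 (mt (hd j hj w' hw').1 b2))).lt_of_ne
        (ne w' (h.face_sub hw'))
      rw [f.side T hw.1] at b3
      rw [f.side T hw'.1] at b4
      rcases f.pm with a | a <;> rw [a] at b3 b4
      · linarith [B.low (ori (C.v e) * co (C.v e) w')]
      · linarith [B.low (ori (C.v e) * co (C.v e) w)]
    obtain ⟨b1, b2⟩ := h.face_ne he
    by_cases hu : u e
    · exact key e he.le _ he b1 b2 hu fun a => hn (iff_of_true hu a)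
    · exact key _ he e he.le b2 b1 (by_contra fun a => hn (iff_of_false hu a)) hu
  have m := L.mono (C.v e)
  have p0 := (cast_le m).2 B.ge
  have p2 : p < q (C.v e) (n (C.v e) + 1) := by
    obtain ⟨r1, r2, -⟩ := L.cr e he
    rcases le_total (d (C.v e)).a (ix e) with c | c
    · rw [← hp, B.self m c]
      exact (cast_lt m).2 (Nat.lt_succ_of_le r2)
    · have b1 := B.lip _ ((cast_le m).2 c)
      have b2 := (cast_lt m).2 r1
      have b3 := (cast_le m).2 B.le
      have b4 : 2 * (q (C.v e) (n (C.v e)) : ℝ) - q (C.v e) (o (C.v e)) < q (C.v e) (n (C.v e) + 1) := by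
        exact_mod_cast L.long (C.v e)
      linarith
  obtain ⟨l, -, l2, rfl⟩ := c1 p (p0.trans_lt p1) p2 (B.win p p1.le)
  exact ⟨C.v e, l, _, (cast_lt m).1 p1, l2, f, c1⟩

theorem sched_of_fold (h : C.Good) (L : C.Lin o n q ix) {two : Bool} (H : MFold .line two C.map) :
    ∃ (τ : Bool → ℕ → ℕ) (α : Bool → ℕ → Prop), (∀ b, W (o b) (n b) (q b) (τ b) (α b)) ∧
      ∀ e < C.m, (α (C.v e) (ix e) ↔ (C.val e = true ↔
        C.sl (fun k => τ (C.v k) (ix k) < τ (C.v e) (ix e)) (!C.v e) e = 1)) := by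
  classical
  obtain ⟨σ, h1, h2⟩ := H
  have J : ∃ d s g ε δ, ∃ (τ : Bool → ℕ → ℕ) (α : Bool → ℕ → Prop) (t : ℕ),
      C.St o n q ix σ d s g ε δ ∧ (∀ b, Hist (o b) (n b) (q b) (d b) (τ b) (α b) t) ∧
      ∀ e < C.m, (d (C.v e)).S (ix e) → (α (C.v e) (ix e) ↔ (C.val e = true ↔
        C.sl (fun k => (d (C.v k)).S (ix k) ∧ τ (C.v k) (ix k) < τ (C.v e) (ix e)) (!C.v e) e = 1)) := by
    clear h2
    induction h1 with
    | refl => exact ⟨_, _, _, _, _, fun _ _ => 0, fun _ _ => True, 0, st_init L,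
        fun _ => hist_init, fun _ _ a => a.elim⟩
    | @tail σ _ _ hs ih =>
      obtain ⟨F, hL, -, hU, rfl⟩ := hs
      obtain ⟨d, s, g, ε, δ, τ, α, t, T, Hs, A⟩ := ih
      obtain ⟨b, l, lam, l1, l2, f, c1⟩ := T.event h L hL (hU rfl)
      obtain ⟨hh, -, s', g', ε', δ', T'⟩ := f.next h L T l1 l2
      let β : ℕ → Prop := fun i => ∃ e < C.m, C.v e = b ∧ ix e = i ∧
        (C.val e = true ↔ C.sl (fun e => (d (C.v e)).S (ix e)) (!C.v e) e = 1)
      have hβ : ∀ e < C.m, C.v e = b → (β (ix e) ↔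
          (C.val e = true ↔ C.sl (fun e => (d (C.v e)).S (ix e)) (!C.v e) e = 1)) :=
        fun e he hv => ⟨fun ⟨k, hk, a1, a2, a3⟩ => L.inj h hk he (a1.trans hv.symm) a2 ▸ a3,
          fun a => ⟨e, he, hv, rfl, a⟩⟩
      have sgn : ∀ i, o b < i → i ≤ n b → ¬ (d b).S i → (d b).h (q b i) = q b l →
          ((β i ↔ (d b).sg i) ↔ (F.top ↔ ε b * ori b = s (!b) 0)) := fun i i0 hi a1 a2 => by
        obtain ⟨e, he, rfl, rfl⟩ := L.surj b i i0 hi
        obtain ⟨y, -, -, hz, -⟩ := h.ex_line he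
        have a3 := (hh _).2 ⟨hz, e, he, co_pt _ _ _, rfl, a1, a2⟩
        have a4 := (hL.assign _ (C.forall_cr.1 (fun _ h => h) e he) _
          ⟨a3, (h.oseg_iff he).2 ⟨hz, co_pt _ _ _⟩⟩).2
        rw [closure_over (fun p hp => ((f.mem p (f.sub hp)).1 hp).le) a3.1.2,
          (T.up h he a1 hz (co_pt _ _ _)).2] at a4
        change C.val e = true ↔ _ at a4
        rw [hβ e he rfl, a4]
        exact tt6
      let τ' : Bool → ℕ → ℕ := fun b' i => if b' = b ∧ ¬ (d b').S i then t else τ b' i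
      have t1 : ∀ b' i, (d b').S i → τ' b' i = τ b' i := fun b' i a => if_neg fun c => c.2 a
      have t2 : ∀ b' i, (Function.update d b ((d b).fold (q b) l) b').S i → ¬ (d b').S i →
          b' = b ∧ τ' b' i = t := fun b' i a c => by
        have : b' = b := by_contra fun c' => c (by rwa [Function.update_of_ne c'] at a)
        exact ⟨this, if_pos ⟨this, c⟩⟩
      have t3 : ∀ b' i, (d b').S i → (Function.update d b ((d b).fold (q b) l) b').S i :=
        fun b' i a => by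
        by_cases c : b' = b
        · subst c; rw [Function.update_self]; exact Or.inl a
        · rwa [Function.update_of_ne c]
      let α' : Bool → ℕ → Prop := fun b' i => if b' = b ∧ ¬ (d b').S i then β i else α b' i
      have u1 : ∀ b' i, (d b').S i → α' b' i = α b' i := fun b' i a => if_neg fun c => c.2 a
      have u2 : ∀ b' i, b' = b → ¬ (d b').S i → α' b' i = β i := fun b' i a c => if_pos ⟨a, c⟩
      refine ⟨_, s', g', ε', δ', τ', α', t + 1, T', fun b' => ?_, fun e he hS => ?_⟩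
      · by_cases c : b' = b
        · subst c
          rw [Function.update_self]
          refine (Hs b').fold (L.mono b') (L.long b') (T.base b') l1 l2
            (fun i a => ⟨t1 _ i a, by rw [u1 _ i a]⟩) (fun i a => if_pos ⟨rfl, a⟩) c1
            fun i j i0 hi j0 hj a1 a2 a3 a4 => ?_
          rw [u2 _ i rfl a1, u2 _ j rfl a2, sgn i i0 hi a1 a3, sgn j j0 hj a2 a4]
        · simp only [Function.update_of_ne c, c, false_and, if_false, τ', α']
          exact (Hs b').mono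
      · by_cases c : (d (C.v e)).S (ix e)
        · rw [u1 _ _ c, A e he c, t1 _ _ c, sl_congr (C := C) (!C.v e) fun k _ => ?_]
          by_cases c' : (d (C.v k)).S (ix k)
          · rw [t1 _ _ c', iff_true_intro c', iff_true_intro (t3 _ _ c')]
          · refine iff_of_false (fun a => c' a.1) fun a => ?_
            have := (Hs _).lt _ c
            rw [(t2 _ _ a.1 c').2] at a
            omega
        · obtain ⟨a1, a2⟩ := t2 _ _ hS c
          rw [u2 _ _ a1 c, hβ e he a1, a2, sl_congr (C := C) (!C.v e) fun k _ => ?_]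
          by_cases c' : (d (C.v k)).S (ix k)
          · exact iff_of_true c' ⟨t3 _ _ c', t1 _ _ c' ▸ (Hs _).lt _ c'⟩
          · exact iff_of_false c' fun a => (t2 _ _ a.1 c').2.not_lt a.2
  obtain ⟨d, s, g, ε, δ, τ, α, t, T, Hs, A⟩ := J
  have hS : ∀ e < C.m, (d (C.v e)).S (ix e) := fun e he => by
    obtain ⟨y, -, -, hz, -⟩ := h.ex_line he
    exact by_contra fun hn => (T.geo.not_folded h he hz (co_pt _ _ _)).2 hn
      (C.forall_cr.1 h2 e he ((h.oseg_iff he).2 ⟨hz, co_pt _ _ _⟩))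
  refine ⟨τ, α, fun b => (Hs b).done (T.base b) fun i i0 hi => ?_, fun e he => ?_⟩
  · obtain ⟨e, he, rfl, rfl⟩ := L.surj b i i0 hi
    exact hS e he
  · rw [A e he (hS e he), sl_congr (C := C) (!C.v e) fun k hk => and_iff_right (hS k (by omega))]

theorem fold_of_sched (h : C.Good) (L : C.Lin o n q ix) (two : Bool) {τ : Bool → ℕ → ℕ}
    {α : Bool → ℕ → Prop} (hW : ∀ b, W (o b) (n b) (q b) (τ b) (α b))
    (hd : ∀ b i j, o b < i → i ≤ n b → o (!b) < j → j ≤ n (!b) → τ b i ≠ τ (!b) j)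
    (hα : ∀ e < C.m, (α (C.v e) (ix e) ↔ (C.val e = true ↔
      C.sl (fun k => τ (C.v k) (ix k) < τ (C.v e) (ix e)) (!C.v e) e = 1))) :
    MFold .line two C.map := by
  classical
  have J : ∀ t, ∃ σ d s g ε δ, Relation.ReflTransGen (MStep .line two C.map) init σ ∧
      C.St o n q ix σ d s g ε δ ∧ ∀ b, Img (o b) (n b) (q b) (d b) (τ b) (α b) t := by
    intro t
    induction t with
    | zero => exact ⟨_, _, _, _, _, _, .refl, st_init L, fun b => img_init (L.mono b)⟩
    | succ t ih =>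
      obtain ⟨σ, d, s, g, ε, δ, r, T, I⟩ := ih
      by_cases hx : ∃ b i, o b < i ∧ i ≤ n b ∧ τ b i = t
      swap
      · exact ⟨σ, d, s, g, ε, δ, r, T, fun b => (I b).idle fun i i0 hi a => hx ⟨b, i, i0, hi, a⟩⟩
      obtain ⟨b, i, i0, hi, ht⟩ := hx
      obtain ⟨l, l1, l2, new, I'⟩ := (I b).event (L.mono b) (hW b) (T.base b) i0 hi ht
      let F0 : Fold := ⟨pt b (-1 * ε b) 0, -1 * (q b l - δ b), ∅, True⟩
      let F : Fold := ⟨pt b (-1 * ε b) 0, -1 * (q b l - δ b),
        {z ∈ faces C.map | 0 < F0.side (σ.pos z)}, α b l ↔ ε b * ori b = s (!b) 0⟩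
      have f : C.Lf σ ε δ F b (q b l) (-1) := by
        refine ⟨Or.inr rfl, co_pt _ _ _, co_pt' _ _ _, rfl, fun _ a => a.1,
          fun z hz => and_iff_right hz, fun z hz h0 => ?_⟩
        obtain ⟨a1, a2⟩ := h.mem_faces.1 hz
        have a3 := T.pos b z a1
        rw [side_co F b] at h0
        simp only [F, co_pt, co_pt'] at h0
        obtain ⟨i, i0, hi, a4⟩ := (I b).pre _ (L.bd b z a1) l l1.le l2 (by linarith)
        obtain ⟨e, he, rfl, rfl⟩ := L.surj b i i0 hi
        rw [← (L.cr e he).2.2] at a4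
        refine a2 e he ?_
        rcases ori_pm (C.v e) with a | a <;> rw [a] at a4 <;> linarith
      obtain ⟨hh, hax, s', g', ε', δ', T'⟩ := f.next h L T l1 l2
      have hos : ∀ p ∈ F.U, 0 ≤ F.side (σ.pos p) := fun p hp => hp.2.le
      refine ⟨_, _, s', g', ε', δ', r.tail ⟨F, ⟨?_, f.sub, ?_, fun z hz => ⟨hax z hz, ?_⟩, ?_,
        fun _ => hos, fun p hp w hw e => ?_, fun a => (by cases a)⟩, fun a => (by cases a),
        fun _ => f.mem, rfl⟩, T', fun b' => ?_⟩
      · have a1 := f.sq T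
        have a2 := f.n0
        cases b <;> simp only [Bool.not_false, Bool.not_true, co_true, co_false] at a1 a2 <;>
          rw [a1, a2] <;> norm_num
      · obtain ⟨e, he, rfl, rfl⟩ := L.surj b l ((T.base b).ge.trans_lt l1) l2
        obtain ⟨y, -, -, hz, -⟩ := h.ex_line he
        exact ⟨_, (hh _).2 ⟨hz, e, he, co_pt _ _ _, rfl, ((T.base _).unf _ l1).1,
          (T.base _).self (L.mono _) l1.le⟩⟩
      · obtain ⟨a, e, he, a1, -⟩ := (hh z).1 hz
        exact C.exists_cr.2 ⟨e, he, (h.seg_iff he a).2 a1⟩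
      · rw [forall_cr]
        intro e he z hz
        obtain ⟨a1, k, hk, a2, rfl, a4, a5⟩ := (hh z).1 hz.1
        have a3 := ((h.oseg_iff he).1 hz.2).2
        obtain rfl : e = k := by
          rcases lt_trichotomy e k with h3 | h3 | h3
          · exact ((h.nest h3 hk a1).elim a3.le.not_gt a2.ge.not_gt).elim
          · exact h3
          · exact ((h.nest h3 he a1).elim a2.le.not_gt a3.ge.not_gt).elim
        obtain ⟨b1, b2⟩ := T.up h he a4 a1 a2
        obtain ⟨r1, r2, -⟩ := L.cr e he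
        obtain ⟨b3, b4⟩ := new _ r1 r2 a4 a5
        refine ⟨b1, ?_⟩
        rw [closure_over hos hz.1.1.2, b2, sl_congr (C := C) (!C.v e)
          (S := fun k => τ (C.v k) (ix k) < τ (C.v e) (ix e)) fun k hk => ?_]
        · exact tt5 (hα e he) b4
        · obtain ⟨r3, r4, -⟩ := L.cr k (by omega)
          rw [b3]
          exact (I _).iff _ r3 r4
      · exact absurd (e ▸ hp.2) fun a => hw.2 ⟨hw.1, a⟩
      · by_cases c : b' = b
        · subst c
          rwa [Function.update_self]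
        · rw [Function.update_of_ne c]
          obtain rfl : b' = !b := Bool.eq_not.2 c
          exact (I _).idle fun j j0 hj a => hd b i j i0 hi j0 hj (ht.trans a.symm)
  obtain ⟨σ, d, s, g, ε, δ, r, T, I⟩ :=
    J ((Finset.range C.m).sup (fun e => τ (C.v e) (ix e)) + 1)
  refine ⟨σ, r, T.geo.done h fun e he => ?_⟩
  obtain ⟨r1, r2, -⟩ := L.cr e he
  exact ((I _).iff _ r1 r2).2 (Nat.lt_succ_of_le
    (Finset.le_sup (f := fun e => τ (C.v e) (ix e)) (Finset.mem_range.2 he)))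

end Ch

end Pool.Agent.Lib.MP_3a3d34_lc
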