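import Pool.Agent.Lib.MP_3a3d34_lc.InfDes

/-!
If the ribbon of a formula can be folded, the formula is satisfiable.
-/

set_option autoImplicit false

namespace Pool.Agent.Lib.MP_3a3d34_lc

open Ln Finset

theorem lt_dm {a b K r s : ℕ} (h : a * K + r < b * K + s) (hs : s ≤ K) : a < b ∨ (a = b ∧ r < s) := by
  rcases lt_trichotomy a b with c | rfl | c
  · exact Or.inl c
  · exact Or.inr ⟨rfl, by omega⟩
  · have := Nat.mul_le_mul_right K (show b + 1 ≤ a from c)
    rw [add_one_mul] at this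
    omega

theorem dm_lt {a b K r : ℕ} (h : a < b) (hr : r < K) : a * K + r < b * K := by
  have := Nat.mul_le_mul_right K (show a + 1 ≤ b from h)
  rw [add_one_mul] at this
  omega

namespace Cn

variable (P : Cn)

theorem L_eq : P.L = P.M P.N + P.T := rfl

theorem nv_eq : P.nv = P.Rm * P.K + P.L := rfl

theorem nh_eq : P.nh = (2 * P.N + 1) * P.H + (P.J + 1) := rfl

theorem Rm_even : P.Rm % 2 = 0 := by have := P.mul_J (2 * P.N + 1); unfold Rm; omega

theorem J_lt : P.J < P.Rm := by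
  have := Nat.le_mul_of_pos_left P.J (show 0 < 2 * P.N + 1 by omega)
  unfold Rm; omega

theorem gV0_spec (ρ : ℕ) {s : ℕ} (hs : s < P.K) {g : ℕ}
    (e : zg0 P.K (fun ρ => ρ + 1) P.GV (ρ * P.K + s) = g) :
    (s = 0 ∧ g = ρ + 1) ∨ (s + 1 = P.K ∧ g = ρ + 2) ∨ (0 < s ∧ s + 1 < P.K ∧
      (((ρ % 2 = 1 ∧ s = 1 ∨ ρ % 2 = 0 ∧ s + 2 = P.K) ∧ g = P.Rm + 3) ∨
      (ρ % 2 = 1 ∧ s ≠ 1 ∧ g + s = P.Rm + 2 + P.K) ∨
      (ρ % 2 = 0 ∧ s + 2 ≠ P.K ∧ g = P.Rm + 3 + s))) := by
  rw [zg0_eq hs] at e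
  unfold GV at e
  split_ifs at e <;> omega

theorem gH0_spec (ρ : ℕ) {s : ℕ} (hs : s < P.H) {g : ℕ}
    (e : zg0 P.H P.EH P.GH (ρ * P.H + s) = g) :
    (ρ % 2 = 1 ∧ ((s = 0 ∧ g = ρ + 1) ∨ (s + 1 = P.H ∧ g = 2 * P.N + 4 + P.H + ρ) ∨
      (0 < s ∧ s + 1 < P.H ∧ g = 2 * P.N + 3 + s))) ∨
    (ρ % 2 = 0 ∧ ((s = 0 ∧ g = 2 * P.N + 3 + P.H + ρ) ∨ (s + 1 = P.H ∧ g = ρ + 2) ∨
      (0 < s ∧ s + 1 < P.H ∧ g + s = 2 * P.N + 2 + P.H))) := by
  rw [zg0_eq hs] at e
  unfold GH EH at e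
  split_ifs at e <;> omega

theorem gV_eq {y : ℕ} (h : y < P.nv) : P.rb.g true y = zg0 P.K (fun ρ => ρ + 1) P.GV y :=
  zg_ne h.ne

theorem gH_eq {y : ℕ} (h : y < P.nh) : P.rb.g false y = zg0 P.H P.EH P.GH y := zg_ne h.ne

theorem pre_iff {l ρ s : ℕ} (hl : l ≠ 1) (hs : s < P.H) : P.pre l (ρ * P.H + s) = true ↔
    ¬ (s = P.J + 1 ∧ ρ % 2 = 0 ∧ P.K - l ≤ P.M (ρ / 2)) := by
  rw [pre, if_neg hl, (dm hs).1, (dm hs).2]
  simp only [Bool.not_eq_true', ← Bool.not_eq_true, Bool.and_eq_true, decide_eq_true_eq, and_assoc]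

variable {P} {τ : ℕ → ℕ} {α : ℕ → Prop}

theorem v_own (hT : 2 ≤ P.T) (h : WG 0 P.nv (P.rb.g true) τ α) {ρ : ℕ} (h0 : 0 < ρ)
    (h1 : ρ ≤ P.Rm) : Own P.nv τ (ρ * P.K) := by
  have e1 := P.K_eq
  have e2 := P.L_eq
  have e3 := P.nv_eq
  have a := Nat.mul_le_mul_right P.K h1
  refine h.own (Nat.mul_pos h0 (by omega)) (by omega) fun y b1 b2 => ?_
  obtain ⟨ρ', s, hs, rfl⟩ := ex_dm (show 0 < P.K by omega) y
  have := P.gV0_spec ρ (show 0 < P.K by omega) (P.gV_eq (by omega)).symm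
  have := P.gV0_spec ρ' hs (P.gV_eq b2).symm
  have := lt_dm (r := 0) b1 hs.le
  rw [add_zero] at *
  omega

theorem v_merge (hT : 2 ≤ P.T) (h : WG 0 P.nv (P.rb.g true) τ α) {ρ s : ℕ} (h0 : 0 < s)
    (hs : s < P.K) (h1 : ρ < P.Rm) : Own P.nv τ (ρ * P.K + s) ∨
      (2 * ((ρ + 1) * P.K) ≤ P.nv + (ρ * P.K + s) ∧ τ (ρ * P.K + s) = τ ((ρ + 1) * P.K + (P.K - s)) ∧
        ¬ (α (ρ * P.K + s) ↔ α ((ρ + 1) * P.K + (P.K - s)))) := by
  have e3 := P.nv_eq
  have e4 := add_one_mul ρ P.K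
  have a := dm_lt h1 hs
  refine (h.merge (M := (ρ + 1) * P.K) (by omega) (by omega)
    (fun _ => v_own hT h (Nat.succ_pos _) h1) (by omega) fun y b1 b2 b3 => ?_).imp_right
    fun b => ⟨b.1, b.2 _ (by omega)⟩
  obtain ⟨s', rfl⟩ : ∃ s', y = ρ * P.K + s' := ⟨y - ρ * P.K, by omega⟩
  have := P.gV0_spec ρ (show s' < P.K by omega) (P.gV_eq (by omega)).symm
  have := P.gV0_spec ρ (show s' + 1 < P.K by omega) (P.gV_eq b3).symm
  have := P.K_eq
  have := P.L_eq
  omega

theorem v_pair (hT : 2 ≤ P.T) (h : WG 0 P.nv (P.rb.g true) τ α) {ρ s : ℕ} (hs : s < P.K)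
    (h1 : ρ < P.Rm) (h2 : (ρ % 2 = 0 ∧ P.L < s) ∨ (ρ % 2 = 1 ∧ 3 ≤ s)) :
    τ (ρ * P.K + s) = τ ((ρ + 1) * P.K + (P.K - s)) ∧
      ¬ (α (ρ * P.K + s) ↔ α ((ρ + 1) * P.K + (P.K - s))) := by
  refine ((v_merge hT h (by omega) hs h1).resolve_left fun a => ?_).2
  obtain ⟨s, rfl⟩ : ∃ s', s = s' + 1 := ⟨s - 1, by omega⟩
  have e3 := P.nv_eq
  have b := dm_lt h1 hs
  have := P.gV0_spec ρ (show s < P.K by omega) (P.gV_eq (by omega)).symm
  have := P.gV0_spec ρ hs (P.gV_eq (y := ρ * P.K + s + 1) (by omega)).symm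
  have := P.K_eq
  have := P.L_eq
  have := (h.step (x := ρ * P.K + s) (Nat.zero_le _) (by omega) a fun _ => by omega).2
  omega

theorem h_own (h : WG P.J P.nh (P.rb.g false) τ α) {ρ : ℕ} (h0 : 0 < ρ) (h1 : ρ ≤ 2 * P.N + 1) :
    Own P.nh τ (ρ * P.H) := by
  have e1 := P.H_eq
  have e3 := P.nh_eq
  have a := Nat.mul_le_mul_right P.H h1
  have a' := Nat.le_mul_of_pos_left P.H h0
  refine h.own (by omega) (by omega) fun y b1 b2 => ?_
  obtain ⟨ρ', s, hs, rfl⟩ := ex_dm (show 0 < P.H by omega) y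
  have := P.gH0_spec ρ (show 0 < P.H by omega) (P.gH_eq (by omega)).symm
  have := P.gH0_spec ρ' hs (P.gH_eq b2).symm
  have := lt_dm (r := 0) b1 hs.le
  have := lt_dm (e3 ▸ b2) (by omega)
  rw [add_zero] at *
  omega

theorem h_merge (h : WG P.J P.nh (P.rb.g false) τ α) {ρ s : ℕ} (h0 : 0 < s) (hs : s < P.H)
    (h1 : ρ ≤ 2 * P.N + 1) (h2 : ρ = 0 → s = P.J + 1) : Own P.nh τ (ρ * P.H + s) ∨
      (2 * ((ρ + 1) * P.H) ≤ P.nh + (ρ * P.H + s) ∧ τ (ρ * P.H + s) = τ ((ρ + 1) * P.H + (P.H - s)) ∧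
        ¬ (α (ρ * P.H + s) ↔ α ((ρ + 1) * P.H + (P.H - s)))) := by
  have e3 := P.nh_eq
  have e4 := add_one_mul ρ P.H
  have e1 := P.H_eq
  obtain ⟨a1, a2⟩ := mem_Ioc.1 ((P.line_iff hs).2 ⟨h1, h2⟩)
  refine (h.merge (M := (ρ + 1) * P.H) a1 a2 (fun c => h_own h (Nat.succ_pos _) ?_) (by omega)
    fun y b1 b2 b3 => ?_).imp_right fun b => ⟨b.1, b.2 _ (by omega)⟩
  · have := lt_dm (a := ρ + 1) (b := 2 * P.N + 1) (r := 0) (s := P.H) (by omega) le_rfl
    omega
  obtain ⟨s', rfl⟩ : ∃ s', y = ρ * P.H + s' := ⟨y - ρ * P.H, by omega⟩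
  have := P.gH0_spec ρ (show s' < P.H by omega) (P.gH_eq (by omega)).symm
  have := P.gH0_spec ρ (show s' + 1 < P.H by omega) (P.gH_eq b3).symm
  omega

theorem h_step (h : WG P.J P.nh (P.rb.g false) τ α) {ρ s : ℕ} (hs : s + 1 < P.H)
    (h1 : ρ ≤ 2 * P.N) (h2 : ρ = 0 → s = P.J) (a : Own P.nh τ (ρ * P.H + (s + 1))) :
    ρ % 2 = 1 ∧ Own P.nh τ (ρ * P.H + s) := by
  have e3 := P.nh_eq
  have e1 := P.H_eq
  have e2 := P.J_eq
  have b := dm_lt (show ρ < 2 * P.N + 1 by omega) hs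
  obtain ⟨a1, -⟩ := mem_Ioc.1 ((P.line_iff (ρ := ρ) hs).2 ⟨by omega, fun c => by rw [h2 c]⟩)
  have := P.gH0_spec ρ (show s < P.H by omega) (P.gH_eq (by omega)).symm
  have := P.gH0_spec ρ hs (P.gH_eq (y := ρ * P.H + s + 1) (by omega)).symm
  obtain ⟨b1, b2⟩ := h.step (x := ρ * P.H + s) (by omega) (by omega) a fun _ => by omega
  have c : ρ % 2 = 1 := by omega
  have := Nat.le_mul_of_pos_left P.H (show 0 < ρ by omega)
  exact ⟨c, b1.resolve_left (by omega)⟩

theorem arith {c : ℕ} (hT : 2 ≤ P.T) (hc : c < P.N) {f f' w : ℕ → ℕ} (m : ∀ t < P.T, f t ≤ f (t + 1))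
    (m' : ∀ t < P.T, f' (t + 1) ≤ f' t) (h0 : f 0 = P.M c) (h0' : f' 0 = P.M (c + 1))
    (h1 : f P.T ≤ f' P.T)
    (p : ∀ t ≤ P.T, (P.M c + ∑ u ∈ range t, (!P.neg c u).toNat + f t) % 2 = w t % 2)
    (p' : ∀ t ≤ P.T, (P.M (c + 1) + ∑ u ∈ range t, (P.pos c u).toNat + f' t) % 2 = w t % 2) :
    ∃ u < P.T, (P.pos c u = true ∧ decide ((w u + w (u + 1)) % 2 = 1) = true) ∨
      (P.neg c u = true ∧ decide ((w u + w (u + 1)) % 2 = 1) = false) := by
  by_contra hn
  have key : ∀ t ≤ P.T, f 0 + f' t + (∑ u ∈ range t, ((P.pos c u).toNat + (P.neg c u).toNat) + t) ≤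
      f t + f' 0 := by
    intro t
    induction t with
    | zero => simp
    | succ t ih =>
      intro ht
      have a1 := ih (by omega)
      have a2 := m t ht
      have a3 := m' t ht
      have a4 := p t (by omega)
      have a5 := p' t (by omega)
      have a6 := p _ ht
      have a7 := p' _ ht
      have a8 := fun a => hn ⟨t, ht, a⟩
      rw [sum_range_succ] at a6 a7 ⊢
      revert a6 a7 a8
      cases P.pos c t <;> cases P.neg c t <;> simp <;> omega
  have a := key P.T le_rfl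
  rw [h0, h0', P.M_succ hc, bud] at a
  omega

theorem sol_of_fold (hT : 2 ≤ P.T) {two : Bool} (H : MFold .line two P.rb.ch.map) : P.Sol := by
  obtain ⟨τ, hW⟩ := P.ok.no H
  have V : WG 0 P.nv (P.rb.g true) (τ true) (P.rb.al τ true) := hW true
  have W : WG P.J P.nh (P.rb.g false) (τ false) (P.rb.al τ false) := hW false
  have eK := P.K_eq
  have eL := P.L_eq
  have eH := P.H_eq
  have eJ := P.J_eq
  have ev := P.nv_eq
  have eh := P.nh_eq
  have eR := P.Rm_even
  have lJ := P.J_lt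
  obtain ⟨k, hk⟩ : ∃ k, P.Rm = k + 1 := ⟨P.Rm - 1, by omega⟩
  have ek := add_one_mul k P.K
  rw [← hk] at ek
  have gm : ∀ s, s = 1 ∨ s = 2 → ∀ d ρ, ρ % 2 = 1 → ρ + 2 * d < P.Rm →
      τ true (ρ * P.K + s) ≤ τ true ((ρ + 2 * d) * P.K + s) := by
    intro s hs d ρ h1
    induction d with
    | zero => exact fun _ => le_rfl
    | succ d ih =>
      intro h2
      refine (ih (by omega)).trans ?_
      rw [show ρ + 2 * (d + 1) = ρ + 2 * d + 1 + 1 by ring]
      rcases v_merge hT V (show 0 < s by omega) (by omega) (show ρ + 2 * d < _ by omega) with a | a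
      · have := dm_lt h2 (show s < P.K by omega)
        rw [show ρ + 2 * (d + 1) = ρ + 2 * d + 1 + 1 by ring] at this
        exact (a _ (by rw [add_one_mul, add_one_mul]; omega) (by omega)).le
      · rw [a.2.1, (v_pair hT V (by omega) (by omega) (Or.inl ⟨by omega, by omega⟩)).1,
          show P.K - (P.K - s) = s by omega]
  have g1 : ∀ ρ, ρ % 2 = 1 → ρ < P.Rm → τ true (ρ * P.K + 1) ≤ τ true (k * P.K + 1) := fun ρ a b => by
    have := gm 1 (Or.inl rfl) ((k - ρ) / 2) ρ a (by omega)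
    rwa [show ρ + 2 * ((k - ρ) / 2) = k by omega] at this
  have g2 : ∀ ρ, ρ % 2 = 1 → ρ < P.Rm → τ true (1 * P.K + 2) ≤ τ true (ρ * P.K + 2) := fun ρ a b => by
    have := gm 2 (Or.inr rfl) (ρ / 2) 1 rfl (by omega)
    rwa [show 1 + 2 * (ρ / 2) = ρ by omega] at this
  have lastV : ∀ s, s = 1 ∨ s = 2 → Own P.nv (τ true) (k * P.K + s) := fun s hs =>
    (v_merge hT V (by omega) (by omega) (by omega)).resolve_right fun a => by
      have := a.1
      rw [← hk] at this
      omega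
  have lastH : ∀ s < P.H, Own P.nh (τ false) ((2 * P.N + 1) * P.H + s) := fun s hs => by
    rcases Nat.eq_zero_or_pos s with rfl | c
    · exact h_own W (Nat.succ_pos _) le_rfl
    · refine (h_merge W c hs le_rfl (by omega)).resolve_right fun a => ?_
      have := a.1
      rw [add_one_mul (2 * P.N + 1)] at this
      omega
  have mem : ∀ s < P.H, (2 * P.N + 1) * P.H + s ∈ Ioc P.J P.nh := fun s hs =>
    (P.line_iff hs).2 ⟨le_rfl, by omega⟩
  have q1 : τ false ((2 * P.N + 1) * P.H) < τ true (k * P.K + 1) := by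
    obtain ⟨a1, a2⟩ := v_pair hT V (ρ := 2 * P.T) (s := P.L + 2) (by omega) (by omega)
      (Or.inl ⟨by omega, by omega⟩)
    rw [P.alV_pair (by omega) (by omega) a1, lab_eq (by omega), if_neg (by omega), a1,
      show P.K - (P.L + 2) = 1 by omega, ← eJ,
      P.NN_single (mem 0 (by omega)) (fun i => P.pre 1 i = true) (fun i hi a => by
        rcases (P.fib_J hT hi).1 a.1 with rfl | rfl
        · rfl
        · have := a.2
          simp only [pre, if_true, decide_eq_true_eq, (dm (show 1 < P.H by omega)).2] at this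
          omega) ((P.fib_J hT (mem 0 (by omega))).2 (Or.inl rfl)), if_pos (by simp [pre])] at a2
    obtain ⟨i, hi⟩ := card_pos.1 (Nat.pos_of_ne_zero fun c => by rw [NN, c] at a2; omega)
    obtain ⟨b1, b2, b3⟩ := mem_filter.1 hi
    refine lt_of_lt_of_le ?_ (g1 P.J (by omega) lJ)
    rcases (P.fib_J hT b1).1 b2 with rfl | rfl
    · exact b3
    · exact (lastH 0 (by omega) _ (by omega) (by omega)).trans b3
  have pre2 : ∀ i, P.pre 2 i = true := fun i => by
    have := P.M_le (i / P.H / 2)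
    simp only [pre]
    rw [if_neg (by omega), decide_eq_false (show ¬ P.K - 2 ≤ _ by omega)]
    simp
  have q2 : τ false P.nh < τ true (1 * P.K + 2) := by
    obtain ⟨a1, a2⟩ := v_pair hT V (ρ := 0) (s := P.L + 1) (by omega) (by omega)
      (Or.inl ⟨by omega, by omega⟩)
    have m := mem (P.J + 1) (by omega)
    rw [← eh] at m
    rw [P.alV_pair (by omega) (by omega) a1, lab_eq (by omega), if_neg (by omega), a1,
      show P.K - (P.L + 1) = 2 by omega, zero_add,
      P.NN_single m _ (fun i hi a => (P.fib_one hT hi).1 a.1) ((P.fib_one hT m).2 rfl),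
      P.NN_single m _ (fun i hi a => (P.fib_one hT hi).1 a.1) ((P.fib_one hT m).2 rfl),
      if_pos (pre2 _)] at a2
    by_contra c
    rw [if_neg c] at a2
    omega
  have hev : ∀ ρ s, ρ % 2 = 0 → ρ ≤ 2 * P.N → 0 < s → s < P.H → (ρ = 0 → s = P.J + 1) →
      τ false (ρ * P.H + s) = τ false ((ρ + 1) * P.H + (P.H - s)) ∧
      ¬ (P.rb.al τ false (ρ * P.H + s) ↔ P.rb.al τ false ((ρ + 1) * P.H + (P.H - s))) :=
    fun ρ s a1 a2 a3 a4 a5 => ((h_merge W a3 a4 (by omega) a5).resolve_left fun a => by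
      obtain ⟨s, rfl⟩ : ∃ s', s = s' + 1 := ⟨s - 1, by omega⟩
      have := (h_step W a4 a2 (by omega) a).1
      omega).2
  have q3 : τ true (k * P.K + 1) < τ false (1 * P.H + 1) := by
    obtain ⟨a1, a2⟩ := hev 0 (P.J + 1) rfl (by omega) (by omega) (by omega) fun _ => rfl
    have m1 := P.mir_eq (ρ := 0) (s := P.J + 1) (by omega) (by omega)
    have m2 := P.mir_eq (ρ := 0 + 1) (s := 1) (by omega) (by omega)
    have := P.off_spec 0 (show P.J + 1 < P.H by omega)
    have := P.off_spec (0 + 1) (show 1 < P.H by omega)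
    rw [show P.H - (P.J + 1) = 1 by omega] at a1 a2
    rw [P.alH_iff (by omega), P.alH_iff (by omega), a1,
      show P.mir (0 * P.H + (P.J + 1)) = k + 1 by omega, show P.mir ((0 + 1) * P.H + 1) = k by omega,
      phi_succ, cH, cH, if_pos rfl, if_neg (by omega), if_pos (by omega), if_neg (by omega)] at a2
    by_contra c
    rw [sum_eq_zero fun s hs => if_neg fun c' => c ?_] at a2
    · omega
    · have := mem_range.1 hs
      rcases Nat.eq_zero_or_pos s with rfl | c''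
      · exact c'
      · exact (lastV 1 (Or.inl rfl) _ (by omega) (by omega)).trans c'
  have hod : ∀ c < P.N, τ false ((2 * c + 1) * P.H + 1) = τ false (1 * P.H + 1) → ∀ s, 0 < s →
      s < P.H → τ false ((2 * c + 1) * P.H + s) = τ false ((2 * c + 1 + 1) * P.H + (P.H - s)) ∧
      ¬ (P.rb.al τ false ((2 * c + 1) * P.H + s) ↔
        P.rb.al τ false ((2 * c + 1 + 1) * P.H + (P.H - s))) := fun c hc e s a1 a2 => by
    refine ((h_merge W a1 a2 (by omega) (by omega)).resolve_left ?_).2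
    induction s, a1 using Nat.le_induction with
    | base =>
      intro a
      have b := dm_lt (show 2 * c + 1 < 2 * P.N + 1 by omega) a2
      have := a _ b (by omega)
      rw [show Nat.succ 0 = 1 from rfl] at this
      omega
    | succ s _ ih => exact fun a => ih (by omega) (h_step W a2 (by omega) (by omega) a).2
  have h1 : ∀ c ≤ P.N, τ false ((2 * c + 1) * P.H + 1) = τ false (1 * P.H + 1) := fun c => by
    induction c with
    | zero => exact fun _ => rfl
    | succ c ih =>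
      intro hc
      rw [← ih (by omega), (hod c hc (ih (by omega)) 1 (by omega) (by omega)).1,
        (hev (2 * c + 1 + 1) (P.H - 1) (by omega) (by omega) (by omega) (by omega) (by omega)).1,
        show P.H - (P.H - 1) = 1 by omega]
      rfl
  let y : ℕ → ℕ → ℕ := fun ρ s => if ρ % 2 = 1 then s else P.H - s
  let e : ℕ → ℕ := fun s => τ false ((2 * P.N + 1) * P.H + s)
  let F : ℕ → ℕ → ℕ := fun ρ s =>
    P.cH ρ (y ρ s) + Rb.Phi (τ true) (P.mir (ρ * P.H + y ρ s) * P.K) (τ false (ρ * P.H + y ρ s))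
  have hall : ∀ s, 0 < s → s < P.H → ∀ d ρ, 0 < ρ → ρ + d = 2 * P.N + 1 →
      τ false (ρ * P.H + y ρ s) = e s ∧ F ρ s % 2 = F (2 * P.N + 1) s % 2 := by
    intro s a1 a2 d
    induction d with
    | zero =>
      rintro ρ - (rfl : ρ = _)
      exact ⟨by simp only [y, e]; rw [if_pos (by omega)], rfl⟩
    | succ d ih =>
      intro ρ b1 b2
      obtain ⟨c1, c2⟩ := ih (ρ + 1) (by omega) (by omega)
      have y1 : y ρ s < P.H ∧ 0 < y ρ s ∧ y (ρ + 1) s = P.H - y ρ s := by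
        simp only [y]
        split_ifs <;> omega
      have : τ false (ρ * P.H + y ρ s) = τ false ((ρ + 1) * P.H + (P.H - y ρ s)) ∧
          ¬ (P.rb.al τ false (ρ * P.H + y ρ s) ↔
            P.rb.al τ false ((ρ + 1) * P.H + (P.H - y ρ s))) := by
        rcases Nat.even_or_odd' ρ with ⟨c, rfl | rfl⟩
        · exact hev _ _ (by omega) (by omega) y1.2.1 y1.1 (by omega)
        · exact hod c (by omega) (h1 c (by omega)) _ y1.2.1 y1.1
      obtain ⟨c3, c4⟩ := this
      rw [P.alH_iff y1.1, P.alH_iff (by omega), ← y1.2.2] at c4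
      rw [← y1.2.2] at c3
      refine ⟨c3.trans c1, ?_⟩
      rw [← c2]
      simp only [F]
      omega
  have e1 : e 1 = τ false (1 * P.H + 1) := h1 P.N le_rfl
  have eb : ∀ s, 0 < s → s < P.H → e 1 ≤ e s ∧ e s ≤ τ false P.nh := fun s a1 a2 => by
    constructor
    · rcases (show 1 ≤ s from a1).lt_or_eq with c | rfl
      · exact (lastH 1 (by omega) _ (by omega) (by omega)).le
      · exact le_rfl
    · rcases (show (2 * P.N + 1) * P.H + s ≤ P.nh by omega).lt_or_eq with c | c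
      · exact (lastH s a2 _ c le_rfl).le
      · exact le_of_eq (congrArg (τ false) c)
  have q4 : τ true (k * P.K) < τ true (k * P.K + 1) :=
    v_own hT V (by omega) (by omega) _ (by omega) (by omega)
  have q5 : τ true (1 * P.K + 2) < τ true (P.Rm * P.K) :=
    (g2 k (by omega) (by omega)).trans_lt (lastV 2 (Or.inr rfl) _ (by omega) (by omega))
  have pv : ∀ ρ, ρ < P.Rm → ρ % 2 = 1 → ∀ i < P.L,
      τ true (ρ * P.K + (P.L + 2 - i)) = τ true ((ρ + 1) * P.K + (i + 1)) := fun ρ a b i hi => by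
    rw [(v_pair hT V (by omega) a (Or.inr ⟨b, by omega⟩)).1,
      show P.K - (P.L + 2 - i) = i + 1 by omega]
  have st : ∀ ρ, ρ % 2 = 0 → ρ < P.Rm → ∀ i < P.L, τ true (ρ * P.K + (i + 1)) < τ true (k * P.K) ∨
      τ true (ρ * P.K + (i + 1)) = τ true ((ρ + 1 + 1) * P.K + (i + 1)) := fun ρ a b i hi => by
    refine (v_merge hT V (Nat.succ_pos i) (by omega) b).imp
      (fun c => c _ (dm_lt (by omega) (by omega)) (by omega)) fun c => ?_
    rw [c.2.1, ← pv (ρ + 1) (by omega) (by omega) i hi, show P.K - (i + 1) = P.L + 2 - i by omega]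
  have di : ∀ i < P.L, ∀ d ρ, ρ + 2 * d = P.Rm → τ true (ρ * P.K + (i + 1)) < τ true (k * P.K) ∨
      τ true (P.Rm * P.K) < τ true (ρ * P.K + (i + 1)) := by
    intro i hi d
    induction d with
    | zero =>
      rintro ρ (rfl : ρ = _)
      exact Or.inr (v_own hT V (by omega) le_rfl _ (by omega) (by omega))
    | succ d ih =>
      intro ρ a
      rcases st ρ (by omega) (by omega) i hi with c | c
      · exact Or.inl c
      · exact c ▸ ih (ρ + 1 + 1) (by omega)
  let μ : ℕ → ℕ := fun h => P.mu (τ true) (τ true (k * P.K)) (P.Rm - 2 * h)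
  have mm : ∀ h, 2 * (h + 1) ≤ P.Rm → μ h ≤ μ (h + 1) := fun h a => by
    refine sum_le_sum fun i hi => ?_
    rw [show P.Rm - 2 * h = P.Rm - 2 * (h + 1) + 1 + 1 by omega]
    rcases st (P.Rm - 2 * (h + 1)) (by omega) (by omega) i (mem_range.1 hi) with c | c
    · rw [if_pos c]; split_ifs <;> omega
    · rw [c]
  have ph : ∀ s, 0 < s → s < P.H → ∀ h, 0 < h → 2 * h < P.Rm →
      Rb.Phi (τ true) ((P.Rm - 2 * h) * P.K) (e s) % 2 = (μ (P.Rm / 2) + μ h) % 2 := by
    intro s a1 a2 h b1 b2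
    obtain ⟨t1, t2⟩ := eb s a1 a2
    have mu' : ∀ h, 2 * h ≤ P.Rm → P.mu (τ true) (e s) (P.Rm - 2 * h) = μ h := fun h a =>
      sum_congr rfl fun i hi => if_congr (by
        have := di i (mem_range.1 hi) h (P.Rm - 2 * h) (by omega)
        omega) rfl rfl
    rw [P.phi_par (fun ρ c1 c2 => ?_) (by omega) (fun ρ c1 c2 => ?_) (fun ρ c1 c2 => ?_)
      (fun ρ c1 c2 i hi => by rw [pv ρ c1 c2 i hi]) (by omega) (by omega), if_pos (by omega),
      if_neg (by omega), mu' h b2.le, ← mu' (P.Rm / 2) (by omega),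
      show P.Rm - 2 * (P.Rm / 2) = 0 by omega, add_zero]
    · have := v_own hT V c1 c2.le (k * P.K + 1)
        (Nat.lt_succ_of_le (Nat.mul_le_mul_right _ (by omega))) (by omega)
      omega
    · have := g1 ρ c2 c1
      have := g2 ρ c2 c1
      omega
    · have := g1 (ρ + 1) (by omega) (by omega)
      have := g2 (ρ + 1) (by omega) (by omega)
      rw [(v_pair hT V (by omega) c1 (Or.inl ⟨c2, by omega⟩)).1,
        (v_pair hT V (by omega) c1 (Or.inl ⟨c2, by omega⟩)).1,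
        show P.K - (P.L + 2) = 1 by omega, show P.K - (P.L + 1) = 2 by omega]
      omega
  have cJ : ∀ c ≤ P.N, 2 * (c * P.J) + P.J < P.Rm := fun c hc => by
    have := Nat.mul_le_mul_right P.J hc
    have := P.Rm_eq
    rw [add_one_mul, mul_assoc] at this
    omega
  have fo : ∀ c ≤ P.N, μ (c * P.J) = P.M c := fun c hc => by
    have b := cJ c hc
    obtain ⟨ρ, hρ⟩ : ∃ ρ, P.Rm - 2 * (c * P.J) = ρ + 1 := ⟨P.Rm - 2 * (c * P.J) - 1, by omega⟩
    have m : 2 * c * P.H + (P.J + 1) ∈ Ioc P.J P.nh :=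
      (P.line_iff (by omega)).2 ⟨by omega, fun _ => rfl⟩
    have fb : ∀ i ∈ Ioc P.J P.nh, P.mir i = ρ + 1 ↔ i = 2 * c * P.H + (P.J + 1) := fun i hi => by
      rw [← P.fib_forced hc hi, mul_assoc]; omega
    have tm : τ false (2 * c * P.H + (P.J + 1)) = τ false (1 * P.H + 1) := by
      rw [(hev _ _ (by omega) (by omega) (by omega) (by omega) fun _ => rfl).1,
        show P.H - (P.J + 1) = 1 by omega, h1 c hc]
    have := P.M_le c
    simp only [μ, hρ, mu]
    rw [sum_congr rfl (g := fun i => if i < P.M c then 1 else 0) fun i hi => if_congr ?_ rfl rfl,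
      sum_boole, Nat.cast_id]
    · refine Eq.trans (congrArg _ (Finset.ext fun i => ?_)) (card_range _)
      simp only [mem_filter, mem_range]
      omega
    have hi' := mem_range.1 hi
    obtain ⟨a1, a2⟩ := v_pair hT V (ρ := ρ) (s := P.L + 2 - i) (by omega) (by omega)
      (Or.inr ⟨by omega, by omega⟩)
    rw [P.alV_pair (by omega) (by omega) a1, lab_eq (by omega), if_pos (by omega), a1,
      show P.K - (P.L + 2 - i) = i + 1 by omega,
      P.NN_single m _ (fun i hi a => (fb i hi).1 a.1) ((fb _ m).2 rfl),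
      P.NN_single m _ (fun i hi a => (fb i hi).1 a.1) ((fb _ m).2 rfl), tm,
      if_congr (P.pre_iff (by omega) (by omega)) rfl rfl] at a2
    have := di i hi' (c * P.J) (ρ + 1) (by omega)
    have := eb 1 (by omega) (by omega)
    rw [show 2 * c / 2 = c by omega] at a2
    split_ifs at a2 <;> omega
  let w : ℕ → ℕ := fun t => if t = 0 then 0 else F (2 * P.N + 1) (2 * t) + μ (P.Rm / 2)
  refine ⟨fun u => decide ((w u + w (u + 1)) % 2 = 1), fun c hc => ?_⟩
  have b := cJ (c + 1) hc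
  have ec := add_one_mul c P.J
  refine arith hT hc (f := fun t => μ (c * P.J + t)) (f' := fun t => μ ((c + 1) * P.J - t))
    (fun t ht => mm _ (by omega)) (fun t ht => ?_) (fo c hc.le) (fo _ hc) ?_ (fun t ht => ?_)
    fun t ht => ?_
  · rw [show (c + 1) * P.J - t = (c + 1) * P.J - (t + 1) + 1 by omega]
    exact mm _ (by omega)
  · rw [show (c + 1) * P.J - P.T = c * P.J + P.T + 1 by omega]
    exact mm _ (by omega)
  · rcases Nat.eq_zero_or_pos t with rfl | t0
    · simp only [w, add_zero, fo c hc.le, range_zero, sum_empty, if_true]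
      omega
    obtain ⟨a1, a2⟩ := hall (2 * t) (by omega) (by omega) (2 * (P.N - c)) (2 * c + 1) (by omega)
      (by omega)
    have m1 := P.mir_eq (ρ := 2 * c + 1) (s := 2 * t) (by omega) (by omega)
    have := P.off_spec (2 * c + 1) (show 2 * t < P.H by omega)
    rw [add_one_mul _ P.J, mul_assoc] at m1
    have a3 := ph (2 * t) (by omega) (by omega) (c * P.J + t) (by omega) (by omega)
    simp only [w, if_neg t0.ne']
    have yy : y (2 * c + 1) (2 * t) = 2 * t := if_pos (by omega)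
    rw [Nat.add_mod (F _ _), ← a2]
    simp only [F]
    rw [a1, yy, show P.mir ((2 * c + 1) * P.H + 2 * t) = P.Rm - 2 * (c * P.J + t) by omega, cH,
      if_neg (by omega), if_pos (by omega), if_pos (by omega), show (2 * c + 1) / 2 = c by omega,
      show 2 * t / 2 = t by omega]
    omega
  · rcases Nat.eq_zero_or_pos t with rfl | t0
    · simp only [w, add_zero, Nat.sub_zero, fo (c + 1) hc, range_zero, sum_empty, if_true]
      omega
    obtain ⟨a1, a2⟩ := hall (2 * t) (by omega) (by omega) (2 * (P.N - c) - 1) (2 * (c + 1))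
      (by omega) (by omega)
    have m1 := P.mir_eq (ρ := 2 * (c + 1)) (s := P.H - 2 * t) (by omega) (by omega)
    have := P.off_spec (2 * (c + 1)) (show P.H - 2 * t < P.H by omega)
    rw [mul_assoc 2 (c + 1) P.J] at m1
    have a3 := ph (2 * t) (by omega) (by omega) ((c + 1) * P.J - t) (by omega) (by omega)
    simp only [w, if_neg t0.ne']
    have yy : y (2 * (c + 1)) (2 * t) = P.H - 2 * t := if_neg (by omega)
    rw [Nat.add_mod (F _ _), ← a2]
    simp only [F]
    rw [a1, yy, show P.mir (2 * (c + 1) * P.H + (P.H - 2 * t)) = P.Rm - 2 * ((c + 1) * P.J - t) by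
      omega, cH, if_neg (by omega), if_neg (by omega), if_pos (by omega),
      show 2 * (c + 1) / 2 = c + 1 by omega, show (P.H - (P.H - 2 * t)) / 2 = t by omega,
      Nat.add_sub_cancel]
    omega

end Cn

end Pool.Agent.Lib.MP_3a3d34_lc
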