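import Pool.Agent.Lib.MP_3a3d34_lc.InfLine

/-!
Schedules in terms of the gaps between the points, and zigzag words.
-/

set_option autoImplicit false

namespace Pool.Agent.Lib.MP_3a3d34_lc.Ln

/-- The positions determined by the gaps. -/
def ps (g : ℕ → ℕ) (i : ℕ) : ℤ := ((∑ y ∈ Finset.range i, g y : ℕ) : ℤ)

theorem ps_succ (g : ℕ → ℕ) (i : ℕ) : ps g (i + 1) = ps g i + g i := by
  simp [ps, Finset.sum_range_succ]

theorem ps_mono {g : ℕ → ℕ} (hg : ∀ y, 0 < g y) : StrictMono (ps g) :=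
  strictMono_nat_of_lt_succ fun i => by
    have := hg i
    rw [ps_succ]; omega

/-- The fold at `l` of the part starting at `a`, in terms of gaps. -/
structure Gs (n : ℕ) (g τ : ℕ → ℕ) (α : ℕ → Prop) (a l : ℕ) : Prop where
  le : 2 * l ≤ n + 1 + a
  pair : ∀ i j, a < i → i < l → i + j = 2 * l → τ i = τ j ∧ ¬ (α i ↔ α j)
  gap : ∀ i j, a < i → i < l → i + j + 1 = 2 * l → g i = g j
  last : ∀ j, a + j + 1 = 2 * l → g a ≤ g j

variable {o n : ℕ} {g τ : ℕ → ℕ} {α : ℕ → Prop} {a l : ℕ}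

theorem Sym.gs (hg : ∀ y, 0 < g y) (hl : 2 * ps g n - ps g o < ps g (n + 1)) (h0 : o ≤ a)
    (h1 : a < l) (h2 : l ≤ n) (h : Sym o n (ps g) τ α a l) : Gs n g τ α a l := by
  have m := ps_mono hg
  have key : ∀ r i, i + r = l → a < i → l + r ≤ n ∧ ps g i + ps g (l + r) = 2 * ps g l := by
    intro r
    induction r with
    | zero =>
      rintro i rfl _
      exact ⟨h2, by simp only [add_zero]; ring⟩
    | succ r ih =>
      intro i e hi
      obtain ⟨a1, a2⟩ := ih (i + 1) (by omega) (by omega)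
      have b1 := m hi
      have b2 := m (show i < l by omega)
      have b3 := m (Nat.lt_succ_self i)
      obtain ⟨j, -, r2, r3, -⟩ := h i (by omega) (by omega) b1 (by omega)
      have b4 : l + r < j := m.lt_iff_lt.1 (by simp only [Nat.succ_eq_add_one] at b3; omega)
      have b5 := m.monotone (show l + (r + 1) ≤ j by omega)
      have b6 := m (show l < l + (r + 1) by omega)
      have b7 := m (show l + r < l + (r + 1) by omega)
      obtain ⟨k, -, -, s3, -⟩ := h (l + (r + 1)) (by omega) (by omega) (by omega) (by omega)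
      have b8 : k < i + 1 := m.lt_iff_lt.1 (by omega)
      have b9 := m.monotone (show k ≤ i by omega)
      exact ⟨by omega, by omega⟩
  have k1 := key (l - (a + 1)) (a + 1) (by omega) (Nat.lt_succ_self a)
  refine ⟨by omega, fun i j b1 b2 e => ?_, fun i j b1 b2 e => ?_, fun j e => ?_⟩
  · obtain ⟨-, a2⟩ := key (l - i) i (by omega) b1
    rw [show l + (l - i) = j by omega] at a2
    have b3 := m b1
    have b4 := m b2
    obtain ⟨k, -, -, s3, s4, s5⟩ := h i (by omega) (by omega) b3 (by omega)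
    obtain rfl : k = j := m.injective (by omega)
    exact ⟨s4.symm, s5 b2.ne⟩
  · obtain ⟨-, a2⟩ := key (l - i) i (by omega) b1
    obtain ⟨-, a3⟩ := key (l - (i + 1)) (i + 1) (by omega) (by omega)
    rw [show l + (l - i) = j + 1 by omega, ps_succ] at a2
    rw [show l + (l - (i + 1)) = j by omega, ps_succ] at a3
    omega
  · rw [show l + (l - (a + 1)) = j by omega] at k1
    by_contra hc
    have b1 := ps_succ g a
    have b2 := ps_succ g j
    have b3 := m (show a < j + 1 by omega)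
    rcases k1.1.lt_or_eq with c | rfl
    · obtain ⟨k, -, -, s3, -⟩ := h (j + 1) (by omega) c b3 (by omega)
      have b4 : a < k := m.lt_iff_lt.1 (by omega)
      have b5 := m.monotone (show a + 1 ≤ k from b4)
      have := hg j
      omega
    · have b4 := m.monotone h0
      have b5 := m.monotone h2
      omega

theorem Gs.sym (hg : ∀ y, 0 < g y) (h0 : o ≤ a) (h1 : a < l) (h : Gs n g τ α a l) :
    Sym o n (ps g) τ α a l := by
  have m := ps_mono hg
  have key : ∀ r i, i + r = l → a < i → ps g i + ps g (l + r) = 2 * ps g l := by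
    intro r
    induction r with
    | zero =>
      rintro i rfl _
      simp only [add_zero]; ring
    | succ r ih =>
      intro i e hi
      have a1 := ih (i + 1) (by omega) (by omega)
      have a2 := h.gap i (l + r) hi (by omega) (by omega)
      rw [← add_assoc, ps_succ]
      rw [ps_succ] at a1
      omega
  have k1 := key (l - (a + 1)) (a + 1) (by omega) (Nat.lt_succ_self a)
  have k2 := h.last (l + (l - (a + 1))) (by omega)
  have k3 := ps_succ g (l + (l - (a + 1)))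
  rw [ps_succ] at k1
  intro i _ hi b1 b2
  have b3 := m.lt_iff_lt.1 b1
  have b4 : i < l + (l - (a + 1)) + 1 := m.lt_iff_lt.1 (by omega)
  have := h.le
  rcases lt_trichotomy i l with c | rfl | c
  · have a1 := key (l - i) i (by omega) b3
    obtain ⟨a2, a3⟩ := h.pair i (l + (l - i)) b3 c (by omega)
    exact ⟨_, by omega, by omega, a1, a2.symm, fun _ => a3⟩
  · exact ⟨i, by omega, hi, by ring, rfl, fun c => absurd rfl c⟩
  · have a1 := key (i - l) (2 * l - i) (by omega) (by omega)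
    rw [show l + (i - l) = i by omega] at a1
    obtain ⟨a2, a3⟩ := h.pair (2 * l - i) i (by omega) (by omega) (by omega)
    exact ⟨2 * l - i, by omega, by omega, by omega, a2, fun _ c => a3 c.symm⟩

/-- The schedule condition in terms of gaps. -/
def WG (o n : ℕ) (g τ : ℕ → ℕ) (α : ℕ → Prop) : Prop :=
  ∀ x, o < x → x ≤ n → ∃ a l, o ≤ a ∧ a < x ∧ x ≤ l ∧ l ≤ n ∧ Own n τ l ∧ (a = o ∨ Own n τ a) ∧
    Gs n g τ α a l

theorem W.wg (hg : ∀ y, 0 < g y) (hl : 2 * ps g n - ps g o < ps g (n + 1))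
    (h : W o n (ps g) τ α) : WG o n g τ α := fun x a b => by
  obtain ⟨a, l, p0, p1, p2, p3, p4, p5, p6⟩ := h x a b
  exact ⟨a, l, p0, p1, p2, p3, p4, p5, p6.gs hg hl p0 (by omega) p3⟩

theorem WG.w (hg : ∀ y, 0 < g y) (h : WG o n g τ α) : W o n (ps g) τ α := fun x a b => by
  obtain ⟨a, l, p0, p1, p2, p3, p4, p5, p6⟩ := h x a b
  exact ⟨a, l, p0, p1, p2, p3, p4, p5, p6.sym hg p0 (by omega)⟩

theorem WG.congr {α' : ℕ → Prop} (e : ∀ i, o < i → i ≤ n → (α' i ↔ α i)) (h : WG o n g τ α) :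
    WG o n g τ α' := fun x a b => by
  obtain ⟨a, l, p0, p1, p2, p3, p4, p5, p6⟩ := h x a b
  refine ⟨a, l, p0, p1, p2, p3, p4, p5, p6.le, fun i j b1 b2 b3 => ?_, p6.gap, p6.last⟩
  have := p6.le
  rw [e i (by omega) (by omega), e j (by omega) (by omega)]
  exact p6.pair i j b1 b2 b3

theorem WG.own (h : WG o n g τ α) {x : ℕ} (h1 : o < x) (h2 : x ≤ n)
    (hu : ∀ y, x < y → y < n → g x ≠ g y) : Own n τ x := by
  obtain ⟨a, l, -, p1, p2, p3, p4, -, p6⟩ := h x h1 h2
  rcases p2.lt_or_eq with c | rfl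
  · have := p6.le
    exact absurd (p6.gap x (2 * l - x - 1) p1 c (by omega)) (hu _ (by omega) (by omega))
  · exact p4

theorem WG.step (h : WG o n g τ α) {x : ℕ} (h1 : o ≤ x) (h2 : x < n) (hx : Own n τ (x + 1))
    (hu : x + 1 < n → g x ≠ g (x + 1)) :
    (x = o ∨ Own n τ x) ∧ g x ≤ g (x + 1) := by
  obtain ⟨a, l, -, p1, p2, p3, p4, p5, p6⟩ := h (x + 1) (by omega) h2
  have := p6.le
  obtain rfl : x + 1 = l := by
    by_contra c
    have a1 := (p6.pair (x + 1) (2 * l - (x + 1)) p1 (by omega) (by omega)).1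
    have a2 := hx (2 * l - (x + 1)) (by omega) (by omega)
    omega
  obtain rfl : a = x := by
    by_contra c
    exact hu (by omega) (p6.gap x (x + 1) (by omega) (by omega) (by omega))
  exact ⟨p5, p6.last _ (by omega)⟩

theorem WG.merge (h : WG o n g τ α) {x M : ℕ} (h1 : o < x) (h2 : x ≤ n)
    (hM : M ≤ n → Own n τ M) (hx : x < M)
    (hu : ∀ y, x ≤ y → y + 1 < M → y + 1 < n → g y ≠ g (y + 1)) :
    Own n τ x ∨ (2 * M ≤ n + x ∧ ∀ j, x + j = 2 * M → τ x = τ j ∧ ¬ (α x ↔ α j)) := by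
  obtain ⟨a, l, -, p1, p2, p3, p4, -, p6⟩ := h x h1 h2
  have := p6.le
  rcases p2.lt_or_eq with c | rfl
  swap
  · exact Or.inl p4
  obtain rfl : l = M := by
    rcases lt_trichotomy l M with c' | c' | c'
    · obtain ⟨y, rfl⟩ : ∃ y, l = y + 1 := ⟨l - 1, by omega⟩
      exact absurd (p6.gap y (y + 1) (by omega) (by omega) (by omega))
        (hu y (by omega) c' (by omega))
    · exact c'
    · have a1 := (p6.pair M (2 * l - M) (by omega) c' (by omega)).1
      have a2 := hM (by omega) (2 * l - M) (by omega) (by omega)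
      omega
  exact Or.inr ⟨by omega, fun j e => p6.pair x j p1 c e⟩

/-- The gaps of a zigzag word. -/
def zg0 (K : ℕ) (E G : ℕ → ℕ) (y : ℕ) : ℕ :=
  if y % K = 0 then E (y / K) else if y % K + 1 = K then E (y / K + 1)
  else G (if y / K % 2 = 1 then y % K else K - 1 - y % K)

/-- The gaps of a zigzag word with a long end. -/
def zg (n K : ℕ) (E G : ℕ → ℕ) (y : ℕ) : ℕ :=
  if y = n then ∑ z ∈ Finset.range (n + 1), zg0 K E G z + 1 else zg0 K E G y

variable {K : ℕ} {E G : ℕ → ℕ}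

theorem dm {ρ s : ℕ} (h : s < K) : (ρ * K + s) / K = ρ ∧ (ρ * K + s) % K = s := by
  rw [mul_comm, Nat.mul_add_div (by omega), Nat.mul_add_mod, Nat.div_eq_of_lt h, Nat.mod_eq_of_lt h]
  exact ⟨rfl, rfl⟩

theorem ex_dm (hK : 0 < K) (y : ℕ) : ∃ ρ s, s < K ∧ y = ρ * K + s :=
  ⟨y / K, y % K, Nat.mod_lt _ hK, (Nat.div_add_mod' y K).symm⟩

theorem zg0_eq {ρ s : ℕ} (h : s < K) : zg0 K E G (ρ * K + s) =
    if s = 0 then E ρ else if s + 1 = K then E (ρ + 1)
    else G (if ρ % 2 = 1 then s else K - 1 - s) := by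
  rw [zg0, (dm h).1, (dm h).2]

theorem zg_pos (hE : ∀ ρ, 0 < E ρ) (hG : ∀ s, 0 < G s) (y : ℕ) : 0 < zg n K E G y := by
  unfold zg zg0
  split_ifs <;> first | exact Nat.succ_pos _ | exact hE _ | exact hG _

theorem zg_ne {y : ℕ} (h : y ≠ n) : zg n K E G y = zg0 K E G y := if_neg h

theorem zg0_le {y z : ℕ} (h : y ≤ n) (h' : z ≠ n → zg0 K E G y ≤ zg0 K E G z) :
    zg0 K E G y ≤ zg n K E G z := by
  unfold zg
  split_ifs with c
  · exact (Finset.single_le_sum (f := zg0 K E G) (fun _ _ => Nat.zero_le _)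
      (Finset.mem_range.2 (Nat.lt_succ_of_le h))).trans (Nat.le_succ _)
  · exact h' c

theorem zg_long : 2 * ps (zg n K E G) n - ps (zg n K E G) o < ps (zg n K E G) (n + 1) := by
  have a : ps (zg n K E G) n = (∑ z ∈ Finset.range n, zg0 K E G z : ℕ) := by
    unfold ps
    rw [Finset.sum_congr rfl fun y hy => zg_ne (Finset.mem_range.1 hy).ne]
  have b : 0 ≤ ps (zg n K E G) o := Int.natCast_nonneg _
  rw [ps_succ, zg, if_pos rfl, Finset.sum_range_succ]
  omega

theorem zg0_sym {ρ i j : ℕ} (h1 : ρ * K < i) (h2 : i < (ρ + 1) * K)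
    (e : i + j + 1 = 2 * ((ρ + 1) * K)) : zg0 K E G i = zg0 K E G j := by
  rw [add_mul, one_mul] at h2 e
  obtain ⟨s, rfl⟩ : ∃ s, i = ρ * K + s := ⟨i - ρ * K, by omega⟩
  obtain rfl : j = (ρ + 1) * K + (K - 1 - s) := by rw [add_mul]; omega
  rw [zg0_eq (by omega), zg0_eq (by omega)]
  split_ifs <;> first | rfl | omega | (congr 1; omega)

theorem wg_runs (hK : 2 ≤ K) (hE : ∀ ρ, (ρ + 1) * K ≤ n → E ρ ≤ E (ρ + 2)) (ν : ℕ → ℕ)
    (h0 : o ≤ ν 0) (h1 : ∀ ρ s, s ≤ ν ρ → o < ρ * K + s → ρ * K + s ≤ n → Own n τ (ρ * K + s))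
    (h2 : ∀ ρ s, s < ν ρ → o ≤ ρ * K + s → ρ * K + s + 1 < n →
      zg0 K E G (ρ * K + s) ≤ zg0 K E G (ρ * K + s + 1))
    (h3 : ∀ ρ, ρ * K + ν ρ < n → ν ρ < K ∧ 2 * ((ρ + 1) * K) ≤ n + 1 + (ρ * K + ν ρ) ∧
      ∀ s, ν ρ < s → s < K → τ (ρ * K + s) = τ ((ρ + 1) * K + (K - s)) ∧
        ¬ (α (ρ * K + s) ↔ α ((ρ + 1) * K + (K - s)))) (h4 : o < K) :
    WG o n (zg n K E G) τ α := by
  intro x x0 hx
  obtain ⟨x, rfl⟩ : ∃ y, x = y + 1 := ⟨x - 1, by omega⟩
  obtain ⟨ρ, s, hs, rfl⟩ := ex_dm (show 0 < K by omega) x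
  rcases lt_or_ge s (ν ρ) with c | c
  · refine ⟨ρ * K + s, ρ * K + s + 1, by omega, by omega, le_rfl, hx,
      h1 ρ (s + 1) c x0 hx, ?_, by omega, fun i j a b => by omega, fun i j a b => by omega,
      fun j e => ?_⟩
    · rcases (show o ≤ ρ * K + s by omega).lt_or_eq with c' | c'
      · exact Or.inr (h1 ρ s c.le c' (by omega))
      · exact Or.inl c'.symm
    · obtain rfl : j = ρ * K + s + 1 := by omega
      rw [zg_ne (by omega)]
      exact zg0_le (by omega) fun c' => h2 ρ s c (by omega) (by omega)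
  obtain ⟨a1, a2, a3⟩ := h3 ρ (by omega)
  have e := add_one_mul ρ K
  have a4 : o ≤ ρ * K + ν ρ := by
    cases ρ with
    | zero => omega
    | succ ρ => rw [add_one_mul]; omega
  refine ⟨ρ * K + ν ρ, (ρ + 1) * K, a4, by omega, by omega, by omega,
    h1 (ρ + 1) 0 (Nat.zero_le _) (by omega) (by omega), ?_, a2, fun i j a b c' => ?_,
    fun i j a b c' => ?_, fun j c' => ?_⟩
  · rcases a4.lt_or_eq with c' | c'
    · exact Or.inr (h1 ρ _ le_rfl c' (by omega))
    · exact Or.inl c'.symm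
  · obtain ⟨s, rfl⟩ : ∃ s, i = ρ * K + s := ⟨i - ρ * K, by omega⟩
    obtain rfl : j = (ρ + 1) * K + (K - s) := by omega
    exact a3 s (by omega) (by omega)
  · rw [zg_ne (by omega), zg_ne (by omega)]
    exact zg0_sym (ρ := ρ) (by omega) b c'
  · rw [zg_ne (by omega)]
    refine zg0_le (by omega) fun _ => ?_
    rcases Nat.eq_zero_or_pos (ν ρ) with c1 | c1
    · obtain rfl : j = (ρ + 1) * K + (K - 1) := by omega
      rw [c1, zg0_eq (by omega), zg0_eq (by omega), if_pos rfl, if_neg (by omega), if_pos (by omega)]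
      exact hE ρ (by omega)
    · exact (zg0_sym (ρ := ρ) (by omega) (by omega) c').le

end Pool.Agent.Lib.MP_3a3d34_lc.Ln
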