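import Pool.Agent.Lib.MP_3a3d34_lc.InfMain
import Pool.Agent.Lib.MP_3a3d34_lc.InfWord

/-!
Ribbons: chains of cells of a grid, with a crease between any two consecutive cells.
-/

set_option autoImplicit false

namespace Pool.Agent.Lib.MP_3a3d34_lc

open Set Ln

theorem Ch.sl_even (C : Ch) (T : ℕ → Prop) [DecidablePred T] (b : Bool) (k : ℕ) :
    C.sl T b k = 1 ↔ Even ((Finset.range k).filter fun e => C.v e = b ∧ T e).card := by
  induction k with
  | zero => simp [Ch.sl]
  | succ k ih =>
    rw [Finset.range_add_one, Finset.filter_insert]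
    split_ifs with h
    · rw [(Ch.sl_yes h).1, Finset.card_insert_of_notMem (by simp), Nat.even_add_one, ← ih]
      rcases Ch.sl_pm (C := C) T b k with e | e <;> rw [e] <;> norm_num
    · rw [(Ch.sl_no h).1, ih]

theorem Ch.Good.ex_rect {C : Ch} (h : C.Good) (b : Bool) {x : ℝ} (h1 : (C.lo b 0 : ℝ) < x)
    (h2 : x < C.hi b C.N) : ∃ z ∈ C.Om, co b z = x ∧ ∀ k : ℤ, co (!b) z ≠ k := by
  classical
  have ex : ∃ i, i ≤ C.N ∧ x < C.hi b i := ⟨C.N, le_rfl, h2⟩
  obtain ⟨hi, a1⟩ := Nat.find_spec ex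
  have hmin := fun j => Nat.find_min ex (m := j)
  generalize Nat.find ex = i at hi a1 hmin
  have a2 : (C.lo b i : ℝ) < x := by
    cases i with
    | zero => exact h1
    | succ i =>
      exact (h.ov' b hi).trans_le (not_lt.1 fun c => hmin i (Nat.lt_succ_self i) ⟨by omega, c⟩)
  have a3 : (C.lo (!b) i : ℝ) + 1 ≤ C.hi (!b) i := by
    have : C.lo (!b) i < C.hi (!b) i := by exact_mod_cast h.lt (!b) hi
    exact_mod_cast this
  refine ⟨pt b x (C.lo (!b) i + 1 / 2), ⟨i, hi, bool_cases b ?_ ?_⟩, co_pt _ _ _, fun k c => ?_⟩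
  · rw [co_pt]; exact ⟨a2, a1⟩
  · rw [co_pt']; constructor <;> linarith
  · rw [co_pt'] at c
    have : ((2 * C.lo (!b) i + 1 : ℤ) : ℝ) = (2 * k : ℤ) := by push_cast; linarith
    have := Int.cast_injective this
    omega

/-- The data of a ribbon. The vertical creases are numbered `1, …, nv` from the left, the
horizontal ones `oh + 1, …, nh` from the top. -/
structure Rb where
  /-- number of vertical creases -/
  nv : ℕ
  /-- index of the top edge -/
  oh : ℕ
  /-- index of the lowest horizontal crease -/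
  nh : ℕ
  /-- the gaps -/
  g : Bool → ℕ → ℕ
  /-- the number of vertical creases preceding a horizontal one -/
  col : ℕ → ℕ
  /-- the valleys -/
  val : Bool → ℕ → Bool

namespace Rb

variable (R : Rb)

/-- The first index. -/
def o (b : Bool) : ℕ := if b then 0 else R.oh

/-- The last index. -/
def n (b : Bool) : ℕ := if b then R.nv else R.nh

/-- The number of creases. -/
def m : ℕ := R.nv + (R.nh - R.oh)

/-- The direction of a crease. -/
def v (e : ℕ) : Bool := (List.range (R.nh - R.oh)).all fun j => !decide (j + R.col (R.nh - j) = e)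

/-- The number of preceding creases of a given direction. -/
def cnt (b : Bool) (k : ℕ) : ℕ := ∑ e ∈ Finset.range k, if R.v e = b then 1 else 0

/-- The grid lines. -/
def p (b : Bool) (j : ℕ) : ℤ := if b then ps (R.g true) j else -ps (R.g false) (R.nh + 1 - j)

/-- The index of a crease. -/
def ix (e : ℕ) : ℕ := if R.v e then R.cnt true e + 1 else R.nh - R.cnt false e

/-- The ribbon as a chain of rectangles. -/
def ch : Ch where
  N := 2 * R.m
  m := R.m
  lo b i := R.p b (R.cnt b (i / 2))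
  hi b i := R.p b (R.cnt b ((i + 1) / 2) + 1)
  v := R.v
  val e := R.val (R.v e) (R.ix e)
  c e := R.p (R.v e) (R.cnt (R.v e) e + 1)
  κ e := 2 * e + 1

/-- The conditions on a ribbon. -/
structure Ok : Prop where
  pos : ∀ b y, 0 < R.g b y
  lt : R.oh < R.nh
  anti : ∀ i, R.oh < i → i < R.nh → R.col (i + 1) ≤ R.col i
  le : R.col (R.oh + 1) ≤ R.nv
  long : ∀ b, 2 * ps (R.g b) (R.n b) - ps (R.g b) (R.o b) < ps (R.g b) (R.n b + 1)

/-- The number of horizontal creases before a vertical one that are folded before time `t`. -/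
def Psi (τ : ℕ → ℕ) (y t : ℕ) : ℕ :=
  ((Finset.Ioc R.oh R.nh).filter fun i => R.col i < y ∧ τ i < t).card

/-- The number of vertical creases up to `c` that are folded before time `t`. -/
def Phi (τ : ℕ → ℕ) (c t : ℕ) : ℕ := ((Finset.Ioc 0 c).filter fun y => τ y < t).card

theorem cnt_succ (b : Bool) (k : ℕ) : R.cnt b (k + 1) = R.cnt b k + if R.v k = b then 1 else 0 :=
  Finset.sum_range_succ _ _

theorem cnt_mono (b : Bool) : Monotone (R.cnt b) :=
  monotone_nat_of_le_succ fun k => by rw [cnt_succ]; omega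

theorem cnt_add (k : ℕ) : R.cnt true k + R.cnt false k = k := by
  induction k with
  | zero => rfl
  | succ k ih => rw [cnt_succ, cnt_succ]; cases R.v k <;> simp <;> omega

theorem v_false {e : ℕ} : R.v e = false ↔ ∃ j < R.nh - R.oh, j + R.col (R.nh - j) = e := by
  simp [v]

variable {R}

theorem Ok.col_anti (h : R.Ok) {i j : ℕ} (h1 : R.oh < i) (h2 : i ≤ j) (h3 : j ≤ R.nh) :
    R.col j ≤ R.col i := by
  induction j, h2 using Nat.le_induction with
  | base => exact le_rfl
  | succ j hj ih => exact (h.anti j (by omega) h3).trans (ih (by omega))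

theorem Ok.cnt_false (h : R.Ok) (k : ℕ) : R.cnt false k =
    ((Finset.range (R.nh - R.oh)).filter fun j => j + R.col (R.nh - j) < k).card := by
  rw [cnt, Finset.sum_boole, Nat.cast_id]
  symm
  refine Finset.card_bij (fun j _ => j + R.col (R.nh - j)) (fun j hj => ?_) (fun i hi j hj e => ?_)
    fun e he => ?_
  · simp only [Finset.mem_filter, Finset.mem_range] at hj ⊢
    exact ⟨hj.2, R.v_false.2 ⟨j, hj.1, rfl⟩⟩
  · simp only [Finset.mem_filter, Finset.mem_range] at hi hj
    rcases le_total i j with c | c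
    · have := h.col_anti (show R.oh < R.nh - j by omega) (show _ ≤ R.nh - i by omega) (by omega)
      omega
    · have := h.col_anti (show R.oh < R.nh - i by omega) (show _ ≤ R.nh - j by omega) (by omega)
      omega
  · simp only [Finset.mem_filter, Finset.mem_range] at he ⊢
    obtain ⟨j, hj, rfl⟩ := R.v_false.1 he.2
    exact ⟨j, ⟨hj, he.1⟩, rfl⟩

theorem Ok.cnt_at (h : R.Ok) {j : ℕ} (hj : j < R.nh - R.oh) :
    R.cnt false (j + R.col (R.nh - j)) = j ∧ R.cnt true (j + R.col (R.nh - j)) = R.col (R.nh - j) := by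
  have a : R.cnt false (j + R.col (R.nh - j)) = j := by
    rw [h.cnt_false]
    refine Eq.trans (congrArg _ (Finset.ext fun i => ?_)) (Finset.card_range j)
    simp only [Finset.mem_filter, Finset.mem_range]
    refine ⟨fun a => not_le.1 fun c => ?_, fun c => ⟨by omega, ?_⟩⟩
    · have := h.col_anti (show R.oh < R.nh - i by omega) (show _ ≤ R.nh - j by omega) (by omega)
      omega
    · have := h.col_anti (show R.oh < R.nh - j by omega) (show _ ≤ R.nh - i by omega) (by omega)
      omega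
  have := R.cnt_add (j + R.col (R.nh - j))
  exact ⟨a, by omega⟩

theorem Ok.pos_lt (h : R.Ok) {j : ℕ} (hj : j < R.nh - R.oh) : j + R.col (R.nh - j) < R.m := by
  have := (h.col_anti (Nat.lt_succ_self _) (show _ ≤ R.nh - j by omega) (by omega)).trans h.le
  unfold m; omega

theorem Ok.cnt_m (h : R.Ok) : R.cnt false R.m = R.nh - R.oh ∧ R.cnt true R.m = R.nv := by
  have a : R.cnt false R.m = R.nh - R.oh := by
    rw [h.cnt_false, Finset.filter_true_of_mem fun j hj => h.pos_lt (Finset.mem_range.1 hj),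
      Finset.card_range]
  have := R.cnt_add R.m
  exact ⟨a, by unfold m at this ⊢; unfold m at a; omega⟩

theorem Ok.cnt_le (h : R.Ok) {k : ℕ} (hk : k ≤ R.m) :
    R.cnt false k ≤ R.nh - R.oh ∧ R.cnt true k ≤ R.nv :=
  ⟨h.cnt_m.1 ▸ R.cnt_mono _ hk, h.cnt_m.2 ▸ R.cnt_mono _ hk⟩

theorem Ok.p_lt (h : R.Ok) (b : Bool) {i j : ℕ} (hij : i < j) (hi : b = false → i ≤ R.nh) :
    R.p b i < R.p b j := by
  cases b
  · have := hi rfl
    exact neg_lt_neg (ps_mono (h.pos false) (by omega))
  · exact ps_mono (h.pos true) hij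

theorem Ok.p_le (h : R.Ok) (b : Bool) {i j : ℕ} (hij : i ≤ j) : R.p b i ≤ R.p b j := by
  cases b
  · exact neg_le_neg ((ps_mono (h.pos false)).monotone (by omega))
  · exact (ps_mono (h.pos true)).monotone hij

theorem Ok.good (h : R.Ok) : R.ch.Good where
  pos := by have := h.lt; change 0 < 2 * R.m; unfold m; omega
  mlo b i _ := h.p_le b (R.cnt_mono b (by omega))
  mhi b i _ := h.p_le b (Nat.succ_le_succ (R.cnt_mono b (by omega)))
  ov b i hi := h.p_lt b (Nat.lt_succ_self _) fun e => by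
    have := (h.cnt_le (show (i + 1) / 2 ≤ R.m by change i < 2 * R.m at hi; omega)).1
    rw [e]; omega
  κ0 e he := ⟨Nat.succ_pos _, by change 2 * e + 1 < 2 * R.m; change e < R.m at he; omega⟩
  κm e _ := by change 2 * e + 1 < 2 * (e + 1) + 1; omega
  c1 e _ := by
    change R.p _ (R.cnt _ ((2 * e + 1 - 1 + 1) / 2) + 1) ≤ _
    rw [show (2 * e + 1 - 1 + 1) / 2 = e by omega]; exact le_rfl
  c2 e _ := by
    change _ ≤ R.p _ (R.cnt _ ((2 * e + 1 + 1) / 2))
    rw [show (2 * e + 1 + 1) / 2 = e + 1 by omega, cnt_succ]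
    exact le_of_eq (by simp [ch])

theorem Ok.cnt_lt (h : R.Ok) {e : ℕ} (he : e < R.m) :
    (R.v e = false → R.cnt false e < R.nh - R.oh) ∧ (R.v e = true → R.cnt true e < R.nv) := by
  obtain ⟨a, b⟩ := h.cnt_le (show e + 1 ≤ R.m from he)
  rw [cnt_succ] at a b
  exact ⟨fun c => by rw [if_pos c] at a; exact a, fun c => by rw [if_pos c] at b; exact b⟩

theorem cnt_surj (b : Bool) {k i : ℕ} (h : i < R.cnt b k) : ∃ e < k, R.v e = b ∧ R.cnt b e = i := by
  induction k with
  | zero => exact absurd h (Nat.not_lt_zero _)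
  | succ k ih =>
    rcases lt_or_ge i (R.cnt b k) with c | c
    · obtain ⟨e, he, a⟩ := ih c
      exact ⟨e, by omega, a⟩
    · rw [cnt_succ] at h
      split_ifs at h with c'
      · exact ⟨k, by omega, c', by omega⟩
      · omega

theorem Ok.lin (h : R.Ok) : R.ch.Lin R.o R.n (fun b => ps (R.g b)) R.ix where
  le b := by cases b; exacts [h.lt.le, Nat.zero_le _]
  mono b := ps_mono (h.pos b)
  long := h.long
  cr e he := by
    obtain ⟨a, b⟩ := h.cnt_lt he
    change R.o (R.v e) < R.ix e ∧ R.ix e ≤ R.n (R.v e) ∧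
      ori (R.v e) * (R.p (R.v e) (R.cnt (R.v e) e + 1) : ℤ) = (ps (R.g (R.v e)) (R.ix e) : ℤ)
    unfold ix
    cases hv : R.v e
    · have := a hv
      simp [o, n, p, ori]
      omega
    · have := b hv
      simp [o, n, p, ori]
      omega
  surj b i h1 h2 := by
    cases b
    · change R.oh < i at h1
      change i ≤ R.nh at h2
      obtain ⟨e, he, a1, a2⟩ := cnt_surj false (show R.nh - i < _ by rw [h.cnt_m.1]; omega)
      exact ⟨e, he, a1, by simp only [ix, a1, a2, Bool.false_eq_true, if_false]; omega⟩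
    · change 0 < i at h1
      change i ≤ R.nv at h2
      obtain ⟨e, he, a1, a2⟩ := cnt_surj true (show i - 1 < _ by rw [h.cnt_m.2]; omega)
      exact ⟨e, he, a1, by simp only [ix, a1, a2, if_true]; omega⟩
  ran b x h1 h2 := by
    have e : (2 * R.m + 1) / 2 = R.m := by omega
    have := h.lt
    obtain ⟨z, hz, a1, a2⟩ := h.good.ex_rect b (x := ori b * x) (by
      cases b <;> simp [ch, p, ori, o, n, cnt] at h1 h2 ⊢ <;> linarith) (by
      cases b <;> simp only [ch, e, h.cnt_m.1, h.cnt_m.2] <;> simp [p, ori, o, n] at h1 h2 ⊢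
      · rw [show R.nh - (R.nh - R.oh) = R.oh by omega]; linarith
      · exact h2)
    refine ⟨z, hz, ?_, fun k _ hv => ?_⟩
    · rw [a1]
      rcases ori_pm b with c | c <;> rw [c] <;> ring
    · rw [Bool.eq_not.2 hv]; exact a2 _
  bd b z hz := by
    cases b
    · have a := h.good.lt_top hz false
      have := h.lt
      simp only [ch, show (2 * R.m + 1) / 2 = R.m by omega, h.cnt_m.1] at a
      simp [p, ori, o] at a ⊢
      rw [show R.nh - (R.nh - R.oh) = R.oh by omega] at a
      linarith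
    · obtain ⟨i, hi, hz⟩ := hz
      have a := (h.good.lo_mono true (Nat.zero_le i) hi).trans_lt (hz true).1
      simpa [ch, p, ori, o, cnt] using a

theorem Ok.sl_iff (h : R.Ok) (τ : Bool → ℕ → ℕ) {e : ℕ} (he : e < R.m) (t : ℕ) :
    R.ch.sl (fun k => τ (R.v k) (R.ix k) < t) (!R.v e) e = 1 ↔
      Even (if R.v e then R.Psi (τ false) (R.ix e) t else Phi (τ true) (R.col (R.ix e)) t) := by
  rw [Ch.sl_even]
  refine iff_of_eq (congrArg _ ?_)
  have L := h.lin
  have inj : ∀ b, ∀ i ∈ (Finset.range e).filter fun k => R.ch.v k = b ∧ τ (R.v k) (R.ix k) < t,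
      ∀ j ∈ (Finset.range e).filter fun k => R.ch.v k = b ∧ τ (R.v k) (R.ix k) < t,
      R.ix i = R.ix j → i = j := fun b i hi j hj a => by
    simp only [Finset.mem_filter, Finset.mem_range] at hi hj
    exact L.inj h.good (hi.1.trans he) (hj.1.trans he) (hi.2.1.trans hj.2.1.symm) a
  cases hv : R.v e
  · obtain ⟨j, hj, rfl⟩ := R.v_false.1 hv
    obtain ⟨a1, a2⟩ := h.cnt_at hj
    simp only [Bool.not_false, Bool.false_eq_true, if_false, Phi]
    rw [show R.ix (j + R.col (R.nh - j)) = R.nh - j by simp [ix, hv, a1]]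
    refine Finset.card_bij (fun k _ => R.ix k) (fun k hk => ?_) (inj _) fun y hy => ?_
    · simp only [Finset.mem_filter, Finset.mem_range, Finset.mem_Ioc] at hk ⊢
      have b1 : R.v k = true := hk.2.1
      have b2 := R.cnt_mono true (show k + 1 ≤ _ from hk.1)
      rw [cnt_succ, if_pos b1, a2] at b2
      exact ⟨by simp only [ix, b1, if_true]; omega, b1 ▸ hk.2.2⟩
    · simp only [Finset.mem_filter, Finset.mem_range, Finset.mem_Ioc] at hy ⊢
      obtain ⟨k, hk, b1, b2⟩ := cnt_surj true
        (show y - 1 < R.cnt true (j + R.col (R.nh - j)) by omega)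
      have b3 : R.ix k = y := by simp only [ix, b1, if_true]; omega
      exact ⟨k, ⟨hk, b1, by rw [b1, b3]; exact hy.2⟩, b3⟩
  · simp only [Bool.not_true, if_true, Psi]
    have e1 : R.ix e = R.cnt true e + 1 := by simp [ix, hv]
    refine Finset.card_bij (fun k _ => R.ix k) (fun k hk => ?_) (inj _) fun y hy => ?_
    · simp only [Finset.mem_filter, Finset.mem_range, Finset.mem_Ioc] at hk ⊢
      have b1 : R.v k = false := hk.2.1
      obtain ⟨j, hj, rfl⟩ := R.v_false.1 b1
      obtain ⟨a1, a2⟩ := h.cnt_at hj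
      have b2 := R.cnt_mono true hk.1.le
      have b3 := hk.2.2
      rw [b1] at b3
      rw [show R.ix (j + R.col (R.nh - j)) = R.nh - j by simp [ix, b1, a1]] at b3 ⊢
      exact ⟨by omega, by omega, b3⟩
    · simp only [Finset.mem_filter, Finset.mem_range, Finset.mem_Ioc] at hy ⊢
      have hj : R.nh - y < R.nh - R.oh := by omega
      obtain ⟨a1, a2⟩ := h.cnt_at hj
      have b1 := R.v_false.2 ⟨_, hj, rfl⟩
      have b3 : R.ix (R.nh - y + R.col (R.nh - (R.nh - y))) = y := by
        simp only [ix, b1, a1, Bool.false_eq_true, if_false]; omega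
      refine ⟨_, ⟨not_le.1 fun c => ?_, b1, by rw [b1, b3]; exact hy.2.2⟩, b3⟩
      have b4 := R.cnt_mono true (show e + 1 ≤ _ from lt_of_le_of_ne c fun c' => by
        rw [← c', hv] at b1; cases b1)
      rw [cnt_succ, if_pos hv, a2, show R.nh - (R.nh - y) = y by omega] at b4
      omega

variable (R) in
/-- The senses of the folds of a schedule. -/
def al (τ : Bool → ℕ → ℕ) (b : Bool) (i : ℕ) : Prop :=
  R.val b i = true ↔
    Even (if b then R.Psi (τ false) i (τ true i) else Phi (τ true) (R.col i) (τ false i))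

theorem Ok.al_iff (h : R.Ok) (τ : Bool → ℕ → ℕ) {e : ℕ} (he : e < R.m) :
    R.al τ (R.v e) (R.ix e) ↔ (R.ch.val e = true ↔
      R.ch.sl (fun k => τ (R.v k) (R.ix k) < τ (R.v e) (R.ix e)) (!R.v e) e = 1) := by
  rw [h.sl_iff τ he, al]
  change _ ↔ (R.val (R.v e) (R.ix e) = true ↔ _)
  cases R.v e <;> rfl

theorem Ok.no (h : R.Ok) {two : Bool} (H : MFold .line two R.ch.map) :
    ∃ τ : Bool → ℕ → ℕ, ∀ b, WG (R.o b) (R.n b) (R.g b) (τ b) (R.al τ b) := by
  obtain ⟨τ, α, hW, hα⟩ := Ch.sched_of_fold h.good h.lin H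
  refine ⟨τ, fun b => ((hW b).wg (h.pos b) (h.long b)).congr fun i h1 h2 => ?_⟩
  obtain ⟨e, he, rfl, rfl⟩ := h.lin.surj b i h1 h2
  exact (h.al_iff τ he).trans (hα e he).symm

theorem Ok.yes (h : R.Ok) (two : Bool) {τ : Bool → ℕ → ℕ}
    (hW : ∀ b, WG (R.o b) (R.n b) (R.g b) (τ b) (R.al τ b))
    (hd : ∀ i j, i ≤ R.nv → j ≤ R.nh → τ true i ≠ τ false j) : MFold .line two R.ch.map :=
  Ch.fold_of_sched h.good h.lin two (fun b => (hW b).w (h.pos b)) (fun b i j _ a _ c => by
    cases b
    · exact (hd j i c a).symm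
    · exact hd i j a c) fun _ he => h.al_iff τ he

end Rb

end Pool.Agent.Lib.MP_3a3d34_lc
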