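import Pool.Agent.Lib.MP_3a3d34_lc.InfNo

/-!
If a formula is satisfiable, its ribbon can be folded.
-/

set_option autoImplicit false

namespace Pool.Agent.Lib.MP_3a3d34_lc

open Ln Finset

namespace Cn

variable {P : Cn}

theorem ex_levels (hT : 2 ≤ P.T) (h : P.Sol) : ∃ f w : ℕ → ℕ,
    (∀ h < P.N * P.J + P.T, f h ≤ f (h + 1)) ∧ f (P.N * P.J + P.T) ≤ P.L ∧ w 0 = 0 ∧
    (∀ c ≤ P.N, f (c * P.J) = P.M c) ∧
    (∀ c ≤ P.N, ∀ t ≤ P.T,
      (P.M c + ∑ u ∈ range t, (!P.neg c u).toNat + f (c * P.J + t)) % 2 = w t % 2) ∧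
    ∀ c < P.N, ∀ t ≤ P.T,
      (P.M (c + 1) + ∑ u ∈ range t, (P.pos c u).toNat + f ((c + 1) * P.J - t)) % 2 = w t % 2 := by
  obtain ⟨x, hx⟩ := h
  have eJ := P.J_eq
  let cp : ℕ → ℕ → ℕ := fun c t => ∑ u ∈ range t, if x u = P.pos c u then 0 else 1
  let cn : ℕ → ℕ → ℕ := fun c t => ∑ u ∈ range t, if x u = P.neg c u then 1 else 0
  let f : ℕ → ℕ := fun h => if h % P.J ≤ P.T then P.M (h / P.J) + cn (h / P.J) (h % P.J)
    else P.M (h / P.J + 1) - cp (h / P.J) (P.J - h % P.J)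
  have f1 : ∀ c, ∀ t ≤ P.T, f (c * P.J + t) = P.M c + cn c t := fun c t ht => by
    simp only [f, (dm (show t < P.J by omega)).1, (dm (show t < P.J by omega)).2, if_pos ht]
  have f2 : ∀ c, ∀ t ≤ P.T, f ((c + 1) * P.J - t) = P.M (c + 1) - cp c t := fun c t ht => by
    rcases Nat.eq_zero_or_pos t with rfl | t0
    · simpa [cp, cn] using f1 (c + 1) 0 ht
    rw [show (c + 1) * P.J - t = c * P.J + (P.J - t) by rw [add_one_mul]; omega]
    simp only [f, (dm (show P.J - t < P.J by omega)).1, (dm (show P.J - t < P.J by omega)).2]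
    rw [if_neg (by omega), show P.J - (P.J - t) = t by omega]
  have m1 : ∀ c t, cp c t ≤ cp c (t + 1) := fun c t => by
    simp only [cp, sum_range_succ]; omega
  have m2 : ∀ c t, cn c t ≤ cn c (t + 1) := fun c t => by
    simp only [cn, sum_range_succ]; omega
  have bd : ∀ c < P.N, cp c P.T + cn c P.T ≤ P.bud c := fun c hc => by
    obtain ⟨u, hu, h⟩ := hx c hc
    have a : ∑ i ∈ range P.T, ((if x i = P.pos c i then 0 else 1) + (if x i = P.neg c i then 1 else 0)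
        + if i = u then 2 else 0) ≤
        ∑ i ∈ range P.T, ((P.pos c i).toNat + (P.neg c i).toNat + 1) := sum_le_sum fun i _ => by
      by_cases e : i = u
      · subst e
        revert h
        cases x i <;> cases P.pos c i <;> cases P.neg c i <;> simp
      · rw [if_neg e]
        cases x i <;> cases P.pos c i <;> cases P.neg c i <;> simp
    rw [sum_add_distrib, sum_add_distrib, sum_ite_eq', if_pos (mem_range.2 hu), sum_add_distrib,
      sum_const, card_range, smul_eq_mul, mul_one] at a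
    simp only [cp, cn, bud]
    omega
  have cpT : ∀ c t, t ≤ P.T → cp c t ≤ cp c P.T := fun c t ht =>
    monotone_nat_of_le_succ (m1 c) ht
  refine ⟨f, fun t => ∑ u ∈ range t, (x u).toNat, fun h hh => ?_, ?_, rfl, fun c _ => ?_,
    fun c _ t ht => ?_, fun c hc t ht => ?_⟩
  · obtain ⟨c, s, hs, rfl⟩ := ex_dm (show 0 < P.J by omega) h
    rcases lt_trichotomy s P.T with a | rfl | a
    · rw [add_assoc, f1 c s a.le, f1 c (s + 1) a]
      exact Nat.add_le_add_left (m2 c s) _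
    · have := lt_dm hh (by omega)
      have hc : c < P.N := by omega
      rw [f1 c _ le_rfl, show c * P.J + P.T + 1 = (c + 1) * P.J - P.T by rw [add_one_mul]; omega,
        f2 c _ le_rfl, P.M_succ hc]
      have := bd c hc
      omega
    · rw [show c * P.J + s + 1 = (c + 1) * P.J - (P.J - s - 1) by rw [add_one_mul]; omega,
        show c * P.J + s = (c + 1) * P.J - (P.J - s - 1 + 1) by rw [add_one_mul]; omega,
        f2 c _ (by omega), f2 c _ (by omega)]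
      exact Nat.sub_le_sub_left (m1 c _) _
  · rw [f1 _ _ le_rfl, L_eq]
    refine Nat.add_le_add_left ((sum_le_card_nsmul _ _ 1 fun i _ => ?_).trans (by simp)) _
    split_ifs <;> omega
  · simpa [cn] using f1 c 0 (Nat.zero_le _)
  · rw [f1 c t ht]
    have : (∑ u ∈ range t, (!P.neg c u).toNat + cn c t) % 2 = (∑ u ∈ range t, (x u).toNat) % 2 := by
      clear ht
      induction t with
      | zero => rfl
      | succ t ih =>
        simp only [cn, sum_range_succ] at ih ⊢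
        generalize (∑ u ∈ range t, if x u = P.neg c u then 1 else 0) = a at ih ⊢
        cases x t <;> cases P.neg c t <;> simp <;> omega
    beta_reduce
    omega
  · rw [f2 c t ht]
    have : (∑ u ∈ range t, (P.pos c u).toNat + cp c t) % 2 = (∑ u ∈ range t, (x u).toNat) % 2 := by
      clear ht
      induction t with
      | zero => rfl
      | succ t ih =>
        simp only [cp, sum_range_succ] at ih ⊢
        cases x t <;> cases P.pos c t <;> simp <;> omega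
    have := bd c hc
    have := cpT c t ht
    have := P.M_succ hc
    beta_reduce
    omega

variable (P) in
/-- The numbers of creases folded early. -/
structure Lev (μ w : ℕ → ℕ) : Prop where
  hT : 2 ≤ P.T
  m0 : μ P.Rm = 0
  mz : μ 0 = P.L
  m1 : ∀ ρ, ρ % 2 = 0 → ρ + 1 < P.Rm → μ (ρ + 1 + 1) ≤ μ ρ
  m2 : ∀ ρ, ρ % 2 = 0 → ρ ≤ P.Rm → μ ρ ≤ P.L
  w0 : w 0 = 0
  fo : ∀ c ≤ P.N, ∀ R, R + 2 * (c * P.J) = P.Rm → μ R = P.M c
  p1 : ∀ c ≤ P.N, ∀ t ≤ P.T, ∀ R, R + 2 * (c * P.J + t) = P.Rm →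
    (P.M c + ∑ u ∈ range t, (!P.neg c u).toNat + μ R) % 2 = w t % 2
  p2 : ∀ c < P.N, ∀ t ≤ P.T, ∀ R, R + 2 * ((c + 1) * P.J) = P.Rm + 2 * t →
    (P.M (c + 1) + ∑ u ∈ range t, (P.pos c u).toNat + μ R) % 2 = w t % 2

theorem ex_lev (hT : 2 ≤ P.T) (h : P.Sol) : ∃ μ w, P.Lev μ w := by
  obtain ⟨f, w, f1, f2, w0, f3, f4, f5⟩ := ex_levels hT h
  have eJ := P.J_eq
  have eR : P.Rm = 2 * (P.N * P.J + P.T) + 2 := by rw [Rm_eq, J_eq]; ring
  let μ : ℕ → ℕ := fun ρ => if ρ = 0 then P.L else f ((P.Rm - ρ) / 2)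
  have m1 : ∀ ρ, ρ % 2 = 0 → ρ + 1 < P.Rm → μ (ρ + 1 + 1) ≤ μ ρ := fun ρ a b => by
    simp only [μ]
    rw [if_neg (by omega)]
    split_ifs with c
    · rwa [show (P.Rm - (ρ + 1 + 1)) / 2 = P.N * P.J + P.T by omega]
    · rw [show (P.Rm - ρ) / 2 = (P.Rm - (ρ + 1 + 1)) / 2 + 1 by omega]
      exact f1 _ (by omega)
  have m3 : ∀ R h, R + 2 * h = P.Rm → 0 < R → μ R = f h := fun R h a b => by
    simp only [μ]
    rw [if_neg b.ne', show (P.Rm - R) / 2 = h by omega]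
  have fo : ∀ c ≤ P.N, ∀ R, R + 2 * (c * P.J) = P.Rm → μ R = P.M c := fun c hc R e => by
    have := Nat.mul_le_mul_right P.J hc
    rw [m3 R _ e (by omega), f3 c hc]
  refine ⟨μ, w, hT, by rw [fo 0 (Nat.zero_le _) _ (by simp)]; simp [M], rfl, m1, fun ρ a b => ?_,
    w0, fo, fun c hc t ht R e => ?_, fun c hc t ht R e => ?_⟩
  · obtain ⟨j, rfl⟩ : ∃ j, ρ = 2 * j := ⟨ρ / 2, by omega⟩
    induction j with
    | zero => exact le_rfl
    | succ j ih => exact (m1 (2 * j) (by omega) (by omega)).trans (ih (by omega) (by omega))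
  · have := Nat.mul_le_mul_right P.J hc
    rw [m3 R _ e (by omega), f4 c hc t ht]
  · have := Nat.mul_le_mul_right P.J (show c + 1 ≤ P.N from hc)
    have := add_one_mul c P.J
    rw [m3 R ((c + 1) * P.J - t) (by omega) (by omega), f5 c hc t ht]

variable (P) in
/-- The times at which the horizontal creases are folded. -/
def tH (y : ℕ) : ℕ := if y % P.H = 0 then y else P.nh + P.nv + 2 + lab P.H y

variable (P) in
/-- The time at which a vertical crease of a given region is folded. -/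
def tV2 (μ : ℕ → ℕ) (ρ s : ℕ) : ℕ :=
  if s = 0 then (if ρ < P.Rm then P.nh + 1 + ρ * P.K else P.nh + P.nv + P.H + 3)
  else if ρ % 2 = 1 then
    (if s = 1 then P.nh + P.nv + 2 else if s = 2 then P.nh + P.nv + P.H + 2
    else if P.K ≤ μ (ρ + 1) + s then P.nh + 1 + ρ * P.K + 2 * P.K - s
    else P.nh + P.nv + P.H + 3 + P.K - s)
  else if s + 1 = P.K then P.nh + P.nv + 2 else if s + 2 = P.K then P.nh + P.nv + P.H + 2
  else if s ≤ μ ρ then P.nh + 1 + ρ * P.K + s else P.nh + P.nv + P.H + 3 + s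

variable (P) in
/-- The times at which the vertical creases are folded. -/
def tV (μ : ℕ → ℕ) (y : ℕ) : ℕ := P.tV2 μ (y / P.K) (y % P.K)

theorem tH_spec (ρ : ℕ) {s : ℕ} (hs : s < P.H) : (s = 0 ∧ P.tH (ρ * P.H + s) = ρ * P.H) ∨
    (0 < s ∧ ((ρ % 2 = 1 ∧ P.tH (ρ * P.H + s) = P.nh + P.nv + 2 + s) ∨
      (ρ % 2 = 0 ∧ P.tH (ρ * P.H + s) + s = P.nh + P.nv + 2 + P.H))) := by
  rw [tH, lab_eq hs, (dm hs).2]
  split_ifs <;> omega

theorem tV_spec (μ : ℕ → ℕ) (ρ : ℕ) {s : ℕ} (hs : s < P.K) {t : ℕ} (e : P.tV μ (ρ * P.K + s) = t) :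
    (s = 0 ∧ ((ρ < P.Rm ∧ t = P.nh + 1 + ρ * P.K) ∨ (P.Rm ≤ ρ ∧ t = P.nh + P.nv + P.H + 3))) ∨
    (ρ % 2 = 1 ∧ ((s = 1 ∧ t = P.nh + P.nv + 2) ∨ (s = 2 ∧ t = P.nh + P.nv + P.H + 2) ∨ (3 ≤ s ∧
      ((P.K ≤ μ (ρ + 1) + s ∧ t + s = P.nh + 1 + ρ * P.K + 2 * P.K) ∨
        (μ (ρ + 1) + s < P.K ∧ t + s = P.nh + P.nv + P.H + 3 + P.K))))) ∨
    (ρ % 2 = 0 ∧ 0 < s ∧ ((s + 1 = P.K ∧ t = P.nh + P.nv + 2) ∨
      (s + 2 = P.K ∧ t = P.nh + P.nv + P.H + 2) ∨ (s + 3 ≤ P.K ∧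
      ((s ≤ μ ρ ∧ t = P.nh + 1 + ρ * P.K + s) ∨ (μ ρ < s ∧ t = P.nh + P.nv + P.H + 3 + s))))) := by
  rw [tV, (dm hs).1, (dm hs).2, tV2] at e
  subst e
  by_cases h0 : s = 0
  · rw [if_pos h0]
    refine Or.inl ⟨h0, ?_⟩
    split_ifs <;> omega
  rw [if_neg h0]
  by_cases h1 : ρ % 2 = 1
  · rw [if_pos h1]
    refine Or.inr (Or.inl ⟨h1, ?_⟩)
    split_ifs <;> omega
  · rw [if_neg h1]
    refine Or.inr (Or.inr ⟨by omega, by omega, ?_⟩)
    split_ifs <;> omega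

theorem NN_even {R : ℕ} (Q : ℕ → Prop) [DecidablePred Q]
    (h : ∀ ρ s, s < P.H → ρ * P.H + s ∈ Ioc P.J P.nh → P.mir (ρ * P.H + s) = R →
      (Q (ρ * P.H + s) ↔ 2 ≤ s ∧ s ≤ P.J)) : P.NN R Q % 2 = 0 := by
  have eJ := P.J_eq
  have eH := P.H_eq
  rw [NN, ← card_filter_add_card_filter_not (fun i => i % P.H % 2 = 0)]
  rw [card_bij (t := ((Ioc P.J P.nh).filter fun i => P.mir i = R ∧ Q i).filter
    fun i => ¬ i % P.H % 2 = 0) (fun i _ => i + 1) (fun i hi => ?_) (fun i _ j _ e => by omega)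
    fun i hi => ?_]
  · omega
  · simp only [mem_filter] at hi ⊢
    obtain ⟨⟨a1, a2, a3⟩, a4⟩ := hi
    obtain ⟨ρ, s, hs, rfl, b1, b2, b3⟩ := P.ex_line a1
    rw [(dm hs).2] at a4
    have b4 := (h ρ s hs a1 a2).1 a3
    have hs' : s + 1 < P.H := by omega
    have c1 := (P.line_iff hs').2 ⟨b1, by omega⟩
    have c2 := P.mir_eq hs' b1
    have := P.off_spec ρ hs
    have := P.off_spec ρ hs'
    have c3 : P.mir (ρ * P.H + (s + 1)) = R := by omega
    rw [add_assoc, (dm hs').2]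
    exact ⟨⟨c1, c3, (h ρ _ hs' c1 c3).2 (by omega)⟩, by omega⟩
  · simp only [mem_filter] at hi ⊢
    obtain ⟨⟨a1, a2, a3⟩, a4⟩ := hi
    obtain ⟨ρ, s, hs, rfl, b1, b2, b3⟩ := P.ex_line a1
    rw [(dm hs).2] at a4
    have b4 := (h ρ s hs a1 a2).1 a3
    have hs' : s - 1 < P.H := by omega
    have c1 := (P.line_iff hs').2 ⟨b1, by omega⟩
    have c2 := P.mir_eq hs' b1
    have := P.off_spec ρ hs
    have := P.off_spec ρ hs'
    have c3 : P.mir (ρ * P.H + (s - 1)) = R := by omega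
    refine ⟨ρ * P.H + (s - 1), ⟨⟨c1, c3, (h ρ _ hs' c1 c3).2 (by omega)⟩, ?_⟩, by omega⟩
    rw [(dm hs').2]; omega

theorem NN_congr {R : ℕ} {Q Q' : ℕ → Prop} [DecidablePred Q] [DecidablePred Q']
    (h : ∀ ρ s, s < P.H → ρ * P.H + s ∈ Ioc P.J P.nh → P.mir (ρ * P.H + s) = R →
      (Q (ρ * P.H + s) ↔ Q' (ρ * P.H + s))) : P.NN R Q = P.NN R Q' :=
  congrArg _ (filter_congr fun i hi => and_congr_right fun a => by
    obtain ⟨ρ, s, hs, rfl, -⟩ := P.ex_line hi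
    exact h ρ s hs hi a)

theorem vb {ρ s : ℕ} (b : ρ * P.K + s ≤ P.nv) : ρ < P.Rm ∨ (ρ = P.Rm ∧ s ≤ P.L) := by
  have := lt_dm (a := ρ) (b := P.Rm) (r := s) (s := P.L + 1) (K := P.K) (Nat.lt_succ_of_le b)
    (by unfold K; omega)
  omega

theorem hb {ρ s : ℕ} (b : ρ * P.H + s ≤ P.nh) : ρ ≤ 2 * P.N + 1 := by
  have := lt_dm (a := ρ) (b := 2 * P.N + 1) (r := s) (s := P.H) (K := P.H) (Nat.lt_succ_of_le b)
    le_rfl
  omega

variable {μ w : ℕ → ℕ}

theorem t_ne {i j : ℕ} (hi : i ≤ P.nv) (hj : j ≤ P.nh) : P.tV μ i ≠ P.tH j := by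
  obtain ⟨ρ, s, hs, rfl⟩ := ex_dm (show 0 < P.K from Nat.succ_pos _) i
  obtain ⟨ρ', s', hs', rfl⟩ := ex_dm (show 0 < P.H from Nat.succ_pos _) j
  have := tV_spec μ ρ hs rfl
  have := tH_spec ρ' hs'
  have := vb hi
  have := P.nv_eq
  have := P.K_eq
  have := P.Rm_even
  have : ρ < P.Rm → ρ * P.K + P.K ≤ P.Rm * P.K := fun a =>
    add_one_mul ρ P.K ▸ Nat.mul_le_mul_right _ a
  omega

theorem Lev.phi (h : P.Lev μ w) {t R : ℕ} (t1 : P.nh + P.nv + 2 < t)
    (t2 : t < P.nh + P.nv + 2 + P.H) (h0 : 0 < R) (h1 : R ≤ P.Rm) :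
    Rb.Phi (P.tV μ) (R * P.K) t % 2 =
      (P.L + (if R % 2 = 0 then μ R else 0) + if R = P.Rm then 1 else 0) % 2 := by
  have eK := P.K_eq
  have ev := P.nv_eq
  have mu' : ∀ R, R % 2 = 0 → R ≤ P.Rm → P.mu (P.tV μ) t R = μ R := fun R d1 d2 => by
    have := h.m2 R d1 d2
    have := Nat.mul_le_mul_right P.K d2
    rw [mu, sum_congr rfl (g := fun i => if i < μ R then 1 else 0) fun i hi => if_congr (by
      have := mem_range.1 hi
      have := tV_spec μ R (show i + 1 < P.K by omega) rfl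
      omega) rfl rfl, sum_boole, Nat.cast_id]
    refine Eq.trans (congrArg _ (Finset.ext fun i => ?_)) (card_range _)
    simp only [mem_filter, mem_range]
    omega
  refine (P.phi_par (fun ρ d1 d2 => ?_) ?_ (fun ρ d1 d2 => ?_) (fun ρ d1 d2 => ?_)
    (fun ρ d1 d2 i hi => ?_) h0 h1).trans ?_
  rotate_right
  · rw [mu' 0 rfl (Nat.zero_le _), h.mz]
    by_cases c : R % 2 = 0
    · rw [if_pos c, if_pos c, mu' R c h1]
    · rw [if_neg c, if_neg c]
  · have := tV_spec μ ρ (show 0 < P.K by omega) rfl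
    have := Nat.mul_le_mul_right P.K d2.le
    rw [add_zero] at *
    omega
  · have := tV_spec μ P.Rm (show 0 < P.K by omega) rfl
    rw [add_zero] at *
    omega
  · have := tV_spec μ ρ (show 1 < P.K by omega) rfl
    have := tV_spec μ ρ (show 2 < P.K by omega) rfl
    omega
  · have := tV_spec μ ρ (show P.L + 2 < P.K by omega) rfl
    have := tV_spec μ ρ (show P.L + 1 < P.K by omega) rfl
    omega
  · have := tV_spec μ ρ (show P.L + 2 - i < P.K by omega) rfl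
    have := tV_spec μ (ρ + 1) (show i + 1 < P.K by omega) rfl
    have := add_one_mul ρ P.K
    omega

theorem Lev.par (h : P.Lev μ w) {ρ s : ℕ} (s0 : 0 < s) (hs : s < P.H) (c1 : ρ ≤ 2 * P.N + 1)
    (c2 : ρ = 0 → s = P.J + 1) :
    (P.cH ρ s + Rb.Phi (P.tV μ) (P.mir (ρ * P.H + s) * P.K) (P.tH (ρ * P.H + s))) % 2 =
      (P.L + if lab P.H (ρ * P.H + s) ≤ P.J then w (lab P.H (ρ * P.H + s) / 2) else 0) % 2 := by
  have eH := P.H_eq
  have eJ := P.J_eq
  have hT := h.hT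
  have t1 : P.nh + P.nv + 2 < P.tH (ρ * P.H + s) ∧ P.tH (ρ * P.H + s) < P.nh + P.nv + 2 + P.H := by
    have := tH_spec ρ hs
    omega
  have mi := P.mir_eq hs c1
  have os := P.off_spec ρ hs
  have r2 := P.Rm_eq
  have r3 := P.Rm_even
  generalize P.mir (ρ * P.H + s) = R at mi
  rw [lab_eq hs, cH]
  rcases Nat.even_or_odd' ρ with ⟨c, rfl | rfl⟩
  · rw [mul_assoc 2 c P.J] at mi
    rw [if_neg (show ¬ 2 * c % 2 = 1 by omega), if_neg (show ¬ 2 * c % 2 = 1 by omega)]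
    rcases Nat.eq_zero_or_pos c with rfl | c0
    · obtain rfl : R = P.Rm := by omega
      have ph := h.phi t1.1 t1.2 (by omega) le_rfl
      rw [if_pos r3, if_pos rfl, h.m0] at ph
      rw [if_pos rfl, if_pos (by omega), show (P.H - s) / 2 = 0 by omega, h.w0]
      omega
    obtain ⟨c, rfl⟩ : ∃ d, c = d + 1 := ⟨c - 1, by omega⟩
    have r4 := add_one_mul c P.J
    have r5 := Nat.mul_le_mul_right P.J (show c + 1 ≤ P.N by omega)
    rw [add_one_mul, mul_assoc] at r2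
    have ph := h.phi (R := R) t1.1 t1.2 (by omega) (by omega)
    rw [if_neg (show R ≠ P.Rm by omega)] at ph
    rw [if_neg (by omega)]
    rcases le_or_gt 2 s with s2 | s2
    · have := h.p2 c (by omega) ((P.H - s) / 2) (by omega) R (by omega)
      rw [if_pos (by omega)] at ph
      rw [if_pos s2, if_pos (by omega), show 2 * (c + 1) / 2 = c + 1 by omega, Nat.add_sub_cancel]
      omega
    · rw [if_neg (by omega)] at ph
      rw [if_neg (by omega), if_neg (by omega)]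
      omega
  · have r5 := Nat.mul_le_mul_right P.J (show c ≤ P.N by omega)
    rw [add_one_mul, mul_assoc 2 c P.J] at mi
    rw [add_one_mul, mul_assoc] at r2
    have ph := h.phi (R := R) t1.1 t1.2 (by omega) (by omega)
    rw [if_neg (show R ≠ P.Rm by omega)] at ph
    rw [if_neg (by omega), if_pos (show (2 * c + 1) % 2 = 1 by omega),
      if_pos (show (2 * c + 1) % 2 = 1 by omega)]
    by_cases s2 : 2 ≤ s ∧ s ≤ P.J
    · have := h.p1 c (by omega) (s / 2) (by omega) R (by omega)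
      rw [if_pos (by omega)] at ph
      rw [if_pos s2, if_pos s2.2, show (2 * c + 1) / 2 = c by omega]
      omega
    · rw [if_neg (by omega)] at ph
      rw [if_neg s2]
      split_ifs
      · rw [show s / 2 = 0 by omega, h.w0]; omega
      · omega

theorem Lev.wgH (h : P.Lev μ w) : WG P.J P.nh (zg P.nh P.H P.EH P.GH) P.tH
    (P.rb.al (fun b => if b then P.tV μ else P.tH) false) := by
  have eH := P.H_eq
  have eh := P.nh_eq
  refine wg_runs (by omega) (fun ρ _ => by unfold EH; split_ifs <;> omega)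
    (fun ρ => if ρ = 0 then P.J else if ρ = 2 * P.N + 1 then P.J + 1 else 0) le_rfl
    (fun ρ s a1 a2 a3 y b1 b2 => ?_) (fun ρ s a1 a2 a3 => ?_) (fun ρ a => ?_) (by omega)
  · obtain ⟨ρ', s', hs', rfl⟩ := ex_dm (show 0 < P.H by omega) y
    have hs : s < P.H := by split_ifs at a1 <;> omega
    have := tH_spec ρ hs
    have := tH_spec ρ' hs'
    have := lt_dm b1 hs'.le
    have := hb b2
    split_ifs at a1 with c
    · subst c; omega
    · omega
    · omega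
  · split_ifs at a1 with c c'
    · subst c; omega
    · subst c'
      have := P.gH0_spec (2 * P.N + 1) (show s < P.H by omega) rfl
      have := P.gH0_spec (2 * P.N + 1) (show s + 1 < P.H by omega) rfl
      rw [add_assoc]
      omega
    · omega
  have a1 : ρ ≤ 2 * P.N := by
    have := hb a.le
    split_ifs at a with c c'
    · omega
    · subst c'; omega
    · omega
  have a2 := dm_lt (show ρ < 2 * P.N + 1 by omega) (show P.J + 1 < P.H by omega)
  have a3 := add_one_mul ρ P.H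
  refine ⟨by split_ifs <;> omega, by omega, fun s b1 b2 => ⟨?_, ?_⟩⟩
  · have := tH_spec ρ b2
    have := tH_spec (ρ + 1) (show P.H - s < P.H by omega)
    omega
  have s0 : 0 < s := by omega
  have p1 := h.par (ρ := ρ) s0 b2 (by omega) fun c => by rw [if_pos c] at b1; omega
  have p2 := h.par (ρ := ρ + 1) (s := P.H - s) (by omega) (by omega) (by omega) (by omega)
  rw [show lab P.H ((ρ + 1) * P.H + (P.H - s)) = lab P.H (ρ * P.H + s) by
    rw [lab_eq b2, lab_eq (by omega)]; split_ifs <;> omega, ← p1] at p2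
  rw [P.alH_iff b2, P.alH_iff (by omega)]
  simp only [Bool.false_eq_true, if_false, if_true]
  omega

theorem tV_ge {y : ℕ} (hy : y ≤ P.nv) : P.nh + 1 + y ≤ P.tV μ y := by
  obtain ⟨ρ, s, hs, rfl⟩ := ex_dm (show 0 < P.K from Nat.succ_pos _) y
  rcases tV_spec μ ρ hs rfl with a | a | a <;> omega

theorem Lev.ownV (h : P.Lev μ w) {ρ s : ℕ} (hs : s < P.K) (a3 : ρ * P.K + s ≤ P.nv)
    (a1 : s = 0 ∨ (ρ % 2 = 0 ∧ (ρ = P.Rm ∨ (s ≤ μ ρ ∧ s ≤ P.L))) ∨ (ρ + 1 = P.Rm ∧ s ≤ 2)) :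
    Own P.nv (P.tV μ) (ρ * P.K + s) := by
  intro y b1 b2
  have eK := P.K_eq
  have eR := P.Rm_even
  have c1 := vb a3
  have c3 := tV_ge (μ := μ) b2
  have m0 : ρ = P.Rm → μ ρ = 0 := fun a => a ▸ h.m0
  have t1 : P.tV μ (ρ * P.K + s) = P.nh + 1 + (ρ * P.K + s) ∨
      (ρ = P.Rm ∧ P.tV μ (ρ * P.K + s) = P.nh + P.nv + P.H + 3 + s) ∨ (ρ + 1 = P.Rm ∧
      ((s = 1 ∧ P.tV μ (ρ * P.K + s) = P.nh + P.nv + 2) ∨
        (s = 2 ∧ P.tV μ (ρ * P.K + s) = P.nh + P.nv + P.H + 2))) := by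
    clear c3 b1 b2 a3
    have t := tV_spec μ ρ hs rfl
    generalize P.tV μ (ρ * P.K + s) = t0 at t ⊢
    rcases t with ⟨a, t | t⟩ | ⟨a, t | t | ⟨a', t⟩⟩ | ⟨a, a', t | t | ⟨a'', t | t⟩⟩ <;> omega
  generalize P.tV μ (ρ * P.K + s) = t0 at t1 ⊢
  rcases t1 with t1 | t1
  · omega
  obtain ⟨ρ', s', hs', rfl⟩ := ex_dm (show 0 < P.K by omega) y
  have c2 := vb b2
  have := lt_dm b1 hs'.le
  have : ρ' + 1 = P.Rm → μ (ρ' + 1) = 0 := fun a => a ▸ h.m0
  have : ρ' = P.Rm → μ ρ' = 0 := fun a => a ▸ h.m0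
  have := P.H_eq
  have t := tV_spec μ ρ' hs' rfl
  generalize P.tV μ (ρ' * P.K + s') = t' at t ⊢
  clear c3 b1 b2 a3 a1 m0 c1
  rcases t with ⟨a, t | t⟩ | ⟨a, t | t | ⟨a', t | t⟩⟩ | ⟨a, a', t | t | ⟨a'', t | t⟩⟩ <;> omega

theorem Lev.pairV (h : P.Lev μ w) {ρ s : ℕ} (b2 : s < P.K) (a1 : ρ < P.Rm)
    (b1 : (ρ % 2 = 0 ∧ μ ρ < s) ∨ (ρ % 2 = 1 ∧ 0 < s)) :
    P.tV μ (ρ * P.K + s) = P.tV μ ((ρ + 1) * P.K + (P.K - s)) ∧
    ¬ (P.rb.al (fun b => if b then P.tV μ else P.tH) true (ρ * P.K + s) ↔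
      P.rb.al (fun b => if b then P.tV μ else P.tH) true ((ρ + 1) * P.K + (P.K - s))) := by
  have eK := P.K_eq
  have eR := P.Rm_even
  have a3 := add_one_mul ρ P.K
  have t1 := tV_spec μ ρ b2 rfl
  have e : P.tV μ (ρ * P.K + s) = P.tV μ ((ρ + 1) * P.K + (P.K - s)) := by
    have := tV_spec μ (ρ + 1) (show P.K - s < P.K by omega) rfl
    have := h.m1 ρ
    omega
  refine ⟨e, (P.alV_pair (τ := fun b => if b then P.tV μ else P.tH) (by omega) b2 e).2 ?_⟩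
  simp only [Bool.false_eq_true, if_false, if_true]
  have l1 := lab_eq (ρ := ρ) b2
  clear e
  generalize P.tV μ (ρ * P.K + s) = t at t1
  generalize lab P.K (ρ * P.K + s) = l at l1
  have ev := P.nv_eq
  have a4 := Nat.mul_le_mul_right P.K (show ρ + 1 ≤ P.Rm from a1)
  have t2 : (l = 1 ∧ t = P.nh + P.nv + 2) ∨ (l ≠ 1 ∧ P.nh < t ∧ t < P.nh + P.nv + 2 ∧ ρ % 2 = 1 ∧
      P.K - l ≤ μ (ρ + 1)) ∨ (l ≠ 1 ∧ P.nh + P.nv + P.H + 2 ≤ t ∧
      (ρ % 2 = 1 → P.L < P.K - l ∨ μ (ρ + 1) < P.K - l)) := by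
    split_ifs at l1 <;> omega
  clear t1 l1 a3 a4 b1 ev
  have fo : ∀ ρ' s', s' < P.H → ρ' * P.H + s' ∈ Ioc P.J P.nh → P.mir (ρ' * P.H + s') = ρ + 1 →
      (ρ % 2 = 1 → 2 ≤ s' ∧ (s' ≤ P.J ∨ ρ' % 2 = 0)) ∧
      (s' = P.J + 1 → ρ' % 2 = 0 → ρ % 2 = 1 ∧ μ (ρ + 1) = P.M (ρ' / 2)) := fun ρ' s' c1 c2 c3 => by
    clear t2
    have c4 := ((P.line_iff c1).1 c2).1
    have c7 := P.mir_eq c1 c4
    have := P.off_spec ρ' c1
    have := P.mul_J ρ'
    have := P.J_eq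
    refine ⟨by omega, fun c5 c6 => ⟨by omega, ?_⟩⟩
    obtain ⟨c, rfl⟩ : ∃ c, ρ' = 2 * c := ⟨ρ' / 2, by omega⟩
    rw [mul_assoc 2 c P.J] at c7
    rw [h.fo c (by omega) _ (by omega), show 2 * c / 2 = c by omega]
  have eH := P.H_eq
  rcases t2 with ⟨c, rfl⟩ | ⟨c, t2⟩ | ⟨c, t2⟩
  · refine congrArg (· % 2) (NN_congr fun ρ' s' c1 c2 _ => ?_)
    have := tH_spec ρ' c1
    have := (mem_Ioc.1 c2).2
    rw [pre, if_pos c, (dm c1).2, decide_eq_true_iff]
    omega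
  · rw [NN_even (fun i => P.pre l i = true) fun ρ' s' c1 c2 c3 => ?_, NN, filter_false_of_mem,
      card_empty]
    · rintro i hi ⟨c2, c3⟩
      obtain ⟨ρ', s', c1, rfl, -⟩ := P.ex_line hi
      have := tH_spec ρ' c1
      have := (fo ρ' s' c1 hi c2).1
      omega
    · have := fo ρ' s' c1 c2 c3
      rw [P.pre_iff c c1]
      omega
  · refine congrArg (· % 2) (NN_congr fun ρ' s' c1 c2 c3 => ?_)
    have := tH_spec ρ' c1
    have := (mem_Ioc.1 c2).2
    have := (fo ρ' s' c1 c2 c3).2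
    have := P.M_le (ρ' / 2)
    have := P.L_eq
    rw [P.pre_iff c c1]
    exact iff_of_true (by omega) (by omega)

theorem Lev.wgV (h : P.Lev μ w) : WG 0 P.nv (zg P.nv P.K (fun ρ => ρ + 1) P.GV) (P.tV μ)
    (P.rb.al (fun b => if b then P.tV μ else P.tH) true) := by
  have eK := P.K_eq
  have ev := P.nv_eq
  have eR := P.Rm_even
  refine wg_runs (by omega) (fun ρ _ => by omega)
    (fun ρ => if ρ % 2 = 0 then (if P.Rm ≤ ρ then P.L else μ ρ) else if ρ + 1 = P.Rm then 2 else 0)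
    (Nat.zero_le _) (fun ρ s a1 a2 a3 => ?_) (fun ρ s a1 a2 a3 => ?_) (fun ρ a => ?_) (by omega)
  · have := h.m2 ρ
    have := vb a3
    exact h.ownV (by split_ifs at a1 <;> omega) a3 (by split_ifs at a1 <;> omega)
  · have := h.m2 ρ
    have := vb (show ρ * P.K + s ≤ _ by omega)
    have hs : s + 1 < P.K ∧ (ρ % 2 = 0 ∧ s < P.L ∨ ρ % 2 = 1 ∧ s < 2) := by
      split_ifs at a1 <;> omega
    clear a1 a2 a3
    have := P.L_eq
    have := h.hT
    have := P.gV0_spec ρ (show s < P.K by omega) rfl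
    have := P.gV0_spec ρ hs.1 rfl
    rw [add_assoc]
    omega
  have := h.m2 ρ
  have a1 : ρ < P.Rm := by
    refine (vb a.le).resolve_right fun c => ?_
    rw [c.1, if_pos (by omega), if_pos le_rfl] at a
    omega
  have a3 := add_one_mul ρ P.K
  have a2 : ρ + 1 < P.Rm → ρ * P.K + P.K + P.K ≤ P.Rm * P.K := fun c => by
    rw [← a3, ← add_one_mul]; exact Nat.mul_le_mul_right _ c
  have a4 : ρ + 1 = P.Rm → ρ * P.K + P.K = P.Rm * P.K := fun c => by rw [← c, a3]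
  exact ⟨by split_ifs <;> omega, by split_ifs <;> omega, fun s b1 b2 =>
    h.pairV b2 a1 (by split_ifs at b1 <;> omega)⟩

theorem fold_of_sol (hT : 2 ≤ P.T) (two : Bool) (h : P.Sol) : MFold .line two P.rb.ch.map := by
  obtain ⟨μ, w, h⟩ := ex_lev hT h
  refine P.ok.yes two (τ := fun b => if b then P.tV μ else P.tH) (fun b => ?_)
    fun i j hi hj => t_ne hi hj
  cases b
  · exact h.wgH
  · exact h.wgV

end Cn

end Pool.Agent.Lib.MP_3a3d34_lc
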