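import Pool.Agent.Lib.MP_3a3d34_lc.Shape

/-!
The folded states of the map are products of two foldings of a line.
-/

set_option autoImplicit false

namespace Pool.Agent.Lib.MP_3a3d34_lc

open Set

namespace Par

variable {P : Par}

/-- The description of a reachable state. -/
structure Inv (P : Par) (σ : State) (α γ β δ : ℕ → ℝ) : Prop where
  sa : ∀ j, α j = 1 ∨ α j = -1
  sb : ∀ r, β r = 1 ∨ β r = -1
  pos : ∀ z ∈ P.Om, ∀ j r, P.Bx j r z → σ.pos z = (α j * z.1 + γ j, β r * z.2 + δ r)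
  up : ∀ z ∈ P.Om, z ∉ σ.folded → ∀ j r, P.Bx j r z → (σ.up z ↔ α j = β r)
  fold : ∀ z ∈ P.Om, z ∈ σ.folded ↔ (∃ j < 3, z.1 = P.xl (j + 1) ∧ α j ≠ α (j + 1)) ∨
    ∃ r ≤ 2 * P.n, z.2 = P.yl (r + 1) ∧ β r ≠ β (r + 1)

theorem inv_init : P.Inv init (fun _ => 1) (fun _ => 0) (fun _ => 1) (fun _ => 0) where
  sa _ := Or.inl rfl
  sb _ := Or.inl rfl
  pos z _ _ _ _ := by simp [init]
  up z _ _ _ _ _ := by simp [init]
  fold z _ := by simp [init]

theorem hinge_v (h : P.Pos) {F : Fold} (hW : F.U ⊆ faces P.map) {u : ℕ → Prop}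
    (hd : ∀ j r, ∀ p ∈ P.cell j r, p ∈ F.U ↔ u j) {z : Pt} :
    z ∈ F.hinge P.map ↔ z ∈ P.Om ∧ ∃ j < 3, z.1 = P.xl (j + 1) ∧ ¬ (u j ↔ u (j + 1)) := by
  rw [hinge_iff h hW hd]
  refine and_congr_right fun hz => ⟨?_, ?_⟩
  · rintro ⟨⟨j, r, b, h1⟩, j', r', b', h2⟩
    rcases lt_trichotomy j j' with hj | rfl | hj
    · obtain ⟨rfl, e⟩ := adj P.xl_mono b.x1 b'.x0 hj
      exact ⟨j, b'.hj, e, fun h => h2 (h.1 h1)⟩
    · exact absurd h1 h2
    · obtain ⟨rfl, e⟩ := adj P.xl_mono b'.x1 b.x0 hj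
      exact ⟨j', b.hj, e, fun h => h2 (h.2 h1)⟩
  · rintro ⟨j, hj, e, hu⟩
    obtain ⟨_, r, b⟩ := exists_bx h hz
    have b1 : P.Bx j r z := ⟨hj.le, b.hr, e ▸ (P.xl_mono (Nat.lt_succ_self j)).le, e.le, b.y0, b.y1⟩
    have b2 : P.Bx (j + 1) r z :=
      ⟨hj, b.hr, e.ge, e ▸ (P.xl_mono (Nat.lt_succ_self (j + 1))).le, b.y0, b.y1⟩
    by_cases h1 : u j
    · exact ⟨⟨j, r, b1, h1⟩, j + 1, r, b2, fun h2 => hu (iff_of_true h1 h2)⟩
    · exact ⟨⟨j + 1, r, b2, by_contra fun h2 => hu (iff_of_false h1 h2)⟩, j, r, b1, h1⟩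

theorem hinge_h (h : P.Pos) {F : Fold} (hW : F.U ⊆ faces P.map) {u : ℕ → Prop}
    (hd : ∀ j r, ∀ p ∈ P.cell j r, p ∈ F.U ↔ u r) {z : Pt} :
    z ∈ F.hinge P.map ↔ z ∈ P.Om ∧ ∃ r ≤ 2 * P.n, z.2 = P.yl (r + 1) ∧ ¬ (u r ↔ u (r + 1)) := by
  rw [hinge_iff h hW hd]
  refine and_congr_right fun hz => ⟨?_, ?_⟩
  · rintro ⟨⟨j, r, b, h1⟩, j', r', b', h2⟩
    rcases lt_trichotomy r r' with hj | rfl | hj
    · obtain ⟨rfl, e⟩ := adj (yl_mono h) b.y1 b'.y0 hj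
      exact ⟨r, by have := b'.hr; omega, e, fun h => h2 (h.1 h1)⟩
    · exact absurd h1 h2
    · obtain ⟨rfl, e⟩ := adj (yl_mono h) b'.y1 b.y0 hj
      exact ⟨r', by have := b.hr; omega, e, fun h => h2 (h.2 h1)⟩
  · rintro ⟨r, hr, e, hu⟩
    obtain ⟨j, _, b⟩ := exists_bx h hz
    have b1 : P.Bx j r z :=
      ⟨b.hj, by omega, b.x0, b.x1, e ▸ (yl_mono h (Nat.lt_succ_self r)).le, e.le⟩
    have b2 : P.Bx j (r + 1) z :=
      ⟨b.hj, by omega, b.x0, b.x1, e.ge, e ▸ (yl_mono h (Nat.lt_succ_self (r + 1))).le⟩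
    by_cases h1 : u r
    · exact ⟨⟨j, r, b1, h1⟩, j, r + 1, b2, fun h2 => hu (iff_of_true h1 h2)⟩
    · exact ⟨⟨j, r + 1, b2, by_contra fun h2 => hu (iff_of_false h1 h2)⟩, j, r, b1, h1⟩

open Classical in
theorem fold_pos (h : P.Pos) {σ : State} {F : Fold} (hW : F.U ⊆ faces P.map) {d : ℕ → ℕ → Prop}
    (hd : ∀ j r, ∀ p ∈ P.cell j r, p ∈ F.U ↔ d j r)
    (hax : ∀ z ∈ F.hinge P.map, F.side (σ.pos z) = 0) {z : Pt} (hz : z ∈ P.Om) {j r : ℕ}
    (b : P.Bx j r z) :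
    (σ.fold P.map F).pos z = if d j r then F.refl (σ.pos z) else σ.pos z := by
  simp only [State.fold]
  by_cases h1 : d j r
  · rw [if_pos h1, if_pos ((closure_iff h hW hd hz).2 ⟨j, r, b, h1⟩)]
  · rw [if_neg h1]
    split_ifs with h2
    · have := hax z ((hinge_iff h hW hd).2 ⟨hz, (closure_iff h hW hd hz).1 h2, j, r, b, h1⟩)
      simp [Fold.refl, this]
    · rfl

open Classical in
theorem fold_up (h : P.Pos) {σ : State} {F : Fold} (hW : F.U ⊆ faces P.map) {d : ℕ → ℕ → Prop}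
    (hd : ∀ j r, ∀ p ∈ P.cell j r, p ∈ F.U ↔ d j r) {z : Pt} (hz : z ∈ P.Om)
    (hn : z ∉ F.hinge P.map) {j r : ℕ} (b : P.Bx j r z) :
    (σ.fold P.map F).up z ↔ if d j r then ¬ σ.up z else σ.up z := by
  simp only [State.fold]
  by_cases h1 : d j r
  · rw [if_pos h1, if_pos ((closure_iff h hW hd hz).2 ⟨j, r, b, h1⟩)]
  · rw [if_neg h1, if_neg fun h2 =>
      hn ((hinge_iff h hW hd).2 ⟨hz, (closure_iff h hW hd hz).1 h2, j, r, b, h1⟩)]

theorem flip_ne {a b : ℝ} (ha : a = 1 ∨ a = -1) (hb : b = 1 ∨ b = -1) {p q : Prop} [Decidable p]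
    [Decidable q] (h : ¬ (p ↔ q) → a = b) :
    a ≠ b ∨ ¬ (p ↔ q) ↔ (if p then -a else a) ≠ if q then -b else b := by
  by_cases hp : p <;> by_cases hq : q <;> rcases ha with rfl | rfl <;> rcases hb with rfl | rfl <;>
    first | (norm_num [hp, hq]; done) | norm_num [hp, hq] at h

theorem flip_eq {a b : ℝ} (ha : a = 1 ∨ a = -1) (hb : b = 1 ∨ b = -1) : ¬ a = b ↔ -a = b := by
  rcases ha with rfl | rfl <;> rcases hb with rfl | rfl <;> norm_num

theorem inv_v (h : P.Pos) {σ : State} {α γ β δ : ℕ → ℝ} (hI : P.Inv σ α γ β δ) {F : Fold}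
    (hW : F.U ⊆ faces P.map) {u : ℕ → Prop} [DecidablePred u] (hd : ∀ j r, ∀ p ∈ P.cell j r, p ∈ F.U ↔ u j)
    (h1 : F.n.1 ^ 2 = 1) (h2 : F.n.2 = 0) (hax : ∀ z ∈ F.hinge P.map, F.side (σ.pos z) = 0)
    (hno : ∀ j < 3, ¬ (u j ↔ u (j + 1)) → α j = α (j + 1)) :
    P.Inv (σ.fold P.map F) (fun j => if u j then -α j else α j)
      (fun j => if u j then 2 * F.c * F.n.1 - γ j else γ j) β δ where
  sa j := by
    rcases hI.sa j with e | e <;> split_ifs <;> simp [e]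
  sb := hI.sb
  pos z hz j r b := by
    rw [fold_pos h hW hd hax hz b, hI.pos z hz j r b]
    split_ifs
    · simp only [Fold.refl, Fold.side, h2, Prod.mk.injEq]
      exact ⟨by linear_combination (-2 * (α j * z.1 + γ j)) * h1, by ring⟩
    · rfl
  up z hz hn j r b := by
    have a := hI.up z hz (fun h => hn (Or.inl h)) j r b
    rw [fold_up h hW hd hz (fun h => hn (Or.inr h)) b]
    split_ifs
    · rw [a, flip_eq (hI.sa j) (hI.sb r)]
    · exact a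
  fold z hz := by
    change z ∈ σ.folded ∨ z ∈ F.hinge P.map ↔ _
    rw [hI.fold z hz, hinge_v h hW hd, and_iff_right hz, or_right_comm, ← exists_or]
    refine or_congr_left (exists_congr fun j => ?_)
    rw [← and_or_left, ← and_or_left]
    exact and_congr_right fun hj => and_congr_right fun _ =>
      flip_ne (hI.sa j) (hI.sa (j + 1)) (hno j hj)

theorem inv_h (h : P.Pos) {σ : State} {α γ β δ : ℕ → ℝ} (hI : P.Inv σ α γ β δ) {F : Fold}
    (hW : F.U ⊆ faces P.map) {u : ℕ → Prop} [DecidablePred u] (hd : ∀ j r, ∀ p ∈ P.cell j r, p ∈ F.U ↔ u r)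
    (h1 : F.n.2 ^ 2 = 1) (h2 : F.n.1 = 0) (hax : ∀ z ∈ F.hinge P.map, F.side (σ.pos z) = 0)
    (hno : ∀ r ≤ 2 * P.n, ¬ (u r ↔ u (r + 1)) → β r = β (r + 1)) :
    P.Inv (σ.fold P.map F) α γ (fun r => if u r then -β r else β r)
      (fun r => if u r then 2 * F.c * F.n.2 - δ r else δ r) where
  sa := hI.sa
  sb r := by
    rcases hI.sb r with e | e <;> split_ifs <;> simp [e]
  pos z hz j r b := by
    rw [fold_pos h hW hd hax hz b, hI.pos z hz j r b]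
    split_ifs
    · simp only [Fold.refl, Fold.side, h2, Prod.mk.injEq]
      exact ⟨by ring, by linear_combination (-2 * (β r * z.2 + δ r)) * h1⟩
    · rfl
  up z hz hn j r b := by
    have a := hI.up z hz (fun h => hn (Or.inl h)) j r b
    rw [fold_up h hW hd hz (fun h => hn (Or.inr h)) b]
    split_ifs
    · rw [a, eq_comm, flip_eq (hI.sb r) (hI.sa j), eq_comm]
    · exact a
  fold z hz := by
    change z ∈ σ.folded ∨ z ∈ F.hinge P.map ↔ _
    rw [hI.fold z hz, hinge_h h hW hd, and_iff_right hz, or_assoc, ← exists_or]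
    refine or_congr_right (exists_congr fun r => ?_)
    rw [← and_or_left, ← and_or_left]
    exact and_congr_right fun hr => and_congr_right fun _ =>
      flip_ne (hI.sb r) (hI.sb (r + 1)) (hno r hr)

theorem sat (h : P.Pos) {all two : Bool} {σ : State} {F : Fold} (hL : Legal all two P.map σ F) (j r : ℕ) :
    ∀ p ∈ P.cell j r, p ∈ F.U ↔ P.cell j r ⊆ F.U := by
  refine fun p hp => ⟨fun hU q hq => by_contra fun hq' => ?_, fun hU => hU hp⟩
  obtain ⟨z, hz, h1, h2⟩ := isPreconnected_closed_iff.1 (cell_conn h j r) (closure F.U)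
    (closure (faces P.map \ F.U)) isClosed_closure isClosed_closure (fun w hw => by
      by_cases hw' : w ∈ F.U
      · exact Or.inl (subset_closure hw')
      · exact Or.inr (subset_closure ⟨cell_sub h hw, hw'⟩))
    ⟨p, hp, subset_closure hU⟩ ⟨q, hq, subset_closure ⟨cell_sub h hq, hq'⟩⟩
  obtain ⟨e, he, h3⟩ := (hL.axis z ⟨⟨(cell_sub h hz).1, h1⟩, h2⟩).2
  exact (cell_sub h hz).2 (mem_iUnion₂.2 ⟨e, he, h3⟩)

theorem split_hinge (h : P.Pos) {F : Fold} (hW : F.U ⊆ faces P.map) {d : ℕ → ℕ → Prop}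
    (hd : ∀ j r, ∀ p ∈ P.cell j r, p ∈ F.U ↔ d j r) {z : Pt} {j r j' r' : ℕ}
    (hz : z ∈ P.Om ∧ P.Bx j r z ∧ P.Bx j' r' z) (hn : ¬ (d j r ↔ d j' r')) :
    z ∈ F.hinge P.map := by
  refine (hinge_iff h hW hd).2 ⟨hz.1, ?_⟩
  by_cases h1 : d j r
  · exact ⟨⟨j, r, hz.2.1, h1⟩, j', r', hz.2.2, fun h2 => hn (iff_of_true h1 h2)⟩
  · exact ⟨⟨j', r', hz.2.2, by_contra fun h2 => hn (iff_of_false h1 h2)⟩, j, r, hz.2.1, h1⟩

theorem legal_cases (h : P.Pos) {all two : Bool} {σ : State} {α γ β δ : ℕ → ℝ} (hI : P.Inv σ α γ β δ)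
    {F : Fold} (hL : Legal all two P.map σ F) :
    (F.n.2 = 0 ∧ ∃ u : ℕ → Prop, ∀ j r, ∀ p ∈ P.cell j r, p ∈ F.U ↔ u j) ∨
    (F.n.1 = 0 ∧ ∃ u : ℕ → Prop, ∀ j r, ∀ p ∈ P.cell j r, p ∈ F.U ↔ u r) := by
  have hd := sat h hL
  set d : ℕ → ℕ → Prop := fun j r => P.cell j r ⊆ F.U
  have q0 : (0 : ℝ) < 1 / 4 := by norm_num
  have q1 : (1 / 4 : ℝ) < 1 := by norm_num
  have hV : F.n.2 ≠ 0 → ∀ j < 3, ∀ r ≤ 1, (d j r ↔ d (j + 1) r) := by
    intro hn j hj r hr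
    by_contra hs
    have z1 := vpt (P := P) hj hr one_half_pos one_half_lt_one
    have z2 := vpt (P := P) hj hr q0 q1
    have a1 := (hL.axis _ (split_hinge h hL.sub hd z1 hs)).1
    have a2 := (hL.axis _ (split_hinge h hL.sub hd z2 hs)).1
    rw [hI.pos _ z1.1 j r z1.2.1] at a1
    rw [hI.pos _ z2.1 j r z2.2.1] at a2
    simp only [Fold.side] at a1 a2
    apply hn
    rcases hI.sb r with e | e <;> rw [e] at a1 a2 <;> interval_cases r <;> push_cast at a1 a2 <;>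
      linarith
  have hH : F.n.1 ≠ 0 → ∀ j ≤ 3, ∀ r ≤ 2 * P.n, r = 0 ∨ j = 3 → (d j r ↔ d j (r + 1)) := by
    intro hn j hj r hr hjr
    by_contra hs
    have z1 := hpt h hj hr hjr one_half_pos one_half_lt_one
    have z2 := hpt h hj hr hjr q0 q1
    have a1 := (hL.axis _ (split_hinge h hL.sub hd z1 hs)).1
    have a2 := (hL.axis _ (split_hinge h hL.sub hd z2 hs)).1
    rw [hI.pos _ z1.1 j r z1.2.1] at a1
    rw [hI.pos _ z2.1 j r z2.2.1] at a2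
    simp only [Fold.side] at a1 a2
    apply hn
    rcases hI.sa j with e | e <;> rw [e] at a1 a2 <;> linarith
  have hu := hL.unit
  by_cases h1 : F.n.1 = 0
  · refine Or.inr ⟨h1, d 3, fun j r p hp => (hd j r p hp).trans
      (row_const h (hV fun h2 => ?_) hp.1 (bx_of_cell h hp))⟩
    rw [h1, h2] at hu
    norm_num at hu
  by_cases h2 : F.n.2 = 0
  · exact Or.inl ⟨h2, fun j => d j 0, fun j r p hp => (hd j r p hp).trans
      (col_const h (hH h1) hp.1 (bx_of_cell h hp))⟩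
  obtain ⟨z, hz⟩ := hL.ne
  obtain ⟨hz, ⟨j, r, b, a⟩, j', r', b', a'⟩ := (hinge_iff h hL.sub hd).1 hz
  exact absurd ((all_const h (hH h1) (hV h2) hz b').2 ((all_const h (hH h1) (hV h2) hz b).1 a)) a'

/-- The assignment of the vertical creases. -/
def valV (j r : ℕ) : Prop := ¬ (j = 1 ∧ r = 1)

/-- The assignment of the horizontal creases. -/
def valH (j r : ℕ) : Prop := if r = 0 then j = 1 ∨ j = 2 else r % 2 = 0

theorem oseg_cases : ∀ e ∈ P.map.2, ∀ z ∈ oseg e,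
    (∃ j < 3, ∃ r ≤ 1, z.1 = P.xl (j + 1) ∧ P.yl r < z.2 ∧ z.2 < P.yl (r + 1) ∧
      (e.2.2.2.2 = true ↔ valV j r)) ∨
    ∃ j ≤ 3, ∃ r ≤ 2 * P.n, (r = 0 ∨ j = 3) ∧ z.2 = P.yl (r + 1) ∧ P.xl j < z.1 ∧
      z.1 < P.xl (j + 1) ∧ (e.2.2.2.2 = true ↔ valH j r) := by
  have hS := P.S_ge
  have eS := P.S_eq
  have hB := P.B_ge
  have hT : (0 : ℝ) ≤ P.T := Nat.cast_nonneg _
  rw [forall_creases]
  simp only [mem_oseg_v, mem_oseg_h]
  push_cast
  refine ⟨fun z hz => Or.inl ⟨0, by omega, 0, by omega, ?_⟩,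
    fun z hz => Or.inl ⟨0, by omega, 1, by omega, ?_⟩,
    fun z hz => Or.inl ⟨1, by omega, 0, by omega, ?_⟩,
    fun z hz => Or.inl ⟨1, by omega, 1, by omega, ?_⟩,
    fun z hz => Or.inl ⟨2, by omega, 0, by omega, ?_⟩,
    fun z hz => Or.inl ⟨2, by omega, 1, by omega, ?_⟩,
    fun z hz => Or.inr ⟨0, by omega, 0, by omega, by omega, ?_⟩,
    fun z hz => Or.inr ⟨1, by omega, 0, by omega, by omega, ?_⟩,
    fun z hz => Or.inr ⟨2, by omega, 0, by omega, by omega, ?_⟩,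
    fun z hz => Or.inr ⟨3, by omega, 0, by omega, by omega, ?_⟩,
    fun k hk z hz => Or.inr ⟨3, by omega, k + 1, by omega, by omega, ?_⟩⟩
  all_goals
    obtain ⟨h1, h2, h3⟩ := hz
    simp only [xl, yl, Y_zero, Y_one, Nat.cast_zero]
  all_goals first
    | exact ⟨h1, by linarith, by linarith, by simp [cr, valV, valH]⟩
    | skip
  have hk' : (k : ℝ) < (2 * P.n : ℕ) := by exact_mod_cast hk
  push_cast at hk'
  exact ⟨h1, by linarith [(Nat.cast_nonneg k : (0 : ℝ) ≤ _)], by linarith, by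
    simp [cr, valH]; omega⟩

theorem oseg_vpt {j r : ℕ} (hj : j < 3) (hr : r ≤ 1) : ∃ e ∈ P.map.2,
    ((P.xl (j + 1), (2 * r - 1) * (1 / 2)) : Pt) ∈ oseg e ∧ (e.2.2.2.2 = true ↔ valV j r) := by
  have hT : (0 : ℝ) ≤ P.T := Nat.cast_nonneg _
  by_contra hn
  push Not at hn
  rw [forall_creases] at hn
  simp only [mem_oseg_v] at hn
  obtain ⟨n1, n2, n3, n4, n5, n6, -⟩ := hn
  interval_cases j <;> interval_cases r
  · simpa [cr, valV] using n1 (by norm_num [xl]; linarith)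
  · simpa [cr, valV] using n2 (by norm_num [xl])
  · simpa [cr, valV] using n3 (by norm_num [xl])
  · simpa [cr, valV] using n4 (by norm_num [xl])
  · simpa [cr, valV] using n5 (by norm_num [xl])
  · simpa [cr, valV] using n6 (by norm_num [xl])

theorem oseg_hpt {j r : ℕ} (hj : j ≤ 3) (hr : r ≤ 2 * P.n) (hjr : r = 0 ∨ j = 3) : ∃ e ∈ P.map.2,
    ((P.hx j r + 1 / 2, P.yl (r + 1)) : Pt) ∈ oseg e ∧ (e.2.2.2.2 = true ↔ valH j r) := by
  have hS := P.S_ge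
  by_contra hn
  push Not at hn
  rw [forall_creases] at hn
  simp only [mem_oseg_h] at hn
  obtain ⟨-, -, -, -, -, -, n1, n2, n3, n4, n5⟩ := hn
  cases r with
  | zero =>
    interval_cases j
    · simpa [cr, valH] using n1 (by norm_num [hx, xl, yl, Y_zero])
    · simpa [cr, valH] using n2 (by norm_num [hx, xl, yl, Y_zero])
    · simpa [cr, valH] using n3 (by norm_num [hx, xl, yl, Y_zero]; linarith)
    · simpa [cr, valH] using n4 (by norm_num [hx, xl, yl, Y_zero])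
  | succ k =>
    obtain rfl : j = 3 := by omega
    have := n5 k hr (by
      simp only [hx, yl, if_true]; push_cast; exact ⟨rfl, by linarith, by linarith⟩)
    simp [cr, valH] at this
    omega

theorem Inv.not_folded_v (h : P.Pos) {σ : State} {α γ β δ : ℕ → ℝ} (hI : P.Inv σ α γ β δ) {z : Pt}
    (hz : z ∈ P.Om) {j r : ℕ} (hj : j < 3) (e : z.1 = P.xl (j + 1)) (h1 : P.yl r < z.2)
    (h2 : z.2 < P.yl (r + 1)) : z ∉ σ.folded ↔ α j = α (j + 1) := by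
  rw [hI.fold z hz, not_iff_comm]
  refine ⟨fun hn => Or.inl ⟨j, hj, e, hn⟩, ?_⟩
  rintro (⟨i, -, e', hn⟩ | ⟨i, -, e', -⟩)
  · obtain rfl : i = j := by have := P.xl_mono.injective (e'.symm.trans e); omega
    exact hn
  · rw [e'] at h1 h2
    have := (yl_mono h).lt_iff_lt.1 h1
    have := (yl_mono h).lt_iff_lt.1 h2
    omega

theorem Inv.not_folded_h (h : P.Pos) {σ : State} {α γ β δ : ℕ → ℝ} (hI : P.Inv σ α γ β δ) {z : Pt}
    (hz : z ∈ P.Om) {j r : ℕ} (hr : r ≤ 2 * P.n) (e : z.2 = P.yl (r + 1)) (h1 : P.xl j < z.1)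
    (h2 : z.1 < P.xl (j + 1)) : z ∉ σ.folded ↔ β r = β (r + 1) := by
  rw [hI.fold z hz, not_iff_comm]
  refine ⟨fun hn => Or.inr ⟨r, hr, e, hn⟩, ?_⟩
  rintro (⟨i, -, e', -⟩ | ⟨i, -, e', hn⟩)
  · rw [e'] at h1 h2
    have := P.xl_mono.lt_iff_lt.1 h1
    have := P.xl_mono.lt_iff_lt.1 h2
    omega
  · obtain rfl : i = r := by have := (yl_mono h).injective (e'.symm.trans e); omega
    exact hn

theorem pm_mul {a b : ℝ} (ha : a ^ 2 = 1) (hb : b = 1 ∨ b = -1) : a * b = 1 ∨ a * b = -1 := by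
  rcases sq_eq_one_iff.1 ha with rfl | rfl <;> rcases hb with rfl | rfl <;> norm_num

theorem near_aux {s t : ℝ} (hs : s = 1 ∨ s = -1) :
    (t < 0 → (0 ≤ s * t ↔ s = -1)) ∧ (0 < t → (0 ≤ s * t ↔ ¬ s = -1)) := by
  rcases hs with rfl | rfl <;> refine ⟨fun ht => ?_, fun ht => ?_⟩ <;> norm_num <;> linarith

theorem mv_v (h : P.Pos) {all two : Bool} {σ : State} {α γ β δ : ℕ → ℝ} (hI : P.Inv σ α γ β δ)
    {F : Fold} (hL : Legal all two P.map σ F) (h2 : F.n.2 = 0) {u : ℕ → Prop}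
    (hd : ∀ j r, ∀ p ∈ P.cell j r, p ∈ F.U ↔ u j) {j r : ℕ} (hj : j < 3) (hr : r ≤ 1)
    (hs : ¬ (u j ↔ u (j + 1))) : α j = α (j + 1) ∧
      (valV j r ↔ (α j = β r ↔ (F.top ↔ (u j ↔ F.n.1 * α j = -1)))) := by
  have z1 := vpt (P := P) hj hr one_half_pos one_half_lt_one
  obtain ⟨e, he, h1, h2'⟩ := oseg_vpt (P := P) hj hr
  have hz := split_hinge h hL.sub hd z1 hs
  obtain ⟨h3, h4⟩ := hL.assign e he _ ⟨hz, h1⟩
  rw [h2', hI.up _ z1.1 h3 j r z1.2.1] at h4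
  have ha : α j = α (j + 1) :=
    by_contra fun hn => h3 ((hI.fold _ z1.1).2 (Or.inl ⟨j, hj, rfl, hn⟩))
  refine ⟨ha, h4.trans (iff_congr Iff.rfl ?_)⟩
  have hu := hL.unit
  rw [h2] at hu
  have hs' := pm_mul (show F.n.1 ^ 2 = 1 by linarith) (hI.sa j)
  have s0 := (hL.axis _ hz).1
  have s1 := s0
  rw [hI.pos _ z1.1 _ _ z1.2.1] at s0
  rw [hI.pos _ z1.1 _ _ z1.2.2, ← ha] at s1
  simp only [Fold.side, h2] at s0 s1
  have k0 : ∀ i, ∀ p ∈ P.cell j i, (F.over σ p ↔ (F.top ↔ F.n.1 * α j = -1)) := fun i p hp => by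
    rw [Fold.over, hI.pos _ hp.1 _ _ (bx_of_cell h hp), ← (near_aux hs').1 (sub_neg.2 hp.2.1.2)]
    simp only [Fold.side, h2]
    rw [show F.n.1 * (α j * p.1 + γ j) + 0 * (β i * p.2 + δ i) - F.c =
      F.n.1 * α j * (p.1 - P.xl (j + 1)) by linarith]
  have k1 : ∀ i, ∀ p ∈ P.cell (j + 1) i, (F.over σ p ↔ (F.top ↔ ¬ F.n.1 * α j = -1)) :=
    fun i p hp => by
    rw [Fold.over, hI.pos _ hp.1 _ _ (bx_of_cell h hp), ← (near_aux hs').2 (sub_pos.2 hp.2.1.1),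
      ← ha]
    simp only [Fold.side, h2]
    rw [show F.n.1 * (α j * p.1 + γ (j + 1)) + 0 * (β i * p.2 + δ i) - F.c =
      F.n.1 * α j * (p.1 - P.xl (j + 1)) by linarith]
  constructor
  · intro hc
    obtain ⟨i, k, b, p, hp, hp'⟩ := bx_of_closure h (fun p hp => hL.sub hp.1) hc
    have i1 := P.xl_mono.le_iff_le.1 b.x0
    have i2 := P.xl_mono.le_iff_le.1 b.x1
    have hu := (hd _ _ p hp').1 hp.1
    rcases (show i = j ∨ i = j + 1 by omega) with rfl | rfl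
    · have := (k0 k p hp').1 hp.2
      tauto
    · have := (k1 k p hp').1 hp.2
      tauto
  · intro hc
    by_cases hu : u j
    · refine closure_mono (fun p hp => ?_) (mem_closure_cell h z1.1 z1.2.1)
      exact ⟨(hd _ _ p hp).2 hu, (k0 r p hp).2 (by tauto)⟩
    · refine closure_mono (fun p hp => ?_) (mem_closure_cell h z1.1 z1.2.2)
      exact ⟨(hd _ _ p hp).2 (by tauto), (k1 r p hp).2 (by tauto)⟩

theorem mv_h (h : P.Pos) {all two : Bool} {σ : State} {α γ β δ : ℕ → ℝ} (hI : P.Inv σ α γ β δ)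
    {F : Fold} (hL : Legal all two P.map σ F) (h2 : F.n.1 = 0) {u : ℕ → Prop}
    (hd : ∀ j r, ∀ p ∈ P.cell j r, p ∈ F.U ↔ u r) {j r : ℕ} (hj : j ≤ 3) (hr : r ≤ 2 * P.n)
    (hjr : r = 0 ∨ j = 3) (hs : ¬ (u r ↔ u (r + 1))) : β r = β (r + 1) ∧
      (valH j r ↔ (α j = β r ↔ (F.top ↔ (u r ↔ F.n.2 * β r = -1)))) := by
  have z1 := hpt h hj hr hjr one_half_pos one_half_lt_one
  obtain ⟨e, he, h1, h2'⟩ := oseg_hpt (P := P) hj hr hjr
  have hz := split_hinge h hL.sub hd z1 hs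
  obtain ⟨h3, h4⟩ := hL.assign e he _ ⟨hz, h1⟩
  rw [h2', hI.up _ z1.1 h3 j r z1.2.1] at h4
  have ha : β r = β (r + 1) :=
    by_contra fun hn => h3 ((hI.fold _ z1.1).2 (Or.inr ⟨r, hr, rfl, hn⟩))
  refine ⟨ha, h4.trans (iff_congr Iff.rfl ?_)⟩
  have hu := hL.unit
  rw [h2] at hu
  have hs' := pm_mul (show F.n.2 ^ 2 = 1 by linarith) (hI.sb r)
  have s0 := (hL.axis _ hz).1
  have s1 := s0
  rw [hI.pos _ z1.1 _ _ z1.2.1] at s0
  rw [hI.pos _ z1.1 _ _ z1.2.2, ← ha] at s1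
  simp only [Fold.side, h2] at s0 s1
  have k0 : ∀ i, ∀ p ∈ P.cell i r, (F.over σ p ↔ (F.top ↔ F.n.2 * β r = -1)) := fun i p hp => by
    rw [Fold.over, hI.pos _ hp.1 _ _ (bx_of_cell h hp), ← (near_aux hs').1 (sub_neg.2 hp.2.2.2)]
    simp only [Fold.side, h2]
    rw [show 0 * (α i * p.1 + γ i) + F.n.2 * (β r * p.2 + δ r) - F.c =
      F.n.2 * β r * (p.2 - P.yl (r + 1)) by linarith]
  have k1 : ∀ i, ∀ p ∈ P.cell i (r + 1), (F.over σ p ↔ (F.top ↔ ¬ F.n.2 * β r = -1)) :=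
    fun i p hp => by
    rw [Fold.over, hI.pos _ hp.1 _ _ (bx_of_cell h hp), ← (near_aux hs').2 (sub_pos.2 hp.2.2.1),
      ← ha]
    simp only [Fold.side, h2]
    rw [show 0 * (α i * p.1 + γ i) + F.n.2 * (β r * p.2 + δ (r + 1)) - F.c =
      F.n.2 * β r * (p.2 - P.yl (r + 1)) by linarith]
  constructor
  · intro hc
    obtain ⟨i, k, b, p, hp, hp'⟩ := bx_of_closure h (fun p hp => hL.sub hp.1) hc
    have i1 := (yl_mono h).le_iff_le.1 (show P.yl k ≤ P.yl (r + 1) from b.y0)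
    have i2 := (yl_mono h).le_iff_le.1 (show P.yl (r + 1) ≤ P.yl (k + 1) from b.y1)
    have hu := (hd _ _ p hp').1 hp.1
    rcases (show k = r ∨ k = r + 1 by omega) with rfl | rfl
    · have := (k0 i p hp').1 hp.2
      tauto
    · have := (k1 i p hp').1 hp.2
      tauto
  · intro hc
    by_cases hu : u r
    · refine closure_mono (fun p hp => ?_) (mem_closure_cell h z1.1 z1.2.1)
      exact ⟨(hd _ _ p hp).2 hu, (k0 j p hp).2 (by tauto)⟩
    · refine closure_mono (fun p hp => ?_) (mem_closure_cell h z1.1 z1.2.2)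
      exact ⟨(hd _ _ p hp).2 (by tauto), (k1 j p hp).2 (by tauto)⟩

end Par

end Pool.Agent.Lib.MP_3a3d34_lc
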