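import Pool.Agent.Lib.MP_3a3d34_lc.Inv

/-!
If the map can be folded, then the subset sum instance is solvable.
-/

set_option autoImplicit false

namespace Pool.Agent.Lib.MP_3a3d34_lc

open Set

namespace Par

variable {P : Par} {σ : State} {α γ β δ : ℕ → ℝ}

/-- The subset sum instance is solvable. -/
def Sol (P : Par) : Prop := ∃ s ⊆ Finset.range P.n, ∑ i ∈ s, P.a i = P.t

theorem Inv.cx (hI : P.Inv σ α γ β δ) {j : ℕ} (hj : j < 3) :
    α j * P.xl (j + 1) + γ j = α (j + 1) * P.xl (j + 1) + γ (j + 1) := by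
  obtain ⟨a, b, c⟩ := vpt (P := P) hj (Nat.zero_le 1) one_half_pos one_half_lt_one
  exact congrArg Prod.fst ((hI.pos _ a _ _ b).symm.trans (hI.pos _ a _ _ c))

theorem Inv.cy (h : P.Pos) (hI : P.Inv σ α γ β δ) {r : ℕ} (hr : r ≤ 2 * P.n) :
    β r * P.Y r + δ r = β (r + 1) * P.Y r + δ (r + 1) := by
  obtain ⟨a, b, c⟩ := hpt h le_rfl hr (Or.inr rfl) one_half_pos one_half_lt_one
  exact congrArg Prod.snd ((hI.pos _ a _ _ b).symm.trans (hI.pos _ a _ _ c))

theorem Inv.val_bd (h : P.Pos) (hI : P.Inv σ α γ β δ) : ∀ k ≤ 2 * P.n, ∀ y : ℝ, P.Y k ≤ y →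
    β 1 * (β (k + 1) * y + δ (k + 1) - δ 1) ≤ y ∧
      min y (2 * P.B - y) ≤ β 1 * (β (k + 1) * y + δ (k + 1) - δ 1) := by
  intro k
  induction k with
  | zero =>
    intro _ y _
    have : β 1 * (β (0 + 1) * y + δ (0 + 1) - δ 1) = y := by
      rcases hI.sb 1 with e | e <;> simp [e]
    rw [this]
    exact ⟨le_rfl, min_le_left _ _⟩
  | succ k ih =>
    intro hk y hy
    obtain ⟨h1, h2⟩ := ih (by omega) (P.Y (k + 1)) (Y_le h (by omega))
    have h3 := Y_ge h k
    rw [hI.cy h hk] at h1 h2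
    rw [min_eq_right (by linarith)] at h2 ⊢
    rcases hI.sb 1 with e | e <;> rcases hI.sb (k + 1 + 1) with e' | e' <;>
      rw [e, e'] at h1 h2 ⊢ <;> constructor <;> linarith

theorem Inv.sum_form (h : P.Pos) (hI : P.Inv σ α γ β δ) : ∀ i ≤ P.n, ∃ s ⊆ Finset.range i, ∃ m : ℕ,
    β 1 * (β (2 * i + 1) * P.Y (2 * i + 1) + δ (2 * i + 1) - δ 1) =
      P.Y (2 * i + 1) - 2 * ((∑ j ∈ s, P.a j + m * P.L : ℕ) : ℝ) := by
  intro i
  induction i with
  | zero =>
    refine fun _ => ⟨∅, by simp, 0, ?_⟩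
    rcases hI.sb 1 with e | e <;> simp [e]
  | succ i ih =>
    intro hi
    obtain ⟨s, hs, m, h1⟩ := ih (by omega)
    have c1 := hI.cy h (show 2 * i + 1 ≤ 2 * P.n by omega)
    have c2 := hI.cy h (show 2 * i + 1 + 1 ≤ 2 * P.n by omega)
    have y1 : (P.Y (2 * i + 1 + 1) : ℝ) = P.Y (2 * i + 1) + P.a i := by
      rw [Y_succ, sg_odd]; push_cast; rfl
    have y2 : (P.Y (2 * i + 1 + 1 + 1) : ℝ) = P.Y (2 * i + 1 + 1) + P.L := by
      rw [Y_succ, show 2 * i + 1 + 1 = 2 * i + 2 from rfl, sg_even]; push_cast; rfl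
    have hn : i ∉ s := fun hh => by simpa using hs hh
    have hs1 : s ⊆ Finset.range (i + 1) := hs.trans (Finset.range_mono (by omega))
    have hs2 : insert i s ⊆ Finset.range (i + 1) := Finset.insert_subset (by simp) hs1
    rw [show 2 * (i + 1) + 1 = 2 * i + 1 + 1 + 1 from rfl, y2]
    rw [y1] at c2 ⊢
    push_cast at h1
    by_cases e1 : β (2 * i + 1 + 1) = β 1 <;> by_cases e2 : β (2 * i + 1 + 1 + 1) = β 1
    · refine ⟨s, hs1, m, ?_⟩
      push_cast
      rw [e1] at c1 c2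
      rw [e2] at c2 ⊢
      rcases hI.sb 1 with e | e <;> rw [e] at h1 c1 c2 ⊢ <;> linarith
    · refine ⟨s, hs1, m + 1, ?_⟩
      push_cast
      rw [e1] at c1 c2
      rw [← (flip_eq (hI.sb 1) (hI.sb _)).1 (Ne.symm e2)] at c2 ⊢
      rcases hI.sb 1 with e | e <;> rw [e] at h1 c1 c2 ⊢ <;> linarith
    · refine ⟨insert i s, hs2, m, ?_⟩
      rw [Finset.sum_insert hn]
      push_cast
      rw [← (flip_eq (hI.sb 1) (hI.sb _)).1 (Ne.symm e1)] at c1 c2
      rw [e2] at c2 ⊢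
      rcases hI.sb 1 with e | e <;> rw [e] at h1 c1 c2 ⊢ <;> linarith
    · refine ⟨insert i s, hs2, m + 1, ?_⟩
      rw [Finset.sum_insert hn]
      push_cast
      rw [← (flip_eq (hI.sb 1) (hI.sb _)).1 (Ne.symm e1)] at c1 c2
      rw [← (flip_eq (hI.sb 1) (hI.sb _)).1 (Ne.symm e2)] at c2 ⊢
      rcases hI.sb 1 with e | e <;> rw [e] at h1 c1 c2 ⊢ <;> linarith

/-- A point of the bar. -/
noncomputable def pb (P : Par) : Pt := (2 * P.S + 3 / 2, P.T - 1 / 2)

theorem pb_mem : P.pb ∈ P.cell 3 (2 * P.n + 1) := by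
  have hS := P.S_ge
  have eS := P.S_eq
  have hl := P.Y_last
  refine ⟨mem_bar (by linarith) (by linarith) (by linarith) (by linarith), ⟨?_, ?_⟩, ?_, ?_⟩
  · change (P.S : ℝ) < 2 * P.S + 3 / 2
    linarith
  · change 2 * (P.S : ℝ) + 3 / 2 < 2 * P.S + 2 + (0 : ℕ)
    push_cast; linarith
  · change (P.Y (2 * P.n) : ℝ) < P.T - 1 / 2
    linarith
  · change (P.T : ℝ) - 1 / 2 < P.T
    linarith

theorem overlap (h : P.Pos) (hI : P.Inv σ α γ β δ) (a0 : α 0 ≠ α 1) (a1 : α 1 = α 2)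
    (a2 : α 2 ≠ α 3) (b0 : β 0 ≠ β 1) (hN : ¬ P.Sol) :
    ∃ j ≤ 1, ∃ q ∈ P.cell j 0, σ.pos q = σ.pos P.pb := by
  have hS := P.S_ge
  have hl := P.Y_last
  have hT := P.T_le
  have hρ := P.ρ_ge
  have hρ' := P.ρ_le
  obtain ⟨v1, v2⟩ := hI.val_bd h (2 * P.n) le_rfl (P.T - 1 / 2) (by linarith)
  obtain ⟨s, hs, m, v3⟩ := hI.sum_form h P.n le_rfl
  change _ * (_ * (P.T : ℝ) + _ - _) = P.T - _ at v3
  set R := β 1 * (β (2 * P.n + 1) * (P.T - 1 / 2) + δ (2 * P.n + 1) - δ 1) with hR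
  have v4 : 0 < R := lt_of_lt_of_le (lt_min (by linarith) (by linarith)) v2
  have v5 : R < P.ρ - 1 ∨ P.ρ < R := by
    by_contra hc
    push Not at hc
    unfold ρ at hc
    have c1 : ((2 * (∑ j ∈ s, P.a j + m * P.L) : ℕ) : ℝ) < (2 * P.t + 2 : ℕ) ∧
        ((2 * P.t : ℕ) : ℝ) < (2 * (∑ j ∈ s, P.a j + m * P.L) + 1 : ℕ) := by
      generalize ∑ j ∈ s, P.a j + m * P.L = X at v3 ⊢
      push_cast
      rcases hI.sb 1 with e | e <;> rcases hI.sb (2 * P.n + 1) with e' | e' <;>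
        rw [e, e'] at v3 hR <;> constructor <;> linarith [hc.1, hc.2]
    rw [Nat.cast_lt, Nat.cast_lt] at c1
    have c2 : ∑ j ∈ s, P.a j + m * P.L = P.t := by omega
    obtain rfl : m = 0 := by
      by_contra hm
      have : P.L ≤ m * P.L := Nat.le_mul_of_pos_left _ (by omega)
      have : P.t < P.L := by unfold L; omega
      omega
    exact hN ⟨s, hs, by simpa using c2⟩
  have c0 := hI.cx (j := 0) (by omega)
  have c1 := hI.cx (j := 1) (by omega)
  have c2 := hI.cx (j := 2) (by omega)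
  have c3 := hI.cy h (Nat.zero_le _)
  simp only [xl, Y_zero, Nat.cast_zero, Nat.reduceAdd] at c0 c1 c2 c3
  have e0 := (flip_eq (hI.sa 0) (hI.sa 1)).1 a0
  have e2 := (flip_eq (hI.sa 2) (hI.sa 3)).1 a2
  have e3 := (flip_eq (hI.sb 0) (hI.sb 1)).1 b0
  have hy : β 0 * -R + δ 0 = β (2 * P.n + 1) * (P.T - 1 / 2) + δ (2 * P.n + 1) := by
    rcases hI.sb 0 with e | e <;> rw [e] at e3 ⊢ <;> rw [← e3] at hR <;> linarith
  rw [hI.pos _ pb_mem.1 _ _ (bx_of_cell h pb_mem)]
  rcases v5 with v5 | v5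
  · have hq : ((-3 / 2, -R) : Pt) ∈ P.cell 1 0 := by
      refine ⟨(Om_neg (by linarith)).2 ⟨Or.inr (by norm_num),
        Or.inr (Or.inl ⟨by norm_num, by linarith⟩)⟩, ⟨?_, ?_⟩, ?_, ?_⟩ <;>
        simp only [xl, yl, Y_zero, Nat.cast_zero] <;> linarith
    refine ⟨1, le_rfl, _, hq, ?_⟩
    rw [hI.pos _ hq.1 _ _ (bx_of_cell h hq)]
    refine Prod.ext ?_ hy
    simp only [pb]
    rw [← e2] at c2 ⊢
    rw [a1] at c1 ⊢
    linarith
  · have hq : ((-13 / 2, -R) : Pt) ∈ P.cell 0 0 := by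
      refine ⟨(Om_neg (by linarith)).2 ⟨Or.inl ⟨by norm_num, by linarith⟩,
        Or.inl ⟨by norm_num, by linarith⟩⟩, ⟨?_, ?_⟩, ?_, ?_⟩ <;>
        simp only [xl, yl, Y_zero, Nat.cast_zero] <;> linarith
    refine ⟨0, by omega, _, hq, ?_⟩
    rw [hI.pos _ hq.1 _ _ (bx_of_cell h hq)]
    refine Prod.ext ?_ hy
    simp only [pb]
    rw [← e2] at c2 ⊢
    rw [← a1, ← e0] at c2 ⊢
    rw [← e0] at c0 c1
    linarith

/-- The invariant of the states reachable for an unsolvable instance. -/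
def Jinv (P : Par) (σ : State) : Prop :=
  ∃ α γ β δ, P.Inv σ α γ β δ ∧ α 1 = α 2 ∧ (β 0 ≠ β 1 → α 0 ≠ α 1 ∧ α 2 ≠ α 3 ∧
    ∀ j ≤ 1, ∀ q ∈ P.cell j 0, σ.pos q = σ.pos P.pb →
      (σ.above P.pb q ↔ α 1 = β 0) ∧ (σ.above q P.pb ↔ ¬ α 1 = β 0))

theorem Inv.int_δ (h : P.Pos) (hI : P.Inv σ α γ β δ) : ∀ k ≤ 2 * P.n + 1, ∃ m : ℤ,
    δ k = δ 0 + m := by
  intro k
  induction k with
  | zero => exact fun _ => ⟨0, by simp⟩
  | succ k ih =>
    intro hk
    obtain ⟨m, hm⟩ := ih (by omega)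
    have c := hI.cy h (show k ≤ 2 * P.n by omega)
    rcases hI.sb k with e | e <;> rcases hI.sb (k + 1) with e' | e' <;> rw [e, e'] at c
    · exact ⟨m, by linarith⟩
    · exact ⟨m + 2 * P.Y k, by push_cast; linarith⟩
    · exact ⟨m - 2 * P.Y k, by push_cast; linarith⟩
    · exact ⟨m, by linarith⟩

theorem Inv.pb_ne (h : P.Pos) (hI : P.Inv σ α γ β δ) {r : ℕ} (hr : r ≤ 2 * P.n) :
    β (2 * P.n + 1) * (P.T - 1 / 2) + δ (2 * P.n + 1) ≠ β r * P.Y r + δ r := by
  obtain ⟨m, hm⟩ := hI.int_δ h (2 * P.n + 1) le_rfl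
  obtain ⟨m', hm'⟩ := hI.int_δ h r (by omega)
  intro e
  rw [hm, hm'] at e
  rcases hI.sb (2 * P.n + 1) with e1 | e1 <;> rcases hI.sb r with e2 | e2 <;> rw [e1, e2] at e
  · have : (2 * P.T - 1 + 2 * m : ℤ) = 2 * P.Y r + 2 * m' := by
      apply Int.cast_injective (α := ℝ); push_cast; linarith
    omega
  · have : (2 * P.T - 1 + 2 * m : ℤ) = -2 * P.Y r + 2 * m' := by
      apply Int.cast_injective (α := ℝ); push_cast; linarith
    omega
  · have : (-2 * P.T + 1 + 2 * m : ℤ) = 2 * P.Y r + 2 * m' := by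
      apply Int.cast_injective (α := ℝ); push_cast; linarith
    omega
  · have : (-2 * P.T + 1 + 2 * m : ℤ) = -2 * P.Y r + 2 * m' := by
      apply Int.cast_injective (α := ℝ); push_cast; linarith
    omega

theorem refl_inj {F : Fold} (hu : F.n.1 ^ 2 + F.n.2 ^ 2 = 1) {p q : Pt} (e : F.refl p = F.refl q) :
    p = q ∧ F.side (F.refl p) = -F.side p := by
  have k : ∀ p, F.side (F.refl p) = -F.side p := fun p => by
    simp only [Fold.side, Fold.refl]
    linear_combination (-2 * (F.n.1 * p.1 + F.n.2 * p.2 - F.c)) * hu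
  have e1 : F.side p = F.side q := by
    have := k p
    rw [e, k q] at this
    linarith
  have e2 := congrArg Prod.fst e
  have e3 := congrArg Prod.snd e
  simp only [Fold.refl, e1] at e2 e3
  exact ⟨Prod.ext (by linarith) (by linarith), k p⟩

theorem pr1 {T N A a b u : Prop} (hu : u) (f : ((T ↔ N) → a) ∧ (¬ (T ↔ N) → b))
    (g : (b ↔ A) ∧ (a ↔ ¬ A)) (m : A ↔ (T ↔ (u ↔ N))) : False := by tauto

theorem pr2 {T N A a b u : Prop} (hu : ¬ u) (f : ((T ↔ N) → b) ∧ (¬ (T ↔ N) → a))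
    (g : (b ↔ A) ∧ (a ↔ ¬ A)) (m : A ↔ (T ↔ (u ↔ N))) : False := by tauto

theorem pr3 {T N A a b : Prop} (f : ((T ↔ N) → a) ∧ (¬ (T ↔ N) → b))
    (g : (b ↔ A) ∧ (a ↔ ¬ A)) : (¬ (T ↔ ¬ N) ↔ ¬ A) ∧ ((T ↔ ¬ N) ↔ ¬ ¬ A) := by tauto

theorem pr4 {O A a b : Prop} (f : (O → b) ∧ (¬ O → a))
    (g : (b ↔ A) ∧ (a ↔ ¬ A)) : (O ↔ A) ∧ (¬ O ↔ ¬ A) := by tauto

theorem pr5 {T N A u : Prop} (hu : u) (m : A ↔ (T ↔ (u ↔ N))) :
    (¬ (T ↔ N) ↔ ¬ A) ∧ ((T ↔ N) ↔ ¬ ¬ A) := by tauto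

theorem pr6 {T N A u : Prop} (hu : ¬ u) (m : A ↔ (T ↔ (u ↔ N))) :
    ((T ↔ ¬ N) ↔ A) ∧ (¬ (T ↔ ¬ N) ↔ ¬ A) := by tauto

open Classical in
theorem jinv_step (h : P.Pos) (hN : ¬ P.Sol) {all two : Bool} {F : Fold} (hJ : P.Jinv σ)
    (hL : Legal all two P.map σ F) : P.Jinv (σ.fold P.map F) := by
  obtain ⟨α, γ, β, δ, hI, a1, hJ⟩ := hJ
  have hu := hL.unit
  have hS := P.S_ge
  have hpb := pb_mem (P := P)
  have hfp : ∀ {d : ℕ → ℕ → Prop} (_ : ∀ j r, ∀ p ∈ P.cell j r, p ∈ F.U ↔ d j r) {j r : ℕ} {q : Pt}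
      (_ : q ∈ P.cell j r),
      (σ.fold P.map F).pos q = if d j r then F.refl (σ.pos q) else σ.pos q := fun hd _ _ _ hq =>
    fold_pos h hL.sub hd (fun z hz => (hL.axis z hz).1) hq.1 (bx_of_cell h hq)
  rcases legal_cases h hI hL with ⟨h2, u, hd⟩ | ⟨h2, u, hd⟩
  · rw [h2] at hu
    have h1 : F.n.1 ^ 2 = 1 := by linarith
    have hno := fun j hj hs => (mv_v h hI hL h2 hd (j := j) hj (Nat.zero_le 1) hs).1
    have hI' := inv_v h hI hL.sub hd h1 h2 (fun z hz => (hL.axis z hz).1) hno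
    have key : u 1 ↔ u 2 := by
      by_contra hs
      have m0 := (mv_v h hI hL h2 hd (j := 1) (by omega) (Nat.zero_le 1) hs).2
      have m1 := (mv_v h hI hL h2 hd (j := 1) (by omega) le_rfl hs).2
      simp only [valV] at m0 m1
      have b0 : β 0 ≠ β 1 := fun e => by
        rw [e] at m0
        simp only [Nat.zero_ne_one, and_false, and_self, not_true, not_false_iff, true_iff,
          false_iff] at m0 m1
        exact m1 m0
      replace m0 := m0.1 (by simp)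
      obtain ⟨a0, a2, hA⟩ := hJ b0
      have u0 : u 0 ↔ u 1 := by_contra fun hh => a0 (hno 0 (by omega) hh)
      have u2 : u 2 ↔ u 3 := by_contra fun hh => a2 (hno 2 (by omega) hh)
      obtain ⟨j, hj, q, hq, e⟩ := overlap h hI a0 a1 a2 b0 hN
      have hqU : q ∈ F.U ↔ u 1 := (hd _ _ q hq).trans (by
        interval_cases j
        exacts [u0, Iff.rfl])
      have hpU : P.pb ∈ F.U ↔ u 2 := (hd _ _ _ hpb).trans u2.symm
      have f2 := hA j hj q hq e
      have hz := vpt (P := P) (j := 1) (by omega) (Nat.zero_le 1) one_half_pos one_half_lt_one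
      have s0 := (hL.axis _ (split_hinge h hL.sub hd hz hs)).1
      rw [hI.pos _ hz.1 _ _ hz.2.2] at s0
      have c2 := hI.cx (j := 2) (by omega)
      have e2 := (flip_eq (hI.sa 2) (hI.sa 3)).1 a2
      have s2 : 0 ≤ F.side (σ.pos P.pb) ↔ F.n.1 * α 1 = -1 := by
        rw [hI.pos _ hpb.1 _ _ (bx_of_cell h hpb),
          ← (near_aux (pm_mul h1 (hI.sa 1))).1 (show (-3 / 2 : ℝ) < 0 by norm_num)]
        simp only [xl, Fold.side, pb, h2, Nat.reduceAdd] at c2 s0 ⊢
        rw [← e2] at c2 ⊢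
        rw [show γ 3 = γ 2 + 2 * α 2 * P.S by linarith, a1]
        exact iff_of_eq (congrArg _ (by linear_combination s0))
      by_cases h3 : u 1
      · have f1 := hL.free q (hqU.2 h3) _ ⟨cell_sub h hpb, fun hh => hs
          (iff_of_true h3 (hpU.1 hh))⟩ e
        rw [Fold.over, e, s2] at f1
        exact pr1 h3 f1 f2 m0
      · have f1 := hL.free _ (hpU.2 (by_contra fun hh => hs (iff_of_false h3 hh))) q
          ⟨cell_sub h hq, fun hh => h3 (hqU.1 hh)⟩ e.symm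
        rw [Fold.over, s2] at f1
        exact pr2 h3 f1 f2 m0
    refine ⟨_, _, _, _, hI', by simp only [key, a1], fun b0 => ?_⟩
    obtain ⟨a0, a2, -⟩ := hJ b0
    obtain ⟨z, hz⟩ := hL.ne
    obtain ⟨-, j, hj, -, hs⟩ := (hinge_v h hL.sub hd).1 hz
    interval_cases j
    · exact absurd (hno 0 (by omega) hs) a0
    · exact absurd key hs
    · exact absurd (hno 2 (by omega) hs) a2
  · rw [h2] at hu
    have h1 : F.n.2 ^ 2 = 1 := by linarith
    have hno := fun r hr hs => (mv_h h hI hL h2 hd (r := r) le_rfl hr (Or.inr rfl) hs).1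
    have hI' := inv_h h hI hL.sub hd h1 h2 (fun z hz => (hL.axis z hz).1) hno
    refine ⟨_, _, _, _, hI', a1, fun b0' => ?_⟩
    have s0 := hI.sb 0
    have t1 := hI.sa 1
    have hq : ∀ j, ∀ q ∈ P.cell j 0, q ∈ F.U ↔ u 0 := fun j q hq => hd j 0 q hq
    have hp := hd _ _ _ hpb
    have f1 := flip_eq t1 s0
    have f1' : α 1 = -β 0 ↔ ¬ α 1 = β 0 := by rw [f1]; exact ⟨fun e => by linarith, fun e => by linarith⟩
    by_cases hs : u 0 ↔ u 1
    · have b0 : β 0 ≠ β 1 := fun e => b0' (by simp only [hs, e])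
      obtain ⟨a0, a2, hA⟩ := hJ b0
      refine ⟨a0, a2, fun j hj q hq' e1 => ?_⟩
      obtain ⟨j0, hj0, q0, hq0, e0⟩ := overlap h hI a0 a1 a2 b0 hN
      have A0 := hA j0 hj0 q0 hq0 e0
      have A1 := hA j hj q hq'
      rw [hfp hd hq', hfp hd hpb] at e1
      simp only [State.fold, hq j q hq', hp]
      by_cases u0 : u 0 <;> by_cases uN : u (2 * P.n + 1) <;>
        simp only [u0, uN, if_true, if_false] at e1 ⊢
      · replace A1 := A1 (refl_inj hL.unit e1).1
        rw [A1.1, A1.2, f1']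
        exact ⟨Iff.rfl, not_not.symm⟩
      · have f2 := hL.free q0 ((hq _ _ hq0).2 u0) _ ⟨cell_sub h hpb, fun hh => uN (hp.1 hh)⟩ e0
        have s1 : F.side (σ.pos P.pb) = -F.side (σ.pos q) := by
          rw [← e1]; exact (refl_inj hL.unit rfl).2
        have s2 : F.side (σ.pos P.pb) ≠ 0 := by
          obtain ⟨z, hz⟩ := hL.ne
          obtain ⟨-, r, hr, -, hs'⟩ := (hinge_h h hL.sub hd).1 hz
          have z1 := hpt h le_rfl hr (Or.inr rfl) one_half_pos one_half_lt_one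
          have s3 := (hL.axis _ (split_hinge h hL.sub hd z1 hs')).1
          rw [hI.pos _ z1.1 _ _ z1.2.1] at s3
          rw [hI.pos _ hpb.1 _ _ (bx_of_cell h hpb)]
          simp only [Fold.side, h2, pb, yl] at s3 ⊢
          intro s4
          refine hI.pb_ne h hr ?_
          rcases sq_eq_one_iff.1 h1 with e | e <;> rw [e] at s3 s4 <;> linarith
        have s3 : 0 ≤ F.side (σ.pos q) ↔ ¬ 0 ≤ F.side (σ.pos P.pb) := by
          rw [not_le]
          exact ⟨fun hh => lt_of_le_of_ne (by linarith) s2, fun hh => by linarith⟩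
        rw [Fold.over, e0] at f2
        rw [f1', Fold.over, s3]
        exact pr3 f2 A0
      · have f2 := hL.free _ (hp.2 uN) q0 ⟨cell_sub h hq0, fun hh => u0 ((hq _ _ hq0).1 hh)⟩
          e0.symm
        exact pr4 f2 A0
      · exact A1 e1
    · have m := fun j hj => mv_h h hI hL h2 hd (j := j) (r := 0) hj (Nat.zero_le _) (Or.inl rfl) hs
      have m0 := (m 0 (by omega)).2
      have m1 := (m 1 (by omega)).2
      have m2 := (m 2 (by omega)).2
      have m3 := (m 3 (by omega)).2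
      have b0 : β 0 = β 1 := (m 0 (by omega)).1
      simp only [valH, if_true] at m0 m1 m2 m3
      have z2 := hpt h le_rfl (Nat.zero_le _) (Or.inr rfl) one_half_pos one_half_lt_one
      have s2 := (hL.axis _ (split_hinge h hL.sub hd z2 hs)).1
      have s5 := s2
      rw [hI.pos _ z2.1 _ _ z2.2.2] at s2
      rw [hI.pos _ z2.1 _ _ z2.2.1] at s5
      simp only [Fold.side, h2, yl, Y_zero, Nat.cast_zero, Nat.reduceAdd] at s2 s5
      have uN : ∀ k ≤ 2 * P.n, u (k + 1) ↔ u 1 := by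
        intro k
        induction k with
        | zero => exact fun _ => Iff.rfl
        | succ k ih =>
          intro hk
          refine Iff.trans (by_contra fun hs' => ?_) (ih (by omega))
          have z1 := hpt h le_rfl hk (Or.inr rfl) one_half_pos one_half_lt_one
          have s1 := (hL.axis _ (split_hinge h hL.sub hd z1 fun hh => hs' hh.symm)).1
          rw [hI.pos _ z1.1 _ _ z1.2.1] at s1
          simp only [Fold.side, h2, yl] at s1
          have v := (hI.val_bd h k (by omega) (P.Y (k + 1)) (Y_le h (by omega))).2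
          have e : β (k + 1) * P.Y (k + 1) + δ (k + 1) - δ 1 = 0 := by
            have h3 : F.n.2 = 1 ∨ F.n.2 = -1 := sq_eq_one_iff.1 h1
            rcases h3 with e | e <;> rw [e] at s1 s2 <;> linarith
          rw [e, mul_zero] at v
          have := Y_ge h k
          have := P.B_ge
          have := P.T_le
          have : (P.Y (k + 1) : ℝ) ≤ P.T := Y_le h (by omega)
          exact absurd v (not_le.2 (lt_min (by linarith) (by linarith)))
      replace m1 := m1.1 (by simp)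
      refine ⟨fun e => by rw [e] at m0; exact absurd (m0.2 m1) (by simp),
        fun e => by rw [e] at m2; exact absurd (m3.2 (m2.1 (by simp))) (by simp),
        fun j hj q hq' _ => ?_⟩
      have n0 := fun t => near_aux (t := t) (pm_mul h1 s0)
      simp only [State.fold, hq j q hq', hp, uN _ le_rfl]
      by_cases u0 : u 0
      · have u1 : ¬ u 1 := fun hh => hs (iff_of_true u0 hh)
        have s3 : 0 ≤ F.side (σ.pos q) ↔ F.n.2 * β 0 = -1 := by
          have hy : q.2 < 0 := by simpa [yl, Y_zero] using hq'.2.2.2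
          rw [hI.pos _ hq'.1 _ _ (bx_of_cell h hq'), ← (n0 _).1 hy]
          simp only [Fold.side, h2]
          exact iff_of_eq (congrArg _ (by linear_combination s5))
        simp only [u0, u1, if_true, if_false]
        rw [f1', Fold.over, s3]
        exact pr5 u0 m1
      · have u1 : u 1 := by_contra fun hh => hs (iff_of_false u0 hh)
        have s3 : 0 ≤ F.side (σ.pos P.pb) ↔ ¬ F.n.2 * β 0 = -1 := by
          have hl := P.Y_last
          have hT := P.T_le
          have hB := P.B_ge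
          have v2 := (hI.val_bd h (2 * P.n) le_rfl (P.T - 1 / 2) (by linarith)).2
          have v4 := lt_of_lt_of_le (lt_min (show (0 : ℝ) < _ by linarith) (by linarith)) v2
          rw [hI.pos _ hpb.1 _ _ (bx_of_cell h hpb), ← (n0 _).2 v4, b0]
          simp only [Fold.side, h2, pb]
          refine iff_of_eq (congrArg _ ?_)
          rcases hI.sb 1 with e | e <;> rw [e] <;> linear_combination s2
        simp only [u0, u1, if_true, if_false]
        rw [Fold.over, s3]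
        exact pr6 u0 m1

theorem sol_of_foldable (h : P.Pos) {all two : Bool} (hF : Foldable all two P.map) : P.Sol := by
  by_contra hN
  obtain ⟨σ, hσ, hf⟩ := hF
  have hJ : P.Jinv σ := by
    clear hf
    induction hσ with
    | refl => exact ⟨_, _, _, _, inv_init, rfl, fun h => absurd rfl h⟩
    | tail _ hs ih =>
      obtain ⟨F, hL, rfl⟩ := hs
      exact jinv_step h hN ih hL
  obtain ⟨α, γ, β, δ, hI, a1, -⟩ := hJ
  obtain ⟨e, he, h1, -⟩ := oseg_vpt (P := P) (j := 1) (r := 0) (by omega) (by omega)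
  have z1 := vpt (P := P) (j := 1) (r := 0) (by omega) (by omega) one_half_pos one_half_lt_one
  refine (hI.not_folded_v h z1.1 (j := 1) (r := 0) (by omega) rfl ?_ ?_).2 a1 (hf e he h1) <;>
    simp only [yl, Y_zero, Nat.cast_zero] <;> linarith [(Nat.cast_nonneg P.T : (0 : ℝ) ≤ _)]

end Par

end Pool.Agent.Lib.MP_3a3d34_lc
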