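import Pool.Agent.Lib.MP_3a3d34_lc.OneGeo

/-!
The order in which the first eight creases have to be folded.
-/

set_option autoImplicit false

namespace Pool.Agent.Lib.MP_3a3d34_lc

open Set

/-- The signed distance from the line of a crease, oriented by its assignment. -/
noncomputable def Ch.ee (C : Ch) (T : ℕ → Prop) (k : ℕ) (z : Pt) : ℝ :=
  (if C.val k then 1 else -1) * C.sl T (!C.v k) k * (co (C.v k) z - C.ax T k)

theorem Ch.ee_iff {C : Ch} (T : ℕ → Prop) (k : ℕ) (z : Pt) (h : C.ee T k z ≠ 0) : C.dd T k z ≠ 0 ∧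
    (((C.val k = true ↔ C.sl T true k = C.sl T false k) ↔ C.dd T k z < 0) ↔ C.ee T k z < 0) ∧
    (((C.val k = true ↔ C.sl T true k = C.sl T false k) ↔ 0 < C.dd T k z) ↔ 0 < C.ee T k z) := by
  unfold Ch.ee Ch.dd at *
  generalize co (C.v k) z - C.ax T k = d at *
  have hd : d ≠ 0 := fun e => h (by rw [e, mul_zero])
  rcases Ch.sl_pm (C := C) T true k with a | a <;> rcases Ch.sl_pm (C := C) T false k with b | b <;>
    cases C.v k <;> cases C.val k <;> rcases lt_or_gt_of_ne hd with c | c <;>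
    simp [a, b, c, hd, c.not_gt]

theorem Ch.Con.viol {C : Ch} {τ : ℕ → ℕ} (K : C.Con (fun e => e < C.m) τ) {i j l e : ℕ} (h1 : i ≤ l)
    (h2 : l < j) (h3 : j ≤ C.m) (T : ℕ → Prop) (hT : ∀ e < j, T e ↔ i ≤ e ∧ τ e < τ l) (he : e < j)
    (he' : T e) {p q : Pt} (hp : p ∈ C.face i) (hq : q ∈ C.face j) (hpq : C.ph T j q = p) (a : ℝ)
    (hl : 0 < a * C.ee T l p)
    (hk : ∀ k < j, T k → (∀ e < j, T e → τ e ≤ τ k) → 0 < a * C.ee T k p) : False := by
  classical
  obtain ⟨k, k1, k2⟩ := Finset.exists_max_image ((Finset.range j).filter T) τ ⟨e, by simp [he, he']⟩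
  simp only [Finset.mem_filter, Finset.mem_range, and_imp] at k1 k2
  have a1 := hk k k1.1 k1.2 k2
  obtain ⟨b1, b2, -⟩ := Ch.ee_iff T k p fun e => by rw [e, mul_zero] at a1; exact lt_irrefl _ a1
  obtain ⟨c1, -, c2⟩ := Ch.ee_iff T l p fun e => by rw [e, mul_zero] at hl; exact lt_irrefl _ hl
  have := K i j k l k1.1 h1 h2 h3 (show l < C.m by omega) T (fun e he => (hT e he).trans
    (and_congr_right fun _ => (and_iff_right (show e < C.m by omega)).symm)) k1.2 k2 q hq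
  rw [hpq, b2, c2] at this
  replace this := this hp b1 c1
  rcases pos_and_pos_or_neg_and_neg_of_mul_pos a1 with d | d <;>
    rcases pos_and_pos_or_neg_and_neg_of_mul_pos hl with d' | d'
  · exact (this.2 d'.2).not_gt d.2
  · exact d.1.not_gt d'.1
  · exact d.1.not_gt d'.1
  · exact (this.1 d.2).not_gt d'.2

namespace Par

variable {P : Par} {τ : ℕ → ℕ}

theorem oW_ge (P : Par) : (42 : ℝ) ≤ P.oW := by
  have : (42 : ℤ) ≤ P.oW := by unfold oW; omega
  exact_mod_cast this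

theorem oY_ge (P : Par) : (320 : ℝ) ≤ P.oY := by
  have : (320 : ℤ) ≤ P.oY := by have := P.oP_four; unfold oY; omega
  exact_mod_cast this

theorem lev_one_ge (P : Par) : 3 * (P.oY : ℝ) + 118 ≤ P.lev 1 := by
  obtain ⟨x, h1, h2, -⟩ := P.lev_one
  have := P.oP_four
  have : 3 * P.oY + 118 ≤ P.lev 1 := by rw [h1, lev_zero]; omega
  exact_mod_cast this

theorem mem_rect {i : ℕ} (hi : i ≤ 15) {x y : ℝ} (h1 : (P.ol i : ℝ) < x) (h2 : x < P.or i)
    (h3 : (P.ob i : ℝ) < y) (h4 : y < P.ot i) : (x, y) ∈ P.ch.Om :=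
  ⟨i, by rw [ch_N]; omega, fun b => by cases b <;> exact ⟨by assumption, by assumption⟩⟩

theorem memf (h : P.Pos) {e : ℕ} (he : e ≤ 7) {p : Pt} (hp : p ∈ P.ch.Om)
    (h1 : (P.oc e : ℝ) < co (ov e) p) (h2 : co (ov (e + 1)) p < P.oc (e + 1)) :
    p ∈ P.ch.face (e + 1) :=
  (good h).face_intro (by rw [ch_m]; omega) hp (fun j hj => by
    obtain rfl : e = j := by omega
    exact h1) fun _ => h2

theorem mem0 (h : P.Pos) {x y : ℝ} (h1 : -P.oW - 4 < x ∧ y < 0 ∨ -4 < x ∧ y < P.oY + 9) (h2 : x < -2)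
    (h3 : -10 < y) : (x, y) ∈ P.ch.face 0 := by
  have := P.oY_ge
  refine (good h).face_intro (Nat.zero_le _) ?_ (fun j hj => by omega) fun _ => ?_
  · rcases h1 with h1 | h1
    · refine mem_rect (i := 0) (by omega) ?_ ?_ ?_ ?_ <;> simp only [ol, or, ob, ot] <;> push_cast <;>
        linarith [h1.1, h1.2]
    · refine mem_rect (i := 1) (by omega) ?_ ?_ ?_ ?_ <;> simp only [ol, or, ob, ot] <;> push_cast <;>
        linarith [h1.1, h1.2]
  · simp only [ch_v, ch_c, ov, oc, co_false]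
    push_cast
    rcases h1 with h1 | h1 <;> linarith [h1.2]

theorem mem5 (h : P.Pos) {x : ℝ} (h1 : P.oW + 4 < x) (h2 : x < 2 * P.oW - 10) :
    (x, 3 * (P.oY : ℝ) + 37) ∈ P.ch.face 5 := by
  refine memf h (e := 4) (by omega) (mem_rect (i := 8) (by omega) ?_ ?_ ?_ ?_) ?_ ?_ <;>
    simp only [ol, or, ob, ot, ov, oc, co_true, co_false, Nat.reduceAdd] <;> push_cast <;> linarith

theorem mem7 (h : P.Pos) {x : ℝ} (h1 : 2 * P.oW - 2 < x) (h2 : x < 2 * P.oW + 18) :
    (x, 3 * (P.oY : ℝ) + 41) ∈ P.ch.face 7 := by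
  refine memf h (e := 6) (by omega) (mem_rect (i := 11) (by omega) ?_ ?_ ?_ ?_) ?_ ?_ <;>
    simp only [ol, or, ob, ot, ov, oc, co_true, co_false, Nat.reduceAdd, lev_zero] <;>
    push_cast <;> linarith

theorem mem8 (h : P.Pos) {x y : ℝ} (h1 : 2 * P.oW + 6 < x) (h2 : x < 2 * P.oW + 18)
    (h3 : 3 * P.oY + 46 < y) (h4 : y < 3 * P.oY + 67) : (x, y) ∈ P.ch.face 8 := by
  have := P.lev_one_ge
  refine memf h (e := 7) (by omega) (mem_rect (i := 12) (by omega) ?_ ?_ ?_ ?_) ?_ ?_ <;>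
    simp only [ol, or, ob, ot, ov, oc, co_false, Nat.reduceAdd, lev_zero] <;>
    push_cast <;> linarith

theorem pat1 (h : P.Pos) (K : P.ch.Con (fun e => e < P.ch.m) τ) : ¬ τ 6 < τ 5 := by
  intro h1
  have := P.oW_ge
  have := P.oY_ge
  refine K.viol (i := 5) (j := 7) (l := 5) (e := 6) (by omega) (by omega) (by simp)
    (fun e => e = 6) (fun e he => by interval_cases e <;> simp [h1]) (by omega) rfl
    (p := (2 * P.oW - 11, 3 * P.oY + 41)) (q := (2 * P.oW + 7, 3 * P.oY + 41))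
    (memf h (e := 4) (by omega) (mem_rect (i := 10) (by omega) ?_ ?_ ?_ ?_) ?_ ?_)
    (mem7 h (by linarith) (by linarith)) ?_ (-1) ?_ ?_
  iterate 6
    simp only [ol, or, ob, ot, ov, oc, co_true, co_false, Nat.reduceAdd]
    push_cast
    linarith
  · simp [Ch.ph, Ch.sl, Ch.og, ov, oc]
    ring
  · simp [Ch.ee, Ch.ax, Ch.sl, Ch.og, ov, oc]
    linarith
  · rintro k - rfl -
    simp [Ch.ee, Ch.ax, Ch.sl, Ch.og, ov, oc]
    linarith

theorem pat2 (h : P.Pos) (K : P.ch.Con (fun e => e < P.ch.m) τ) (h1 : τ 5 < τ 6) : ¬ τ 7 < τ 6 := by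
  intro h2
  have := P.oW_ge
  have := P.oY_ge
  refine K.viol (i := 5) (j := 8) (l := 6) (e := 5) (by omega) (by omega) (by simp)
    (fun e => e = 5 ∨ e = 7) (fun e he => by interval_cases e <;> simp [h1, h2]) (by omega)
    (Or.inl rfl) (p := (2 * P.oW - 26, 3 * P.oY + 37)) (q := (2 * P.oW + 10, 3 * P.oY + 55))
    (mem5 h (by linarith) (by linarith))
    (mem8 h (by linarith) (by linarith) (by linarith) (by linarith)) ?_ (-1) ?_ ?_
  · simp [Ch.ph, Ch.sl, Ch.og, ov, oc, lev_zero]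
    constructor <;> ring
  · simp [Ch.ee, Ch.ax, Ch.sl, Ch.og, ov, oc]
    linarith
  · rintro k - (rfl | rfl) - <;> simp [Ch.ee, Ch.ax, Ch.sl, Ch.og, ov, oc, lev_zero] <;> linarith

theorem pat3 (h : P.Pos) (K : P.ch.Con (fun e => e < P.ch.m) τ) (h1 : τ 0 < τ 2) : ¬ τ 1 < τ 2 := by
  intro h2
  have := P.oW_ge
  have := P.oY_ge
  refine K.viol (i := 0) (j := 3) (l := 2) (e := 0) (by omega) (by omega) (by simp)
    (fun e => e = 0 ∨ e = 1) (fun e he => by interval_cases e <;> simp [h1, h2]) (by omega)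
    (Or.inl rfl) (p := (-P.oW - 2, -3)) (q := (P.oW + 2, 2 * P.oY + 21))
    (mem0 h (Or.inl ⟨by linarith, by linarith⟩) (by linarith) (by linarith))
    (memf h (e := 2) (by omega) (mem_rect (i := 4) (by omega) ?_ ?_ ?_ ?_) ?_ ?_) ?_ 1 ?_ ?_
  iterate 6
    simp only [ol, or, ob, ot, ov, oc, co_true, co_false, Nat.reduceAdd]
    push_cast
    linarith
  · simp [Ch.ph, Ch.sl, Ch.og, ov, oc]
    constructor <;> ring
  · simp [Ch.ee, Ch.ax, Ch.sl, Ch.og, ov, oc]
  · rintro k - (rfl | rfl) - <;> simp [Ch.ee, Ch.ax, Ch.sl, Ch.og, ov, oc] <;> linarith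

theorem pat4 (h : P.Pos) (K : P.ch.Con (fun e => e < P.ch.m) τ) (h1 : τ 2 < τ 4) : ¬ τ 3 < τ 4 := by
  intro h2
  have := P.oW_ge
  have := P.oY_ge
  refine K.viol (i := 2) (j := 5) (l := 4) (e := 2) (by omega) (by omega) (by simp)
    (fun e => e = 2 ∨ e = 3) (fun e he => by interval_cases e <;> simp [h1, h2]) (by omega)
    (Or.inl rfl) (p := (P.oW - 5, P.oY + 21 / 2)) (q := (P.oW + 5, 3 * P.oY + 75 / 2))
    (memf h (e := 1) (by omega) (mem_rect (i := 2) (by omega) ?_ ?_ ?_ ?_) ?_ ?_)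
    (memf h (e := 4) (by omega) (mem_rect (i := 7) (by omega) ?_ ?_ ?_ ?_) ?_ ?_) ?_ (-1) ?_ ?_
  iterate 12
    simp only [ol, or, ob, ot, ov, oc, co_true, co_false, Nat.reduceAdd]
    push_cast
    linarith
  · simp [Ch.ph, Ch.sl, Ch.og, ov, oc]
    constructor <;> ring
  · simp [Ch.ee, Ch.ax, Ch.sl, Ch.og, ov, oc]
    linarith
  · rintro k - (rfl | rfl) -
    · simp [Ch.ee, Ch.ax, Ch.sl, Ch.og, ov, oc]
    · simp [Ch.ee, Ch.ax, Ch.sl, Ch.og, ov, oc]
      linarith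

theorem pat5 (h : P.Pos) (K : P.ch.Con (fun e => e < P.ch.m) τ) (h0 : τ 2 < τ 0 ∨ τ 2 < τ 1)
    (h1 : τ 0 < τ 3) : ¬ τ 1 < τ 3 := by
  intro h2
  have h3 : τ 2 < τ 3 := by omega
  have := P.oW_ge
  have := P.oY_ge
  refine K.viol (i := 0) (j := 4) (l := 3) (e := 0) (by omega) (by omega) (by simp)
    (fun e => e < 3) (fun e he => by interval_cases e <;> simp [h1, h2, h3]) (by omega)
    (by omega) (p := (3 - P.oW, -7)) (q := (P.oW + 3, 2 * P.oY + 25))
    (mem0 h (Or.inl ⟨by linarith, by linarith⟩) (by linarith) (by linarith))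
    (memf h (e := 3) (by omega) (mem_rect (i := 5) (by omega) ?_ ?_ ?_ ?_) ?_ ?_) ?_ 1 ?_ ?_
  iterate 6
    simp only [ol, or, ob, ot, ov, oc, co_false, Nat.reduceAdd]
    push_cast
    linarith
  · simp [Ch.ph, Ch.sl, Ch.og, ov, oc]
    constructor <;> ring
  · simp [Ch.ee, Ch.ax, Ch.sl, Ch.og, ov, oc]
    linarith
  · intro k _ hk hm
    have a0 := hm 0 (by omega) (by omega)
    have a1 := hm 1 (by omega) (by omega)
    interval_cases k
    iterate 2
      simp [Ch.ee, Ch.ax, Ch.sl, Ch.og, ov, oc]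
      linarith
    omega

theorem pat6 (h : P.Pos) (K : P.ch.Con (fun e => e < P.ch.m) τ) (h0 : τ 4 < τ 2 ∨ τ 4 < τ 3)
    (h1 : ∀ e < 7, e ≠ 1 → τ e < τ 1) : False := by
  have := P.oW_ge
  have := P.oY_ge
  refine K.viol (i := 0) (j := 7) (l := 1) (e := 0) (by omega) (by omega) (by simp)
    (fun e => e ≠ 1) (fun e he => ⟨fun a => ⟨by omega, h1 e he a⟩, fun a b => by
      rw [b] at a; omega⟩) (by omega)
    (by omega) (p := (-3, P.oY - 3)) (q := (2 * P.oW + 15, 3 * P.oY + 41))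
    (mem0 h (Or.inr ⟨by linarith, by linarith⟩) (by linarith) (by linarith))
    (mem7 h (by linarith) (by linarith)) ?_ 1 ?_ ?_
  · simp [Ch.ph, Ch.sl, Ch.og, ov, oc]
    constructor <;> ring
  · simp [Ch.ee, Ch.ax, Ch.sl, Ch.og, ov, oc]
  · intro k hk hk' hm
    have a0 := hm 2 (by omega) (by omega)
    have a1 := hm 3 (by omega) (by omega)
    interval_cases k
    all_goals first
      | omega
      | (simp [Ch.ee, Ch.ax, Ch.sl, Ch.og, ov, oc]; linarith)

theorem pat8 (h : P.Pos) (K : P.ch.Con (fun e => e < P.ch.m) τ) (h0 : τ 0 < τ 7)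
    (h1 : ∀ e < 7, e ≠ 0 → τ e < τ 0) : False := by
  have := P.oW_ge
  have := P.oY_ge
  refine K.viol (i := 0) (j := 8) (l := 7) (e := 0) (by omega) (by omega) (by simp)
    (fun e => e < 7) (fun e he => ⟨fun a => ⟨by omega, by
      rcases eq_or_ne e 0 with rfl | b
      · exact h0
      · exact (h1 e a b).trans h0⟩, fun a => lt_of_le_of_ne (by omega) fun b => by
      rw [b] at a; omega⟩) (by omega)
    (by omega) (p := (-3, P.oY - 12)) (q := (2 * P.oW + 9, 3 * P.oY + 50))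
    (mem0 h (Or.inr ⟨by linarith, by linarith⟩) (by linarith) (by linarith))
    (mem8 h (by linarith) (by linarith) (by linarith) (by linarith)) ?_ 1 ?_ ?_
  · simp [Ch.ph, Ch.sl, Ch.og, ov, oc]
    constructor <;> ring
  · simp [Ch.ee, Ch.ax, Ch.sl, Ch.og, ov, oc, lev_zero]
    linarith
  · intro k _ hk hm
    obtain rfl : k = 0 := by
      by_contra hc
      exact (h1 k hk hc).not_ge (hm 0 (by omega) (by omega))
    simp [Ch.ee, Ch.ax, Ch.sl, Ch.og, ov, oc]
    linarith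

theorem pat7 (h : P.Pos) (K : P.ch.Con (fun e => e < P.ch.m) τ) (h0 : ∃ e < 8, e ≠ 0 ∧ τ 1 < τ e)
    (h1 : ∀ e < 8, e ≠ 0 → τ e < τ 0) : False := by
  have := P.oW_ge
  have := P.oY_ge
  obtain ⟨e, e1, e2, e3⟩ := h0
  refine K.viol (i := 0) (j := 8) (l := 0) (e := 1) (by omega) (by omega) (by simp)
    (fun e => e ≠ 0) (fun e he => ⟨fun a => ⟨by omega, h1 e he a⟩, fun a b => by
      rw [b] at a; omega⟩) (by omega)
    (by omega) (p := (-3, P.oY + 7)) (q := (2 * P.oW + 9, 3 * P.oY + 65))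
    (mem0 h (Or.inr ⟨by linarith, by linarith⟩) (by linarith) (by linarith))
    (mem8 h (by linarith) (by linarith) (by linarith) (by linarith)) ?_ 1 ?_ ?_
  · simp [Ch.ph, Ch.sl, Ch.og, ov, oc, lev_zero]
    constructor <;> ring
  · simp [Ch.ee, Ch.ax, Ch.sl, Ch.og, ov, oc]
    norm_num
  · intro k hk hk' hm
    have a0 := hm e e1 e2
    interval_cases k
    all_goals first
      | omega
      | (simp [Ch.ee, Ch.ax, Ch.sl, Ch.og, ov, oc, lev_zero]; linarith)

theorem pat9 (h : P.Pos) (K : P.ch.Con (fun e => e < P.ch.m) τ) (h0 : τ 1 < τ 0)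
    (h1 : ∀ e < 8, 2 ≤ e → τ e < τ 1) : False := by
  have := P.oW_ge
  have := P.oY_ge
  refine K.viol (i := 0) (j := 8) (l := 1) (e := 2) (by omega) (by omega) (by simp)
    (fun e => 2 ≤ e) (fun e he => ⟨fun a => ⟨by omega, h1 e he a⟩, fun a => by
      by_contra b
      interval_cases e <;> omega⟩) (by omega)
    (by omega) (p := (-3, P.oY + 7)) (q := (2 * P.oW + 15, 3 * P.oY + 65))
    (mem0 h (Or.inr ⟨by linarith, by linarith⟩) (by linarith) (by linarith))
    (mem8 h (by linarith) (by linarith) (by linarith) (by linarith)) ?_ (-1) ?_ ?_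
  · simp [Ch.ph, Ch.sl, Ch.og, ov, oc, lev_zero]
    constructor <;> ring
  · simp [Ch.ee, Ch.ax, Ch.sl, Ch.og, ov, oc]
  · intro k hk hk' _
    interval_cases k <;> simp [Ch.ee, Ch.ax, Ch.sl, Ch.og, ov, oc, lev_zero] <;> linarith

theorem fixed (h : P.Pos) (hi : ∀ k < P.ch.m, ∀ l < P.ch.m, τ k = τ l → k = l)
    (K : P.ch.Con (fun e => e < P.ch.m) τ) : (∀ e < 6, τ e < τ 6) ∧ τ 6 < τ 7 ∧
      ∀ e, 2 ≤ e → e ≤ 4 → τ e < τ 0 ∨ τ e < τ 1 := by
  have ne : ∀ k l, k < l → l < 8 → τ k ≠ τ l := fun k l h1 h2 e => by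
    have := hi k (by rw [ch_m]; omega) l (by rw [ch_m]; omega) e
    omega
  have p1 : τ 5 < τ 6 := by
    have := pat1 h K
    have := ne 5 6
    omega
  have p2 : τ 6 < τ 7 := by
    have := pat2 h K p1
    have := ne 6 7
    omega
  have p3 : τ 2 < τ 0 ∨ τ 2 < τ 1 := by
    have := pat3 h K
    have := ne 0 2
    have := ne 1 2
    omega
  have p4 : τ 4 < τ 2 ∨ τ 4 < τ 3 := by
    have := pat4 h K
    have := ne 2 4
    have := ne 3 4
    omega
  have p5 : τ 3 < τ 0 ∨ τ 3 < τ 1 := by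
    have := pat5 h K p3
    have := ne 0 3
    have := ne 1 3
    omega
  have n01 := ne 0 1 (by omega) (by omega)
  have n06 := ne 0 6 (by omega) (by omega)
  have n16 := ne 1 6 (by omega) (by omega)
  have p6 : τ 1 < τ 0 ∨ τ 1 < τ 6 := by
    by_contra hc
    exact pat6 h K p4 fun e he he' => by interval_cases e <;> omega
  have p7 : τ 0 < τ 6 ∧ τ 1 < τ 6 := by
    by_contra hc
    have a1 : ∀ e < 7, e ≠ 0 → τ e < τ 0 := fun e he he' => by interval_cases e <;> omega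
    have a2 : τ 7 < τ 0 := by
      have := ne 0 7 (by omega) (by omega)
      have : ¬ τ 0 < τ 7 := fun a => pat8 h K a a1
      omega
    have a3 : ∀ e < 8, e ≠ 0 → τ e < τ 0 := fun e he he' =>
      (Nat.lt_succ_iff_lt_or_eq.1 he).elim (fun a => a1 e a he') fun a => a ▸ a2
    refine pat9 h K (a1 1 (by omega) (by omega)) fun e he he' => ?_
    have := ne 1 e he' he
    have : ¬ τ 1 < τ e := fun a => pat7 h K ⟨e, he, by omega, a⟩ a3
    omega
  exact ⟨fun e he => by interval_cases e <;> omega, p2, fun e h1 h2 => by interval_cases e <;> omega⟩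

end Par

end Pool.Agent.Lib.MP_3a3d34_lc
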