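import Pool.Agent.Lib.MP_3a3d34_lc.ChMain

/-!
The chain attached to an instance of the subset sum problem.
-/

set_option autoImplicit false

namespace Pool.Agent.Lib.MP_3a3d34_lc

open Set

theorem Ch.ax_step {C : Ch} (S : ℕ → Prop) {e e' : ℕ} (h : e < e') (hv : C.v e' = C.v e)
    (hn : ∀ x, e < x → x < e' → C.v x ≠ C.v e) :
    C.ax S e' = C.ax S e + C.sl S (C.v e) e' * (C.c e' - C.c e) := by
  obtain ⟨a1, a2⟩ := Ch.sl_flat (C := C) (S := S) (b := C.v e) (show e + 1 ≤ e' from h)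
    fun x h1 h2 h3 => absurd h3 (hn x h1 h2)
  rw [Ch.ax, Ch.ax, hv, a1, a2]
  by_cases h1 : C.v e = C.v e ∧ S e
  · rw [(Ch.sl_yes h1).1, (Ch.sl_yes h1).2]; ring
  · rw [(Ch.sl_no h1).1, (Ch.sl_no h1).2]; ring

namespace Par

variable (P : Par)

/-- The unit of the spacers. -/
def oC : ℕ := 3 * P.A + P.t + 4

/-- A bound for the pleated part. -/
def oP : ℕ := 2 ^ P.n * P.oC

/-- The height of the corridor. -/
def oY : ℤ := 80 * P.oP

/-- The width of the corridor. -/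
def oW : ℤ := 2 * P.n + 42

/-- The levels of the rod. -/
def lev (j : ℕ) : ℤ :=
  if j = 0 then 3 * P.oY + 46 else if j ≤ 2 * P.n then
    3 * P.oY + 54 + 16 * (P.oP - P.oC + (2 ^ ((j - 1) / 2) * P.oC : ℕ) +
      if j % 2 = 0 then (P.a ((j - 1) / 2) : ℤ) else 0)
  else 4 * P.oY + 22 + 32 * P.t + (j - (2 * P.n + 1) : ℕ) * (P.oY - 32)

/-- Left sides. -/
def ol : ℕ → ℤ
  | 0 => -P.oW - 4
  | 1 => -4
  | 2 => -4
  | 3 => P.oW - 4
  | 4 => P.oW - 4
  | 5 => P.oW + 2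
  | 6 => P.oW + 2
  | 7 => P.oW + 4
  | 8 => P.oW + 4
  | 9 => 2 * P.oW - 12
  | 10 => 2 * P.oW - 12
  | 11 => 2 * P.oW - 8
  | 12 => 2 * P.oW + 6
  | i + 13 => 2 * P.oW + 17 + ((i + 1) / 2 : ℕ)

/-- Right sides. -/
def or : ℕ → ℤ
  | 0 => -2
  | 1 => -2
  | 2 => P.oW - 2
  | 3 => P.oW - 2
  | 4 => P.oW + 4
  | 5 => P.oW + 4
  | 6 => P.oW + 6
  | 7 => P.oW + 6
  | 8 => 2 * P.oW - 10
  | 9 => 2 * P.oW - 10
  | 10 => 2 * P.oW - 2
  | 11 => 2 * P.oW + 18
  | 12 => 2 * P.oW + 18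
  | i + 13 => 2 * P.oW + 19 + (i / 2 : ℕ)

/-- Bottom sides. -/
def ob : ℕ → ℤ
  | 0 => -10
  | 1 => -10
  | 2 => P.oY + 9
  | 3 => P.oY + 9
  | 4 => 2 * P.oY + 20
  | 5 => 2 * P.oY + 20
  | 6 => 2 * P.oY + 24
  | 7 => 2 * P.oY + 24
  | 8 => 3 * P.oY + 36
  | 9 => 3 * P.oY + 36
  | 10 => 3 * P.oY + 40
  | 11 => 3 * P.oY + 40
  | 12 => 3 * P.oY + 40
  | i + 13 => P.lev (i / 2)

/-- Top sides. -/
def ot : ℕ → ℤ
  | 0 => 0
  | 1 => P.oY + 11
  | 2 => P.oY + 11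
  | 3 => 2 * P.oY + 22
  | 4 => 2 * P.oY + 22
  | 5 => 2 * P.oY + 26
  | 6 => 2 * P.oY + 26
  | 7 => 3 * P.oY + 38
  | 8 => 3 * P.oY + 38
  | 9 => 3 * P.oY + 42
  | 10 => 3 * P.oY + 42
  | 11 => 3 * P.oY + 42
  | 12 => 3 * P.oY + 67
  | i + 13 => P.lev ((i + 3) / 2)

/-- Positions of the creases. -/
def oc : ℕ → ℤ
  | 0 => P.oY + 9
  | 1 => 0
  | 2 => P.oW
  | 3 => 2 * P.oY + 24
  | 4 => 3 * P.oY + 34
  | 5 => 2 * P.oW - 8
  | 6 => 2 * P.oW - 2
  | e + 7 => P.lev e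

/-- The rectangles cut by the creases. -/
def ok : ℕ → ℕ
  | 0 => 1
  | 1 => 2
  | 2 => 4
  | 3 => 5
  | 4 => 7
  | 5 => 10
  | 6 => 11
  | 7 => 12
  | e + 8 => 2 * e + 1 + 13

/-- The vertical creases. -/
def ov : ℕ → Bool
  | 1 => true
  | 2 => true
  | 5 => true
  | 6 => true
  | _ => false

/-- The chain. -/
def ch : Ch where
  N := 4 * P.n + 2 + 13
  m := 2 * P.n + 9
  lo b i := if b then P.ol i else P.ob i
  hi b i := if b then P.or i else P.ot i
  v := ov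
  val := ov
  c := P.oc
  κ := ok

@[simp] theorem ch_N : P.ch.N = 4 * P.n + 2 + 13 := rfl
@[simp] theorem ch_m : P.ch.m = 2 * P.n + 9 := rfl
@[simp] theorem ch_l (i : ℕ) : P.ch.lo true i = P.ol i := rfl
@[simp] theorem ch_b (i : ℕ) : P.ch.lo false i = P.ob i := rfl
@[simp] theorem ch_r (i : ℕ) : P.ch.hi true i = P.or i := rfl
@[simp] theorem ch_t (i : ℕ) : P.ch.hi false i = P.ot i := rfl
@[simp] theorem ch_v : P.ch.v = ov := rfl
@[simp] theorem ch_val : P.ch.val = ov := rfl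
@[simp] theorem ch_c : P.ch.c = P.oc := rfl
@[simp] theorem ch_κ : P.ch.κ = ok := rfl

theorem ov_big {e : ℕ} (h : 7 ≤ e) : ov e = false := by
  obtain ⟨e, rfl⟩ := Nat.exists_eq_add_of_le' h
  rfl

theorem oP_ge : P.oC ≤ P.oP := Nat.le_mul_of_pos_left _ (by positivity)

theorem oP_four : (4 : ℤ) ≤ P.oP := by
  have := P.oP_ge
  unfold oC at this
  omega

theorem lev_zero : P.lev 0 = 3 * P.oY + 46 := rfl

theorem lev_odd {i : ℕ} (h : i < P.n) :
    P.lev (2 * i + 1) = 3 * P.oY + 54 + 16 * (P.oP - P.oC + (2 ^ i * P.oC : ℕ)) := by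
  rw [lev, if_neg (by omega), if_pos (by omega), if_neg (by omega),
    show (2 * i + 1 - 1) / 2 = i by omega, add_zero]

theorem lev_even {i : ℕ} (h : i < P.n) : P.lev (2 * i + 2) = P.lev (2 * i + 1) + 16 * P.a i := by
  rw [P.lev_odd h, lev, if_neg (by omega), if_pos (by omega), if_pos (by omega),
    show (2 * i + 2 - 1) / 2 = i by omega]
  ring

theorem lev_r : P.lev (2 * P.n + 1) = 4 * P.oY + 22 + 32 * P.t := by
  rw [lev, if_neg (by omega), if_neg (by omega)]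
  simp

theorem lev_e : P.lev (2 * P.n + 2) = 5 * P.oY - 10 + 32 * P.t := by
  rw [lev, if_neg (by omega), if_neg (by omega), show 2 * P.n + 2 - (2 * P.n + 1) = 1 by omega]
  push_cast
  ring

theorem pow_le {i : ℕ} (h : i < P.n) : P.oC ≤ 2 ^ i * P.oC ∧ 2 * (2 ^ i * P.oC) ≤ P.oP := by
  refine ⟨Nat.le_mul_of_pos_left _ (by positivity), ?_⟩
  rw [← mul_assoc, ← pow_succ']
  exact Nat.mul_le_mul_right _ (Nat.pow_le_pow_right (by norm_num) h)

theorem lev_one : ∃ x : ℕ, P.lev 1 = P.lev 0 + 16 * x + 8 ∧ P.oP ≤ x ∧ (0 < P.n → x = P.oP) := by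
  have := P.oP_four
  rcases Nat.eq_zero_or_pos P.n with h | h
  · have e := P.lev_r
    rw [h] at e
    refine ⟨5 * P.oP - 2 + 2 * P.t, ?_, by omega, by omega⟩
    rw [e, lev_zero, oY]
    omega
  · refine ⟨P.oP, ?_, le_rfl, fun _ => rfl⟩
    have e := P.lev_odd h
    rw [e, lev_zero]
    push_cast
    ring

theorem lev_gap {i : ℕ} (h : i < P.n) : ∃ x : ℕ, P.lev (2 * i + 3) = P.lev (2 * i + 2) + 16 * x ∧
    P.t + P.A < x ∧ P.lev (2 * i + 2) - P.lev 1 + 16 * P.A < 16 * x := by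
  obtain ⟨a1, a2⟩ := P.pow_le h
  have a3 := P.a_le h
  have a4 : P.oC = 3 * P.A + P.t + 4 := rfl
  have a5 := P.lev_odd (show 0 < P.n by omega)
  rw [P.lev_even h, P.lev_odd h]
  simp only [mul_zero, zero_add, pow_zero, one_mul] at a5
  rw [a5]
  rcases (Nat.succ_le_of_lt h).lt_or_eq with h1 | h1
  · have a6 := P.lev_odd h1
    rw [pow_succ', mul_assoc] at a6
    rw [show 2 * i + 3 = 2 * (i + 1) + 1 by ring, a6]
    generalize 2 ^ i * P.oC = X at a1 a2 ⊢
    exact ⟨X - P.a i, by omega, by omega, by omega⟩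
  · rw [show 2 * i + 3 = 2 * P.n + 1 by omega, lev_r, oY]
    generalize 2 ^ i * P.oC = X at a1 a2 ⊢
    exact ⟨4 * P.oP + P.oC + 2 * P.t - 2 - X - P.a i, by omega, by omega, by omega⟩

theorem lev_top {j : ℕ} (h : j ≤ 2 * P.n) : P.lev j ≤ 3 * P.oY + 54 + 32 * P.oP := by
  rcases Nat.eq_zero_or_pos j with rfl | hj
  · rw [lev_zero]; omega
  obtain ⟨i, rfl | rfl⟩ : ∃ i, j = 2 * i + 1 ∨ j = 2 * i + 2 := ⟨(j - 1) / 2, by omega⟩
  · have := P.pow_le (show i < P.n by omega)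
    rw [P.lev_odd (by omega)]
    omega
  · have := P.pow_le (show i < P.n by omega)
    have := P.a_le (show i < P.n by omega)
    have a4 : P.oC = 3 * P.A + P.t + 4 := rfl
    rw [P.lev_even (by omega), P.lev_odd (by omega)]
    omega

variable {P}

theorem lev_step (h : P.Pos) {j : ℕ} (hj : j ≤ 2 * P.n + 1) : P.lev j + 16 ≤ P.lev (j + 1) := by
  have := P.oP_four
  rcases Nat.eq_zero_or_pos j with rfl | h0
  · obtain ⟨x, h1, h2, -⟩ := P.lev_one
    rw [zero_add]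
    omega
  rcases hj.lt_or_eq with h1 | rfl
  · obtain ⟨i, rfl | rfl⟩ : ∃ i, j = 2 * i + 1 ∨ j = 2 * i + 2 := ⟨(j - 1) / 2, by omega⟩
    · have := h i
      rw [P.lev_even (by omega)]
      omega
    · obtain ⟨x, h2, h3, -⟩ := P.lev_gap (show i < P.n by omega)
      rw [h2]
      omega
  · rw [lev_r, lev_e, oY]
    omega

theorem lev_mono (h : P.Pos) {i j : ℕ} (hij : i ≤ j) (hj : j ≤ 2 * P.n + 2) : P.lev i ≤ P.lev j := by
  induction j, hij using Nat.le_induction with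
  | base => exact le_rfl
  | succ j _ ih =>
    have := lev_step h (show j ≤ 2 * P.n + 1 by omega)
    have := ih (by omega)
    omega

theorem lev_lt (h : P.Pos) {i j : ℕ} (hij : i < j) (hj : j ≤ 2 * P.n + 2) : P.lev i < P.lev j := by
  have := lev_step h (show i ≤ 2 * P.n + 1 by omega)
  have := lev_mono h (show i + 1 ≤ j from hij) hj
  omega

theorem good (h : P.Pos) : P.ch.Good := by
  have hP := P.oP_four
  have hY : P.oY = 80 * P.oP := rfl
  have hW : P.oW = 2 * P.n + 42 := rfl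
  have l0 := P.lev_zero
  obtain ⟨x, l1, l2, -⟩ := P.lev_one
  have key : ∀ i < P.ch.N, ∀ b, P.ch.lo b i ≤ P.ch.lo b (i + 1) ∧ P.ch.hi b i ≤ P.ch.hi b (i + 1) ∧
      P.ch.lo b (i + 1) < P.ch.hi b i := by
    intro i hi
    rw [Bool.forall_bool]
    simp only [ch_l, ch_r, ch_b, ch_t, ch_N] at hi ⊢
    rcases lt_or_ge i 13 with h1 | h1
    · interval_cases i <;> simp only [ol, or, ob, ot, Nat.reduceAdd, Nat.reduceDiv] <;> omega
    · obtain ⟨i, rfl⟩ := Nat.exists_eq_add_of_le' h1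
      rw [show i + 13 + 1 = i + 1 + 13 by ring]
      simp only [ol, or, ob, ot]
      exact ⟨⟨lev_mono h (by omega) (by omega), lev_mono h (by omega) (by omega),
        lev_lt h (by omega) (by omega)⟩, by omega, by omega, by omega⟩
  refine ⟨by simp, fun b i hi => (key i hi b).1, fun b i hi => (key i hi b).2.1,
    fun b i hi => (key i hi b).2.2, fun e he => ?_, fun e he => ?_, fun e he => ?_, fun e he => ?_⟩
  all_goals
    simp only [ch_N, ch_m, ch_κ, ch_v, ch_c] at he ⊢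
    rcases lt_or_ge e 8 with h1 | h1
  · interval_cases e <;> simp only [ok] <;> omega
  · obtain ⟨e, rfl⟩ := Nat.exists_eq_add_of_le' h1
    simp only [ok]
    omega
  · interval_cases e <;> simp only [ok] <;> omega
  · obtain ⟨e, rfl⟩ := Nat.exists_eq_add_of_le' h1
    rw [show e + 8 + 1 = e + 1 + 8 by ring]
    simp only [ok]
    omega
  · interval_cases e <;> simp only [ok, ov, oc, ch_r, ch_t, or, ot, Nat.reduceSub] <;> omega
  · obtain ⟨e, rfl⟩ := Nat.exists_eq_add_of_le' h1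
    rw [ov_big (by omega), ok, show 2 * e + 1 + 13 - 1 = 2 * e + 13 by omega,
      show e + 8 = e + 1 + 7 by ring, ch_t, ot, oc]
    exact lev_mono h (by omega) (by omega)
  · interval_cases e <;> simp only [ok, ov, oc, ch_l, ch_b, ol, ob, Nat.reduceAdd, Nat.reduceDiv] <;>
      omega
  · obtain ⟨e, rfl⟩ := Nat.exists_eq_add_of_le' h1
    rw [ov_big (by omega), ok, show 2 * e + 1 + 13 + 1 = 2 * e + 2 + 13 by omega,
      show e + 8 = e + 1 + 7 by ring, ch_b, ob, oc]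
    exact lev_mono h (by omega) (by omega)

variable (P)

theorem ax_rod (S : ℕ → Prop) (j : ℕ) : P.ch.ax S (j + 1 + 7) =
    P.ch.ax S (j + 7) + P.ch.sl S false (j + 8) * (P.lev (j + 1) - P.lev j) := by
  have := Ch.ax_step (C := P.ch) S (show j + 7 < j + 1 + 7 by omega)
    ((ov_big (show 7 ≤ j + 1 + 7 by omega)).trans (ov_big (show 7 ≤ j + 7 by omega)).symm)
    fun x h1 h2 => by omega
  rwa [ch_v, ov_big (by omega)] at this

variable {P}

theorem ax_bd (h : P.Pos) (S : ℕ → Prop) {i j : ℕ} (hij : i ≤ j) (hj : j ≤ 2 * P.n + 2) :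
    P.ch.ax S (j + 7) - P.ch.ax S (i + 7) ≤ P.lev j - P.lev i ∧
      P.ch.ax S (i + 7) - P.ch.ax S (j + 7) ≤ P.lev j - P.lev i := by
  induction j, hij using Nat.le_induction with
  | base => simp
  | succ j _ ih =>
    have := lev_step h (show j ≤ 2 * P.n + 1 by omega)
    have := ih (by omega)
    rw [ax_rod]
    rcases Ch.sl_pm (C := P.ch) S false (j + 8) with e | e <;> rw [e] <;> omega

theorem ax_mod (S : ℕ → Prop) {j : ℕ} (h1 : 1 ≤ j) (hj : j ≤ 2 * P.n + 1) :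
    ∃ M : ℤ, P.ch.ax S (j + 7) = P.ch.ax S 8 + 16 * M := by
  induction j, h1 using Nat.le_induction with
  | base => exact ⟨0, by simp⟩
  | succ j h1 ih =>
    obtain ⟨M, hM⟩ := ih (by omega)
    obtain ⟨x, hx⟩ : ∃ x : ℕ, P.lev (j + 1) = P.lev j + 16 * x := by
      obtain ⟨i, rfl | rfl⟩ : ∃ i, j = 2 * i + 1 ∨ j = 2 * i + 2 := ⟨(j - 1) / 2, by omega⟩
      · exact ⟨_, P.lev_even (by omega)⟩
      · exact (P.lev_gap (show i < P.n by omega)).imp fun _ a => a.1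
    exact ⟨M + P.ch.sl S false (j + 8) * x, by rw [ax_rod, hM, hx]; ring⟩

theorem ax_far (h : P.Pos) (S : ℕ → Prop) {i j : ℕ} (hi : i < P.n) (h1 : 1 ≤ j) (hj : j ≤ 2 * i + 2) :
    P.ch.ax S (j + 7) + 16 * P.A < P.ch.ax S (2 * i + 3 + 7) ∨
      P.ch.ax S (2 * i + 3 + 7) + 16 * P.A < P.ch.ax S (j + 7) := by
  obtain ⟨x, a1, -, a2⟩ := P.lev_gap hi
  have a3 := ax_bd h S hj (by omega)
  have a4 := lev_mono h h1 (by omega)
  rw [P.ax_rod S (2 * i + 2), a1]
  rcases Ch.sl_pm (C := P.ch) S false (2 * i + 2 + 8) with e | e <;> rw [e] <;> omega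

theorem nonCol (h : P.Pos) : P.ch.NonCol := by
  intro S k l hkl hl hv
  simp only [ch_m, ch_v] at hl hv
  have hY : P.oY = 80 * P.oP := rfl
  have hW : P.oW = 2 * P.n + 42 := rfl
  rcases lt_or_ge k 8 with hk | hk
  · have l0 := P.lev_zero
    obtain ⟨x, l1, -⟩ := P.lev_one
    have a2 := Ch.ax_step (C := P.ch) S (show 1 < 2 by omega) rfl fun x h1 h2 => by omega
    have a5 := Ch.ax_step (C := P.ch) S (show 2 < 5 by omega) rfl fun x h1 h2 => by
      interval_cases x <;> simp [ov]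
    have a6 := Ch.ax_step (C := P.ch) S (show 5 < 6 by omega) rfl fun x h1 h2 => by omega
    have a3 := Ch.ax_step (C := P.ch) S (show 0 < 3 by omega) rfl fun x h1 h2 => by
      interval_cases x <;> simp [ov]
    have a4 := Ch.ax_step (C := P.ch) S (show 3 < 4 by omega) rfl fun x h1 h2 => by omega
    have a7 := Ch.ax_step (C := P.ch) S (show 4 < 7 by omega) rfl fun x h1 h2 => by
      interval_cases x <;> simp [ov]
    have a8 := P.ax_rod S 0
    simp only [ch_v, ch_c, ov, oc, zero_add, Nat.reduceAdd] at a2 a3 a4 a5 a6 a7 a8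
    cases e : ov k
    · have b : P.ch.ax S 3 - P.ch.ax S 0 = P.oY + 15 ∨ P.ch.ax S 3 - P.ch.ax S 0 = -(P.oY + 15) := by
        rcases Ch.sl_pm (C := P.ch) S false 3 with e | e <;> rw [e] at a3 <;> omega
      have c : P.ch.ax S 4 - P.ch.ax S 3 = P.oY + 10 ∨ P.ch.ax S 4 - P.ch.ax S 3 = -(P.oY + 10) := by
        rcases Ch.sl_pm (C := P.ch) S false 4 with e | e <;> rw [e] at a4 <;> omega
      have d : P.ch.ax S 7 - P.ch.ax S 4 = 12 ∨ P.ch.ax S 7 - P.ch.ax S 4 = -12 := by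
        rcases Ch.sl_pm (C := P.ch) S false 7 with e | e <;> rw [e] at a7 <;> omega
      have f : P.ch.ax S 8 - P.ch.ax S 7 = 16 * x + 8 ∨ P.ch.ax S 8 - P.ch.ax S 7 = -(16 * x + 8) := by
        rcases Ch.sl_pm (C := P.ch) S false 8 with e | e <;> rw [e] at a8 <;> omega
      clear a2 a3 a4 a5 a6 a7 a8
      rcases lt_or_ge l 8 with h1 | h1
      · interval_cases l <;> interval_cases k <;> simp only [ov, reduceCtorEq] at hv e <;> omega
      · obtain ⟨j, rfl⟩ : ∃ j, l = j + 7 := ⟨l - 7, by omega⟩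
        obtain ⟨M, hM⟩ := ax_mod (P := P) S (show 1 ≤ j by omega) (by omega)
        interval_cases k <;> simp only [ov, reduceCtorEq] at e <;> omega
    · have b : P.ch.ax S 2 - P.ch.ax S 1 = P.oW ∨ P.ch.ax S 2 - P.ch.ax S 1 = -P.oW := by
        rcases Ch.sl_pm (C := P.ch) S true 2 with e | e <;> rw [e] at a2 <;> omega
      have c : P.ch.ax S 5 - P.ch.ax S 2 = P.oW - 8 ∨ P.ch.ax S 5 - P.ch.ax S 2 = -(P.oW - 8) := by
        rcases Ch.sl_pm (C := P.ch) S true 5 with e | e <;> rw [e] at a5 <;> omega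
      have d : P.ch.ax S 6 - P.ch.ax S 5 = 6 ∨ P.ch.ax S 6 - P.ch.ax S 5 = -6 := by
        rcases Ch.sl_pm (C := P.ch) S true 6 with e | e <;> rw [e] at a6 <;> omega
      clear a2 a3 a4 a5 a6 a7 a8
      have h1 : l < 7 := not_le.1 fun h1 => by rw [e, ov_big h1] at hv; cases hv
      interval_cases l <;> interval_cases k <;> simp only [ov, reduceCtorEq] at hv e <;> omega
  · obtain ⟨j, rfl⟩ : ∃ j, k = j + 7 := ⟨k - 7, by omega⟩
    obtain ⟨i, rfl | rfl⟩ : ∃ i, l = 2 * i + 2 + 7 ∨ l = 2 * i + 3 + 7 := ⟨(l - 9) / 2, by omega⟩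
    · have a1 := P.ax_rod S (2 * i + 1)
      have a2 := h i
      have a3 := P.a_le (show i < P.n by omega)
      rw [show 2 * i + 1 + 1 = 2 * i + 2 from rfl, P.lev_even (by omega)] at a1
      have a4 : P.ch.ax S (2 * i + 2 + 7) - P.ch.ax S (2 * i + 1 + 7) = 16 * P.a i ∨
          P.ch.ax S (2 * i + 2 + 7) - P.ch.ax S (2 * i + 1 + 7) = -(16 * P.a i) := by
        rcases Ch.sl_pm (C := P.ch) S false (2 * i + 1 + 8) with e | e <;> rw [e] at a1 <;> omega
      rcases (show j ≤ 2 * i + 1 by omega).lt_or_eq with h1 | rfl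
      · obtain ⟨i, rfl⟩ : ∃ i', i = i' + 1 := ⟨i - 1, by omega⟩
        have := ax_far h S (show i < P.n by omega) (show 1 ≤ j by omega) (by omega)
        rw [show 2 * i + 3 = 2 * (i + 1) + 1 by ring] at this
        omega
      · omega
    · have := ax_far h S (show i < P.n by omega) (show 1 ≤ j by omega) (by omega)
      omega

end Par

end Pool.Agent.Lib.MP_3a3d34_lc
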