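import Pool.Agent.Lib.MP_3a3d34_lc.OneFix

/-!
If the chain can be folded, then the subset sum instance is solvable.
-/

set_option autoImplicit false

namespace Pool.Agent.Lib.MP_3a3d34_lc

open Set

namespace Par

variable {P : Par} {τ : ℕ → ℕ} {T : ℕ → Prop}

theorem sl_x (T : ℕ → Prop) {k : ℕ} (hk : 7 ≤ k) :
    P.ch.sl T true k = P.ch.sl T true 7 ∧ P.ch.og T true k = P.ch.og T true 7 :=
  Ch.sl_flat hk fun e h1 _ h2 => by rw [ch_v, ov_big h1] at h2; cases h2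

theorem og_rod (T : ℕ → Prop) (j : ℕ) :
    P.ch.og T false (j + 8) = P.ch.ax T (j + 7) - P.ch.sl T false (j + 8) * P.lev j := by
  rw [Ch.ax, ch_v, ov_big (by omega), ch_c, oc]
  by_cases h1 : P.ch.v (j + 7) = false ∧ T (j + 7)
  · rw [(Ch.sl_yes h1).1, (Ch.sl_yes h1).2, ch_c, oc]; ring
  · rw [(Ch.sl_no h1).1, (Ch.sl_no h1).2]; ring

theorem rod_pt (h : P.Pos) (T : ℕ → Prop) {j : ℕ} (hj : j ≤ 2 * P.n + 1) {y : ℤ}
    (h1 : 0 < P.ch.sl T false (j + 8) * (y - P.ch.ax T (j + 7)))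
    (h2 : P.ch.sl T false (j + 8) * (y - P.ch.ax T (j + 7)) < P.lev (j + 1) - P.lev j) :
    ∃ q ∈ P.ch.face (j + 8), P.ch.ph T (j + 8) q =
      (P.ch.sl T true 7 * (2 * P.oW + 18 + j : ℝ) + P.ch.og T true 7, (y : ℝ)) := by
  have h1' : (0 : ℝ) < P.ch.sl T false (j + 8) * (y - P.ch.ax T (j + 7)) := by exact_mod_cast h1
  have h2' : (P.ch.sl T false (j + 8) * (y - P.ch.ax T (j + 7)) : ℝ) < P.lev (j + 1) - P.lev j := by
    exact_mod_cast h2
  refine ⟨(2 * P.oW + 18 + j, P.lev j + P.ch.sl T false (j + 8) * (y - P.ch.ax T (j + 7))),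
    (good h).face_intro (by rw [ch_m]; omega) ⟨2 * j + 13, by rw [ch_N]; omega, fun b => ?_⟩
      (fun e he => ?_) fun _ => ?_, ?_⟩
  · cases b
    · simp only [ch_b, ch_t, ob, ot, co_false, show 2 * j / 2 = j by omega,
        show (2 * j + 3) / 2 = j + 1 by omega]
      constructor <;> linarith
    · simp only [ch_l, ch_r, ol, or, co_true, show 2 * j / 2 = j by omega,
        show (2 * j + 1) / 2 = j by omega]
      push_cast
      constructor <;> linarith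
  · obtain rfl : e = j + 7 := by omega
    rw [ch_v, ov_big (by omega), ch_c, oc, co_false]
    linarith
  · rw [ch_v, ov_big (by omega), ch_c, show j + 8 = j + 1 + 7 from rfl, oc, co_false]
    linarith
  · rw [Ch.ph, (sl_x T (show 7 ≤ j + 8 by omega)).1, (sl_x T (show 7 ≤ j + 8 by omega)).2, og_rod]
    refine Prod.ext rfl ?_
    push_cast
    rcases Ch.sl_pm' (C := P.ch) T false (j + 8) with e | e <;> rw [e] <;> ring

theorem rod_sum (T : ℕ → Prop) : ∀ i ≤ P.n, ∃ s ⊆ Finset.range i, ∃ x : ℕ, (x = 0 ∨ P.t < x) ∧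
    P.ch.sl T false 8 * (P.ch.ax T (2 * i + 1 + 7) - P.ch.ax T 7) =
      P.lev (2 * i + 1) - P.lev 0 - 32 * ((∑ j ∈ s, P.a j : ℕ) + x) := by
  intro i
  induction i with
  | zero =>
    refine fun _ => ⟨∅, by simp, 0, Or.inl rfl, ?_⟩
    rw [mul_zero, P.ax_rod T 0]
    rcases Ch.sl_pm (C := P.ch) T false 8 with e | e <;> simp [e]
  | succ i ih =>
    intro hi
    obtain ⟨s, hs, x, h1, h2⟩ := ih (by omega)
    obtain ⟨y, a1, a2, -⟩ := P.lev_gap hi
    have a3 := P.lev_even hi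
    have b1 := P.ax_rod T (2 * i + 1)
    have b2 := P.ax_rod T (2 * i + 2)
    have hn : i ∉ s := fun hh => by simpa using hs hh
    have hs1 : s ⊆ Finset.range (i + 1) := hs.trans (Finset.range_mono (by omega))
    have hs2 : insert i s ⊆ Finset.range (i + 1) := Finset.insert_subset (by simp) hs1
    rw [show 2 * (i + 1) + 1 = 2 * i + 2 + 1 from rfl, b2, show 2 * i + 2 + 1 = 2 * i + 3 from rfl,
      a1]
    rw [show 2 * i + 1 + 1 = 2 * i + 2 from rfl] at b1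
    rw [b1, a3]
    have c : ∀ k, P.ch.sl T false k = P.ch.sl T false 8 ∨ P.ch.sl T false k = -P.ch.sl T false 8 :=
      fun k => by
        rcases Ch.sl_pm (C := P.ch) T false 8 with e | e <;>
          rcases Ch.sl_pm (C := P.ch) T false k with e' | e' <;> simp [e, e']
    rcases c (2 * i + 1 + 8) with e1 | e1 <;> rcases c (2 * i + 2 + 8) with e2 | e2 <;>
      rw [e1, e2]
    · refine ⟨s, hs1, x, h1, ?_⟩
      rcases Ch.sl_pm (C := P.ch) T false 8 with e | e <;> rw [e] at h2 ⊢ <;> linarith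
    · refine ⟨s, hs1, x + y, by omega, ?_⟩
      push_cast at h2 ⊢
      rcases Ch.sl_pm (C := P.ch) T false 8 with e | e <;> rw [e] at h2 ⊢ <;> linarith
    · refine ⟨insert i s, hs2, x, h1, ?_⟩
      rw [Finset.sum_insert hn]
      push_cast at h2 ⊢
      rcases Ch.sl_pm (C := P.ch) T false 8 with e | e <;> rw [e] at h2 ⊢ <;> linarith
    · refine ⟨insert i s, hs2, x + y, by omega, ?_⟩
      rw [Finset.sum_insert hn]
      push_cast at h2 ⊢
      rcases Ch.sl_pm (C := P.ch) T false 8 with e | e <;> rw [e] at h2 ⊢ <;> linarith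

theorem rod_lo (h : P.Pos) (h1 : P.ch.sl T false 8 = 1) (h2 : P.ch.ax T 7 = P.lev 0) {j : ℕ}
    (hj : j ≤ 2 * P.n) : P.lev 0 ≤ P.ch.ax T (j + 7) ∧ P.ch.ax T (j + 7) ≤ P.lev j := by
  refine ⟨?_, by have := (ax_bd h T (Nat.zero_le j) (by omega)).1; rw [zero_add] at this; omega⟩
  rcases Nat.eq_zero_or_pos j with rfl | h0
  · exact h2.ge
  obtain ⟨x, a1, -, a2⟩ := P.lev_one
  have a3 := (ax_bd h T h0 (by omega)).2
  have a4 := P.ax_rod T 0
  have a5 := P.lev_top hj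
  have a6 := P.lev_zero
  have a7 := a2 (by omega)
  simp only [zero_add, h1, Nat.succ_eq_add_one] at a3 a4
  omega

theorem frame5 (h0 : ∀ e < 5, ¬ T e) (h5 : T 5) (h6 : ¬ T 6) (h7 : ¬ T 7) :
    P.ch.sl T true 7 = -1 ∧ P.ch.og T true 7 = 4 * P.oW - 16 ∧ P.ch.sl T false 8 = 1 ∧
      P.ch.ax T 7 = P.lev 0 ∧ ∀ x y : ℝ, P.ch.ee T 5 (x, y) = x - (2 * P.oW - 8) ∧
        P.ch.ee T 6 (x, y) = x - (2 * P.oW - 14) := by
  simp [Ch.ee, Ch.ax, Ch.sl, Ch.og, ov, oc, h0, h5, h6, h7]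
  constructor <;> ring

theorem frame0 (h0 : ∀ e < 6, T e) (h6 : ¬ T 6) :
    P.ch.sl T true 7 = -1 ∧ P.ch.og T true 7 = 2 * P.oW - 16 ∧ P.ch.sl T false 5 = -1 ∧
      P.ch.og T false 5 = 4 * P.oY + 38 ∧ ∀ x y : ℝ, P.ch.ee T 0 (x, y) = P.oY + 9 - y ∧
        P.ch.ee T 1 (x, y) = -x ∧ P.ch.ee T 5 (x, y) = -x - 8 ∧ P.ch.ee T 6 (x, y) = -x - 14 := by
  simp [Ch.ee, Ch.ax, Ch.sl, Ch.og, ov, oc, h0, h6]
  refine ⟨by ring, by ring, fun x => ⟨by ring, by ring⟩⟩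

theorem hit5 (h : P.Pos) (K : P.ch.Con (fun e => e < P.ch.m) τ) (h67 : τ 6 < τ 7) {j l : ℕ}
    (hj : j ≤ 2 * P.n + 1) (hl : l = 6 ∨ 8 ≤ l) (hlj : l < j + 8) (h1 : τ 5 < τ l) (h2 : τ l ≤ τ 6)
    (hT : ∀ e < j + 8, T e ↔ 5 ≤ e ∧ τ e < τ l)
    (hax : ∀ i ≤ j, 3 * P.oY + 37 < P.ch.ax T (i + 7))
    (d1 : 0 < P.ch.sl T false (j + 8) * (3 * P.oY + 37 - P.ch.ax T (j + 7)))
    (d2 : P.ch.sl T false (j + 8) * (3 * P.oY + 37 - P.ch.ax T (j + 7)) <
      P.lev (j + 1) - P.lev j) : False := by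
  have t5 : T 5 := (hT 5 (by omega)).2 ⟨le_rfl, h1⟩
  have t6 : ¬ T 6 := fun a => by have := (hT 6 (by omega)).1 a; omega
  have t7 : ¬ T 7 := fun a => by have := (hT 7 (by omega)).1 a; omega
  obtain ⟨f1, f2, -, -, f3⟩ := frame5 (P := P)
    (fun e he a => by have := (hT e (by omega)).1 a; omega) t5 t6 t7
  obtain ⟨q, hq, e⟩ := rod_pt h T hj d1 d2
  rw [f1, f2] at e
  push_cast at e
  have hW : (P.oW : ℝ) = 2 * P.n + 42 := by simp [oW]
  have hj' : (j : ℝ) ≤ 2 * P.n + 1 := by exact_mod_cast hj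
  have j0 : (0 : ℝ) ≤ j := Nat.cast_nonneg j
  have key : ∀ k, k = 5 ∨ k = 6 ∨ 8 ≤ k → k < j + 8 → 0 < -1 * P.ch.ee T k
      (-1 * (2 * P.oW + 18 + j : ℝ) + (4 * P.oW - 16), 3 * P.oY + 37) := by
    rintro k (rfl | rfl | hk) hk'
    · rw [(f3 _ _).1]; linarith
    · rw [(f3 _ _).2]; linarith
    · obtain ⟨i, rfl⟩ : ∃ i, k = i + 7 := ⟨k - 7, by omega⟩
      have : (3 * P.oY + 37 : ℝ) < P.ch.ax T (i + 7) := by exact_mod_cast hax i (by omega)
      rw [Ch.ee, ch_val, ch_v, ov_big (by omega), Bool.not_false,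
        (sl_x T (show 7 ≤ i + 7 by omega)).1, f1]
      simp only [co_false, Bool.false_eq_true, if_false]
      push_cast
      linarith
  refine K.viol (by omega) hlj (by rw [ch_m]; omega) T hT (show 5 < j + 8 by omega) t5
    (mem5 h (by linarith) (by linarith)) hq e (-1) (key l (by omega) hlj) fun k hk a _ =>
      key k ?_ hk
  have := ((hT k hk).1 a).1
  have : k ≠ 7 := fun b => t7 (b ▸ a)
  omega

theorem hit0 (h : P.Pos) (K : P.ch.Con (fun e => e < P.ch.m) τ) (h6 : ∀ e < 6, τ e < τ 6)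
    (h67 : τ 6 < τ 7) (h01 : ∀ e, 2 ≤ e → e ≤ 4 → τ e < τ 0 ∨ τ e < τ 1) {j : ℕ}
    (hj : j ≤ 2 * P.n + 1) (hp : ∀ e, 8 ≤ e → e < j + 8 → τ e < τ 6 → τ e < τ 5)
    (hT : ∀ e, T e ↔ 5 ≤ e ∧ τ e < τ 6) (d0 : P.ch.sl T false (j + 8) = 1)
    (d1 : P.ch.ax T (j + 7) < 4 * P.oY + 39)
    (d2 : 4 * P.oY + 39 - P.ch.ax T (j + 7) < P.lev (j + 1) - P.lev j) : False := by
  obtain ⟨f1, f2, f3, f4, f5⟩ := frame0 (P := P) (T := fun e => τ e < τ 6) h6 (lt_irrefl _)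
  have c1 := (Ch.sl_comp (C := P.ch) (S := fun e => τ e < τ 6) false (show 5 ≤ j + 8 by omega)
    fun e _ => hT e).1
  obtain ⟨c2, c3⟩ := Ch.sl_comp (C := P.ch) (S := fun e => τ e < τ 6) false (show 5 ≤ j + 7 by omega)
    fun e _ => hT e
  have c4 : P.ch.ax (fun e => τ e < τ 6) (j + 7) = 4 * P.oY + 38 - P.ch.ax T (j + 7) := by
    rw [Ch.ax, Ch.ax, ch_v, ov_big (by omega), c2, c3, f3, f4]
    ring
  obtain ⟨q, hq, e⟩ := rod_pt h (fun e => τ e < τ 6) hj (y := -1) (by rw [c1, c4, f3, d0]; omega)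
    (by rw [c1, c4, f3, d0]; omega)
  rw [f1, f2] at e
  push_cast at e
  have hW : (P.oW : ℝ) = 2 * P.n + 42 := by simp [oW]
  have hY := P.oY_ge
  have hj' : (j : ℝ) ≤ 2 * P.n + 1 := by exact_mod_cast hj
  have j0 : (0 : ℝ) ≤ j := Nat.cast_nonneg j
  refine K.viol (i := 0) (l := 6) (by omega) (by omega) (by rw [ch_m]; omega) (fun e => τ e < τ 6)
    (by simp) (show 0 < j + 8 by omega) (h6 0 (by omega))
    (mem0 h (Or.inl ⟨by linarith, by norm_num⟩) (by linarith) (by norm_num)) hq e 1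
    (by rw [(f5 _ _).2.2.2]; linarith) fun k hk a b => ?_
  have b0 := b 0 (by omega) (h6 0 (by omega))
  have b1 := b 1 (by omega) (h6 1 (by omega))
  have b5 := b 5 (by omega) (h6 5 (by omega))
  have b2 := h01 k
  have b3 := hp k
  rcases (show k = 0 ∨ k = 1 ∨ k = 5 by
    by_contra hc
    rcases lt_or_ge k 8 with c | c
    · interval_cases k <;> omega
    · omega) with rfl | rfl | rfl
  · rw [(f5 _ _).1]; linarith
  · rw [(f5 _ _).2.1]; linarith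
  · rw [(f5 _ _).2.2.1]; linarith

theorem up_dead (h : P.Pos) (K : P.ch.Con (fun e => e < P.ch.m) τ) (h67 : τ 6 < τ 7) {l : ℕ}
    (hl : l = 6 ∨ 8 ≤ l) (hlj : l < 2 * P.n + 8) (h1 : τ 5 < τ l) (h2 : τ l ≤ τ 6) :
    P.ch.sl (fun e => 5 ≤ e ∧ τ e < τ l) false (2 * P.n + 8) = 1 := by
  refine (Ch.sl_pm _ _ _).resolve_right fun e => ?_
  obtain ⟨-, -, f1, f2, -⟩ := frame5 (P := P) (T := fun e => 5 ≤ e ∧ τ e < τ l)
    (fun e he a => by omega) ⟨le_rfl, h1⟩ (by omega) (by omega)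
  have a1 := rod_lo h f1 f2 le_rfl
  have a2 := P.lev_zero
  have a3 := P.lev_top le_rfl
  have a4 := P.lev_r
  have a5 := P.oP_four
  have a6 : P.oY = 80 * P.oP := rfl
  refine hit5 h K h67 (Nat.le_succ _) hl hlj h1 h2 (fun _ _ => Iff.rfl) (fun i hi => ?_)
    (by rw [e]; omega) (by rw [e]; omega)
  have := rod_lo h f1 f2 hi
  omega

theorem no_pleat (h : P.Pos) (hi : ∀ k < P.ch.m, ∀ l < P.ch.m, τ k = τ l → k = l)
    (K : P.ch.Con (fun e => e < P.ch.m) τ) (h56 : τ 5 < τ 6) (h67 : τ 6 < τ 7) :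
    ∀ e, 8 ≤ e → e < 2 * P.n + 8 → τ e < τ 6 → τ e < τ 5 := by
  intro e e1 e2 e3
  by_contra e4
  have e5 : τ 5 ≠ τ e := fun a => by
    have := hi 5 (by rw [ch_m]; omega) e (by rw [ch_m]; omega) a
    omega
  obtain ⟨l, l1, l2⟩ := Finset.exists_max_image
    ((Finset.range (2 * P.n + 8)).filter fun e => 8 ≤ e ∧ τ e < τ 6) τ ⟨e, by simp [e1, e2, e3]⟩
  simp only [Finset.mem_filter, Finset.mem_range, and_imp] at l1 l2
  have a1 := up_dead h K h67 (Or.inr l1.2.1) l1.1 (by have := l2 e e2 e1 e3; omega) l1.2.2.le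
  have a2 := up_dead h K h67 (Or.inl rfl) (by omega) h56 le_rfl
  have a3 := Ch.sl_ins (C := P.ch) (S := fun e => 5 ≤ e ∧ τ e < τ l)
    (T := fun e => 5 ≤ e ∧ τ e < τ 6) (l := l) (by omega) l1.1 fun x hx => by
      have b1 := l2 x hx
      have b2 := l2 e e2 e1 e3
      have b3 := hi x (by rw [ch_m]; omega) l (by rw [ch_m]; omega)
      constructor
      · rintro ⟨c1, c2⟩
        rcases lt_or_ge x 8 with c | c
        · interval_cases x <;> omega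
        · omega
      · rintro (c | rfl) <;> omega
  rw [ch_v, ov_big (by omega), a1, a2] at a3
  cases a3

theorem sol_of_fold (h : P.Pos) {all two : Bool} (H : Foldable all two P.ch.map) : P.Sol := by
  obtain ⟨τ, hi, K⟩ := Ch.con_of_foldable (good h) (nonCol h) H
  obtain ⟨h6, h67, h01⟩ := fixed h hi K
  have hp := no_pleat h hi K (h6 5 (by omega)) h67
  have d0 := up_dead h K h67 (Or.inl rfl) (by omega) (h6 5 (by omega)) le_rfl
  obtain ⟨T, hT⟩ : ∃ T : ℕ → Prop, T = fun e => 5 ≤ e ∧ τ e < τ 6 := ⟨_, rfl⟩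
  rw [← hT] at d0
  replace hT : ∀ e, T e ↔ 5 ≤ e ∧ τ e < τ 6 := fun e => by rw [hT]
  obtain ⟨-, -, f1, f2, -⟩ := frame5 (P := P) (T := T) (fun e he a => by have := (hT e).1 a; omega)
    ((hT 5).2 ⟨le_rfl, h6 5 (by omega)⟩) (by rw [hT]; omega) (by rw [hT]; omega)
  obtain ⟨s, hs, x, x1, x2⟩ := rod_sum (P := P) T P.n le_rfl
  have a1 := rod_lo h f1 f2 le_rfl
  have a2 := P.lev_zero
  have a3 := P.lev_top le_rfl
  have a4 := P.lev_r
  have a5 := P.oP_four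
  have a6 : P.oY = 80 * P.oP := rfl
  have a7 := P.lev_e
  have a8 := P.ax_rod T (2 * P.n)
  rw [d0] at a8
  rw [f1, f2] at x2
  refine ⟨s, hs, ?_⟩
  generalize ∑ j ∈ s, P.a j = X at x2 ⊢
  by_contra hc
  rcases lt_or_gt_of_ne (show X + x ≠ P.t by omega) with c | c
  · exact hit0 h K h6 h67 h01 (Nat.le_succ _) hp hT d0 (by omega) (by omega)
  by_cases r : T (2 * P.n + 8)
  · have b := (Ch.sl_yes (C := P.ch) (b := false) ⟨ov_big (by omega), r⟩).1
    rw [d0] at b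
    refine hit5 h K h67 le_rfl (Or.inl rfl) (by omega) (h6 5 (by omega)) le_rfl (fun e _ => hT e)
      (fun i hi => ?_) (by rw [show 2 * P.n + 1 + 8 = 2 * P.n + 8 + 1 from rfl, b]; omega)
      (by rw [show 2 * P.n + 1 + 8 = 2 * P.n + 8 + 1 from rfl, b,
        show 2 * P.n + 1 + 1 = 2 * P.n + 2 from rfl]; omega)
    rcases hi.lt_or_eq with hi | rfl
    · have := rod_lo h f1 f2 (Nat.le_of_lt_succ hi)
      omega
    · omega
  · have b := (Ch.sl_no (C := P.ch) (b := false) fun a => r a.2).1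
    rw [d0] at b
    refine hit0 h K h6 h67 h01 le_rfl (fun e e1 e2 e3 => hp e e1 (lt_of_le_of_ne (by omega) ?_) e3)
      hT b (by omega) (by rw [show 2 * P.n + 1 + 1 = 2 * P.n + 2 from rfl]; omega)
    rintro rfl
    exact r ((hT _).2 ⟨by omega, e3⟩)

end Par

end Pool.Agent.Lib.MP_3a3d34_lc
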