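import Pool.Agent.Lib.MP_3a3d34_lc.OneNo

/-!
If the subset sum instance is solvable, then the chain can be folded by one-layer folds.
-/

set_option autoImplicit false

namespace Pool.Agent.Lib.MP_3a3d34_lc

open Set

theorem Ch.dd_flat {C : Ch} {R : ℕ → Prop} {k l : ℕ} (hl : l < C.m) (hk : k ≤ l)
    (h : ∀ e < l, C.v e = C.v l → ¬ R e) {p : Pt} (hp : p ∈ C.face k) :
    C.dd R l (C.ph R k p) ≤ 0 := by
  obtain ⟨a1, a2⟩ := Ch.sl_flat (C := C) (S := R) (b := C.v l) (Nat.zero_le k)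
    fun e _ he => h e (by omega)
  obtain ⟨b1, b2⟩ := Ch.sl_flat (C := C) (S := R) (b := C.v l) (Nat.zero_le l) fun e _ he => h e he
  rw [Ch.dd, Ch.ax, Ch.co_ph, a1, a2, b1, b2]
  simpa [Ch.sl, Ch.og] using ((hp.2 l hl).2 hk).le

namespace Par

variable {P : Par} {R : ℕ → Prop} {p q : Pt}

theorem f_lt {k : ℕ} (hp : p ∈ P.ch.face k) (e : ℕ) (h1 : k ≤ e) (h2 : e ≤ 2 * P.n + 8) :
    co (ov e) p < P.oc e := (hp.2 e (Nat.lt_succ_of_le h2)).2 h1

theorem f_gt {k : ℕ} (hp : p ∈ P.ch.face k) (e : ℕ) (h1 : e < k) (h2 : e ≤ 2 * P.n + 8) :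
    (P.oc e : ℝ) < co (ov e) p := (hp.2 e (Nat.lt_succ_of_le h2)).1 h1

theorem f_hi (h : P.Pos) {k : ℕ} (hp : p ∈ P.ch.face k) (e : ℕ) (h1 : k ≤ e) (h2 : e ≤ 2 * P.n + 8) :
    p.1 < P.or (ok e) ∧ p.2 < P.ot (ok e) :=
  ⟨(good h).lt_hi (Nat.lt_succ_of_le h2) hp.1 (f_lt hp e h1 h2) true,
    (good h).lt_hi (Nat.lt_succ_of_le h2) hp.1 (f_lt hp e h1 h2) false⟩

theorem f_lo (h : P.Pos) {k : ℕ} (hp : p ∈ P.ch.face k) (e : ℕ) (h1 : e < k) (h2 : e ≤ 2 * P.n + 8) :
    (P.ol (ok e) : ℝ) < p.1 ∧ (P.ob (ok e) : ℝ) < p.2 :=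
  ⟨(good h).lo_lt (Nat.lt_succ_of_le h2) hp.1 (f_gt hp e h1 h2) true,
    (good h).lo_lt (Nat.lt_succ_of_le h2) hp.1 (f_gt hp e h1 h2) false⟩

theorem f_split (h : P.Pos) {k : ℕ} (hp : p ∈ P.ch.face k) (i : ℕ) (hi : i < 13) :
    p.2 < P.ot i ∨ (P.ol (i + 1) : ℝ) < p.1 :=
  ((good h).split (show i < P.ch.N by rw [ch_N]; omega) hp.1).imp (fun a => a false) fun a => a true

theorem f_top (h : P.Pos) {k : ℕ} (hp : p ∈ P.ch.face k) :
    p.1 < 3 * P.oW - 22 ∧ p.2 < P.lev (2 * P.n + 2) := by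
  have a := (good h).lt_top hp.1 true
  have b := (good h).lt_top hp.1 false
  simp only [ch_N, ch_r, ch_t, or, ot, co_true, co_false, show (4 * P.n + 2) / 2 = 2 * P.n + 1 by omega,
    show (4 * P.n + 2 + 3) / 2 = 2 * P.n + 2 by omega] at a b
  refine ⟨?_, b⟩
  have hW : (P.oW : ℝ) = 2 * P.n + 42 := by simp [oW]
  push_cast at a
  linarith

theorem xsep (h : P.Pos) {i j : ℕ} (hij : i + 2 ≤ j) (hj : j ≤ 2 * P.n + 9) (hp : p ∈ P.ch.face i)
    (hq : q ∈ P.ch.face j) : p.1 < q.1 := by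
  have key : ∀ e, ov e = true → e < 7 → i ≤ e → e < j → p.1 < q.1 := fun e he h0 h1 h2 => by
    have := (f_lt hp e h1 (by omega)).trans (f_gt hq e h2 (by omega))
    rwa [he] at this
  rcases lt_or_ge i 8 with h1 | h1
  · interval_cases i
    · exact key 1 rfl (by omega) (by omega) (by omega)
    · exact key 1 rfl (by omega) (by omega) (by omega)
    · exact key 2 rfl (by omega) (by omega) (by omega)
    · exact (f_hi h hp 3 le_rfl (by omega)).1.trans (f_lo h hq 4 (by omega) (by omega)).1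
    · exact key 5 rfl (by omega) (by omega) (by omega)
    · exact key 5 rfl (by omega) (by omega) (by omega)
    · exact key 6 rfl (by omega) (by omega) (by omega)
    · have a := (f_hi h hp 7 le_rfl (by omega)).1
      have b := (f_lo h hq 8 (by omega) (by omega)).1
      simp only [ok, or, ol] at a b
      push_cast at a b
      linarith
  · obtain ⟨e, rfl⟩ := Nat.exists_eq_add_of_le' h1
    have a := (f_hi h hp (e + 8) le_rfl (by omega)).1
    have b := (f_lo h hq (e + 1 + 8) (by omega) (by omega)).1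
    simp only [ok, or, ol, show (2 * e + 1) / 2 = e by omega,
      show (2 * (e + 1) + 1 + 1) / 2 = e + 2 by omega] at a b
    push_cast at a b
    linarith

theorem between (h : P.Pos) (R : ℕ → Prop) {j : ℕ} (hj : j ≤ 2 * P.n + 1)
    (hp : p ∈ P.ch.face (j + 8)) {a b : ℤ} (h1 : a ≤ P.ch.ax R (j + 7) ∧ P.ch.ax R (j + 7) ≤ b)
    (h2 : a ≤ P.ch.ax R (j + 1 + 7) ∧ P.ch.ax R (j + 1 + 7) ≤ b) :
    (a : ℝ) ≤ (P.ch.ph R (j + 8) p).2 ∧ (P.ch.ph R (j + 8) p).2 ≤ b := by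
  have a1 := f_gt hp (j + 7) (by omega) (by omega)
  have a2 : p.2 < P.lev (j + 1) := by
    rcases hj.lt_or_eq with c | rfl
    · have := f_lt hp (j + 1 + 7) le_rfl (by omega)
      rwa [ov_big (by omega), oc] at this
    · exact (f_top h hp).2
  rw [ov_big (by omega), oc, co_false] at a1
  rw [ax_rod] at h2
  simp only [Ch.ph, og_rod]
  obtain ⟨b1, b2⟩ := h1
  obtain ⟨b3, b4⟩ := h2
  rw [← Int.cast_le (R := ℝ)] at b1 b2 b3 b4
  push_cast at b3 b4 ⊢
  rcases Ch.sl_pm' (C := P.ch) R false (j + 8) with e | e <;> rw [e] at b3 b4 ⊢ <;>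
    constructor <;> linarith

theorem rod_pairs {s : Finset ℕ} : ∀ i ≤ P.n,
    (∀ j < i, (R (2 * j + 8) ↔ j ∈ s) ∧ (R (2 * j + 9) ↔ j ∈ s)) →
    P.ch.sl R false (2 * i + 8) = P.ch.sl R false 8 ∧
    P.ch.sl R false 8 * (P.ch.ax R (2 * i + 1 + 7) - P.ch.ax R 7) = P.lev (2 * i + 1) - P.lev 0 -
      32 * (∑ j ∈ s.filter (· < i), P.a j : ℕ) ∧
    P.lev 1 - P.lev 0 ≤ P.ch.sl R false 8 * (P.ch.ax R (2 * i + 1 + 7) - P.ch.ax R 7) ∧
    ∀ j ≤ 2 * i + 1, 0 ≤ P.ch.sl R false 8 * (P.ch.ax R (j + 7) - P.ch.ax R 7) ∧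
      P.ch.sl R false 8 * (P.ch.ax R (j + 7) - P.ch.ax R 7) ≤
        P.ch.sl R false 8 * (P.ch.ax R (2 * i + 1 + 7) - P.ch.ax R 7) := by
  intro i
  obtain ⟨x, l1, l2, -⟩ := P.lev_one
  induction i with
  | zero =>
    intro _ _
    have a : P.ch.sl R false 8 * (P.ch.ax R (2 * 0 + 1 + 7) - P.ch.ax R 7) = P.lev 1 - P.lev 0 := by
      rw [mul_zero, P.ax_rod R 0]
      rcases Ch.sl_pm (C := P.ch) R false 8 with e | e <;> simp [e]
    refine ⟨rfl, by simpa using a, a.ge, fun j hj => ?_⟩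
    rw [a]
    interval_cases j
    · simp only [zero_add, sub_self, mul_zero]
      omega
    · rw [a]
      omega
  | succ i ih =>
    intro hi hs
    obtain ⟨a1, a2, a3, a4⟩ := ih (by omega) fun j hj => hs j (by omega)
    obtain ⟨y, b1, b2, -⟩ := P.lev_gap hi
    have b3 := P.lev_even hi
    have b4 := P.a_le hi
    have b5 := P.oP_ge
    have b6 : P.oC = 3 * P.A + P.t + 4 := rfl
    have c1 : P.ch.ax R (2 * i + 2 + 7) = P.ch.ax R (2 * i + 1 + 7) + P.ch.sl R false (2 * i + 8 + 1) *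
      (P.lev (2 * i + 2) - P.lev (2 * i + 1)) := P.ax_rod R (2 * i + 1)
    have c2 : P.ch.ax R (2 * i + 3 + 7) = P.ch.ax R (2 * i + 2 + 7) + P.ch.sl R false (2 * i + 9 + 1) *
      (P.lev (2 * i + 3) - P.lev (2 * i + 2)) := P.ax_rod R (2 * i + 2)
    have v1 : P.ch.v (2 * i + 8) = false := ov_big (e := 2 * i + 8) (by omega)
    have v2 : P.ch.v (2 * i + 9) = false := ov_big (e := 2 * i + 9) (by omega)
    obtain ⟨s1, s2⟩ := hs i (by omega)
    have d : P.ch.sl R false (2 * i + 9 + 1) = P.ch.sl R false 8 ∧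
        (P.ch.sl R false (2 * i + 8 + 1) = P.ch.sl R false 8 ∧
          (∑ j ∈ s.filter (· < i + 1), P.a j) = ∑ j ∈ s.filter (· < i), P.a j ∨
        P.ch.sl R false (2 * i + 8 + 1) = -P.ch.sl R false 8 ∧
          (∑ j ∈ s.filter (· < i + 1), P.a j) = ∑ j ∈ s.filter (· < i), P.a j + P.a i) := by
      by_cases c : i ∈ s
      · have e1 := (Ch.sl_yes ⟨v1, s1.2 c⟩).1
        refine ⟨by rw [(Ch.sl_yes ⟨v2, s2.2 c⟩).1, e1, a1, neg_neg], Or.inr ⟨a1 ▸ e1, ?_⟩⟩
        rw [add_comm _ (P.a i), ← Finset.sum_insert (by simp)]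
        congr 1
        ext j
        simp only [Finset.mem_filter, Finset.mem_insert]
        exact ⟨fun a => (Nat.lt_succ_iff_lt_or_eq.1 a.2).elim (fun b => Or.inr ⟨a.1, b⟩) Or.inl,
          fun a => a.elim (fun b => by rw [b]; exact ⟨c, Nat.lt_succ_self _⟩) fun b => ⟨b.1, by omega⟩⟩
      · have e1 := (Ch.sl_no (C := P.ch) (b := false) fun a => c (s1.1 a.2)).1
        refine ⟨by rw [(Ch.sl_no fun a => c (s2.1 a.2)).1, e1, a1], Or.inl ⟨a1 ▸ e1, ?_⟩⟩
        congr 1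
        ext j
        simp only [Finset.mem_filter]
        exact and_congr_right fun a => by
          have : j ≠ i := fun b => c (b ▸ a)
          omega
    obtain ⟨d1, d2⟩ := d
    rw [d1] at c2
    rw [show 2 * (i + 1) + 1 = 2 * i + 3 from rfl]
    refine ⟨d1, ?_, ?_, fun j hj => ?_⟩
    · rcases d2 with ⟨d2, d3⟩ | ⟨d2, d3⟩ <;> rw [d2] at c1 <;> rw [d3] <;>
        rcases Ch.sl_pm (C := P.ch) R false 8 with e | e <;> rw [e] at a2 c1 c2 ⊢ <;> omega
    · rcases d2 with ⟨d2, -⟩ | ⟨d2, -⟩ <;> rw [d2] at c1 <;>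
        rcases Ch.sl_pm (C := P.ch) R false 8 with e | e <;> rw [e] at a3 c1 c2 ⊢ <;> omega
    · have a5 := a4 j
      rcases (show j ≤ 2 * i + 1 ∨ j = 2 * i + 2 ∨ j = 2 * i + 3 by omega) with c | rfl | rfl <;>
        rcases d2 with ⟨d2, -⟩ | ⟨d2, -⟩ <;> rw [d2] at c1 <;>
        rcases Ch.sl_pm (C := P.ch) R false 8 with e | e <;> rw [e] at a3 a5 c1 c2 ⊢ <;> omega

theorem rod_in (h : P.Pos) {s : Finset ℕ} (hs : s ⊆ Finset.range P.n) (ht : ∑ i ∈ s, P.a i = P.t)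
    (h0 : ∀ e < 6, R e) (h7 : ¬ R 7) (hr : R (2 * P.n + 8))
    (hR : ∀ j < P.n, (R (2 * j + 8) ↔ j ∈ s) ∧ (R (2 * j + 9) ↔ j ∈ s)) {k : ℕ} (h1 : 8 ≤ k)
    (h2 : k ≤ 2 * P.n + 9) (hp : p ∈ P.ch.face k) :
    0 ≤ (P.ch.ph R k p).2 ∧ (P.ch.ph R k p).2 ≤ P.oY - 8 := by
  obtain ⟨j, rfl⟩ := Nat.exists_eq_add_of_le' h1
  obtain ⟨a1, a2, -, a4⟩ := rod_pairs P.n le_rfl hR
  have f : P.ch.sl R false 8 = -1 ∧ P.ch.ax R 7 = P.oY - 8 := by
    simp [Ch.ax, Ch.sl, Ch.og, ov, oc, h0, h7, lev_zero]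
    ring
  rw [Finset.filter_true_of_mem fun x hx => Finset.mem_range.1 (hs hx), ht] at a2
  have b1 : P.ch.ax R (2 * P.n + 2 + 7) = P.ch.ax R (2 * P.n + 1 + 7) +
    P.ch.sl R false (2 * P.n + 8 + 1) * (P.lev (2 * P.n + 2) - P.lev (2 * P.n + 1)) :=
    P.ax_rod R (2 * P.n + 1)
  rw [(Ch.sl_yes (C := P.ch) (b := false) ⟨ov_big (by omega), hr⟩).1, a1, f.1] at b1
  rw [f.1, f.2] at a2 a4
  have := P.lev_zero
  have := P.lev_r
  have := P.lev_e
  have key : ∀ j ≤ 2 * P.n + 2, 0 ≤ P.ch.ax R (j + 7) ∧ P.ch.ax R (j + 7) ≤ P.oY - 8 := by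
    intro j hj
    have := a4 j
    have := P.oP_four
    have : P.oY = 80 * P.oP := rfl
    rcases hj.lt_or_eq with c | rfl <;> omega
  simpa using between h R (by omega) hp (key j (by omega)) (key (j + 1) (by omega))

theorem fold_of_sol (h : P.Pos) (H : P.Sol) : FoldableIn .one false P.ch.map := by
  obtain ⟨s, hs, ht⟩ := H
  have hW := P.oW_ge
  have hY := P.oY_ge
  obtain ⟨T, hT⟩ : ∃ T : ℕ → Prop, ∀ e, T e ↔ e = 0 ∨ e = 3 ∨ e = 4 ∨ e = 2 * P.n + 8 ∨
    (8 ≤ e ∧ (e - 8) / 2 ∈ s) := ⟨_, fun _ => Iff.rfl⟩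
  have Tv : ∀ e, T e → ov e = false := fun e he => by
    rcases (hT e).1 he with rfl | rfl | rfl | rfl | a
    exacts [rfl, rfl, rfl, ov_big (by omega), ov_big (by omega)]
  have Tp : ∀ j < P.n, (T (2 * j + 8) ↔ j ∈ s) ∧ (T (2 * j + 9) ↔ j ∈ s) := fun j hj => by
    simp only [hT, show (2 * j + 8 - 8) / 2 = j by omega, show (2 * j + 9 - 8) / 2 = j by omega]
    exact ⟨⟨fun a => by rcases a with a | a | a | a | a <;> first | omega | exact a.2,
      fun a => by simp [a]⟩, fun a => by rcases a with a | a | a | a | a <;> first | omega | exact a.2,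
      fun a => by simp [a]⟩
  obtain ⟨σ1, s1, g1, r1, G1⟩ := Ch.phase (good h) Ch.geo_init T fun l hl _ => ⟨id, fun R hR =>
    ⟨fun k hk p hp => Ch.dd_flat hl hk (fun e he _ a =>
      he.not_gt (((hR e).1 a).resolve_left id).2) hp,
      fun i hi j hj hlj p hp q hq e => by
        have a : ∀ k, P.ch.sl R true k = 1 ∧ P.ch.og R true k = 0 := fun k =>
          Ch.sl_flat (Nat.zero_le k) fun e _ _ b c => by
            rw [ch_v, Tv e (((hR e).1 c).resolve_left id).1] at b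
            cases b
        have b := congrArg Prod.fst e
        simp only [Ch.ph, a] at b
        have := xsep h (by omega) hj hp hq
        push_cast at b
        linarith⟩⟩
  obtain ⟨σ2, s2, g2, r2, G2⟩ := Ch.phase (good h) G1 (fun e => e = 1 ∨ e = 2 ∨ e = 5)
    fun l hl hl' => by
    have lv : ov l = true := by rcases hl' with rfl | rfl | rfl <;> rfl
    have nT : ∀ e, ov e = true → ¬ (False ∨ T e) := fun e a b => by
      rw [Tv e (b.resolve_left id)] at a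
      cases a
    refine ⟨nT l lv, fun R hR => ?_⟩
    have hR' : ∀ e, ov e = true → (R e ↔ (e = 1 ∨ e = 2 ∨ e = 5) ∧ l < e) := fun e a =>
      (hR e).trans (or_iff_right (nT e a))
    refine ⟨fun k hk p hp => Ch.dd_flat hl hk (fun e he a b => ?_) hp,
      fun i hi j hj hlj p hp q hq e => ?_⟩
    · have := (hR' e (a.trans lv)).1 b
      omega
    have a : P.ch.sl R true i = 1 ∧ P.ch.og R true i = 0 :=
      Ch.sl_flat (Nat.zero_le i) fun e _ _ b c => by have := (hR' e b).1 c; omega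
    have b := congrArg Prod.fst e
    have c := f_lt hp l hi (by omega)
    have r1 := hR' 1 rfl
    have r2 := hR' 2 rfl
    have r5 := hR' 5 rfl
    have r6 := hR' 6 rfl
    have q1 := (f_top h hq).1
    have q2 := f_gt hq 2
    have q3 := f_gt hq 5
    have q4 := f_lt hq 5
    simp only [Ch.ph, a] at b
    rcases le_or_gt 7 j with hj7 | hj7
    · rw [(sl_x R hj7).1, (sl_x R hj7).2] at b
      replace q3 := q3 (by omega) (by omega)
      rcases hl' with rfl | rfl | rfl <;>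
        simp [Ch.sl, Ch.og, ov, oc, r1, r2, r5, r6] at b c q3 <;> linarith
    · rcases hl' with rfl | rfl | rfl <;> interval_cases j <;>
        simp [Ch.sl, Ch.og, ov, oc, r1, r2, r5] at b c q2 q3 q4 <;> linarith
  obtain ⟨S, hS⟩ : ∃ S : ℕ → Prop, ∀ e, S e ↔ (False ∨ T e) ∨ e = 1 ∨ e = 2 ∨ e = 5 :=
    ⟨_, fun _ => Iff.rfl⟩
  replace G2 := G2.congr fun e _ => hS e
  have S0 : ∀ e < 6, S e := fun e he => by interval_cases e <;> simp [hS, hT]
  have S6 : ¬ S 6 := by simp [hS, hT]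
  have S7 : ¬ S 7 := by simp [hS, hT]
  have S8 : ∀ e, 8 ≤ e → (S e ↔ T e) := fun e he => by
    rw [hS, false_or]
    exact or_iff_left (by omega)
  have Sr : S (2 * P.n + 8) := (S8 _ (by omega)).2 (by simp [hT])
  have Sp : ∀ j < P.n, (S (2 * j + 8) ↔ j ∈ s) ∧ (S (2 * j + 9) ↔ j ∈ s) := fun j hj => by
    rw [S8 _ (by omega), S8 _ (by omega)]
    exact Tp j hj
  obtain ⟨σ3, s3, g3, r3, G3, o3⟩ := Ch.step (good h) G2 (show 6 < P.ch.m by simp) S6 False
    (fun k hk a p hp => ⟨False.elim, fun _ => by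
      have a1 : 7 ≤ k := not_le.1 a.2
      have a2 := f_gt hp 6 a1 (by omega)
      rw [Ch.dd, Ch.co_ph, ch_v, show ov 6 = true from rfl, (sl_x S a1).1, (sl_x S a1).2]
      simp [Ch.ax, Ch.sl, Ch.og, ov, oc, S0, S6] at a2 ⊢
      linarith⟩)
    fun i _ j hj hlj _ hi p hp q hq e => by
      exfalso
      replace hi := hi id
      have a1 := (f_top h hq).1
      have a2 := f_gt hq 6 hlj (by omega)
      have a3 : 0 ≤ (P.ch.ph S j q).2 ∧ (P.ch.ph S j q).2 ≤ P.oY - 2 := by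
        rcases (show 7 ≤ j from hlj).lt_or_eq with c | rfl
        · exact (rod_in h hs ht S0 S7 Sr Sp c hj hq).imp id fun a => by linarith
        · have b1 := (f_lo h hq 6 hlj (by omega)).2
          have b2 := f_lt hq 7 le_rfl (by omega)
          simp [Ch.ph, Ch.sl, Ch.og, ov, oc, ok, ob, S0, lev_zero] at b1 b2 ⊢
          constructor <;> linarith
      have a4 := congrArg Prod.fst e
      rw [← e] at a3
      simp only [Ch.ph, (sl_x S hlj).1, (sl_x S hlj).2] at a3 a4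
      interval_cases i
      · rcases f_split h hp 0 (by omega) with b | b <;>
          simp [Ch.sl, Ch.og, ov, oc, ol, ot, S0, S6] at a2 a3 a4 b <;> linarith [a3.1]
      · have b := (f_hi h hp 1 le_rfl (by omega)).2
        simp [Ch.sl, Ch.og, ov, oc, ok, ot, S0] at a3 b
        linarith [a3.2]
      · rcases f_split h hp 2 (by omega) with b | b <;>
          simp [Ch.sl, Ch.og, ov, oc, ol, ot, S0, S6] at a3 a4 b <;> linarith [a3.2]
      · have b := (f_hi h hp 4 (by omega) (by omega)).1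
        simp [Ch.sl, Ch.og, ov, oc, ok, or, S0, S6] at a4 b
        linarith
      · have b := (f_hi h hp 4 (by omega) (by omega)).1
        simp [Ch.sl, Ch.og, ov, oc, ok, or, S0, S6] at a4 b
        linarith
      · rcases f_split h hp 8 (by omega) with b | b <;>
          simp [Ch.sl, Ch.og, ov, oc, ol, ot, S0, S6] at a2 a3 a4 b <;> linarith [a3.2]
  obtain ⟨S', hS'⟩ : ∃ S' : ℕ → Prop, ∀ e, S' e ↔ S e ∨ e = 6 := ⟨_, fun _ => Iff.rfl⟩
  replace G3 := G3.congr fun e _ => hS' e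
  have U0 : ∀ e < 6, S' e := fun e he => (hS' e).2 (Or.inl (S0 e he))
  have U6 : S' 6 := (hS' 6).2 (Or.inr rfl)
  have U7 : ¬ S' 7 := by simp [hS', S7]
  have U8 : ∀ e, 8 ≤ e → (S' e ↔ S e) := fun e he => (hS' e).trans (or_iff_left (by omega))
  obtain ⟨σ4, s4, g4, r4, G4, -⟩ := Ch.step (good h) G3 (show 7 < P.ch.m by simp) U7 False
    (fun k hk a p hp => ⟨False.elim, fun _ => by
      have a1 := (rod_in h hs ht U0 U7 ((U8 _ (by omega)).2 Sr) (fun j hj => by
        rw [U8 _ (by omega), U8 _ (by omega)]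
        exact Sp j hj) (not_le.1 a.2) hk hp).2
      simp [Ch.dd, Ch.ax, Ch.sl, Ch.og, ov, oc, U0, lev_zero]
      linarith⟩)
    fun i _ j hj hlj _ hi p hp q hq _ => by
      obtain ⟨a1, a2⟩ := o3 i (Nat.le_of_lt_succ (hi id)) j hj (by omega) p hp q hq
      have b1 := G3.slope true 6 (by simp)
      have b2 := G3.slope false 6 (by simp)
      rw [if_pos ⟨rfl, U6⟩] at b1
      rw [if_neg fun a => by cases a.1] at b2
      rw [a1, a2, b1, b2]
      rcases G3.pm true 6 with c | c <;> rcases G3.pm false 6 with c' | c' <;>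
        simp [c, c', ov] <;> norm_num
  obtain ⟨σ5, s5, g5, r5, G5⟩ := Ch.phase (good h) G4 (fun e => 8 ≤ e ∧ ¬ T e) fun l hl hl' => by
    have V8 : ∀ e, 8 ≤ e → (S' e ∨ e = 7 ↔ T e) := fun e he => by
      rw [U8 e he, S8 e he]
      exact or_iff_left (by omega)
    refine ⟨fun a => hl'.2 ((V8 l hl'.1).1 a), fun R hR => ?_⟩
    have R0 : ∀ e < 8, R e := fun e he => (hR e).2 (Or.inl (by
      rcases (show e < 6 ∨ e = 6 ∨ e = 7 by omega) with a | rfl | rfl
      exacts [Or.inl (U0 e a), Or.inl U6, Or.inr rfl]))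
    have R8 : ∀ e, 8 ≤ e → e ≤ l → (R e ↔ T e) := fun e a b => by
      rw [hR, V8 e a]
      exact or_iff_left (by omega)
    refine ⟨fun k hk p hp => ?_, fun i hi j hj hlj p hp q hq e => ?_⟩
    · have ln : l ≠ 2 * P.n + 8 := fun a => hl'.2 (by simp [hT, a])
      obtain ⟨i, hi, hli⟩ : ∃ i < P.n, l = 2 * i + 8 ∨ l = 2 * i + 9 :=
        ⟨(l - 8) / 2, by rw [ch_m] at hl; omega, by omega⟩
      have is : i ∉ s := fun a => hl'.2 (by
        rcases hli with rfl | rfl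
        exacts [(Tp i hi).1.2 a, (Tp i hi).2.2 a])
      obtain ⟨a1, -, a3, a4⟩ := rod_pairs (R := R) (s := s) i hi.le fun j hj => by
        rw [R8 _ (by omega) (by omega), R8 _ (by omega) (by omega)]
        exact Tp j (by omega)
      have f : P.ch.sl R false 8 = 1 ∧ P.ch.ax R 7 = P.oY - 8 := by
        simp [Ch.ax, Ch.sl, Ch.og, ov, oc, R0, lev_zero]
        ring
      have a5 := (Ch.sl_no (C := P.ch) (S := R) (b := false) (k := 2 * i + 8) fun a =>
        is ((Tp i hi).1.1 ((R8 _ (by omega) (by omega)).1 a.2))).1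
      have a6 : P.ch.ax R (2 * i + 2 + 7) = P.ch.ax R (2 * i + 1 + 7) +
        P.ch.sl R false (2 * i + 8 + 1) * (P.lev (2 * i + 2) - P.lev (2 * i + 1)) :=
        P.ax_rod R (2 * i + 1)
      rw [a5, a1, P.lev_even hi] at a6
      rw [f.1] at a1 a3 a4 a6
      rw [f.2] at a3 a4
      obtain ⟨x, l1, l2, -⟩ := P.lev_one
      have l3 := P.oP_four
      have b1 : P.ch.sl R false l = 1 := by
        rcases hli with rfl | rfl
        exacts [a1, a5.trans a1]
      have b2 : ∀ j, j + 7 ≤ l → P.oY - 8 ≤ P.ch.ax R (j + 7) ∧ P.ch.ax R (j + 7) ≤ P.ch.ax R l := by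
        intro j hj
        have := a4 j
        rcases hli with rfl | rfl
        · rw [show 2 * i + 8 = 2 * i + 1 + 7 from rfl]
          omega
        · rw [show 2 * i + 9 = 2 * i + 2 + 7 from rfl]
          rcases (show j ≤ 2 * i + 1 ∨ j = 2 * i + 2 by omega) with c | rfl <;> omega
      have b3 : (P.oY + 9 : ℝ) ≤ P.ch.ax R l := by
        have := b2 (2 * i + 1) (by omega)
        exact_mod_cast (by omega : P.oY + 9 ≤ P.ch.ax R l)
      rw [Ch.dd, ch_v, ov_big (by omega), b1, co_false, Int.cast_one, one_mul, sub_nonpos]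
      rcases le_or_gt 8 k with c | c
      · obtain ⟨j, rfl⟩ := Nat.exists_eq_add_of_le' c
        exact (between h R (by omega) hp (b2 j (by omega)) (b2 (j + 1) (by omega))).2
      have p0 := f_lt hp 0
      have p1 := f_gt hp 0
      have p2 := f_lt hp 4
      have p3 := f_gt hp 4
      interval_cases k <;> simp [Ch.ph, Ch.sl, Ch.og, ov, oc, R0] at p0 p1 p2 p3 ⊢ <;> linarith
    · have a := congrArg Prod.fst e
      have j7 : 7 ≤ j := by omega
      simp only [Ch.ph, (sl_x R j7).1, (sl_x R j7).2] at a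
      rcases le_or_gt 7 i with c | c
      · rw [(sl_x R c).1, (sl_x R c).2] at a
        have := xsep h (by omega) hj hp hq
        rcases Ch.sl_pm' (C := P.ch) R true 7 with d | d <;> rw [d] at a <;> linarith
      have b := (f_lo h hq 8 (by omega) (by omega)).1
      have p0 := f_lt hp 1
      have p1 := f_gt hp 1
      have p2 := f_lt hp 5
      have p3 := f_gt hp 5
      interval_cases i <;> simp [Ch.sl, Ch.og, ov, oc, ok, ol, R0] at a b p0 p1 p2 p3 <;> linarith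
  refine ⟨σ5, (((r1.trans r2).tail r3).tail r4).trans r5, G5.done (good h) fun e _ => ?_⟩
  rcases (show e < 6 ∨ e = 6 ∨ e = 7 ∨ 8 ≤ e by omega) with a | rfl | rfl | a
  · exact Or.inl (Or.inl (U0 e a))
  · exact Or.inl (Or.inl U6)
  · exact Or.inl (Or.inr rfl)
  · by_cases b : T e
    · exact Or.inl (Or.inl ((U8 e a).2 ((S8 e a).2 b)))
    · exact Or.inr ⟨a, b⟩

end Par

end Pool.Agent.Lib.MP_3a3d34_lc
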