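import Pool.Agent.Lib.MP_3a3d34_lc.Cells

/-!
The map is a valid orthogonally convex map.
-/

set_option autoImplicit false

namespace Pool.Agent.Lib.MP_3a3d34_lc

open Set

namespace Par

variable {P : Par}

theorem col_of_row (h : P.Pos) {j r : ℕ} {z : Pt} (hz : z ∈ P.Om) (b : P.Bx j r z) (hr : 2 ≤ r) :
    j = 3 := by
  obtain ⟨k, rfl⟩ : ∃ k, r = k + 2 := ⟨r - 2, by omega⟩
  have h1 := Om_lo h (x := z.1) (y := z.2) hz b.y0
  have h2 : P.xl 3 < P.xl (j + 1) := by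
    change (P.S : ℝ) < _
    linarith [b.x1, (Nat.cast_nonneg k : (0 : ℝ) ≤ _)]
  have := P.xl_mono.lt_iff_lt.1 h2
  have := b.hj
  omega

theorem vpt {j r : ℕ} (hj : j < 3) (hr : r ≤ 1) {η : ℝ} (h0 : 0 < η) (h1 : η < 1) :
    ((P.xl (j + 1), (2 * r - 1) * η) : Pt) ∈ P.Om ∧ P.Bx j r (P.xl (j + 1), (2 * r - 1) * η) ∧
      P.Bx (j + 1) r (P.xl (j + 1), (2 * r - 1) * η) := by
  have hS := P.S_ge
  have hB := P.B_ge
  have hT : (0 : ℝ) ≤ P.T := Nat.cast_nonneg _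
  have a1 : -4 ≤ P.xl (j + 1) := P.xl_mono.monotone (show 1 ≤ j + 1 by omega)
  have a2 : P.xl (j + 1) ≤ P.S := P.xl_mono.monotone (show j + 1 ≤ 3 by omega)
  have a3 : P.yl r ≤ (2 * r - 1) * η ∧ (2 * r - 1) * η ≤ P.yl (r + 1) ∧ -1 < (2 * r - 1) * η ∧
      (2 * r - 1) * η < 1 := by
    interval_cases r <;> simp only [yl, Y_zero, Y_one] <;> push_cast <;>
      refine ⟨?_, ?_, ?_, ?_⟩ <;> linarith
  exact ⟨mem_mid (by linarith) (by linarith) a3.2.2.1 a3.2.2.2,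
    ⟨by omega, by omega, (P.xl_mono (by omega)).le, le_rfl, a3.1, a3.2.1⟩,
    ⟨by omega, by omega, le_rfl, (P.xl_mono (by omega)).le, a3.1, a3.2.1⟩⟩

/-- The left end of a horizontal crease. -/
noncomputable def hx (P : Par) (j r : ℕ) : ℝ := if j = 3 then P.S + r else max (-5) (P.xl j)

theorem hpt (h : P.Pos) {j r : ℕ} (hj : j ≤ 3) (hr : r ≤ 2 * P.n) (hjr : r = 0 ∨ j = 3) {η : ℝ}
    (h0 : 0 < η) (h1 : η < 1) :
    ((P.hx j r + η, P.yl (r + 1)) : Pt) ∈ P.Om ∧ P.Bx j r (P.hx j r + η, P.yl (r + 1)) ∧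
      P.Bx j (r + 1) (P.hx j r + η, P.yl (r + 1)) := by
  have hS := P.S_ge
  have eS := P.S_eq
  have hr' : (r : ℝ) ≤ 2 * P.n := by exact_mod_cast hr
  have hr0 : (0 : ℝ) ≤ r := Nat.cast_nonneg _
  have a1 : P.xl j ≤ P.hx j r + η ∧ P.hx j r + η ≤ P.xl (j + 1) ∧
      ((P.hx j r + η, P.yl (r + 1)) : Pt) ∈ P.Om := by
    cases r with
    | zero =>
      interval_cases j <;> norm_num [hx, xl, yl, Y_zero] <;>
        exact ⟨by linarith, by linarith, mem_mid (by linarith) (by linarith) (by norm_num)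
          (by norm_num)⟩
    | succ k =>
      obtain rfl : j = 3 := by omega
      simp only [hx, xl, yl, if_true]
      push_cast at hr' hr0 ⊢
      exact ⟨by linarith, by linarith, mem_joint h hr (by linarith) (by linarith)⟩
  exact ⟨a1.2.2, ⟨hj, by omega, a1.1, a1.2.1, (yl_mono h (Nat.lt_succ_self _)).le, le_rfl⟩,
    ⟨hj, by omega, a1.1, a1.2.1, le_rfl, (yl_mono h (Nat.lt_succ_self (r + 1))).le⟩⟩

theorem col_const (h : P.Pos) {u : ℕ → ℕ → Prop}
    (hh : ∀ j ≤ 3, ∀ r ≤ 2 * P.n, r = 0 ∨ j = 3 → (u j r ↔ u j (r + 1))) {j r : ℕ} {z : Pt}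
    (hz : z ∈ P.Om) (b : P.Bx j r z) : u j r ↔ u j 0 := by
  rcases le_or_gt r 1 with hr | hr
  · interval_cases r
    · rfl
    · exact (hh j b.hj 0 (by omega) (Or.inl rfl)).symm
  · obtain rfl := col_of_row h hz b hr
    have : ∀ r ≤ 2 * P.n + 1, u 3 r ↔ u 3 0 := by
      intro r
      induction r with
      | zero => exact fun _ => Iff.rfl
      | succ r ih => exact fun hr => (hh 3 le_rfl r (by omega) (Or.inr rfl)).symm.trans (ih (by omega))
    exact this r b.hr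

theorem row_const (h : P.Pos) {u : ℕ → ℕ → Prop}
    (hv : ∀ j < 3, ∀ r ≤ 1, (u j r ↔ u (j + 1) r)) {j r : ℕ} {z : Pt}
    (hz : z ∈ P.Om) (b : P.Bx j r z) : u j r ↔ u 3 r := by
  rcases le_or_gt r 1 with hr | hr
  · have h0 := hv 0 (by omega) r hr
    have h1 := hv 1 (by omega) r hr
    have h2 := hv 2 (by omega) r hr
    have := b.hj
    interval_cases j
    · exact h0.trans (h1.trans h2)
    · exact h1.trans h2
    · exact h2
    · rfl
  · rw [col_of_row h hz b hr]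

theorem all_const (h : P.Pos) {u : ℕ → ℕ → Prop}
    (hh : ∀ j ≤ 3, ∀ r ≤ 2 * P.n, r = 0 ∨ j = 3 → (u j r ↔ u j (r + 1)))
    (hv : ∀ j < 3, ∀ r ≤ 1, (u j r ↔ u (j + 1) r)) {j r : ℕ} {z : Pt}
    (hz : z ∈ P.Om) (b : P.Bx j r z) : u j r ↔ u 3 0 := by
  refine (col_const h hh hz b).trans ?_
  have h0 := hv 0 (by omega) 0 (by omega)
  have h1 := hv 1 (by omega) 0 (by omega)
  have h2 := hv 2 (by omega) 0 (by omega)
  have := b.hj
  interval_cases j
  · exact h0.trans (h1.trans h2)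
  · exact h1.trans h2
  · exact h2
  · rfl

theorem Om_conn (h : P.Pos) : IsConnected P.Om := by
  have hS := P.S_ge
  refine ⟨⟨(0, 0), mem_mid (by norm_num) (by linarith) (by norm_num) (by norm_num)⟩, ?_⟩
  rw [isPreconnected_iff_subset_of_disjoint]
  intro u v hu hv huv hd
  have key : ∀ j r z, z ∈ P.Om → P.Bx j r z → (z ∈ u ↔ P.cell j r ⊆ u) := by
    intro j r z hz b
    have hc := mem_closure_cell h hz b
    constructor
    · intro hzu
      rcases isPreconnected_iff_subset_of_disjoint.1 (cell_conn h j r) u v hu hv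
        (fun p hp => huv hp.1) (eq_empty_of_subset_empty (hd ▸ inter_subset_inter_left _
          fun p hp => hp.1)) with h1 | h1
      · exact h1
      · obtain ⟨p, hp1, hp2⟩ := mem_closure_iff.1 hc u hu hzu
        exact absurd (hd ▸ ⟨hp2.1, hp1, h1 hp2⟩ : p ∈ (∅ : Set Pt)) (notMem_empty _)
    · intro h1
      refine (huv hz).resolve_right fun hzv => ?_
      obtain ⟨p, hp1, hp2⟩ := mem_closure_iff.1 hc v hv hzv
      exact absurd (hd ▸ ⟨hp2.1, h1 hp2, hp1⟩ : p ∈ (∅ : Set Pt)) (notMem_empty _)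
  have all : ∀ z ∈ P.Om, z ∈ u ↔ P.cell 3 0 ⊆ u := by
    intro z hz
    obtain ⟨j, r, b⟩ := exists_bx h hz
    refine (key j r z hz b).trans (all_const (u := fun j r => P.cell j r ⊆ u) h
      (fun j hj r hr hjr => ?_) (fun j hj r hr => ?_) hz b)
    · obtain ⟨a, b, c⟩ := hpt h hj hr hjr one_half_pos one_half_lt_one
      exact (key _ _ _ a b).symm.trans (key _ _ _ a c)
    · obtain ⟨a, b, c⟩ := vpt (P := P) hj hr one_half_pos one_half_lt_one
      exact (key _ _ _ a b).symm.trans (key _ _ _ a c)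
  by_cases h0 : P.cell 3 0 ⊆ u
  · exact Or.inl fun z hz => (all z hz).2 h0
  · exact Or.inr fun z hz => (huv hz).resolve_left fun h1 => h0 ((all z hz).1 h1)

theorem mem_paper' {x y : ℝ} : (x, y) ∈ paper P.map ↔ ∃ u ∈ P.UL, ∃ d ∈ P.DR,
    (u.1 : ℝ) < d.1 ∧ (d.2 : ℝ) < u.2 ∧ (u.1 : ℝ) ≤ x ∧ x ≤ d.1 ∧ (d.2 : ℝ) ≤ y ∧ y ≤ u.2 := by
  simp only [mem_paper, Int.cast_lt]

theorem pap_rod (h : P.Pos) {x y : ℝ} {k i : ℕ} (hk : k ≤ 2 * P.n) (h1 : i ≤ k) (h2 : k ≤ i + 1)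
    (a1 : P.S + k ≤ x) (a2 : x ≤ P.S + i + 2) (a3 : P.Y i ≤ y ∨ i = 0 ∧ -1 ≤ y)
    (a4 : y ≤ P.Y (k + 1)) : (x, y) ∈ paper P.map := by
  have h2' : (k : ℝ) ≤ i + 1 := by exact_mod_cast h2
  rw [mem_paper', P.forall_UL (Q := fun a b => ∃ d ∈ P.DR,
    a < d.1 ∧ (d.2 : ℝ) < b ∧ a ≤ x ∧ x ≤ d.1 ∧ (d.2 : ℝ) ≤ y ∧ y ≤ b)]
  refine Or.inr (Or.inr ⟨k, hk, ?_⟩)
  rw [P.forall_DR (Q := fun c d => P.S + k < c ∧ d < P.Y (k + 1) ∧ P.S + k ≤ x ∧ x ≤ c ∧ d ≤ y ∧
    y ≤ P.Y (k + 1))]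
  cases i with
  | zero =>
    rw [Y_zero] at a3
    push_cast at h2' a2 a3
    exact Or.inr (Or.inr (Or.inl ⟨by linarith, by
      linarith [(Nat.cast_nonneg (P.Y (k + 1)) : (0 : ℝ) ≤ _)], a1, by linarith,
      a3.elim (fun h => by linarith) (fun h => h.2), a4⟩))
  | succ i =>
    push_cast at h2' a2
    exact Or.inr (Or.inr (Or.inr (Or.inr ⟨i, by omega, by linarith, Y_lt h (by omega), a1,
      by linarith, a3.elim id (fun h => by omega), a4⟩)))

theorem paper_iff (h : P.Pos) {x y : ℝ} : (x, y) ∈ paper P.map ↔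
    (∃ u ∈ P.UL, (u.1 : ℝ) ≤ x ∧ y ≤ u.2) ∧ ∃ d ∈ P.DR, x ≤ d.1 ∧ (d.2 : ℝ) ≤ y := by
  refine ⟨fun hp => ?_, fun ⟨⟨u, hu, a1, a2⟩, d, hd, b1, b2⟩ => ?_⟩
  · obtain ⟨u, hu, d, hd, -, -, a1, b1, b2, a2⟩ := mem_paper'.1 hp
    exact ⟨⟨u, hu, a1, a2⟩, d, hd, b1, b2⟩
  by_cases hc : (u.1 : ℝ) < d.1 ∧ (d.2 : ℝ) < u.2
  · exact mem_paper'.2 ⟨u, hu, d, hd, hc.1, hc.2, a1, b1, b2, a2⟩
  have hS := P.S_ge
  have eS := P.S_eq
  have hρ := P.ρ_ge
  have hρ' := P.ρ_le
  have hB := P.B_ge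
  have hl := P.Y_last
  have hU := (P.forall_UL (Q := fun a b => a = u.1 ∧ b = u.2)).1 ⟨u, hu, rfl, rfl⟩
  have hD := (P.forall_DR (Q := fun a b => a = d.1 ∧ b = d.2)).1 ⟨d, hd, rfl, rfl⟩
  rw [not_and_or, not_lt, not_lt] at hc
  rcases hU with ⟨e1, e2⟩ | ⟨e1, e2⟩ | ⟨k, hk, e1, e2⟩ <;>
    rcases hD with ⟨e3, e4⟩ | ⟨e3, e4⟩ | ⟨e3, e4⟩ | ⟨e3, e4⟩ | ⟨i, hi, e3, e4⟩ <;>
    rw [← e1] at a1 hc <;> rw [← e2] at a2 hc <;> rw [← e3] at b1 hc <;> rw [← e4] at b2 hc
  · rcases hc with hc | hc <;> linarith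
  · linarith
  · linarith
  · linarith
  · linarith [Y_ge h i]
  · rcases hc with hc | hc <;> linarith
  · rcases hc with hc | hc <;> linarith
  · rcases hc with hc | hc <;> linarith
  · linarith
  · linarith [Y_ge h i]
  · linarith [(Nat.cast_nonneg k : (0 : ℝ) ≤ _)]
  · linarith [(Nat.cast_nonneg k : (0 : ℝ) ≤ _)]
  · obtain rfl : k = 2 := by
      have h1 : (k : ℝ) ≤ (2 : ℕ) := by push_cast; linarith
      have h2 : ((2 : ℕ) : ℝ) ≤ k := by
        push_cast; rcases hc with hc | hc <;> linarith [Y_ge h k]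
      exact le_antisymm (by exact_mod_cast h1) (by exact_mod_cast h2)
    push_cast at a1
    rcases le_total y (P.Y 2) with hy | hy
    · exact pap_rod h (k := 1) (i := 0) (by omega) (by omega) (by omega) (by push_cast; linarith)
        (by push_cast; linarith) (Or.inr ⟨rfl, b2⟩) hy
    · exact pap_rod h (k := 2) (i := 1) hk (by omega) (by omega) (by push_cast; linarith)
        (by push_cast; linarith) (Or.inl ((Y_le h (by omega)).trans hy)) a2
  · have hk' : (k : ℝ) ≤ 2 * P.n := by exact_mod_cast hk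
    rcases hk.lt_or_eq with hk | rfl
    · linarith [Y_le h (show k + 1 ≤ 2 * P.n from hk)]
    · rcases hc with hc | hc
      · linarith
      · change (P.T : ℝ) ≤ _ at hc
        linarith
  · have h1 : i ≤ k := by
      by_contra h1
      linarith [Y_lt h (show k + 1 < i + 1 by omega)]
    have h2 : k ≤ i + 3 := by
      have : (k : ℝ) ≤ (i + 3 : ℕ) := by push_cast; linarith
      exact_mod_cast this
    rcases hc with hc | hc
    · obtain rfl : k = i + 3 := by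
        have : ((i + 3 : ℕ) : ℝ) ≤ k := by push_cast; linarith
        exact le_antisymm h2 (by exact_mod_cast this)
      push_cast at a1
      rcases le_total y (P.Y (i + 2 + 1)) with hy | hy
      · exact pap_rod h (k := i + 2) (i := i + 1) (by omega) (by omega) (by omega)
          (by push_cast; linarith) (by push_cast; linarith) (Or.inl b2) hy
      · exact pap_rod h (k := i + 3) (i := i + 2) hk (by omega) (by omega) (by push_cast; linarith)
          (by push_cast; linarith) (Or.inl ((Y_le h (by omega)).trans hy)) a2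
    · obtain rfl : i = k := by
        by_contra h3
        linarith [Y_lt h (show i + 1 < k + 1 by omega)]
      rcases le_total x (P.S + i + 2) with hx | hx
      · exact pap_rod h (k := i) (i := i) hk le_rfl (by omega) a1 hx
          (Or.inl ((Y_le h (by omega)).trans b2)) a2
      · exact pap_rod h (k := i + 1) (i := i + 1) hi le_rfl (by omega) (by push_cast; linarith)
          (by push_cast; linarith) (Or.inl b2) (a2.trans (Y_le h (by omega)))

theorem valid (h : P.Pos) : Valid P.map where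
  box R hR := by
    simp only [map, boxes, List.mem_flatMap, List.mem_map, List.mem_filter, Bool.and_eq_true,
      decide_eq_true_eq] at hR
    obtain ⟨u, -, d, ⟨-, h1, h2⟩, rfl⟩ := hR
    exact ⟨by simpa using h1, by simpa using h2⟩
  conn := by rw [interior_paper]; exact Om_conn h
  horiz y := ⟨fun x1 h1 x2 h2 x hx => by
    obtain ⟨u, hu, a1, a2⟩ := ((paper_iff h).1 h1).1
    obtain ⟨d, hd, b1, b2⟩ := ((paper_iff h).1 h2).2
    exact (paper_iff h).2 ⟨⟨u, hu, a1.trans hx.1, a2⟩, d, hd, hx.2.trans b1, b2⟩⟩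
  vert x := ⟨fun y1 h1 y2 h2 y hy => by
    obtain ⟨u, hu, a1, a2⟩ := ((paper_iff h).1 h2).1
    obtain ⟨d, hd, b1, b2⟩ := ((paper_iff h).1 h1).2
    exact (paper_iff h).2 ⟨⟨u, hu, a1, hy.2.trans a2⟩, d, hd, b1, b2.trans hy.1⟩⟩
  crease := by
    have hS := P.S_ge
    have hT : (0 : ℝ) ≤ P.T := Nat.cast_nonneg _
    have c1 : ∀ (v : Bool) (c a b : ℤ) (val : Bool), (a : ℝ) < b →
        (cr v c a b val).2.2.1 < (cr v c a b val).2.2.2.1 := fun v c a b val hab => by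
      simpa [cr] using hab
    rw [interior_paper, forall_creases]
    simp only [subset_def, mem_oseg_v, mem_oseg_h, Prod.forall]
    refine ⟨⟨c1 _ _ _ _ _ ?_, ?_⟩, ⟨c1 _ _ _ _ _ ?_, ?_⟩, ⟨c1 _ _ _ _ _ ?_, ?_⟩, ⟨c1 _ _ _ _ _ ?_, ?_⟩,
      ⟨c1 _ _ _ _ _ ?_, ?_⟩, ⟨c1 _ _ _ _ _ ?_, ?_⟩, ⟨c1 _ _ _ _ _ ?_, ?_⟩, ⟨c1 _ _ _ _ _ ?_, ?_⟩,
      ⟨c1 _ _ _ _ _ ?_, ?_⟩, ⟨c1 _ _ _ _ _ ?_, ?_⟩, fun k hk => ⟨c1 _ _ _ _ _ ?_, ?_⟩⟩ <;> push_cast
    all_goals first
      | linarith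
      | exact fun x y ⟨h1, h2, h3⟩ => mem_mid (by linarith) (by linarith) (by linarith) (by linarith)
      | exact fun x y ⟨h1, h2, h3⟩ => (Om_neg h3.le).2 ⟨Or.inr (by linarith),
          Or.inl ⟨by linarith, h2⟩⟩
      | exact fun x y ⟨h1, h2, h3⟩ => h1 ▸ mem_joint h hk h2 h3
  disj := by
    have hS := P.S_ge
    have hB := P.B_ge
    simp only [map, creases]
    rw [List.pairwise_append]
    refine ⟨?_, ?_, ?_⟩
    · simp only [List.pairwise_cons, List.forall_mem_cons, List.Pairwise.nil, disjoint_left,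
        mem_oseg_v, mem_oseg_h, mem_seg_v, mem_seg_h, Prod.forall, List.not_mem_nil, false_imp_iff,
        implies_true, and_true]
      push_cast
      repeat' apply And.intro
      all_goals
        rintro a b ⟨h1, h2, h3⟩ ⟨h4, h5, h6⟩
        linarith
    · rw [List.pairwise_map]
      refine List.pairwise_lt_range.imp fun {i k} hik => ?_
      have := Y_lt h (show i + 1 < k + 1 by omega)
      simp only [disjoint_left, mem_oseg_h, mem_seg_h, Prod.forall]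
      push_cast
      constructor <;> rintro a b ⟨h1, -⟩ ⟨h4, -⟩ <;> linarith
    · simp only [List.forall_mem_cons, List.forall_mem_map, disjoint_left,
        mem_oseg_v, mem_oseg_h, mem_seg_v, mem_seg_h, Prod.forall, List.not_mem_nil, false_imp_iff,
        implies_true, and_true]
      push_cast
      repeat' apply And.intro
      all_goals
        intro k _
        have := Y_ge h k
        constructor <;> rintro a b ⟨h1, h2, h3⟩ ⟨h4, h5, h6⟩ <;> linarith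

end Par

end Pool.Agent.Lib.MP_3a3d34_lc
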